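import Mathlib

set_option autoImplicit false

/-! Steklov eigenvalue of polygons, part A: definitions used in the real inequalities. -/

open Finset

namespace Pool.Agent.H45.SN

/-- `t = tan (π / n)` -/
noncomputable def tn (n : ℕ) : ℝ := Real.tan (Real.pi / n)

/-- `y0 = 1 + t ^ 2 / 3` -/
noncomputable def yo (t : ℝ) : ℝ := 1 + t ^ 2 / 3

/-- length of a side divided by its distance from the origin -/
noncomputable def TT (q y : ℝ) : ℝ := 2 * q / (1 - y)

/-- the moment of a side is `TT δ³ (1 + KK / 3)` -/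
noncomputable def KK (q y : ℝ) : ℝ := (q ^ 2 + 3 * y * (1 + q ^ 2 - y)) / (1 - y) ^ 2

/-- the Lagrangian at `y = 0` -/
noncomputable def pp (t q : ℝ) : ℝ :=
  t * yo t + (1 - t ^ 4) * (Real.arctan q - Real.arctan t) - 9 * yo t ^ 3 * q / (3 + q ^ 2) ^ 2

/-- the Lagrangian of a side -/
noncomputable def PP (t q y : ℝ) : ℝ :=
  t * yo t + (1 - t ^ 4) * (Real.arctan q - Real.arctan t) -
    9 * yo t ^ 3 * q * (1 - y) ^ 3 / (3 + q ^ 2 - 3 * (1 - q ^ 2) * y) ^ 2

/-- normalised Lagrangian -/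
noncomputable def gam (t q y : ℝ) : ℝ := 1.7 * PP t q y / (yo t ^ 3 * t ^ 3)

/-- energy defect of a side -/
noncomputable def ee (t β q y : ℝ) : ℝ :=
  β * ((1 - q / t) ^ 2 / (q / t) + (1 + t ^ 2) * (q / t) * y / (1 - y))

/-- defect caused by the directions of the normals -/
noncomputable def ss (n : ℕ) (t q u : ℝ) : ℝ :=
  2.6 * (1 + t ^ 2) / (n * t ^ 2) * ((Real.arctan q - Real.arctan t) ^ 2 + u ^ 2)

/-- defect caused by the perimeter -/
noncomputable def vv (n : ℕ) (t q y : ℝ) : ℝ :=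
  1.7334 / n * (2 * (q / t) / (1 - y)) * ((t ^ 2 - KK q y) / (3 + KK q y)) ^ 2

/-- thin sides: `gam ≥ (1-ρ)² gg ρ + bb ρ η` -/
noncomputable def gg (r : ℝ) : ℝ := 1.0214 + 0.3809 * r - 0.2596 * r ^ 2 - 0.1298 * r ^ 3

/-- coefficient of `η = y / t²` -/
noncomputable def bb (r : ℝ) : ℝ := 1.7 * r / (1 + 0.176 * r ^ 2) ^ 2

end Pool.Agent.H45.SN
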