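import Pool.Agent.H32.SG.Defs
import Pool.Agent.H45.SN.ND

set_option autoImplicit false

/-! The first nonzero Steklov eigenvalue of simple polygons: definitions of the final statement.
Points of the plane are complex numbers. `grad u z` (the gradient as a complex number) and `segInt f P Q`
(integral over the segment by arc length) are those of `Pool.Agent.H32.Stek.Defs`. -/

open Complex MeasureTheory Finset

namespace Pool.Agent.H45.SN

open Pool.Agent.H32.Stek (grad segInt tri)

/-- The side of the closed polygon `p` from the vertex `p j` to the next vertex `p (j + 1)`. -/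
def side {n : ℕ} (p : ZMod n → ℂ) (j : ZMod n) : Set ℂ := segment ℝ (p j) (p (j + 1))

/-- The closed polygon `p` with `n` vertices is simple: consecutive vertices are different, and two
different sides meet at most in a common end point of consecutive sides. -/
def Simple {n : ℕ} (p : ZMod n → ℂ) : Prop :=
  (∀ j, p j ≠ p (j + 1)) ∧
  ∀ i j, i ≠ j → ∀ x ∈ side p i, x ∈ side p j → (j = i + 1 ∧ x = p j) ∨ (i = j + 1 ∧ x = p i)

/-- `Ω` is the region enclosed by `p`: open, connected, bounded, its boundary is the polygon. -/
def Region {n : ℕ} (p : ZMod n → ℂ) (Ω : Set ℂ) : Prop :=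
  IsOpen Ω ∧ IsConnected Ω ∧ Bornology.IsBounded Ω ∧ frontier Ω = ⋃ j, side p j

/-- Integral of `f` over the closed polygon `p` with respect to arc length. -/
noncomputable def bdP {n : ℕ} [NeZero n] (p : ZMod n → ℂ) (f : ℂ → ℝ) : ℝ :=
  ∑ j, segInt f (p j) (p (j + 1))

/-- The first nonzero Steklov eigenvalue of the region `Ω` enclosed by `p`: the infimum of the Rayleigh
quotient over all `C^1` functions on the plane with boundary integral zero. -/
noncomputable def sigP {n : ℕ} [NeZero n] (p : ZMod n → ℂ) (Ω : Set ℂ) : ℝ :=
  sInf {s | ∃ u : ℂ → ℝ, ContDiff ℝ 1 u ∧ bdP p u = 0 ∧ 0 < bdP p (fun z => u z ^ 2) ∧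
    s = (∫ z in Ω, ‖grad u z‖ ^ 2) / bdP p (fun z => u z ^ 2)}

/-- The vertices of the regular `n`-gon inscribed in the unit circle. -/
noncomputable def reg (n : ℕ) (j : ZMod n) : ℂ := Complex.exp (2 * Real.pi * I * (j.val : ℝ) / n)

/-- The open regular `n`-gon. -/
noncomputable def regR (n : ℕ) : Set ℂ := interior (convexHull ℝ (Set.range (reg n)))

/-! ### The regular polygon with inradius one, indexed by natural numbers -/

/-- vertices of the regular `n`-gon with inradius `1`; side `0` is `{1 + i s : |s| ≤ tn n}` -/
noncomputable def rv (n : ℕ) (j : ℕ) : ℂ := (1 - tn n * I) * Pool.Agent.H32.SG.om n ^ j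

/-- the open regular `n`-gon with inradius `1` -/
noncomputable def RR (n : ℕ) : Set ℂ := interior (convexHull ℝ (Set.range (rv n)))

end Pool.Agent.H45.SN
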