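import Pool.Agent.H45.SN.NT2

set_option autoImplicit false

/-! Steklov, part A: constants of the regular polygon. `t = tn n`, `τ = t²`.

PROOFS. `K_num` (margin of 1.9 per cent at `n = 5`, 2 per cent at `n = 6`, 2.8 at `n = 7`, 3.5 and more at
`n ≥ 8`), `A* = yo³/1.7`, `k0 = (3/2)(1-1/√3) ∈ (0.63397, 0.63398)`:
`n = 5`: `τ = 0.527864`, `yo = 1.175955`, `A* = 0.956583`, `e2 = 0.366630`, `Qh = 0.721330`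
(`1/3 + 19τ/45 + 16τ²/27`), left side `A*(yo + A*τ/10 - e2 - k0 Qh/5) = 0.734999`.
`n = 6`: `τ = 1/3`, `yo = 10/9`, `A* = 0.806906`, `e2 = √(4/9)/√6 = 0.272166`, `Qh = 1/3+26τ/45+25τ²/27 = 0.628807`, left side `0.641425`.
`n = 7`: `0.2318 ≤ τ ≤ 0.232`, `Qh = 0.585423`, left side `0.601805`. `n ≥ 8`: with `N² = n²τ ≤ 10.981`, `τ ≤ 10.981/64`:
`Qh = 1/3 + N²/45 + (14-4n)τ/45 + (n-1)²τ²/27`, `(n-1)² τ² ≤ N² τ`; `e2 = t√(1+τ)/√6`, `k0 Qh/n ≤ ...`;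
the quantity `A*(yo + A*τ/(2n) - e2 - k0Qh/n) - Qh` is `0.0196` at `n = 8`, `0.0221` at `9`, `0.0266` at `12`,
`0.0355` at infinity; bound `Qh ≤ 1/3 + N²/45 + τ(14-4n)/45 + N²τ/27` and so on.
`K_two'` (`n = 5` is tight: `1.318587 ≤ 1.319199`; use `√5` with 7 digits, `e2(5)² = τ(1+τ)/6`,
`√(1+τ) = √5 - 1`; `n ≥ 6`: `1.63 e2 ≤ 0.444`, `yo (0.63 - k0A*/n) ≥ 0.54`).
`K_gap`: `yo⁻¹ < 2 (1 - sin φ) φ/sin φ`, `φ = π/n`: `n = 5`: `0.85038 < 0.88128`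
(`sin²(π/5) = (5-√5)/8`); `n = 6`: `1.047`; `n ≥ 7`: `φ/sin φ ≥ 1`, `sin φ ≤ π/7 ≤ 0.4488`, `2·0.55 ≥ 1`.
`K_leg`: `yo⁻¹ < √2 cos φ/t`: `cos φ/t = cos²φ/sin φ ≥ cos²(π/5)/sin(π/5) = 1.113`. -/

open Finset

namespace Pool.Agent.H45.SN

/-- normalised dual constant -/
noncomputable def Qh (n : ℕ) (t : ℝ) : ℝ :=
  1 / 3 + t ^ 2 * (14 - 4 * n + (n : ℝ) ^ 2) / 45 + ((n : ℝ) - 1) ^ 2 * t ^ 4 / 27

noncomputable def e2 (t : ℝ) : ℝ := t * √(1 + t ^ 2) / √6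

noncomputable def k0 : ℝ := 3 / 2 * (1 - 1 / √3)

end Pool.Agent.H45.SN
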