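import Pool.Agent.H45.SN.ND

set_option autoImplicit false

/-! Steklov: finite Fourier transform and the discrete Wirtinger inequality.

PROOFS. `parseval`: `∑_m |∑_k ω^{-mk} a_k|² = ∑_{k,l} a_k conj a_l ∑_m ω^{m(l-k)} = n ∑ |a_k|²`, `ω = e^{2πi/n}`
(geometric sum; `ω^j = 1` only for `n ∣ j`: `Complex.isPrimitiveRoot_exp`). (Mathlib: `ZMod.dft` may help.)
`inversion`: `∑_m ω^{mj} ∑_k ω^{-mk} a_k = n a_j`.
`wirtinger`: `c_m = ∑_k ω^{-mk} ψ_k`, `c_0 = 0`, the transform of `ψ_{k+1} - ψ_k` is `(ω^m - 1) c_m`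
(uses `ψ n = ψ 0`), `|ω^m - 1|² = 4 sin²(π m/n) ≥ 4 sin²(π/n)` for `1 ≤ m ≤ n-1`.
`psi_max`: `0 = ∑ ψ_k = n ψ_0 + ∑_{i<n} (n-1-i) Δ_i` and `∑ Δ_i = 0`, so `n ψ_0 = -∑ ((n-1)/2 - i) Δ_i`;
Cauchy-Schwarz with `∑_{i<n} ((n-1)/2 - i)² = n(n²-1)/12`; for general `j` use the shifted sequence
`k ↦ ψ ((j+k) % n)`. -/

open Finset Complex

namespace Pool.Agent.H45.SN

private theorem FP_exp_mul (x y : ℝ) :
    Complex.exp ((x : ℝ) * I) * Complex.exp ((y : ℝ) * I) = Complex.exp (((x + y : ℝ)) * I) := by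
  rw [← Complex.exp_add]
  congr 1
  push_cast
  ring

private theorem FP_conj (x : ℝ) :
    (starRingEnd ℂ) (Complex.exp ((x : ℝ) * I)) = Complex.exp (((-x : ℝ)) * I) := by
  rw [← Complex.exp_conj]
  congr 1
  simp

private theorem FP_orth {n : ℕ} (hn : 0 < n) {k l : ℕ} (hk : k < n) (hl : l < n) :
    ∑ m ∈ range n, Complex.exp (-(2 * Real.pi * m * k / n : ℝ) * I) *
      (starRingEnd ℂ) (Complex.exp (-(2 * Real.pi * m * l / n : ℝ) * I)) =
      if k = l then (n : ℂ) else 0 := by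
  have hn0 : (n : ℝ) ≠ 0 := by exact_mod_cast hn.ne'
  set z : ℂ := Complex.exp (((2 * Real.pi * ((l : ℝ) - k) / n : ℝ)) * I) with hz
  have hterm : ∀ m ∈ range n, Complex.exp (-(2 * Real.pi * m * k / n : ℝ) * I) *
      (starRingEnd ℂ) (Complex.exp (-(2 * Real.pi * m * l / n : ℝ) * I)) = z ^ m := by
    intro m _
    have e1 : (-(2 * Real.pi * m * k / n : ℝ) : ℂ) = ((-(2 * Real.pi * m * k / n) : ℝ) : ℂ) := by
      push_cast
      ring
    have e2 : (-(2 * Real.pi * m * l / n : ℝ) : ℂ) = ((-(2 * Real.pi * m * l / n) : ℝ) : ℂ) := by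
      push_cast
      ring
    rw [e1, e2, FP_conj, FP_exp_mul, hz, ← Complex.exp_nat_mul]
    congr 1
    push_cast
    ring
  rw [Finset.sum_congr rfl hterm]
  by_cases hkl : k = l
  · rw [if_pos hkl]
    have : z = 1 := by
      rw [hz, hkl]
      simp
    rw [this]
    simp
  · rw [if_neg hkl]
    have hz1 : z ≠ 1 := by
      intro h
      rw [hz, Complex.exp_eq_one_iff] at h
      obtain ⟨j, hj⟩ := h
      have h1 : ((2 * Real.pi * ((l : ℝ) - k) / n : ℝ) : ℂ) = ((j : ℝ) * (2 * Real.pi) : ℝ) := by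
        have h2 : ((2 * Real.pi * ((l : ℝ) - k) / n : ℝ) : ℂ) * I =
            (((j : ℝ) * (2 * Real.pi) : ℝ) : ℂ) * I := by
          rw [hj]
          push_cast
          ring
        exact mul_right_cancel₀ Complex.I_ne_zero h2
      have h3 : 2 * Real.pi * ((l : ℝ) - k) / n = (j : ℝ) * (2 * Real.pi) := by
        exact_mod_cast h1
      rw [div_eq_iff hn0] at h3
      have hpi := Real.pi_pos
      have h4 : (l : ℝ) - k = j * n := by
        have h5 : 2 * Real.pi * ((l : ℝ) - k) = 2 * Real.pi * (j * n) := by linarith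
        exact mul_left_cancel₀ (by positivity) h5
      have h6 : (l : ℤ) - k = j * n := by exact_mod_cast h4
      have h7 : j = 0 := by
        by_contra hj0
        rcases lt_or_gt_of_ne hj0 with h8 | h8
        · have h9 : j * (n : ℤ) ≤ -1 * n := mul_le_mul_of_nonneg_right (by omega) (by omega)
          omega
        · have h9 : 1 * (n : ℤ) ≤ j * n := mul_le_mul_of_nonneg_right (by omega) (by omega)
          omega
      rw [h7, zero_mul] at h6
      omega
    have hzn : z ^ n = 1 := by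
      rw [hz, ← Complex.exp_nat_mul, Complex.exp_eq_one_iff]
      refine ⟨(l : ℤ) - k, ?_⟩
      have hnc : (n : ℂ) ≠ 0 := by exact_mod_cast hn.ne'
      push_cast
      field_simp
    rw [geom_sum_eq hz1, hzn, sub_self, zero_div]

theorem parseval {n : ℕ} (hn : 0 < n) (a : ℕ → ℂ) :
    ∑ m ∈ range n, ‖∑ k ∈ range n, Complex.exp (-(2 * Real.pi * m * k / n : ℝ) * I) * a k‖ ^ 2 =
      n * ∑ k ∈ range n, ‖a k‖ ^ 2 := by
  have key : ((∑ m ∈ range n, ‖∑ k ∈ range n,
      Complex.exp (-(2 * Real.pi * m * k / n : ℝ) * I) * a k‖ ^ 2 : ℝ) : ℂ) =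
      ((n * ∑ k ∈ range n, ‖a k‖ ^ 2 : ℝ) : ℂ) := by
    rw [Complex.ofReal_sum]
    have h1 : ∀ m ∈ range n, ((‖∑ k ∈ range n,
        Complex.exp (-(2 * Real.pi * m * k / n : ℝ) * I) * a k‖ ^ 2 : ℝ) : ℂ) =
        ∑ k ∈ range n, ∑ l ∈ range n, a k * (starRingEnd ℂ) (a l) *
          (Complex.exp (-(2 * Real.pi * m * k / n : ℝ) * I) *
            (starRingEnd ℂ) (Complex.exp (-(2 * Real.pi * m * l / n : ℝ) * I))) := by
      intro m _
      push_cast
      rw [← Complex.mul_conj', map_sum, Finset.sum_mul_sum]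
      refine Finset.sum_congr rfl fun k _ => Finset.sum_congr rfl fun l _ => ?_
      rw [map_mul]
      ring
    rw [Finset.sum_congr rfl h1, Finset.sum_comm]
    have h2 : ∀ k ∈ range n, ∑ m ∈ range n, ∑ l ∈ range n, a k * (starRingEnd ℂ) (a l) *
          (Complex.exp (-(2 * Real.pi * m * k / n : ℝ) * I) *
            (starRingEnd ℂ) (Complex.exp (-(2 * Real.pi * m * l / n : ℝ) * I))) =
          (n : ℂ) * ((‖a k‖ ^ 2 : ℝ) : ℂ) := by
      intro k hk
      rw [Finset.sum_comm]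
      have h3 : ∀ l ∈ range n, ∑ m ∈ range n, a k * (starRingEnd ℂ) (a l) *
          (Complex.exp (-(2 * Real.pi * m * k / n : ℝ) * I) *
            (starRingEnd ℂ) (Complex.exp (-(2 * Real.pi * m * l / n : ℝ) * I))) =
          if k = l then a k * (starRingEnd ℂ) (a l) * (n : ℂ) else 0 := by
        intro l hl
        rw [← Finset.mul_sum, FP_orth hn (Finset.mem_range.1 hk) (Finset.mem_range.1 hl)]
        split_ifs <;> simp
      rw [Finset.sum_congr rfl h3, Finset.sum_ite_eq, if_pos hk]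
      push_cast
      rw [← Complex.mul_conj']
      ring
    rw [Finset.sum_congr rfl h2, ← Finset.mul_sum]
    push_cast
    ring
  exact_mod_cast key

private theorem FP_sin {n m : ℕ} (hn : 2 ≤ n) (h1 : 1 ≤ m) (h2 : m < n) :
    Real.sin (Real.pi / n) ≤ Real.sin (Real.pi * m / n) := by
  have hpi := Real.pi_pos
  have hn0 : (0 : ℝ) < n := by exact_mod_cast (by omega : 0 < n)
  have hn2 : (2 : ℝ) ≤ n := by exact_mod_cast hn
  have key : ∀ j : ℕ, 1 ≤ j → Real.pi * j / n ≤ Real.pi / 2 →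
      Real.sin (Real.pi / n) ≤ Real.sin (Real.pi * j / n) := by
    intro j hj hj2
    have hj1 : (1 : ℝ) ≤ j := by exact_mod_cast hj
    refine Real.sin_le_sin_of_le_of_le_pi_div_two ?_ hj2 ?_
    · have : 0 < Real.pi / n := by positivity
      linarith
    · rw [div_le_div_iff_of_pos_right hn0]
      nlinarith
  rcases le_total (Real.pi * m / n) (Real.pi / 2) with h | h
  · exact key m h1 h
  · have e : Real.sin (Real.pi * m / n) = Real.sin (Real.pi * ((n - m : ℕ) : ℝ) / n) := by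
      rw [← Real.sin_pi_sub]
      congr 1
      rw [Nat.cast_sub h2.le]
      field_simp
    rw [e]
    refine key (n - m) (by omega) ?_
    rw [Nat.cast_sub h2.le]
    have : Real.pi * ((n : ℝ) - m) / n = Real.pi - Real.pi * m / n := by
      field_simp
    rw [this]
    linarith

private theorem FP_norm (θ : ℝ) :
    ‖Complex.exp ((θ : ℝ) * I) - 1‖ ^ 2 = 4 * Real.sin (θ / 2) ^ 2 := by
  rw [← Complex.normSq_eq_norm_sq, Complex.normSq_apply]
  simp only [Complex.sub_re, Complex.sub_im, Complex.one_re, Complex.one_im,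
    Complex.exp_ofReal_mul_I_re, Complex.exp_ofReal_mul_I_im, sub_zero]
  have h1 := Real.sin_sq_add_cos_sq θ
  have h2 : Real.cos θ = 1 - 2 * Real.sin (θ / 2) ^ 2 := by
    have h3 := Real.cos_two_mul (θ / 2)
    have h4 := Real.sin_sq_add_cos_sq (θ / 2)
    rw [show 2 * (θ / 2) = θ by ring] at h3
    linarith
  nlinarith

theorem wirtinger {n : ℕ} (hn : 2 ≤ n) (ψ : ℕ → ℝ) (hp : ψ n = ψ 0)
    (h0 : ∑ j ∈ range n, ψ j = 0) :
    4 * Real.sin (Real.pi / n) ^ 2 * ∑ j ∈ range n, ψ j ^ 2 ≤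
      ∑ j ∈ range n, (ψ (j + 1) - ψ j) ^ 2 := by
  have hnp : 0 < n := by omega
  have hn0 : (0 : ℝ) < n := by exact_mod_cast hnp
  have hnc : (n : ℂ) ≠ 0 := by exact_mod_cast hnp.ne'
  have p1 := parseval hnp (fun k => (ψ k : ℂ))
  have p2 := parseval hnp (fun k => ((ψ (k + 1) - ψ k : ℝ) : ℂ))
  have e1 : ∑ k ∈ range n, ‖((ψ k : ℝ) : ℂ)‖ ^ 2 = ∑ j ∈ range n, ψ j ^ 2 := by
    refine Finset.sum_congr rfl fun k _ => ?_
    rw [Complex.norm_real, Real.norm_eq_abs, sq_abs]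
  have e2 : ∑ k ∈ range n, ‖((ψ (k + 1) - ψ k : ℝ) : ℂ)‖ ^ 2 =
      ∑ j ∈ range n, (ψ (j + 1) - ψ j) ^ 2 := by
    refine Finset.sum_congr rfl fun k _ => ?_
    rw [Complex.norm_real, Real.norm_eq_abs, sq_abs]
  rw [e1] at p1
  rw [e2] at p2
  -- the transform of the differences
  have key : ∀ m : ℕ, ∑ k ∈ range n, Complex.exp (-(2 * Real.pi * m * k / n : ℝ) * I) *
      ((ψ (k + 1) - ψ k : ℝ) : ℂ) =
      (Complex.exp (((2 * Real.pi * m / n : ℝ)) * I) - 1) *
        ∑ k ∈ range n, Complex.exp (-(2 * Real.pi * m * k / n : ℝ) * I) * (ψ k : ℂ) := by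
    intro m
    set E : ℕ → ℂ := fun k => Complex.exp (-(2 * Real.pi * m * k / n : ℝ) * I) with hE
    have hEs : ∀ k, E k = Complex.exp (((2 * Real.pi * m / n : ℝ)) * I) * E (k + 1) := by
      intro k
      simp only [hE]
      rw [← Complex.exp_add]
      congr 1
      push_cast
      field_simp
      ring
    have hE0 : E 0 = 1 := by simp [hE]
    have hEn : E n = 1 := by
      simp only [hE]
      rw [Complex.exp_eq_one_iff]
      refine ⟨-(m : ℤ), ?_⟩
      push_cast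
      field_simp
    have s1 : ∑ k ∈ range n, E (k + 1) * (ψ (k + 1) : ℂ) = ∑ k ∈ range n, E k * (ψ k : ℂ) := by
      have a1 := Finset.sum_range_succ (fun k => E k * (ψ k : ℂ)) n
      have a2 := Finset.sum_range_succ' (fun k => E k * (ψ k : ℂ)) n
      rw [a1] at a2
      simp only [hE0, hEn, hp] at a2
      exact (add_right_cancel a2).symm
    have s2 : ∀ k ∈ range n, E k * ((ψ (k + 1) - ψ k : ℝ) : ℂ) =
        Complex.exp (((2 * Real.pi * m / n : ℝ)) * I) * (E (k + 1) * (ψ (k + 1) : ℂ)) -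
          E k * (ψ k : ℂ) := by
      intro k _
      push_cast
      rw [mul_sub]
      congr 1
      conv_lhs => rw [hEs k]
      push_cast
      ring
    rw [Finset.sum_congr rfl s2, Finset.sum_sub_distrib, ← Finset.mul_sum, s1]
    ring
  have hle : ∀ m ∈ range n, 4 * Real.sin (Real.pi / n) ^ 2 *
      ‖∑ k ∈ range n, Complex.exp (-(2 * Real.pi * m * k / n : ℝ) * I) * (ψ k : ℂ)‖ ^ 2 ≤
      ‖∑ k ∈ range n, Complex.exp (-(2 * Real.pi * m * k / n : ℝ) * I) *
        ((ψ (k + 1) - ψ k : ℝ) : ℂ)‖ ^ 2 := by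
    intro m hm
    rw [key m, norm_mul, mul_pow, FP_norm]
    rcases Nat.eq_zero_or_pos m with hm0 | hm0
    · have hz : ∑ k ∈ range n, Complex.exp (-(2 * Real.pi * m * k / n : ℝ) * I) * (ψ k : ℂ) = 0 := by
        have : ∀ k ∈ range n, Complex.exp (-(2 * Real.pi * m * k / n : ℝ) * I) * (ψ k : ℂ) =
            (ψ k : ℂ) := by
          intro k _
          rw [hm0]
          simp
        rw [Finset.sum_congr rfl this]
        exact_mod_cast h0
      rw [hz]
      simp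
    · refine mul_le_mul_of_nonneg_right ?_ (sq_nonneg _)
      have h1 := FP_sin hn hm0 (Finset.mem_range.1 hm)
      have h2 : 0 ≤ Real.sin (Real.pi / n) := by
        refine Real.sin_nonneg_of_nonneg_of_le_pi (by positivity) ?_
        rw [div_le_iff₀ hn0]
        have hpi := Real.pi_pos
        have hn1 : (1 : ℝ) ≤ n := by exact_mod_cast hnp
        nlinarith
      have e3 : 2 * Real.pi * (m : ℝ) / n / 2 = Real.pi * m / n := by ring
      rw [e3]
      have h3 : Real.sin (Real.pi / n) ^ 2 ≤ Real.sin (Real.pi * m / n) ^ 2 :=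
        pow_le_pow_left₀ h2 h1 2
      linarith
  have hsum := Finset.sum_le_sum hle
  rw [← Finset.mul_sum, p1, p2] at hsum
  have h4 : n * (4 * Real.sin (Real.pi / n) ^ 2 * ∑ j ∈ range n, ψ j ^ 2) ≤
      n * ∑ j ∈ range n, (ψ (j + 1) - ψ j) ^ 2 := by
    calc (n : ℝ) * (4 * Real.sin (Real.pi / n) ^ 2 * ∑ j ∈ range n, ψ j ^ 2)
        = 4 * Real.sin (Real.pi / n) ^ 2 * (n * ∑ j ∈ range n, ψ j ^ 2) := by ring
      _ ≤ _ := hsum
  exact le_of_mul_le_mul_left h4 hn0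

private theorem FP_s1 (m : ℕ) : ∑ i ∈ range m, (i : ℝ) = m * (m - 1) / 2 := by
  induction m with
  | zero => simp
  | succ m ih =>
    rw [Finset.sum_range_succ, ih]
    push_cast
    ring

private theorem FP_s2 (m : ℕ) : ∑ i ∈ range m, (i : ℝ) ^ 2 = (m - 1) * m * (2 * m - 1) / 6 := by
  induction m with
  | zero => simp
  | succ m ih =>
    rw [Finset.sum_range_succ, ih]
    push_cast
    ring

private theorem FP_sq (a : ℝ) (m : ℕ) : ∑ i ∈ range m, ((i : ℝ) + a) ^ 2 =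
    (m - 1) * m * (2 * m - 1) / 6 + a * (m * (m - 1)) + m * a ^ 2 := by
  have h : ∀ i ∈ range m, ((i : ℝ) + a) ^ 2 = (i : ℝ) ^ 2 + 2 * a * (i : ℝ) + a ^ 2 := by
    intro i _
    ring
  rw [Finset.sum_congr rfl h, Finset.sum_add_distrib, Finset.sum_add_distrib, FP_s2,
    ← Finset.mul_sum, FP_s1, Finset.sum_const, Finset.card_range, nsmul_eq_mul]
  ring

private theorem FP_parts (ψ : ℕ → ℝ) (a : ℝ) (m : ℕ) :
    ∑ i ∈ range m, ((i : ℝ) + a) * (ψ (i + 1) - ψ i) =
      (m + a) * ψ m - a * ψ 0 - ∑ i ∈ range m, ψ (i + 1) := by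
  induction m with
  | zero => simp
  | succ m ih =>
    rw [Finset.sum_range_succ, ih, Finset.sum_range_succ]
    push_cast
    ring

private theorem FP_split {n j : ℕ} (hj : j ≤ n) (f g : ℕ → ℝ) :
    ∑ i ∈ range n, (if i < j then f i else g i) =
      ∑ i ∈ range j, f i + (∑ i ∈ range n, g i - ∑ i ∈ range j, g i) := by
  have e : ∀ F : ℕ → ℝ, ∑ i ∈ range n, F i = ∑ i ∈ range j, F i + ∑ i ∈ Finset.Ico j n, F i :=
    fun F => (Finset.sum_range_add_sum_Ico F hj).symm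
  rw [e (fun i => if i < j then f i else g i), e g]
  have h1 : ∑ i ∈ range j, (if i < j then f i else g i) = ∑ i ∈ range j, f i :=
    Finset.sum_congr rfl fun i hi => if_pos (Finset.mem_range.1 hi)
  have h2 : ∑ i ∈ Finset.Ico j n, (if i < j then f i else g i) = ∑ i ∈ Finset.Ico j n, g i :=
    Finset.sum_congr rfl fun i hi => if_neg (not_lt.2 (Finset.mem_Ico.1 hi).1)
  rw [h1, h2]
  ring

theorem psi_max {n : ℕ} (hn : 2 ≤ n) (ψ : ℕ → ℝ) (hp : ψ n = ψ 0)
    (h0 : ∑ j ∈ range n, ψ j = 0) {j : ℕ} (hj : j < n) :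
    ψ j ^ 2 ≤ ((n : ℝ) ^ 2 - 1) / (12 * n) * ∑ i ∈ range n, (ψ (i + 1) - ψ i) ^ 2 := by
  have hn0 : (0 : ℝ) < n := by exact_mod_cast (by omega : 0 < n)
  set a : ℝ := (n : ℝ) - j - ((n : ℝ) - 1) / 2 with ha
  set w : ℕ → ℝ := fun i => if i < j then (i : ℝ) + a else (i : ℝ) + (a - n) with hw
  have hP : ∑ i ∈ range n, ψ (i + 1) = 0 := by
    have a1 := Finset.sum_range_succ ψ n
    have a2 := Finset.sum_range_succ' ψ n
    rw [a1, hp] at a2
    rw [← add_right_cancel a2]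
    exact h0
  have h1 : ∑ i ∈ range n, w i * (ψ (i + 1) - ψ i) = n * ψ j := by
    have e : ∀ i ∈ range n, w i * (ψ (i + 1) - ψ i) =
        if i < j then ((i : ℝ) + a) * (ψ (i + 1) - ψ i) else
          ((i : ℝ) + (a - n)) * (ψ (i + 1) - ψ i) := by
      intro i _
      simp only [hw]
      split_ifs <;> rfl
    rw [Finset.sum_congr rfl e, FP_split hj.le, FP_parts, FP_parts, FP_parts, hP, hp]
    ring
  have h2 : ∑ i ∈ range n, w i ^ 2 = n * ((n : ℝ) ^ 2 - 1) / 12 := by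
    have e : ∀ i ∈ range n, w i ^ 2 =
        if i < j then ((i : ℝ) + a) ^ 2 else ((i : ℝ) + (a - n)) ^ 2 := by
      intro i _
      simp only [hw]
      split_ifs <;> rfl
    rw [Finset.sum_congr rfl e, FP_split hj.le, FP_sq, FP_sq, FP_sq, ha]
    ring
  have h3 := Finset.sum_mul_sq_le_sq_mul_sq (range n) w (fun i => ψ (i + 1) - ψ i)
  rw [h1, h2] at h3
  have h4 : (n : ℝ) ^ 2 * ψ j ^ 2 ≤ (n : ℝ) ^ 2 * (((n : ℝ) ^ 2 - 1) / (12 * n) *
      ∑ i ∈ range n, (ψ (i + 1) - ψ i) ^ 2) := by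
    calc (n : ℝ) ^ 2 * ψ j ^ 2 = (n * ψ j) ^ 2 := by ring
      _ ≤ _ := h3
      _ = _ := by
        field_simp
  exact le_of_mul_le_mul_left h4 (by positivity)

end Pool.Agent.H45.SN
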