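import Pool.Agent.H45.SN.K2

set_option autoImplicit false

/-! Steklov, part A: `K_num` for `n ≥ 8`. Margin 3.5 per cent at `n = 8`, more for larger `n` (see
`K2.lean`): with `N² = n²τ ∈ [9.869, 10.981]`, `x = 1/n ≤ 1/8`, `τ = N² x²`, `t = N x`. Everything is monotone:
drop the term `A*τ/(2n) ≥ 0`; `yo³/1.7 ≥ (1+τ)/1.7`, `e2 ≤ t(1+τ/2)/√6 ≤ 0.4083 t (1+τ/2)`,
`Qh ≤ 1/3 + N²/45 + (14/45)τ - (4/45) N² x + N²τ/27`. -/

open Finset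

namespace Pool.Agent.H45.SN

private theorem k4_poly {x : ℝ} (h0 : 0 ≤ x) (h1 : x ≤ 1 / 8) :
    (1 / 3 + 10.981 * ((1 - 4 * x + 14 * x ^ 2) / 45) + 10.981 ^ 2 * ((1 - x) ^ 2 * x ^ 2 / 27)) *
      (1 + 0.440680 * x) <
    1 / 1.7 * (1 + 4 / 3 * 10.981 * x ^ 2 + 10.981 ^ 2 * x ^ 4 / 3 -
      0.40825 * 3.3138 * x * (1 + 3 / 2 * 10.981 * x ^ 2 + 10.981 ^ 2 * x ^ 4 / 2)) := by
  have hd : 0 ≤ 1 / 8 - x := by linarith
  have e0 : 0 ≤ (1 / 8 - x) ^ 5 := by positivity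
  have e1 : 0 ≤ x * (1 / 8 - x) ^ 4 := by positivity
  have e2 : 0 ≤ x ^ 2 * (1 / 8 - x) ^ 3 := by positivity
  have e3 : 0 ≤ x ^ 3 * (1 / 8 - x) ^ 2 := by positivity
  have e4 : 0 ≤ x ^ 4 * (1 / 8 - x) := by positivity
  have e5 : 0 ≤ x ^ 5 := by positivity
  nlinarith [e0, e1, e2, e3, e4, e5]

private theorem k4_real {x S r : ℝ} (h0 : 0 ≤ x) (h1 : x ≤ 1 / 8) (hS0 : 0 ≤ S) (hS : S ≤ 10.981)
    (hr0 : 0 ≤ r) (hr : r ≤ 3.3138) :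
    (1 / 3 + S * ((1 - 4 * x + 14 * x ^ 2) / 45) + S ^ 2 * ((1 - x) ^ 2 * x ^ 2 / 27)) *
      (1 + 0.440680 * x) <
    1 / 1.7 * (1 + 4 / 3 * S * x ^ 2 + S ^ 2 * x ^ 4 / 3 -
      0.40825 * r * x * (1 + 3 / 2 * S * x ^ 2 + S ^ 2 * x ^ 4 / 2)) := by
  have hp := k4_poly h0 h1
  have hx2 : x ^ 2 ≤ 1 / 64 := by nlinarith
  have hx20 : 0 ≤ x ^ 2 := by positivity
  have hx4 : x ^ 4 ≤ x ^ 2 / 64 := by nlinarith
  have hx40 : 0 ≤ x ^ 4 := by positivity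
  -- replace `r` and `S` in the negative term
  have hm : 0.40825 * r * x * (1 + 3 / 2 * S * x ^ 2 + S ^ 2 * x ^ 4 / 2) ≤
      0.40825 * 3.3138 * x * (1 + 3 / 2 * 10.981 * x ^ 2 + 10.981 ^ 2 * x ^ 4 / 2) := by
    gcongr
  -- monotonicity in `S`
  have ha : 0.0158 ≤ (1 - 4 * x + 14 * x ^ 2) / 45 := by nlinarith [sq_nonneg (x - 1 / 7)]
  have hb : 0 ≤ (1 - x) ^ 2 * x ^ 2 / 27 := by positivity
  have hSS : S ^ 2 ≤ 10.981 ^ 2 := by gcongr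
  have hd : 0 ≤ 10.981 - S := by linarith
  have hk : (10.981 - S) * 0.0158 ≤
      ((1 / 3 + 10.981 * ((1 - 4 * x + 14 * x ^ 2) / 45) + 10.981 ^ 2 * ((1 - x) ^ 2 * x ^ 2 / 27)) -
      (1 / 3 + S * ((1 - 4 * x + 14 * x ^ 2) / 45) + S ^ 2 * ((1 - x) ^ 2 * x ^ 2 / 27))) *
      (1 + 0.440680 * x) := by
    have h2 : (10.981 - S) * 0.0158 ≤ (10.981 - S) * ((1 - 4 * x + 14 * x ^ 2) / 45) :=
      mul_le_mul_of_nonneg_left ha hd
    have h3 : 0 ≤ (10.981 ^ 2 - S ^ 2) * ((1 - x) ^ 2 * x ^ 2 / 27) :=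
      mul_nonneg (by linarith) hb
    have h4 : (10.981 - S) * 0.0158 ≤
      ((1 / 3 + 10.981 * ((1 - 4 * x + 14 * x ^ 2) / 45) + 10.981 ^ 2 * ((1 - x) ^ 2 * x ^ 2 / 27)) -
      (1 / 3 + S * ((1 - 4 * x + 14 * x ^ 2) / 45) + S ^ 2 * ((1 - x) ^ 2 * x ^ 2 / 27))) := by
      nlinarith
    have h5 : 0 ≤ (10.981 - S) * 0.0158 := by positivity
    calc _ ≤ _ := h4
      _ ≤ _ := le_mul_of_one_le_right (h5.trans h4) (by nlinarith)
  have hl : 1 / 1.7 * (4 / 3 * 10.981 * x ^ 2 + 10.981 ^ 2 * x ^ 4 / 3) -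
      1 / 1.7 * (4 / 3 * S * x ^ 2 + S ^ 2 * x ^ 4 / 3) ≤ (10.981 - S) * 0.0158 := by
    have h6 : (10.981 ^ 2 - S ^ 2) * x ^ 4 ≤ (10.981 - S) * 21.962 * (x ^ 2 / 64) := by
      have : (10.981 ^ 2 - S ^ 2) = (10.981 - S) * (10.981 + S) := by ring
      rw [this]
      gcongr
      linarith
    have h7 : (10.981 - S) * x ^ 2 ≤ (10.981 - S) * (1 / 64) := mul_le_mul_of_nonneg_left hx2 hd
    nlinarith
  nlinarith

theorem K_num8 {n : ℕ} (hn : 8 ≤ n) : Qh n (tn n) < yo (tn n) ^ 3 / 1.7 * (yo (tn n) +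
    yo (tn n) ^ 3 / 1.7 * tn n ^ 2 / (2 * n) - e2 (tn n) - k0 * Qh n (tn n) / n) := by
  have hx := nt_pos (show 5 ≤ n by omega)
  have hn8 : (8 : ℝ) ≤ n := by exact_mod_cast hn
  have hN := nt_N8 hn
  set t := tn n with ht
  have hn0 : (0 : ℝ) < n := by linarith
  set x : ℝ := 1 / n with hxd
  have hx0 : 0 < x := by positivity
  have hx1 : x ≤ 1 / 8 := by
    rw [hxd]; exact one_div_le_one_div_of_le (by norm_num) hn8
  have hnx : (n : ℝ) * x = 1 := by rw [hxd]; field_simp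
  set r : ℝ := n * t with hr
  have hr0 : 0 < r := by positivity
  have hS : r ^ 2 ≤ 10.981 := by rw [hr, mul_pow]; exact hN
  have hr1 : r ≤ 3.3138 := by nlinarith
  have htx : t = r * x := by rw [hr]; linear_combination (-t) * hnx
  have hτ : t ^ 2 = r ^ 2 * x ^ 2 := by rw [htx]; ring
  have hτ0 : 0 < t ^ 2 := by positivity
  have hx2 : x ^ 2 ≤ 1 / 64 := by nlinarith
  have hτ1 : t ^ 2 ≤ 0.171579 := by
    rw [hτ]
    calc r ^ 2 * x ^ 2 ≤ 10.981 * (1 / 64) := by gcongr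
      _ ≤ _ := by norm_num
  have hmain := k4_real hx0.le hx1 (sq_nonneg r) hS hr0.le hr1
  -- `Qh`
  have hQ : Qh n t = 1 / 3 + r ^ 2 * ((1 - 4 * x + 14 * x ^ 2) / 45) +
      (r ^ 2) ^ 2 * ((1 - x) ^ 2 * x ^ 2 / 27) := by
    unfold Qh
    rw [htx]
    have h2 : (n : ℝ) = 1 / x := by rw [hxd]; field_simp
    rw [h2]
    field_simp
    ring
  have hQ0 : 0 ≤ Qh n t := by
    rw [hQ]
    have : 0 ≤ 1 - 4 * x + 14 * x ^ 2 := by nlinarith [sq_nonneg (x - 1 / 7)]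
    positivity
  -- `e2`
  have hs6 : 2.44948 ≤ √(6 : ℝ) := Real.le_sqrt_of_sq_le (by norm_num)
  have he : e2 t ≤ 0.40825 * t * (1 + t ^ 2 / 2) := by
    unfold e2
    rw [div_le_iff₀ (by positivity)]
    have h2 : √(1 + t ^ 2) ≤ 1 + t ^ 2 / 2 := by
      rw [Real.sqrt_le_left (by positivity)]
      nlinarith [sq_nonneg (t ^ 2)]
    have h3 : t * √(1 + t ^ 2) ≤ t * (1 + t ^ 2 / 2) := mul_le_mul_of_nonneg_left h2 hx.le
    have h4 : 0 ≤ t * (1 + t ^ 2 / 2) := by positivity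
    have h5 : 1 ≤ 0.40825 * √(6 : ℝ) := by nlinarith
    nlinarith
  -- `k0`
  have hk : k0 ≤ 0.63398 := by
    unfold k0
    have h2 : √(3 : ℝ) ≤ 1.7320510 := by
      rw [Real.sqrt_le_left (by norm_num)]; norm_num
    have h3 : 0.57735 ≤ 1 / √(3 : ℝ) := by
      rw [le_div_iff₀ (by positivity)]
      nlinarith
    linarith
  have hk1 : 0 ≤ k0 := by
    unfold k0
    have h2 : 1 ≤ √(3 : ℝ) := Real.one_le_sqrt.2 (by norm_num)
    have h3 : 1 / √(3 : ℝ) ≤ 1 := by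
      rw [div_le_one (by positivity)]; exact h2
    linarith
  -- `A`
  have hA1 : yo t ^ 3 / 1.7 ≤ 0.6951 := by
    have : yo t ≤ 1.057193 := by unfold yo; linarith
    have h0 : 0 ≤ yo t := by unfold yo; positivity
    calc yo t ^ 3 / 1.7 ≤ 1.057193 ^ 3 / 1.7 := by gcongr
      _ ≤ _ := by norm_num
  have hA2 : (1 + t ^ 2) / 1.7 ≤ yo t ^ 3 / 1.7 := by
    have : 1 + t ^ 2 ≤ yo t ^ 3 := by
      unfold yo
      nlinarith [sq_nonneg (t ^ 2), mul_nonneg hτ0.le (sq_nonneg (t ^ 2))]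
    gcongr
  set A := yo t ^ 3 / 1.7 with hAd
  have hA0 : 0 < A := lt_of_lt_of_le (by positivity) hA2
  have hy : yo t = 1 + t ^ 2 / 3 := rfl
  have ht1 : t ≤ 0.41423 := by nlinarith
  have hye : 0 ≤ yo t - 0.40825 * t * (1 + t ^ 2 / 2) := by
    rw [hy]; nlinarith
  have hbig : (1 + t ^ 2) / 1.7 * (yo t - 0.40825 * t * (1 + t ^ 2 / 2)) ≤ A * (yo t - e2 t) := by
    calc _ ≤ A * (yo t - 0.40825 * t * (1 + t ^ 2 / 2)) := mul_le_mul_of_nonneg_right hA2 hye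
      _ ≤ _ := by gcongr
  have hrest : 0 ≤ A * (A * t ^ 2 / (2 * n)) := by positivity
  have hAk : A * (k0 * Qh n t / n) ≤ 0.440680 * x * Qh n t := by
    have h2 : A * (k0 * Qh n t / n) = (A * k0) * (x * Qh n t) := by rw [hxd]; ring
    have h3 : A * k0 ≤ 0.440680 := by
      calc A * k0 ≤ 0.6951 * 0.63398 := by gcongr
        _ ≤ _ := by norm_num
    rw [h2]
    calc _ ≤ 0.440680 * (x * Qh n t) := mul_le_mul_of_nonneg_right h3 (by positivity)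
      _ = _ := by ring
  have hfin : Qh n t * (1 + 0.440680 * x) <
      (1 + t ^ 2) / 1.7 * (yo t - 0.40825 * t * (1 + t ^ 2 / 2)) := by
    have h2 : (1 + t ^ 2) / 1.7 * (yo t - 0.40825 * t * (1 + t ^ 2 / 2)) =
        1 / 1.7 * (1 + 4 / 3 * r ^ 2 * x ^ 2 + (r ^ 2) ^ 2 * x ^ 4 / 3 -
      0.40825 * r * x * (1 + 3 / 2 * r ^ 2 * x ^ 2 + (r ^ 2) ^ 2 * x ^ 4 / 2)) := by
      rw [hy, htx]; ring
    rw [h2, hQ]
    exact hmain
  nlinarith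

end Pool.Agent.H45.SN
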