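import Pool.Agent.H45.SN.K3
import Pool.Agent.H45.SN.K4

set_option autoImplicit false

/-! Steklov, part A: the constants `A`, `n β`, and the two spectral gaps. See `K2.lean`.

PROOF of `K_one`. `A* = yo³/1.7`, `f(A) = A (c + A d)`, `c = yo - e2 - k0 Qh/n`, `d = τ/(2n) ≥ 0`; `K_num5..8`
say `f(A*) > Qh > 0`, so `c + A* d > 0` and for `A > A*`: `f(A) ≥ A (c + A* d) ≥ f(A*) > Qh`. -/

open Finset

namespace Pool.Agent.H45.SN

private lemma K5_sqrt5 : (2.2360679 : ℝ) < √5 ∧ √5 < 2.2360680 := by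
  constructor
  · rw [Real.lt_sqrt (by norm_num)]
    norm_num
  · rw [Real.sqrt_lt' (by norm_num)]
    norm_num

private lemma K5_k0 : 0 < k0 ∧ k0 ≤ 0.63398 := by
  have h3 : (0 : ℝ) < √3 := Real.sqrt_pos.2 (by norm_num)
  have h4 : (1.73205 : ℝ) < √3 := by
    rw [Real.lt_sqrt (by norm_num)]
    norm_num
  have h5 : √3 < 2 := by
    rw [Real.sqrt_lt' (by norm_num)]
    norm_num
  have h6 : 1 / √3 = √3 / 3 := by
    rw [div_eq_div_iff h3.ne' (by norm_num), one_mul, Real.mul_self_sqrt (by norm_num)]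
  unfold k0
  rw [h6]
  constructor <;> linarith

private lemma K5_Qh (n : ℕ) (t : ℝ) : 0 < Qh n t := by
  unfold Qh
  have h1 : (0 : ℝ) ≤ 14 - 4 * n + (n : ℝ) ^ 2 := by nlinarith [sq_nonneg ((n : ℝ) - 2)]
  have h2 : 0 ≤ t ^ 2 * (14 - 4 * n + (n : ℝ) ^ 2) / 45 := by positivity
  have h3 : 0 ≤ ((n : ℝ) - 1) ^ 2 * t ^ 4 / 27 := by positivity
  linarith

private lemma K5_yo (t : ℝ) : 1 ≤ yo t := by
  unfold yo
  have := sq_nonneg t
  linarith

private lemma K5_num {n : ℕ} (hn : 5 ≤ n) : Qh n (tn n) < yo (tn n) ^ 3 / 1.7 * (yo (tn n) +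
    yo (tn n) ^ 3 / 1.7 * tn n ^ 2 / (2 * n) - e2 (tn n) - k0 * Qh n (tn n) / n) := by
  rcases Nat.lt_or_ge n 8 with h | h
  · interval_cases n
    · exact K_num5
    · exact K_num6
    · exact K_num7
  · exact K_num8 h

/-- `t² ≤ 1/3` for `n ≥ 6` -/
private lemma K5_six {n : ℕ} (hn : 6 ≤ n) : tn n ^ 2 ≤ 1 / 3 := by
  have h1 := nt_N6 hn
  have h2 : (6 : ℝ) ≤ n := by exact_mod_cast hn
  have h3 : (36 : ℝ) ≤ (n : ℝ) ^ 2 := by nlinarith
  have h4 := sq_nonneg (tn n)
  nlinarith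

private lemma K5_e2 (t : ℝ) (ht : 0 ≤ t) : 0 ≤ e2 t ∧ e2 t ^ 2 = t ^ 2 * (1 + t ^ 2) / 6 := by
  unfold e2
  constructor
  · positivity
  · rw [div_pow, mul_pow, Real.sq_sqrt (by positivity), Real.sq_sqrt (by norm_num)]

theorem K_one {n : ℕ} (hn : 5 ≤ n) {A : ℝ} (hA0 : 0 ≤ A)
    (h : A * (yo (tn n) + A * tn n ^ 2 / (2 * n) - e2 (tn n) - k0 * Qh n (tn n) / n) ≤
      Qh n (tn n)) : 1.7 * A ≤ yo (tn n) ^ 3 := by
  by_contra hcon
  rw [not_le] at hcon
  have h1 := K5_num hn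
  have hQ := K5_Qh n (tn n)
  have hy := K5_yo (tn n)
  set B : ℝ := yo (tn n) ^ 3 / 1.7 with hB
  have hB0 : 0 < B := by positivity
  have hBA : B < A := by
    rw [hB, div_lt_iff₀ (by norm_num)]
    linarith
  have hn0 : (0 : ℝ) < n := by
    have : (5 : ℝ) ≤ n := by exact_mod_cast hn
    linarith
  set c : ℝ := yo (tn n) - e2 (tn n) - k0 * Qh n (tn n) / n with hc
  set d : ℝ := tn n ^ 2 / (2 * n) with hd
  have hd0 : 0 ≤ d := by positivity
  have e1 : B * (yo (tn n) + B * tn n ^ 2 / (2 * n) - e2 (tn n) - k0 * Qh n (tn n) / n) =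
      B * (c + B * d) := by
    rw [hc, hd]
    ring
  have e2' : A * (yo (tn n) + A * tn n ^ 2 / (2 * n) - e2 (tn n) - k0 * Qh n (tn n) / n) =
      A * (c + A * d) := by
    rw [hc, hd]
    ring
  rw [e1] at h1
  rw [e2'] at h
  have h2 : 0 < c + B * d := by
    by_contra h3
    rw [not_lt] at h3
    have := mul_nonpos_of_nonneg_of_nonpos hB0.le h3
    linarith
  have h3 : A * (c + B * d) ≤ A * (c + A * d) := by
    refine mul_le_mul_of_nonneg_left ?_ hA0
    have := mul_le_mul_of_nonneg_right hBA.le hd0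
    linarith
  have h4 : B * (c + B * d) ≤ A * (c + B * d) := mul_le_mul_of_nonneg_right hBA.le h2.le
  linarith

theorem K_two {n : ℕ} (hn : 5 ≤ n) {A : ℝ} (hA0 : 0 ≤ A) (hA : 1.7 * A ≤ yo (tn n) ^ 3) :
    (1 + k0 * A / n) * yo (tn n) ≤ 1.63 * (yo (tn n) - e2 (tn n)) := by
  have hy := K5_yo (tn n)
  obtain ⟨hk, hk2⟩ := K5_k0
  obtain ⟨he0, he⟩ := K5_e2 (tn n) (nt_pos hn).le
  have hn5 : (5 : ℝ) ≤ n := by exact_mod_cast hn
  have hn0 : (0 : ℝ) < n := by linarith
  have hτ := sq_nonneg (tn n)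
  rcases Nat.lt_or_ge n 6 with h | h
  · have hn' : n = 5 := by omega
    subst hn'
    obtain ⟨s1, s2⟩ := K5_sqrt5
    have hs : √5 ^ 2 = 5 := Real.sq_sqrt (by norm_num)
    have ht := nt_five
    have e3 : e2 (tn 5) ≤ 0.36664 := by
      refine le_of_sq_le_sq ?_ (by norm_num)
      rw [he, ht]
      nlinarith
    have t1 : tn 5 ^ 2 ≤ 0.5278642 := by
      rw [ht]
      linarith
    have t2 : 0.527864 ≤ tn 5 ^ 2 := by
      rw [ht]
      linarith
    have y1 : yo (tn 5) ≤ 1.1759548 := by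
      unfold yo
      linarith
    have y2 : 1.1759546 ≤ yo (tn 5) := by
      unfold yo
      linarith
    have y3 : yo (tn 5) ^ 3 ≤ 1.6262 := by
      have : yo (tn 5) ^ 3 ≤ 1.1759548 ^ 3 := pow_le_pow_left₀ (by linarith) y1 3
      refine this.trans (by norm_num)
    have a1 : A ≤ 0.9566 := by linarith
    have a2 : k0 * A / (5 : ℕ) ≤ 0.1213 := by
      rw [div_le_iff₀ (by norm_num)]
      have : k0 * A ≤ 0.63398 * 0.9566 := mul_le_mul hk2 a1 hA0 (by norm_num)
      refine this.trans (by norm_num)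
    have a3 : (1 + k0 * A / (5 : ℕ)) * yo (tn 5) ≤ 1.1213 * 1.1759548 := by
      refine mul_le_mul (by linarith) y1 (by linarith) (by norm_num)
    refine a3.trans ?_
    have a4 : (1.1213 : ℝ) * 1.1759548 ≤ 1.63 * (1.1759546 - 0.36664) := by norm_num
    linarith
  · have hn6 : (6 : ℝ) ≤ n := by exact_mod_cast h
    have t1 := K5_six h
    have e3 : e2 (tn n) ≤ 0.2722 := by
      refine le_of_sq_le_sq ?_ (by norm_num)
      rw [he]
      nlinarith
    have y1 : yo (tn n) ≤ 10 / 9 := by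
      unfold yo
      linarith
    have y3 : yo (tn n) ^ 3 ≤ 1.372 := by
      have : yo (tn n) ^ 3 ≤ (10 / 9) ^ 3 := pow_le_pow_left₀ (by linarith) y1 3
      refine this.trans (by norm_num)
    have a1 : A ≤ 0.8071 := by linarith
    have a2 : k0 * A / n ≤ 0.09 := by
      rw [div_le_iff₀ hn0]
      have : k0 * A ≤ 0.63398 * 0.8071 := mul_le_mul hk2 a1 hA0 (by norm_num)
      linarith
    have a3 : (1 + k0 * A / n) * yo (tn n) ≤ 1.09 * yo (tn n) :=
      mul_le_mul_of_nonneg_right (by linarith) (by linarith)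
    linarith

theorem K_gap {n : ℕ} (hn : 5 ≤ n) : 1 / yo (tn n) <
    2 * (1 - Real.sin (Real.pi / n)) * (Real.pi / n) / Real.sin (Real.pi / n) := by
  have hy := K5_yo (tn n)
  have hn5 : (5 : ℝ) ≤ n := by exact_mod_cast hn
  have hn0 : (0 : ℝ) < n := by linarith
  have hpi := Real.pi_pos
  have hpi1 := Real.pi_gt_d2
  have hpi2 := Real.pi_lt_d2
  have hφ0 : 0 < Real.pi / n := by positivity
  have hφ5 : Real.pi / n ≤ Real.pi / 5 := div_le_div_of_nonneg_left hpi.le (by norm_num) hn5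
  have hs0 : 0 < Real.sin (Real.pi / n) := Real.sin_pos_of_pos_of_lt_pi hφ0 (by linarith)
  have hsφ : Real.sin (Real.pi / n) ≤ Real.pi / n := Real.sin_le hφ0.le
  have hyi : 1 / yo (tn n) ≤ 1 := by
    rw [div_le_one (by linarith)]
    exact hy
  rw [lt_div_iff₀ hs0]
  rcases Nat.lt_or_ge n 7 with h | h
  · obtain rfl | rfl : n = 5 ∨ n = 6 := by omega
    · have hc : Real.cos (Real.pi / (5 : ℕ)) = (1 + √5) / 4 := by
        have := Real.cos_pi_div_five
        push_cast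
        exact this
      have hsc := Real.sin_sq_add_cos_sq (Real.pi / (5 : ℕ))
      obtain ⟨s1, s2⟩ := K5_sqrt5
      have hs5 : √5 ^ 2 = 5 := Real.sq_sqrt (by norm_num)
      have hs : Real.sin (Real.pi / (5 : ℕ)) ≤ 0.58779 := by
        refine le_of_sq_le_sq ?_ (by norm_num)
        rw [hc] at hsc
        nlinarith
      have y2 : 1.1759 ≤ yo (tn 5) := by
        unfold yo
        linarith [nt_sq_five]
      have y3 : 1 / yo (tn 5) ≤ 0.8505 := by
        rw [div_le_iff₀ (by linarith)]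
        linarith
      have hφ : 0.628 ≤ Real.pi / (5 : ℕ) := by
        push_cast
        linarith
      have h1 : 1 / yo (tn 5) * Real.sin (Real.pi / (5 : ℕ)) ≤ 0.8505 * 0.58779 :=
        mul_le_mul y3 hs hs0.le (by norm_num)
      refine h1.trans_lt ?_
      have h2 : 2 * (1 - 0.58779) * 0.628 ≤
          2 * (1 - Real.sin (Real.pi / (5 : ℕ))) * (Real.pi / (5 : ℕ)) :=
        mul_le_mul (by linarith) hφ (by norm_num) (by linarith)
      refine lt_of_lt_of_le (by norm_num) h2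
    · have hs : Real.sin (Real.pi / (6 : ℕ)) = 1 / 2 := by
        have := Real.sin_pi_div_six
        push_cast
        exact this
      rw [hs]
      push_cast
      linarith
  · have hn7 : (7 : ℝ) ≤ n := by exact_mod_cast h
    have hφ7 : Real.pi / n ≤ 0.45 := by
      have : Real.pi / n ≤ Real.pi / 7 := div_le_div_of_nonneg_left hpi.le (by norm_num) hn7
      linarith
    have h1 : 1 / yo (tn n) * Real.sin (Real.pi / n) ≤ 1 * (Real.pi / n) :=
      mul_le_mul hyi hsφ hs0.le zero_le_one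
    refine h1.trans_lt ?_
    have h2 : 1 < 2 * (1 - Real.sin (Real.pi / n)) := by linarith
    exact mul_lt_mul_of_pos_right h2 hφ0

theorem K_leg {n : ℕ} (hn : 5 ≤ n) :
    1 / yo (tn n) < Real.cos (Real.pi / n) * √2 / tn n := by
  have hy := K5_yo (tn n)
  have hn5 : (5 : ℝ) ≤ n := by exact_mod_cast hn
  have hn0 : (0 : ℝ) < n := by linarith
  have hpi := Real.pi_pos
  have hφ0 : 0 < Real.pi / n := by positivity
  have hφ5 : Real.pi / n ≤ Real.pi / 5 := div_le_div_of_nonneg_left hpi.le (by norm_num) hn5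
  have ht := nt_pos hn
  have hyi : 1 / yo (tn n) ≤ 1 := by
    rw [div_le_one (by linarith)]
    exact hy
  obtain ⟨s1, s2⟩ := K5_sqrt5
  have hc : 0.809 ≤ Real.cos (Real.pi / n) := by
    have h1 : Real.cos (Real.pi / 5) ≤ Real.cos (Real.pi / n) :=
      Real.cos_le_cos_of_nonneg_of_le_pi hφ0.le (by linarith) hφ5
    rw [Real.cos_pi_div_five] at h1
    linarith
  have ht2 : tn n ≤ 0.73 := by
    refine le_of_sq_le_sq ?_ (by norm_num)
    have := nt_sq_le hn
    refine this.trans (by norm_num)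
  have h2 : (1.4 : ℝ) ≤ √2 := by
    rw [Real.le_sqrt' (by norm_num)]
    norm_num
  refine hyi.trans_lt ?_
  rw [lt_div_iff₀ ht, one_mul]
  have h3 : (0.809 : ℝ) * 1.4 ≤ Real.cos (Real.pi / n) * √2 :=
    mul_le_mul hc h2 (by norm_num) (by linarith)
  refine lt_of_lt_of_le ?_ h3
  exact ht2.trans_lt (by norm_num)

end Pool.Agent.H45.SN
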