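import Pool.Agent.H45.SN.ND

set_option autoImplicit false

/-! Steklov, part A: the real data of a star-shaped polygon. -/

open Finset

namespace Pool.Agent.H45.SN

/-- Real data of a star-shaped polygon with area `n t`: `q = tan` of half the central angle, `δ` the
distance of the side, `y = ((r' - r)/ℓ)²`, `u` half the difference of the two parts of the central
angle, `ψ` the directions of the normals relative to those of the regular polygon. -/
structure Dat (n : ℕ) (q δ y u ψ : ℕ → ℝ) : Prop where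
  hn : 5 ≤ n
  q0 : ∀ j, 0 < q j
  d0 : ∀ j, 0 < δ j
  y0 : ∀ j, 0 ≤ y j
  y1 : ∀ j, y j < 1
  hu : ∀ j, |u j| ≤ Real.pi / 2
  hs : ∀ j, Real.sin (u j) ^ 2 = y j / (1 + q j ^ 2)
  pq : q n = q 0
  pu : u n = u 0
  pψ : ψ n = ψ 0
  ang : ∑ j ∈ range n, Real.arctan (q j) = Real.pi
  mean : ∑ j ∈ range n, ψ j = 0
  dψ : ∀ j < n, ψ (j + 1) - ψ j = (Real.arctan (q j) - Real.arctan (tn n)) +
    (Real.arctan (q (j + 1)) - Real.arctan (tn n)) + u j - u (j + 1)
  area : ∑ j ∈ range n, TT (q j) (y j) * δ j ^ 2 = 2 * n * tn n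

/-- the moment -/
noncomputable def JJs (n : ℕ) (q δ y : ℕ → ℝ) : ℝ :=
  ∑ j ∈ range n, TT (q j) (y j) * δ j ^ 3 * (1 + KK (q j) (y j) / 3)

/-- the perimeter -/
noncomputable def LLs (n : ℕ) (q δ y : ℕ → ℝ) : ℝ := ∑ j ∈ range n, TT (q j) (y j) * δ j

/-- the sum `∑ ℓ² cos ψ` -/
noncomputable def SSs (n : ℕ) (q δ y ψ : ℕ → ℝ) : ℝ :=
  ∑ j ∈ range n, (TT (q j) (y j) * δ j) ^ 2 * Real.cos (ψ j)

/-- optimal distance of a side -/
noncomputable def ds (t q y : ℝ) : ℝ := (3 + t ^ 2) / (3 + KK q y)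

end Pool.Agent.H45.SN
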