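import Pool.Agent.H45.SN.NT1

set_option autoImplicit false

/-! Steklov, part A: numerical consequences.

PROOFS. Write `N = n tn n`. By `nt_mono`, `N² ≤ 25 (5 - 2√5) ≤ 13.1967` for `n ≥ 5`, `N² ≤ 12` for
`n ≥ 6`, `N² ≤ 64 (√2-1)² ≤ 10.981` for `n ≥ 8`; and `tn n ≤ tn 5` as `n tn n ≤ 5 tn 5 ≤ n tn 5`.
`nt_seven`: `tn 7 ^ 2 ≤ 0.232`: `π/7 = arctan (tn 7)`; if `tn 7 > √0.232 > 0.48166` then
`π/7 > arctan 0.48166 ≥ y - y³/3 + y⁵/5 - y⁷/7` at `y = 0.48166`, which is `> 0.44880 > π/7`... (true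
value `tn 7 = 0.4815746`; or use the cubic `x³ - 21 x² + 35 x - 7 = 0` of `tan²(π/7)`; or any
other way; the lower bound is similar). Then
(a) `n = 5`: `5 - 2√5 ≤ 0.52787`, `0.3056·5 = 1.528`; `n ≥ 6`: `1 + 1/3 ≤ 1.8336`.
(b) `n = 5`: `24·0.52787/5 = 2.5338`; `n ≥ 6`: `(n²-1) τ ≤ N² ≤ 12 ≤ 2.5341·6 = 15.2`.
(c) `π² ≤ 9.8697`; `(n²-1) π²/n² ≤ 1.8954 n`: `n = 5`: `0.96·9.8697 = 9.4749 ≤ 9.477`; `n ≥ 6`:
`9.8697 ≤ 11.3`.
(d) `n = 5`: `24·0.52787 = 12.669 ≤ 1.14·5·1.52786² = 13.30`; `n = 6`: `35/3 ≤ 1.14·6·16/9 = 12.16`;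
`n = 7`: `48·0.232 = 11.14 ≤ 1.14·7·1.2319² = 12.1` (or crude `τ ≤ 12/49`, `τ ≥ π²/49`); `n ≥ 8`: `10.981 ≤ 1.14·8·...`.
(e) `(1 + 0.5279 ρ)/(1 + τ ρ)` is increasing in `ρ` (as `τ ≤ 0.5279`), so it is at most
`1.5279/(1+τ)`, and `1.5279² ≤ 0.3056 n (1+τ)`: `n = 5` (`τ ≥ 0.52786`): `2.33448 ≤ 2.33457`;
`n = 6`: `1.8336·4/3 = 2.4448`; `n = 7`: `2.1392·(1 + π²/49) = 2.57`; `n ≥ 8`: `2.4448`.
(f) `(1+τ)(1+0.5279 x) ≤ 0.3056 n (1 + τ x)` for `0 ≤ x ≤ 1` is affine in `x`: at `x = 0` it is (a), at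
`x = 1` it is `1.5279 ≤ 0.3056 n`.
(g) `n = 5`: `0.6112 τ ≤ 0.2112 (1+τ)` iff `0.4 τ ≤ 0.2112`; `n = 6`: `0.24448 ≤ 0.2112·4/3`; `n ≥ 7`:
`n τ = N²/n ≤ 12/7`. -/

open Finset

namespace Pool.Agent.H45.SN

private theorem nt_sqrt5 : 2.236067 ≤ √(5 : ℝ) ∧ √(5 : ℝ) ≤ 2.23607 := by
  constructor
  · exact Real.le_sqrt_of_sq_le (by norm_num)
  · exact Real.sqrt_le_iff.2 ⟨by norm_num, by norm_num⟩

/-- the square form of `nt_mono` -/
private theorem nt_sqmono {m n : ℕ} (hm : 5 ≤ m) (h : m ≤ n) :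
    (n : ℝ) ^ 2 * tn n ^ 2 ≤ (m : ℝ) ^ 2 * tn m ^ 2 := by
  have h1 := nt_mono hm h
  have h2 := nt_pos (hm.trans h)
  rw [← mul_pow, ← mul_pow]
  exact pow_le_pow_left₀ (by positivity) h1 2

theorem nt_sq_le {n : ℕ} (hn : 5 ≤ n) : tn n ^ 2 ≤ 0.52787 := by
  have h1 := nt_sqmono le_rfl hn
  have h5 : (5 : ℝ) ≤ n := by exact_mod_cast hn
  rw [nt_five] at h1
  have h2 := nt_sqrt5.1
  have h3 : (25 : ℝ) ≤ (n : ℝ) ^ 2 := by nlinarith
  have h4 := sq_nonneg (tn n)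
  have h6 : 25 * tn n ^ 2 ≤ (n : ℝ) ^ 2 * tn n ^ 2 := mul_le_mul_of_nonneg_right h3 h4
  push_cast at h1
  linarith

theorem nt_sq_five : 0.52786 ≤ tn 5 ^ 2 := by
  rw [nt_five]
  linarith [nt_sqrt5.2]

theorem nt_N5 {n : ℕ} (hn : 5 ≤ n) : (n : ℝ) ^ 2 * tn n ^ 2 ≤ 13.1967 := by
  have h1 := nt_sqmono le_rfl hn
  rw [nt_five] at h1
  have h2 := nt_sqrt5.1
  push_cast at h1
  linarith

theorem nt_N6 {n : ℕ} (hn : 6 ≤ n) : (n : ℝ) ^ 2 * tn n ^ 2 ≤ 12 := by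
  have h1 := nt_sqmono (by norm_num) hn
  rw [nt_six] at h1
  push_cast at h1
  linarith

theorem nt_N8 {n : ℕ} (hn : 8 ≤ n) : (n : ℝ) ^ 2 * tn n ^ 2 ≤ 10.981 := by
  have h1 := nt_sqmono (by norm_num) hn
  rw [nt_eight] at h1
  have h2 : √(2 : ℝ) ^ 2 = 2 := Real.sq_sqrt (by norm_num)
  have h3 : 1.41421 ≤ √(2 : ℝ) := Real.le_sqrt_of_sq_le (by norm_num)
  push_cast at h1
  nlinarith

theorem nt_seven : tn 7 ^ 2 ≤ 0.232 ∧ 0.2318 ≤ tn 7 ^ 2 := by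
  unfold tn
  rw [show (Real.pi / ((7 : ℕ) : ℝ)) = Real.pi / 7 by norm_num]
  have hpi := Real.pi_pos
  set θ : ℝ := Real.pi / 7 with hθ
  have hθ0 : 0 < θ := by positivity
  have hs : 0 < Real.sin θ := Real.sin_pos_of_pos_of_lt_pi hθ0 (by rw [hθ]; linarith)
  have hc : 1 / 2 ≤ Real.cos θ := by
    rw [← Real.cos_pi_div_three]
    exact Real.cos_le_cos_of_nonneg_of_le_pi hθ0.le (by linarith) (by rw [hθ]; linarith)
  have hc6 : 0.866 ≤ Real.cos θ := by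
    have h1 : Real.cos (Real.pi / 6) ≤ Real.cos θ :=
      Real.cos_le_cos_of_nonneg_of_le_pi hθ0.le (by linarith) (by rw [hθ]; linarith)
    rw [Real.cos_pi_div_six] at h1
    have h2 : 1.732 ≤ √(3 : ℝ) := Real.le_sqrt_of_sq_le (by norm_num)
    linarith
  have h34 : Real.sin (3 * θ) = Real.sin (2 * (2 * θ)) := by
    rw [← Real.sin_pi_sub]
    congr 1
    rw [hθ]; ring
  rw [Real.sin_three_mul, Real.sin_two_mul, Real.sin_two_mul, Real.cos_two_mul] at h34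
  have hsq := Real.sin_sq_add_cos_sq θ
  set c := Real.cos θ with hcdef
  set u := Real.sin θ with hu
  have hcub : 8 * c ^ 3 - 4 * c ^ 2 - 4 * c + 1 = 0 := by
    have h1 : u * (8 * c ^ 3 - 4 * c ^ 2 - 4 * c + 1) = 0 := by
      have hu2 : u ^ 2 = 1 - c ^ 2 := by linarith
      have h2 : 3 * u - 4 * u ^ 3 = u * (4 * c ^ 2 - 1) := by
        have : u ^ 3 = u * (1 - c ^ 2) := by rw [← hu2]; ring
        rw [this]; ring
      rw [h2] at h34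
      linarith
    exact (mul_eq_zero.1 h1).resolve_left hs.ne'
  have hc1 : 0.90096 ≤ c := by
    by_contra hcon
    push Not at hcon
    nlinarith [mul_pos (sub_pos.2 hcon) (show (0 : ℝ) < c - 0.6 by linarith), mul_self_nonneg (c - 0.9)]
  have hc2 : c ≤ 0.90098 := by
    by_contra hcon
    push Not at hcon
    nlinarith [mul_pos (sub_pos.2 hcon) (show (0 : ℝ) < c - 0.6 by linarith), mul_self_nonneg (c - 0.9)]
  have hc0 : 0 < c := by linarith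
  have ht : Real.tan θ ^ 2 = 1 / c ^ 2 - 1 := by
    rw [Real.tan_eq_sin_div_cos, div_pow, ← hcdef, ← hu]
    have : u ^ 2 = 1 - c ^ 2 := by linarith
    rw [this]
    field_simp
  rw [ht]
  constructor
  · have : 1 / c ^ 2 ≤ 1.232 := by
      rw [div_le_iff₀ (by positivity)]
      nlinarith
    linarith
  · have : 1.2318 ≤ 1 / c ^ 2 := by
      rw [le_div_iff₀ (by positivity)]
      nlinarith
    linarith

/-- the case distinction `n = 5, 6, 7` or `n ≥ 8` -/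
private theorem nt_cases {n : ℕ} (hn : 5 ≤ n) : n = 5 ∨ n = 6 ∨ n = 7 ∨ 8 ≤ n := by omega

private theorem nt_pi2 : Real.pi ^ 2 ≤ 9.8697 ∧ 9.86 ≤ Real.pi ^ 2 := by
  have h1 := Real.pi_lt_d6
  have h2 := Real.pi_gt_d6
  constructor <;> nlinarith

/-- `τ ≥ π²/n²` -/
private theorem nt_low {n : ℕ} (hn : 5 ≤ n) : 9.86 ≤ (n : ℝ) ^ 2 * tn n ^ 2 := by
  have h1 := nt_lower hn
  have hn5 : (0 : ℝ) < n := by exact_mod_cast (by omega : 0 < n)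
  rw [div_le_iff₀ hn5] at h1
  have hpi := Real.pi_pos
  have h2 : Real.pi ^ 2 ≤ (tn n * n) ^ 2 := pow_le_pow_left₀ hpi.le h1 2
  have h3 := nt_pi2.2
  nlinarith

theorem nt_a {n : ℕ} (hn : 5 ≤ n) : 1 + tn n ^ 2 ≤ 0.3056 * n := by
  have h5 : (5 : ℝ) ≤ n := by exact_mod_cast hn
  have h1 := nt_sq_le hn
  rcases (show n = 5 ∨ 6 ≤ n by omega) with rfl | h
  · norm_num at *; linarith
  · have h6 : (6 : ℝ) ≤ n := by exact_mod_cast h
    linarith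

theorem nt_b {n : ℕ} (hn : 5 ≤ n) : ((n : ℝ) ^ 2 - 1) * tn n ^ 2 ≤ 2.5341 * n := by
  have h1 := nt_sq_le hn
  have h0 := sq_nonneg (tn n)
  rcases (show n = 5 ∨ 6 ≤ n by omega) with rfl | h
  · push_cast
    linarith
  · have h6 : (6 : ℝ) ≤ n := by exact_mod_cast h
    have h2 := nt_N6 h
    nlinarith

theorem nt_c {n : ℕ} (hn : 5 ≤ n) : ((n : ℝ) ^ 2 - 1) * (Real.pi / n) ^ 2 ≤ 1.8954 * n := by
  have h1 := nt_pi2.1
  have hn5 : (0 : ℝ) < n := by exact_mod_cast (by omega : 0 < n)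
  rcases (show n = 5 ∨ 6 ≤ n by omega) with rfl | h
  · push_cast
    rw [div_pow]
    linarith
  · have h6 : (6 : ℝ) ≤ n := by exact_mod_cast h
    have e : ((n : ℝ) ^ 2 - 1) * (Real.pi / n) ^ 2 = Real.pi ^ 2 - (Real.pi / n) ^ 2 := by
      rw [div_pow]
      field_simp
    rw [e]
    have := sq_nonneg (Real.pi / n)
    linarith

theorem nt_d {n : ℕ} (hn : 5 ≤ n) :
    ((n : ℝ) ^ 2 - 1) * tn n ^ 2 ≤ 1.14 * n * (1 + tn n ^ 2) ^ 2 := by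
  have h1 := nt_sq_le hn
  have h0 := sq_nonneg (tn n)
  rcases nt_cases hn with rfl | rfl | rfl | h
  · have h2 := nt_sq_five
    push_cast
    nlinarith
  · rw [nt_six]
    norm_num
  · obtain ⟨h2, h3⟩ := nt_seven
    push_cast
    nlinarith
  · have h8 : (8 : ℝ) ≤ n := by exact_mod_cast h
    have h2 := nt_N8 h
    have h3 := nt_low hn
    have h4 : ((n : ℝ) ^ 2 - 1) * tn n ^ 2 ≤ 10.981 := by nlinarith
    refine h4.trans ?_
    set τ := tn n ^ 2 with hτ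
    have h5 : 1.14 * n * (1 + 2 * τ) ≤ 1.14 * n * (1 + τ) ^ 2 := by
      have : 0 ≤ 1.14 * (n : ℝ) := by positivity
      refine mul_le_mul_of_nonneg_left ?_ this
      nlinarith
    refine le_trans ?_ h5
    -- `10.981 n ≤ 1.14 n² + 2.28 n² τ`
    have h6 : 10.981 * (n : ℝ) ≤ (1.14 * n * (1 + 2 * τ)) * n := by nlinarith
    have h7 : (0 : ℝ) < n := by linarith
    exact le_of_mul_le_mul_right h6 h7

theorem nt_e {n : ℕ} (hn : 5 ≤ n) {r : ℝ} (h0 : 0 ≤ r) (h1 : r ≤ 1) :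
    (1 + tn n ^ 2) * (1 + 0.5279 * r) ^ 2 ≤ 0.3056 * n * (1 + tn n ^ 2 * r) ^ 2 := by
  have h2 := nt_sq_le hn
  have h3 := sq_nonneg (tn n)
  have hk : 1.5279 ^ 2 ≤ 0.3056 * n * (1 + tn n ^ 2) := by
    rcases nt_cases hn with rfl | rfl | rfl | h
    · have h4 := nt_sq_five
      push_cast
      norm_num
      linarith
    · rw [nt_six]
      norm_num
    · obtain ⟨h4, h5⟩ := nt_seven
      push_cast
      norm_num
      linarith
    · have h8 : (8 : ℝ) ≤ n := by exact_mod_cast h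
      nlinarith
  set τ := tn n ^ 2 with hτ
  have h4 : (1 + 0.5279 * r) * (1 + τ) ≤ 1.5279 * (1 + τ * r) := by
    have e : 1.5279 * (1 + τ * r) - (1 + 0.5279 * r) * (1 + τ) = (0.5279 - τ) * (1 - r) := by ring
    have : 0 ≤ (0.5279 - τ) * (1 - r) := mul_nonneg (by linarith) (by linarith)
    linarith
  have h5 : ((1 + 0.5279 * r) * (1 + τ)) ^ 2 ≤ (1.5279 * (1 + τ * r)) ^ 2 :=
    pow_le_pow_left₀ (by positivity) h4 2
  have h6 : (1.5279 * (1 + τ * r)) ^ 2 ≤ 0.3056 * n * (1 + τ) * (1 + τ * r) ^ 2 := by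
    rw [mul_pow]
    exact mul_le_mul_of_nonneg_right hk (sq_nonneg _)
  have h7 : (1 + τ) * ((1 + τ) * (1 + 0.5279 * r) ^ 2) ≤
      (1 + τ) * (0.3056 * n * (1 + τ * r) ^ 2) := by
    calc (1 + τ) * ((1 + τ) * (1 + 0.5279 * r) ^ 2) = ((1 + 0.5279 * r) * (1 + τ)) ^ 2 := by ring
      _ ≤ _ := h5.trans h6
      _ = _ := by ring
  exact le_of_mul_le_mul_left h7 (by linarith)

theorem nt_f {n : ℕ} (hn : 5 ≤ n) {x : ℝ} (h0 : 0 ≤ x) (h1 : x ≤ 1) :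
    (1 + tn n ^ 2) * (1 + 0.5279 * x) ≤ 0.3056 * n * (1 + tn n ^ 2 * x) := by
  have h2 := nt_a hn
  have h3 := sq_nonneg (tn n)
  have h5 : (5 : ℝ) ≤ n := by exact_mod_cast hn
  set τ := tn n ^ 2 with hτ
  have e : 0.3056 * n * (1 + τ * x) - (1 + τ) * (1 + 0.5279 * x) =
      (1 - x) * (0.3056 * n - (1 + τ)) + x * ((1 + τ) * (0.3056 * n - 1.5279)) := by ring
  have h6 : 0 ≤ (1 - x) * (0.3056 * n - (1 + τ)) := mul_nonneg (by linarith) (by linarith)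
  have h7 : 0 ≤ x * ((1 + τ) * (0.3056 * n - 1.5279)) :=
    mul_nonneg h0 (mul_nonneg (by linarith) (by linarith))
  linarith

theorem nt_g {n : ℕ} (hn : 5 ≤ n) :
    0.3056 * n * (0.4 * tn n ^ 2) ≤ 0.2112 * (1 + tn n ^ 2) := by
  have h1 := nt_sq_le hn
  have h0 := sq_nonneg (tn n)
  rcases nt_cases hn with rfl | rfl | rfl | h
  · push_cast
    linarith
  · rw [nt_six]
    norm_num
  · obtain ⟨h2, h3⟩ := nt_seven
    push_cast
    linarith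
  · have h8 : (8 : ℝ) ≤ n := by exact_mod_cast h
    have h2 := nt_N8 h
    have h3 : (n : ℝ) * tn n ^ 2 ≤ 10.981 / 8 := by
      rw [le_div_iff₀ (by norm_num)]
      nlinarith
    linarith

end Pool.Agent.H45.SN
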