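import Pool.Agent.H45.SN.ND

set_option autoImplicit false

/-! Steklov, part A: one variable inequalities with `sin`, `cos`, `exp`.

PROOFS. `sin_m`: for `|u| ≤ π/2` and `sin² u ≤ 1/2` we have `|u| ≤ π/4` and then
`u² (1 - 0.4 sin² u) ≤ sin² u`: WLOG `u ≥ 0`; e.g. with `s = sin u ≥ u - u³/6` and `≤ u`:
`sin² u (1 + 0.4 u²) ≥ u²`, i.e. `sin u ≥ u/√(1+0.4u²)`, follows from
`(u - u³/6)² (1 + 0.4 u²) ≥ u²` for `u² ≤ 0.617`: `(1 - x/6)²(1+0.4x) ≥ 1` for `0 ≤ x ≤ 0.617`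
(`= 1 + x(0.0667 - 0.1056 x + 0.0111 x²)`, positive for `x ≤ 0.68`).
`cos_psi`: `cos x ≥ 1 - x²/2 + x⁴/24 - x⁶/720` and `(1 - a/2 + a²/24 - a³/720)(1 + 1.3 a) ≥ 1` for
`0 ≤ a ≤ 1.5`, `a = x²` (at `a = 1.5` the left side is `1.00013`; divide by `a`).
`exp_lam`: `1 + 0.63 l ≤ exp (0.63 l)` and `1 - l ≥ exp(-1.1425 l)` on `[0, 0.2]` by concavity of the
logarithm or: `(1-l) exp(1.1425 l) ≥ 1`, derivative `(0.1425 - 1.1425 l) exp(..)` changes sign once, value `1` at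
`0` and `0.8 exp(0.2285) ≥ 1.005` at `0.2`. `exp_log3`: `g ↦ (1-g) exp(g+g²/2+g³/3)` has
derivative `-g³ exp(...) ≤ 0` on `[0,1]` and value `1` at `0`. -/

open Finset

namespace Pool.Agent.H45.SN

private theorem uu_nonneg {f f' : ℝ → ℝ} (h0 : f 0 = 0) (hd : ∀ x, HasDerivAt f (f' x) x)
    (hp : ∀ x, 0 ≤ x → 0 ≤ f' x) {x : ℝ} (hx : 0 ≤ x) : 0 ≤ f x := by
  have hm : MonotoneOn f (Set.Ici 0) := by
    refine monotoneOn_of_deriv_nonneg (convex_Ici _)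
      (fun y _ => (hd y).continuousAt.continuousWithinAt)
      (fun y _ => (hd y).differentiableAt.differentiableWithinAt) fun y hy => ?_
    rw [interior_Ici] at hy
    rw [(hd y).deriv]
    exact hp y (le_of_lt hy)
  have h := hm (a := 0) (b := x) (Set.mem_Ici.2 le_rfl) (Set.mem_Ici.2 hx) hx
  rw [h0] at h
  exact h

private theorem uu_sin3 {x : ℝ} (hx : 0 ≤ x) : x - x ^ 3 / 6 ≤ Real.sin x := by
  have h : 0 ≤ (fun x : ℝ => Real.sin x - (x - x ^ 3 / 6)) x := by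
    refine uu_nonneg (f := (fun x : ℝ => Real.sin x - (x - x ^ 3 / 6))) (f' := fun x => Real.cos x - (1 - x ^ 2 / 2)) (by simp) (fun y => ?_)
      (fun y _ => by linarith [Real.one_sub_sq_div_two_le_cos (x := y)]) hx
    refine ((Real.hasDerivAt_sin y).sub ((hasDerivAt_id y).sub
      ((hasDerivAt_pow 3 y).div_const 6))).congr_deriv ?_
    simp only [Nat.cast_ofNat, Nat.add_one_sub_one]
    ring
  simp only at h
  linarith

private theorem uu_cos4 {x : ℝ} (hx : 0 ≤ x) : Real.cos x ≤ 1 - x ^ 2 / 2 + x ^ 4 / 24 := by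
  have h : 0 ≤ (fun x : ℝ => (1 - x ^ 2 / 2 + x ^ 4 / 24) - Real.cos x) x := by
    refine uu_nonneg (f := (fun x : ℝ => (1 - x ^ 2 / 2 + x ^ 4 / 24) - Real.cos x)) (f' := fun x => Real.sin x - (x - x ^ 3 / 6)) (by simp) (fun y => ?_)
      (fun y hy => by linarith [uu_sin3 hy]) hx
    refine ((((hasDerivAt_const y (1 : ℝ)).sub ((hasDerivAt_pow 2 y).div_const 2)).add
      ((hasDerivAt_pow 4 y).div_const 24)).sub (Real.hasDerivAt_cos y)).congr_deriv ?_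
    simp only [Nat.cast_ofNat, Nat.add_one_sub_one, pow_one]
    ring
  simp only at h
  linarith

private theorem uu_sin5 {x : ℝ} (hx : 0 ≤ x) :
    Real.sin x ≤ x - x ^ 3 / 6 + x ^ 5 / 120 := by
  have h : 0 ≤ (fun x : ℝ => (x - x ^ 3 / 6 + x ^ 5 / 120) - Real.sin x) x := by
    refine uu_nonneg (f := (fun x : ℝ => (x - x ^ 3 / 6 + x ^ 5 / 120) - Real.sin x)) (f' := fun x => (1 - x ^ 2 / 2 + x ^ 4 / 24) - Real.cos x) (by simp)
      (fun y => ?_) (fun y hy => by linarith [uu_cos4 hy]) hx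
    refine ((((hasDerivAt_id y).sub ((hasDerivAt_pow 3 y).div_const 6)).add
      ((hasDerivAt_pow 5 y).div_const 120)).sub (Real.hasDerivAt_sin y)).congr_deriv ?_
    simp only [Nat.cast_ofNat, Nat.add_one_sub_one]
    ring
  simp only at h
  linarith

private theorem uu_cos6 {x : ℝ} (hx : 0 ≤ x) :
    1 - x ^ 2 / 2 + x ^ 4 / 24 - x ^ 6 / 720 ≤ Real.cos x := by
  have h : 0 ≤ (fun x : ℝ => Real.cos x - (1 - x ^ 2 / 2 + x ^ 4 / 24 - x ^ 6 / 720)) x := by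
    refine uu_nonneg (f := (fun x : ℝ => Real.cos x - (1 - x ^ 2 / 2 + x ^ 4 / 24 - x ^ 6 / 720))) (f' := fun x => (x - x ^ 3 / 6 + x ^ 5 / 120) - Real.sin x) (by simp)
      (fun y => ?_) (fun y hy => by linarith [uu_sin5 hy]) hx
    refine ((Real.hasDerivAt_cos y).sub ((((hasDerivAt_const y (1 : ℝ)).sub
      ((hasDerivAt_pow 2 y).div_const 2)).add
      ((hasDerivAt_pow 4 y).div_const 24)).sub ((hasDerivAt_pow 6 y).div_const 720))).congr_deriv ?_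
    simp only [Nat.cast_ofNat, Nat.add_one_sub_one, pow_one]
    ring
  simp only at h
  linarith

private theorem uu_pi4 {u : ℝ} (h0 : 0 ≤ u) (hu : u ≤ Real.pi / 2)
    (h : Real.sin u ^ 2 ≤ 1 / 2) : u ^ 2 ≤ 0.618 := by
  have h1 : u ≤ Real.pi / 4 := by
    by_contra hc
    rw [not_le] at hc
    have h2 : Real.sin (Real.pi / 4) < Real.sin u :=
      Real.sin_lt_sin_of_lt_of_le_pi_div_two (by linarith [Real.pi_pos]) hu hc
    rw [Real.sin_pi_div_four] at h2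
    have h3 : (√2 / 2) ^ 2 < Real.sin u ^ 2 := pow_lt_pow_left₀ h2 (by positivity) two_ne_zero
    rw [div_pow, Real.sq_sqrt (by norm_num)] at h3
    linarith
  have h4 : Real.pi < 3.1416 := Real.pi_lt_d4
  have h5 : u ≤ 0.7854 := by linarith
  nlinarith

private theorem uu_sin_m {u : ℝ} (h0 : 0 ≤ u) (hu : u ≤ Real.pi / 2)
    (h : Real.sin u ^ 2 ≤ 1 / 2) : u ^ 2 * (1 - 0.4 * Real.sin u ^ 2) ≤ Real.sin u ^ 2 := by
  have h1 := uu_pi4 h0 hu h
  have h2 := uu_sin3 h0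
  have h3 : 0 ≤ u - u ^ 3 / 6 := by
    have : u - u ^ 3 / 6 = u * (1 - u ^ 2 / 6) := by ring
    rw [this]
    exact mul_nonneg h0 (by linarith)
  have h4 : (u - u ^ 3 / 6) ^ 2 ≤ Real.sin u ^ 2 := pow_le_pow_left₀ h3 h2 2
  have h5 : u ^ 2 ≤ (u - u ^ 3 / 6) ^ 2 * (1 + 0.4 * u ^ 2) := by
    set x := u ^ 2 with hx
    have hx0 : 0 ≤ x := sq_nonneg u
    have e : (u - u ^ 3 / 6) ^ 2 = x * (1 - x / 6) ^ 2 := by rw [hx]; ring
    rw [e]
    have h6 : 1 ≤ (1 - x / 6) ^ 2 * (1 + 0.4 * x) := by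
      have e2 : (1 - x / 6) ^ 2 * (1 + 0.4 * x) - 1 =
          x * (1 / 15 - 19 / 180 * x + x ^ 2 / 90) := by ring
      have h7 : 0 ≤ 1 / 15 - 19 / 180 * x + x ^ 2 / 90 := by nlinarith [sq_nonneg x]
      have h8 := mul_nonneg hx0 h7
      linarith
    calc x = x * 1 := (mul_one x).symm
      _ ≤ x * ((1 - x / 6) ^ 2 * (1 + 0.4 * x)) := mul_le_mul_of_nonneg_left h6 hx0
      _ = x * (1 - x / 6) ^ 2 * (1 + 0.4 * x) := by ring
  have h6 : (u - u ^ 3 / 6) ^ 2 * (1 + 0.4 * u ^ 2) ≤ Real.sin u ^ 2 * (1 + 0.4 * u ^ 2) :=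
    mul_le_mul_of_nonneg_right h4 (by positivity)
  nlinarith

theorem sin_m {u : ℝ} (hu : |u| ≤ Real.pi / 2) (h : Real.sin u ^ 2 ≤ 1 / 2) :
    u ^ 2 * (1 - 0.4 * Real.sin u ^ 2) ≤ Real.sin u ^ 2 := by
  rcases le_total 0 u with h0 | h0
  · rw [abs_of_nonneg h0] at hu
    exact uu_sin_m h0 hu h
  · rw [abs_of_nonpos h0] at hu
    have h1 : Real.sin (-u) ^ 2 ≤ 1 / 2 := by rw [Real.sin_neg, neg_sq]; exact h
    have h2 := uu_sin_m (u := -u) (by linarith) hu h1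
    rw [Real.sin_neg, neg_sq, neg_sq] at h2
    exact h2

theorem cos_psi {x : ℝ} (h : x ^ 2 ≤ 1.5) : 1 ≤ Real.cos x * (1 + 1.3 * x ^ 2) := by
  have h1 : 1 - x ^ 2 / 2 + x ^ 4 / 24 - x ^ 6 / 720 ≤ Real.cos x := by
    rcases le_total 0 x with h0 | h0
    · exact uu_cos6 h0
    · have h2 := uu_cos6 (x := -x) (by linarith)
      rw [Real.cos_neg] at h2
      have e : 1 - (-x) ^ 2 / 2 + (-x) ^ 4 / 24 - (-x) ^ 6 / 720 =
          1 - x ^ 2 / 2 + x ^ 4 / 24 - x ^ 6 / 720 := by ring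
      rw [e] at h2
      exact h2
  set a := x ^ 2 with ha
  have ha0 : 0 ≤ a := sq_nonneg x
  have e : 1 - a / 2 + x ^ 4 / 24 - x ^ 6 / 720 = 1 - a / 2 + a ^ 2 / 24 - a ^ 3 / 720 := by
    rw [ha]; ring
  rw [e] at h1
  have h2 : 1 ≤ (1 - a / 2 + a ^ 2 / 24 - a ^ 3 / 720) * (1 + 1.3 * a) := by
    have e2 : (1 - a / 2 + a ^ 2 / 24 - a ^ 3 / 720) * (1 + 1.3 * a) - 1 =
        a * (0.8 - (0.65 - 1 / 24) * a + (1.3 / 24 - 1 / 720) * a ^ 2 - 1.3 / 720 * a ^ 3) := by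
      ring
    have h3 : 0 ≤ 0.8 - (0.65 - 1 / 24) * a + (1.3 / 24 - 1 / 720) * a ^ 2 -
        1.3 / 720 * a ^ 3 := by
      have h4 : 0 ≤ 1.5 - a := by linarith
      have h5 : a ^ 2 ≤ 1.5 * a := by nlinarith
      have h6 : a ^ 3 ≤ 1.5 * a ^ 2 := by nlinarith [sq_nonneg a]
      nlinarith [mul_nonneg h4 h4, mul_nonneg h4 ha0]
    have h7 := mul_nonneg ha0 h3
    linarith
  exact h2.trans (mul_le_mul_of_nonneg_right h1 (by positivity))

theorem exp_lam {l : ℝ} (h0 : 0 ≤ l) (h1 : l ≤ 0.2) :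
    1 + 0.63 * l ≤ (1 - l) ^ 4 * Real.exp (5.2 * l) := by
  have e1 : Real.exp (5.2 * l) = Real.exp (1.1425 * l) ^ 4 * Real.exp (0.63 * l) := by
    rw [← Real.exp_nat_mul, ← Real.exp_add]
    congr 1
    push_cast
    ring
  have h2 : Real.exp (-0.2285) ≤ 0.8 := by
    have h3 := Real.quadratic_le_exp_of_nonneg (show (0 : ℝ) ≤ 0.2285 by norm_num)
    have h4 : (1.25 : ℝ) ≤ Real.exp 0.2285 := by linarith
    rw [Real.exp_neg]
    rw [inv_le_comm₀ (Real.exp_pos _) (by norm_num)]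
    linarith
  have h3 : Real.exp (-(1.1425 * l)) ≤ 1 - l := by
    have hc := convexOn_exp.2 (Set.mem_univ (0 : ℝ)) (Set.mem_univ (-0.2285 : ℝ))
      (show 0 ≤ 1 - l / 0.2 by
        have : l / 0.2 ≤ 1 := by rw [div_le_one (by norm_num)]; exact h1
        linarith) (show 0 ≤ l / 0.2 by positivity) (by ring)
    simp only [smul_eq_mul, mul_zero, zero_add, Real.exp_zero, mul_one] at hc
    have e2 : l / 0.2 * (-0.2285) = -(1.1425 * l) := by ring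
    rw [e2] at hc
    have h4 : l / 0.2 * Real.exp (-0.2285) ≤ l / 0.2 * 0.8 :=
      mul_le_mul_of_nonneg_left h2 (by positivity)
    have e3 : 1 - l / 0.2 + l / 0.2 * 0.8 = 1 - l := by ring
    linarith
  have h4 : 1 ≤ (1 - l) * Real.exp (1.1425 * l) := by
    have h5 := mul_le_mul_of_nonneg_right h3 (Real.exp_pos (1.1425 * l)).le
    rw [← Real.exp_add, neg_add_cancel, Real.exp_zero] at h5
    exact h5
  have h5 : 1 ≤ ((1 - l) * Real.exp (1.1425 * l)) ^ 4 := one_le_pow₀ h4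
  have h6 := Real.add_one_le_exp (0.63 * l)
  rw [e1]
  calc 1 + 0.63 * l ≤ Real.exp (0.63 * l) := by linarith
    _ = 1 * Real.exp (0.63 * l) := (one_mul _).symm
    _ ≤ ((1 - l) * Real.exp (1.1425 * l)) ^ 4 * Real.exp (0.63 * l) :=
        mul_le_mul_of_nonneg_right h5 (Real.exp_pos _).le
    _ = (1 - l) ^ 4 * (Real.exp (1.1425 * l) ^ 4 * Real.exp (0.63 * l)) := by ring

theorem exp_log3 {g : ℝ} (h0 : 0 ≤ g) (h1 : g ≤ 1) :
    (1 - g) * Real.exp (g + g ^ 2 / 2 + g ^ 3 / 3) ≤ 1 := by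
  have h : 0 ≤ (fun g : ℝ => 1 - (1 - g) * Real.exp (g + g ^ 2 / 2 + g ^ 3 / 3)) g := by
    refine uu_nonneg (f := (fun g : ℝ => 1 - (1 - g) * Real.exp (g + g ^ 2 / 2 + g ^ 3 / 3))) (f' := fun g => g ^ 3 * Real.exp (g + g ^ 2 / 2 + g ^ 3 / 3)) (by simp)
      (fun y => ?_) (fun y hy => mul_nonneg (pow_nonneg hy 3) (Real.exp_pos _).le) h0
    have k1 : HasDerivAt (fun y : ℝ => y + y ^ 2 / 2 + y ^ 3 / 3) (1 + y + y ^ 2) y := by
      refine (((hasDerivAt_id y).add ((hasDerivAt_pow 2 y).div_const 2)).add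
        ((hasDerivAt_pow 3 y).div_const 3)).congr_deriv ?_
      simp only [Nat.cast_ofNat, Nat.add_one_sub_one, pow_one]
      ring
    have k2 : HasDerivAt (fun y : ℝ => 1 - y) (-1) y := by
      simpa using (hasDerivAt_id y).const_sub 1
    refine ((hasDerivAt_const y (1 : ℝ)).sub (k2.mul k1.exp)).congr_deriv ?_
    ring
  simp only at h
  linarith

end Pool.Agent.H45.SN
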