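import Pool.Agent.H45.SN.NT2
import Pool.Agent.H45.SN.UU

set_option autoImplicit false

/-! Steklov, part A: bounds for `ss` (normal directions) in the variables `r = q/t`, `η = y/t²`.

PROOFS (`t = tn n`, `τ = t²`). `arctan_diff`: `arctan t - arctan (r t) = arctan ((1-r)t/(1+rτ))` (or: the function
difference has derivative of one sign; `arctan x ≤ x` for `x ≥ 0`; or mean value), for `r ≥ 1` with the
other sign; so `(arctan (r t) - arctan t)² ≤ (1-r)² τ/(1+rτ)²` for all `r ≥ 0`.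
`ss_thin`: first part `2.6(1+τ)(1-r)²/(n(1+rτ)²) ≤ 2.6·0.3056 (1-r)²/(1+0.5279r)²` (`nt_e`). Second part: `m = sin² u =
τη/(1+τr²) ≤ 0.5279·0.9434 ≤ 1/2`, so `u² ≤ m/(1-0.4m) = τη/(1+τr²-0.4τη)` (`sin_m`) and
`2.6(1+τ)/(nτ) u² ≤ 2.6 (1+τ) η/(n (1+τr²-0.4τη)) ≤ 0.7946 η/(1+0.5279r²-0.2112η)` by `nt_f` (at `x = r²`) and
`nt_g`.
`ss_wide` (`1 ≤ r`): first part `2.6(1+τ)(r-1)²/(n(1+rτ)²)`; `1+τ ≤ 1+rτ`, `1+rτ ≥ 2√(rτ) ≥ 2√r π/n`
(`nt_lower`), so it is `≤ 2.6 (r-1)²/(2π√r) = (2.6/(2π)) √r (r-1)²/r ≤ 0.4139·(1+r)/2·(r-1)²/r` (`π ≥ 3.1415`).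
Second part: `(1+τ)/(n(1+τr²)) ≤ 1/5`, `m ≤ 0.34552 η ≤ 1/2` (`τ/(1+τr²) ≤ τ/(1+τ) ≤ 0.34552`), `0.4 m ≤ 0.1382.. η`
(`0.4·0.52787/1.52787 = 0.138198`). -/

open Finset

namespace Pool.Agent.H45.SN

private lemma SA_at {x : ℝ} (hx : 0 ≤ x) : Real.arctan x ≤ x := by
  rcases hx.eq_or_lt with rfl | hx
  · simp
  · have h := Real.lt_tan (Real.arctan_pos.2 hx) (Real.arctan_lt_pi_div_two x)
    rw [Real.tan_arctan] at h
    exact h.le

private lemma SA_sq (x : ℝ) : Real.arctan x ^ 2 ≤ x ^ 2 := by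
  rcases le_total 0 x with h | h
  · exact pow_le_pow_left₀ (Real.arctan_nonneg.2 h) (SA_at h) 2
  · have h1 : 0 ≤ -x := by linarith
    have h2 := pow_le_pow_left₀ (Real.arctan_nonneg.2 h1) (SA_at h1) 2
    rw [Real.arctan_neg, neg_sq, neg_sq] at h2
    exact h2

theorem arctan_diff {t r : ℝ} (ht : 0 < t) (hr : 0 ≤ r) :
    (Real.arctan (r * t) - Real.arctan t) ^ 2 ≤ (1 - r) ^ 2 * t ^ 2 / (1 + r * t ^ 2) ^ 2 := by
  have h1 : (r * t) * (-t) < 1 := by nlinarith [mul_nonneg hr (sq_nonneg t)]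
  have h2 := Real.arctan_add h1
  rw [Real.arctan_neg] at h2
  have h3 : Real.arctan (r * t) - Real.arctan t =
      Real.arctan ((r * t + -t) / (1 - r * t * -t)) := by rw [← h2]; ring
  rw [h3]
  refine (SA_sq _).trans (le_of_eq ?_)
  rw [div_pow]
  congr 1
  · ring
  · ring

private lemma SA_part1 {n : ℕ} (hn : 5 ≤ n) {r : ℝ} (hr : 0 ≤ r) :
    2.6 * (1 + tn n ^ 2) / (n * tn n ^ 2) *
      (Real.arctan (r * tn n) - Real.arctan (tn n)) ^ 2 ≤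
      2.6 * ((1 - r) ^ 2 * ((1 + tn n ^ 2) / (n * (1 + tn n ^ 2 * r) ^ 2))) := by
  have ht := nt_pos hn
  have hn5 : (0 : ℝ) < n := by exact_mod_cast (by omega : 0 < n)
  have h1 := arctan_diff ht hr
  have h2 : 0 ≤ 2.6 * (1 + tn n ^ 2) / (n * tn n ^ 2) := by positivity
  refine (mul_le_mul_of_nonneg_left h1 h2).trans (le_of_eq ?_)
  have h3 : 1 + r * tn n ^ 2 ≠ 0 := by positivity
  have h4 : 1 + tn n ^ 2 * r = 1 + r * tn n ^ 2 := by ring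
  rw [h4]
  field_simp

private lemma SA_part2 {n : ℕ} (hn : 5 ≤ n) {r η u m : ℝ} (hu : |u| ≤ Real.pi / 2)
    (hs : Real.sin u ^ 2 = m) (hm : m ≤ 1 / 2)
    (hmm : m = tn n ^ 2 * η / (1 + (r * tn n) ^ 2)) :
    2.6 * (1 + tn n ^ 2) / (n * tn n ^ 2) * u ^ 2 ≤
      2.6 * ((1 + tn n ^ 2) * η / (n * ((1 + tn n ^ 2 * r ^ 2) * (1 - 0.4 * m)))) := by
  have ht := nt_pos hn
  have hn5 : (0 : ℝ) < n := by exact_mod_cast (by omega : 0 < n)
  have h1 := sin_m hu (by rw [hs]; exact hm)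
  rw [hs] at h1
  have h2 : 0 < 1 - 0.4 * m := by linarith
  have h3 : u ^ 2 ≤ m / (1 - 0.4 * m) := by rwa [le_div_iff₀ h2]
  have h4 : 0 ≤ 2.6 * (1 + tn n ^ 2) / (n * tn n ^ 2) := by positivity
  refine (mul_le_mul_of_nonneg_left h3 h4).trans (le_of_eq ?_)
  have h5 : 1 + tn n ^ 2 * r ^ 2 ≠ 0 := by positivity
  have h6 : m * (1 + tn n ^ 2 * r ^ 2) = tn n ^ 2 * η := by
    rw [hmm]
    have h7 : 1 + (r * tn n) ^ 2 = 1 + tn n ^ 2 * r ^ 2 := by ring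
    rw [h7, div_mul_cancel₀ _ h5]
  have h8 : m = tn n ^ 2 * η / (1 + tn n ^ 2 * r ^ 2) := by rw [eq_div_iff h5, h6]
  generalize 1 - 0.4 * m = M at *
  rw [h8]
  field_simp

theorem ss_thin {n : ℕ} (hn : 5 ≤ n) {r η u : ℝ} (h0 : 0 < r) (h1 : r ≤ 1) (hη : 0 ≤ η)
    (hη1 : η ≤ 0.9434) (hu : |u| ≤ Real.pi / 2)
    (hs : Real.sin u ^ 2 = tn n ^ 2 * η / (1 + (r * tn n) ^ 2)) :
    ss n (tn n) (r * tn n) u ≤
      0.7946 * (1 - r) ^ 2 / (1 + 0.5279 * r) ^ 2 +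
        0.7946 * η / (1 + 0.5279 * r ^ 2 - 0.2112 * η) := by
  have ht := nt_pos hn
  have hn5 : (0 : ℝ) < n := by exact_mod_cast (by omega : 0 < n)
  have hτ := nt_sq_le hn
  have hτ0 : 0 < tn n ^ 2 := by positivity
  have e1 := nt_e hn h0.le h1
  have e2 := nt_f hn (sq_nonneg r) (pow_le_one₀ h0.le h1)
  have e3 := nt_g hn
  have p1 := SA_part1 hn h0.le
  have hden : 0 < 1 + tn n ^ 2 * r ^ 2 := by positivity
  have hden' : 1 + (r * tn n) ^ 2 = 1 + tn n ^ 2 * r ^ 2 := by ring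
  have hm : tn n ^ 2 * η / (1 + (r * tn n) ^ 2) ≤ 1 / 2 := by
    rw [hden', div_le_iff₀ hden]
    nlinarith [mul_nonneg hτ0.le (sq_nonneg r)]
  have p2 := SA_part2 hn hu hs hm rfl
  -- first part
  have q1 : (1 + tn n ^ 2) / (n * (1 + tn n ^ 2 * r) ^ 2) ≤ 0.3056 / (1 + 0.5279 * r) ^ 2 := by
    rw [div_le_div_iff₀ (by positivity) (by positivity)]
    linarith
  have q2 : 2.6 * ((1 - r) ^ 2 * ((1 + tn n ^ 2) / (n * (1 + tn n ^ 2 * r) ^ 2))) ≤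
      0.7946 * (1 - r) ^ 2 / (1 + 0.5279 * r) ^ 2 := by
    have q3 := mul_le_mul_of_nonneg_left q1 (sq_nonneg (1 - r))
    have q4 : 0 ≤ (1 - r) ^ 2 * (1 / (1 + 0.5279 * r) ^ 2) := by positivity
    have q5 : (1 - r) ^ 2 * (0.3056 / (1 + 0.5279 * r) ^ 2) =
        0.3056 * ((1 - r) ^ 2 * (1 / (1 + 0.5279 * r) ^ 2)) := by ring
    have q6 : 0.7946 * (1 - r) ^ 2 / (1 + 0.5279 * r) ^ 2 =
        0.7946 * ((1 - r) ^ 2 * (1 / (1 + 0.5279 * r) ^ 2)) := by ring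
    rw [q5] at q3
    rw [q6]
    linarith
  -- second part
  set m := tn n ^ 2 * η / (1 + (r * tn n) ^ 2) with hmdef
  have hmul : (1 + tn n ^ 2 * r ^ 2) * (1 - 0.4 * m) =
      1 + tn n ^ 2 * r ^ 2 - 0.4 * tn n ^ 2 * η := by
    rw [hmdef, hden']
    field_simp
  have hD1 : 0 < 1 + tn n ^ 2 * r ^ 2 - 0.4 * tn n ^ 2 * η := by
    rw [← hmul]
    exact mul_pos hden (by linarith)
  have hD2 : 0 < 1 + 0.5279 * r ^ 2 - 0.2112 * η := by nlinarith [sq_nonneg r]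
  have r1 : (1 + tn n ^ 2) / (n * ((1 + tn n ^ 2 * r ^ 2) * (1 - 0.4 * m))) ≤
      0.3056 / (1 + 0.5279 * r ^ 2 - 0.2112 * η) := by
    rw [hmul, div_le_div_iff₀ (by positivity) hD2]
    have := mul_le_mul_of_nonneg_right e3 hη
    linarith
  have r2 : 2.6 * ((1 + tn n ^ 2) * η / (n * ((1 + tn n ^ 2 * r ^ 2) * (1 - 0.4 * m)))) ≤
      0.7946 * η / (1 + 0.5279 * r ^ 2 - 0.2112 * η) := by
    have r3 := mul_le_mul_of_nonneg_left r1 hη
    have r4 : 0 ≤ η * (1 / (1 + 0.5279 * r ^ 2 - 0.2112 * η)) := by positivity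
    have r5 : η * (0.3056 / (1 + 0.5279 * r ^ 2 - 0.2112 * η)) =
        0.3056 * (η * (1 / (1 + 0.5279 * r ^ 2 - 0.2112 * η))) := by ring
    have r6 : 0.7946 * η / (1 + 0.5279 * r ^ 2 - 0.2112 * η) =
        0.7946 * (η * (1 / (1 + 0.5279 * r ^ 2 - 0.2112 * η))) := by ring
    have r7 : (1 + tn n ^ 2) * η / (n * ((1 + tn n ^ 2 * r ^ 2) * (1 - 0.4 * m))) =
        η * ((1 + tn n ^ 2) / (n * ((1 + tn n ^ 2 * r ^ 2) * (1 - 0.4 * m)))) := by ring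
    rw [r5] at r3
    rw [r6, r7]
    linarith
  unfold ss
  rw [mul_add]
  linarith

theorem ss_wide {n : ℕ} (hn : 5 ≤ n) {r η u : ℝ} (h0 : 1 ≤ r) (hη : 0 ≤ η)
    (hη1 : η ≤ 0.82) (hu : |u| ≤ Real.pi / 2)
    (hs : Real.sin u ^ 2 = tn n ^ 2 * η / (1 + (r * tn n) ^ 2)) :
    ss n (tn n) (r * tn n) u ≤
      0.2071 * (1 + r) * ((r - 1) ^ 2 / r) + 0.52 * η / (1 - 0.1382 * η) := by
  have ht := nt_pos hn
  have hn5 : (5 : ℝ) ≤ n := by exact_mod_cast hn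
  have hτ := nt_sq_le hn
  have hτ0 : 0 < tn n ^ 2 := by positivity
  have hr0 : 0 < r := by linarith
  have p1 := SA_part1 hn hr0.le
  have hden : 0 < 1 + tn n ^ 2 * r ^ 2 := by positivity
  have hden' : 1 + (r * tn n) ^ 2 = 1 + tn n ^ 2 * r ^ 2 := by ring
  have hr2 : 1 ≤ r ^ 2 := one_le_pow₀ h0
  have hmη : tn n ^ 2 * η / (1 + (r * tn n) ^ 2) ≤ 0.3455 * η := by
    rw [hden', div_le_iff₀ hden]
    have h3 : tn n ^ 2 ≤ 0.3455 * (1 + tn n ^ 2 * r ^ 2) := by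
      have := mul_le_mul_of_nonneg_left hr2 hτ0.le
      linarith
    have := mul_le_mul_of_nonneg_left h3 hη
    linarith
  have hm : tn n ^ 2 * η / (1 + (r * tn n) ^ 2) ≤ 1 / 2 := by linarith
  have p2 := SA_part2 hn hu hs hm rfl
  -- first part
  have q1 : (1 + tn n ^ 2) / (n * (1 + tn n ^ 2 * r) ^ 2) * 2.6 ≤ 0.2071 * (1 + r) / r := by
    obtain ⟨s, hs0, hs2⟩ : ∃ s : ℝ, 0 < s ∧ s ^ 2 = r :=
      ⟨√r, Real.sqrt_pos.2 hr0, Real.sq_sqrt hr0.le⟩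
    have hlow := nt_lower hn
    rw [div_le_iff₀ (by linarith)] at hlow
    have hpi := Real.pi_gt_d4
    have k1 : 2 * s * Real.pi ≤ n * (1 + tn n ^ 2 * r) := by
      have k2 : 2 * s * tn n ≤ 1 + tn n ^ 2 * r := by
        rw [← hs2]
        nlinarith [sq_nonneg (s * tn n - 1)]
      have k3 := mul_le_mul_of_nonneg_left k2 (show (0 : ℝ) ≤ n by linarith)
      have k9 := mul_le_mul_of_nonneg_left hlow (show (0 : ℝ) ≤ 2 * s by positivity)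
      calc 2 * s * Real.pi ≤ 2 * s * (tn n * n) := k9
        _ = n * (2 * s * tn n) := by ring
        _ ≤ _ := k3
    have k4 : 2 * s * Real.pi * (1 + tn n ^ 2) ≤ n * (1 + tn n ^ 2 * r) ^ 2 := by
      have k5 : 1 + tn n ^ 2 ≤ 1 + tn n ^ 2 * r := by
        have := mul_le_mul_of_nonneg_left h0 hτ0.le
        linarith
      calc 2 * s * Real.pi * (1 + tn n ^ 2) ≤ 2 * s * Real.pi * (1 + tn n ^ 2 * r) :=
            mul_le_mul_of_nonneg_left k5 (by positivity)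
        _ ≤ n * (1 + tn n ^ 2 * r) * (1 + tn n ^ 2 * r) :=
            mul_le_mul_of_nonneg_right k1 (by positivity)
        _ = _ := by ring
    rw [div_mul_eq_mul_div, div_le_div_iff₀ (by positivity) hr0]
    have k6 : 2.6 * s ≤ 0.4142 * Real.pi * (1 + s ^ 2) := by
      have : 1.3 * (1 + s ^ 2) ≤ 0.4142 * Real.pi * (1 + s ^ 2) :=
        mul_le_mul_of_nonneg_right (by linarith) (by positivity)
      nlinarith [sq_nonneg (s - 1)]
    have k7 := mul_le_mul_of_nonneg_left k4 (show (0 : ℝ) ≤ 0.2071 * (1 + r) by positivity)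
    refine le_trans ?_ k7
    have k8 := mul_le_mul_of_nonneg_left k6 (show (0 : ℝ) ≤ (1 + tn n ^ 2) * s by positivity)
    rw [← hs2]
    calc (1 + tn n ^ 2) * 2.6 * s ^ 2 = (1 + tn n ^ 2) * s * (2.6 * s) := by ring
      _ ≤ _ := k8
      _ = _ := by ring
  have q2 : 2.6 * ((1 - r) ^ 2 * ((1 + tn n ^ 2) / (n * (1 + tn n ^ 2 * r) ^ 2))) ≤
      0.2071 * (1 + r) * ((r - 1) ^ 2 / r) := by
    have q3 := mul_le_mul_of_nonneg_left q1 (sq_nonneg (1 - r))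
    have q4 : (1 - r) ^ 2 * (0.2071 * (1 + r) / r) = 0.2071 * (1 + r) * ((r - 1) ^ 2 / r) := by
      ring
    rw [q4] at q3
    linarith
  -- second part
  set m := tn n ^ 2 * η / (1 + (r * tn n) ^ 2) with hmdef
  have hM : 0 < 1 - 0.4 * m := by linarith
  have hM2 : 1 - 0.1382 * η ≤ 1 - 0.4 * m := by linarith
  have hM3 : 0 < 1 - 0.1382 * η := by linarith
  have r2 : 2.6 * ((1 + tn n ^ 2) * η / (n * ((1 + tn n ^ 2 * r ^ 2) * (1 - 0.4 * m)))) ≤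
      0.52 * η / (1 - 0.1382 * η) := by
    have r3 : (1 + tn n ^ 2) / (n * ((1 + tn n ^ 2 * r ^ 2) * (1 - 0.4 * m))) ≤
        0.2 / (1 - 0.1382 * η) := by
      rw [div_le_div_iff₀ (by positivity) hM3]
      have r4 : 1 + tn n ^ 2 ≤ 1 + tn n ^ 2 * r ^ 2 := by
        have := mul_le_mul_of_nonneg_left hr2 hτ0.le
        linarith
      have r5 : (1 + tn n ^ 2) * (1 - 0.1382 * η) ≤ (1 + tn n ^ 2 * r ^ 2) * (1 - 0.4 * m) :=
        mul_le_mul r4 hM2 hM3.le hden.le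
      have r6 : 0 < (1 + tn n ^ 2 * r ^ 2) * (1 - 0.4 * m) := mul_pos hden hM
      have r10 : (1 + tn n ^ 2 * r ^ 2) * (1 - 0.4 * m) ≤
          0.2 * (n * ((1 + tn n ^ 2 * r ^ 2) * (1 - 0.4 * m))) := by
        have := mul_le_mul_of_nonneg_right hn5 r6.le
        linarith
      exact r5.trans r10
    have r7 := mul_le_mul_of_nonneg_left r3 hη
    have r8 : (1 + tn n ^ 2) * η / (n * ((1 + tn n ^ 2 * r ^ 2) * (1 - 0.4 * m))) =
        η * ((1 + tn n ^ 2) / (n * ((1 + tn n ^ 2 * r ^ 2) * (1 - 0.4 * m)))) := by ring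
    have r9 : 0.52 * η / (1 - 0.1382 * η) = 2.6 * (η * (0.2 / (1 - 0.1382 * η))) := by ring
    rw [r8, r9]
    linarith
  unfold ss
  rw [mul_add]
  linarith

end Pool.Agent.H45.SN
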