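import Pool.Agent.H45.SN.XA
import Pool.Agent.H45.SN.UU

set_option autoImplicit false

/-! Steklov, part A: thin sides, dependence on `η`.

PROOF. `G = (1-r)² gg r`, `g = bb r η/(1-G) < 1`; by `core_k1` `g ≥ κ η` for every
`κ ≤ 1.06 + 0.16 r³`, so `κ η < 1`. By `exp_log3` it suffices that
`C ≤ h := κη + (κη)²/2 + (κη)³/3` (`≤ g + g²/2 + g³/3`), `C = c1 r η`.
Cut `[0,1]` at `1/2, 3/4, 9/10`. On the piece `[a,b]` every term of `c1/η` is monotone in `r`: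
`c1 ≤ η [ A/(1-0.5279η) + 0.7946/(a2 - 0.2112 η) + Cq η/(1-0.5279 η) ]` with
`A = 0.263 b + 0.0114 b (1-a²)²`, `a2 = 1 + 0.5279 a²`, `Cq = 2.4052 b ((3+2.6395b²)/(3+0.5279b²)²)²`
(`(3+5Q)/(3+Q)²` is increasing for `Q ≤ 1.8`). Admissible constants:
`[0,1/2]`: `κ=1.06, A=0.1373, a2=1, Cq=0.1675`; `[1/2,3/4]`: `κ=1.08, A=0.2021, a2=1.1319,
Cq=0.3071`; `[3/4,9/10]`: `κ=1.1275, A=0.2387, a2=1.2969, Cq=0.4141`; `[9/10,1]`: `κ=1.1766,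
A=0.2635, a2=1.4275, Cq=0.4939`. Then
`(A + Cq η)(a2 - 0.2112η) + 0.7946(1-0.5279η) ≤ (κ + κ²η/2 + κ³η²/3)(1-0.5279η)(a2-0.2112η)` on
`[0,1/κ]`: all Bernstein coefficients of the difference on `[0,1/κ]` are `≥ 0.08`. -/

open Finset

namespace Pool.Agent.H45.SN

/-- the exponent for thin sides -/
noncomputable def c1 (r η : ℝ) : ℝ :=
  0.263 * r * η / (1 - 0.5279 * η) + 0.7946 * η / (1 + 0.5279 * r ^ 2 - 0.2112 * η) +
    0.0114 * r * (1 - r ^ 2) ^ 2 * η / (1 - 0.5279 * η) +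
    2.4052 * r * η ^ 2 * ((3 + 2.6395 * r ^ 2) / (3 + 0.5279 * r ^ 2) ^ 2) ^ 2 / (1 - 0.5279 * η)

private lemma YA_p0 {η : ℝ} (h0 : 0 ≤ η) (h1 : 0 ≤ 1 - 1.06 * η) :
    (0.1373 + 0.1675 * η) * (1 - 0.2112 * η) + 0.7946 * (1 - 0.5279 * η) ≤
      (1.06 + 1.06 ^ 2 * η / 2 + 1.06 ^ 3 * η ^ 2 / 3) * (1 - 0.5279 * η) * (1 - 0.2112 * η) := by
  have e0 : 0 ≤ (1 - 1.06 * η) ^ 4 := pow_nonneg h1 4
  have e1 : 0 ≤ η * (1 - 1.06 * η) ^ 3 := mul_nonneg h0 (pow_nonneg h1 3)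
  have e2 : 0 ≤ η ^ 2 * (1 - 1.06 * η) ^ 2 := mul_nonneg (pow_nonneg h0 2) (pow_nonneg h1 2)
  have e3 : 0 ≤ η ^ 3 * (1 - 1.06 * η) := mul_nonneg (pow_nonneg h0 3) h1
  have e4 : 0 ≤ η ^ 4 := pow_nonneg h0 4
  linarith

private lemma YA_p1 {η : ℝ} (h0 : 0 ≤ η) (h1 : 0 ≤ 1 - 1.08 * η) :
    (0.2021 + 0.3071 * η) * (1.1319 - 0.2112 * η) + 0.7946 * (1 - 0.5279 * η) ≤
      (1.08 + 1.08 ^ 2 * η / 2 + 1.08 ^ 3 * η ^ 2 / 3) * (1 - 0.5279 * η) * (1.1319 - 0.2112 * η) := by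
  have e0 : 0 ≤ (1 - 1.08 * η) ^ 4 := pow_nonneg h1 4
  have e1 : 0 ≤ η * (1 - 1.08 * η) ^ 3 := mul_nonneg h0 (pow_nonneg h1 3)
  have e2 : 0 ≤ η ^ 2 * (1 - 1.08 * η) ^ 2 := mul_nonneg (pow_nonneg h0 2) (pow_nonneg h1 2)
  have e3 : 0 ≤ η ^ 3 * (1 - 1.08 * η) := mul_nonneg (pow_nonneg h0 3) h1
  have e4 : 0 ≤ η ^ 4 := pow_nonneg h0 4
  linarith

private lemma YA_p2 {η : ℝ} (h0 : 0 ≤ η) (h1 : 0 ≤ 1 - 1.1275 * η) :
    (0.2387 + 0.4141 * η) * (1.2969 - 0.2112 * η) + 0.7946 * (1 - 0.5279 * η) ≤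
      (1.1275 + 1.1275 ^ 2 * η / 2 + 1.1275 ^ 3 * η ^ 2 / 3) * (1 - 0.5279 * η) * (1.2969 - 0.2112 * η) := by
  have e0 : 0 ≤ (1 - 1.1275 * η) ^ 4 := pow_nonneg h1 4
  have e1 : 0 ≤ η * (1 - 1.1275 * η) ^ 3 := mul_nonneg h0 (pow_nonneg h1 3)
  have e2 : 0 ≤ η ^ 2 * (1 - 1.1275 * η) ^ 2 := mul_nonneg (pow_nonneg h0 2) (pow_nonneg h1 2)
  have e3 : 0 ≤ η ^ 3 * (1 - 1.1275 * η) := mul_nonneg (pow_nonneg h0 3) h1
  have e4 : 0 ≤ η ^ 4 := pow_nonneg h0 4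
  linarith

private lemma YA_p3 {η : ℝ} (h0 : 0 ≤ η) (h1 : 0 ≤ 1 - 1.1766 * η) :
    (0.2635 + 0.4939 * η) * (1.4275 - 0.2112 * η) + 0.7946 * (1 - 0.5279 * η) ≤
      (1.1766 + 1.1766 ^ 2 * η / 2 + 1.1766 ^ 3 * η ^ 2 / 3) * (1 - 0.5279 * η) * (1.4275 - 0.2112 * η) := by
  have e0 : 0 ≤ (1 - 1.1766 * η) ^ 4 := pow_nonneg h1 4
  have e1 : 0 ≤ η * (1 - 1.1766 * η) ^ 3 := mul_nonneg h0 (pow_nonneg h1 3)
  have e2 : 0 ≤ η ^ 2 * (1 - 1.1766 * η) ^ 2 := mul_nonneg (pow_nonneg h0 2) (pow_nonneg h1 2)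
  have e3 : 0 ≤ η ^ 3 * (1 - 1.1766 * η) := mul_nonneg (pow_nonneg h0 3) h1
  have e4 : 0 ≤ η ^ 4 := pow_nonneg h0 4
  linarith

/-- monotone bound of the exponent on a piece `[a,b]` -/
private lemma YA_c1 {r η a b A a2 c C : ℝ} (ha : 0 ≤ a) (har : a ≤ r) (hrb : r ≤ b) (hb : b ≤ 1)
    (hη : 0 ≤ η) (hη1 : η ≤ 0.9434) (hA : 0.263 * b + 0.0114 * b * (1 - a ^ 2) ^ 2 ≤ A)
    (ha2 : a2 ≤ 1 + 0.5279 * a ^ 2) (ha2' : 1 ≤ a2)
    (hc : (3 + 2.6395 * r ^ 2) / (3 + 0.5279 * r ^ 2) ^ 2 ≤ c) (hC : 2.4052 * b * c ^ 2 ≤ C) :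
    c1 r η ≤ η * (A / (1 - 0.5279 * η) + 0.7946 / (a2 - 0.2112 * η) +
      C * η / (1 - 0.5279 * η)) := by
  have hr0 : 0 ≤ r := ha.trans har
  have hr1 : r ≤ 1 := hrb.trans hb
  have hb0 : 0 ≤ b := hr0.trans hrb
  have hD1 : 0 < 1 - 0.5279 * η := by norm_num at hη1 ⊢; linarith
  have hD2 : 0 < a2 - 0.2112 * η := by norm_num at hη1 ⊢; linarith
  have hra : a ^ 2 ≤ r ^ 2 := pow_le_pow_left₀ ha har 2
  have hr2 : r ^ 2 ≤ 1 := pow_le_one₀ hr0 hr1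
  have t1 : 0.263 * r * η / (1 - 0.5279 * η) + 0.0114 * r * (1 - r ^ 2) ^ 2 * η /
      (1 - 0.5279 * η) ≤ η * (A / (1 - 0.5279 * η)) := by
    rw [← add_div, ← mul_div_assoc]
    refine div_le_div_of_nonneg_right ?_ hD1.le
    have e1 : (1 - r ^ 2) ^ 2 ≤ (1 - a ^ 2) ^ 2 :=
      pow_le_pow_left₀ (by linarith) (by linarith) 2
    have e2 : 0.0114 * r * (1 - r ^ 2) ^ 2 ≤ 0.0114 * b * (1 - a ^ 2) ^ 2 :=
      mul_le_mul (by linarith) e1 (sq_nonneg _) (by linarith)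
    have e3 : 0.263 * r + 0.0114 * r * (1 - r ^ 2) ^ 2 ≤ A := by linarith
    have e4 := mul_le_mul_of_nonneg_left e3 hη
    linarith
  have t2 : 0.7946 * η / (1 + 0.5279 * r ^ 2 - 0.2112 * η) ≤ η * (0.7946 / (a2 - 0.2112 * η)) := by
    rw [← mul_div_assoc, mul_comm η]
    exact div_le_div_of_nonneg_left (by positivity) hD2 (by linarith)
  have t3 : 2.4052 * r * η ^ 2 * ((3 + 2.6395 * r ^ 2) / (3 + 0.5279 * r ^ 2) ^ 2) ^ 2 /
      (1 - 0.5279 * η) ≤ η * (C * η / (1 - 0.5279 * η)) := by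
    rw [← mul_div_assoc]
    refine div_le_div_of_nonneg_right ?_ hD1.le
    have e0 : 0 ≤ (3 + 2.6395 * r ^ 2) / (3 + 0.5279 * r ^ 2) ^ 2 := by positivity
    have e1 : ((3 + 2.6395 * r ^ 2) / (3 + 0.5279 * r ^ 2) ^ 2) ^ 2 ≤ c ^ 2 :=
      pow_le_pow_left₀ e0 hc 2
    have e2 : 2.4052 * r * ((3 + 2.6395 * r ^ 2) / (3 + 0.5279 * r ^ 2) ^ 2) ^ 2 ≤
        2.4052 * b * c ^ 2 := mul_le_mul (by linarith) e1 (sq_nonneg _) (by linarith)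
    have e3 := mul_le_mul_of_nonneg_left (e2.trans hC) (pow_nonneg hη 2)
    linarith
  unfold c1
  linarith

/-- the polynomial inequality implies the inequality of exponents -/
private lemma YA_div {η κ A a2 C : ℝ} (hη : 0 ≤ η) (hη1 : η ≤ 0.9434) (ha2' : 1 ≤ a2)
    (hP : (A + C * η) * (a2 - 0.2112 * η) + 0.7946 * (1 - 0.5279 * η) ≤
      (κ + κ ^ 2 * η / 2 + κ ^ 3 * η ^ 2 / 3) * (1 - 0.5279 * η) * (a2 - 0.2112 * η)) :
    η * (A / (1 - 0.5279 * η) + 0.7946 / (a2 - 0.2112 * η) + C * η / (1 - 0.5279 * η)) ≤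
      κ * η + (κ * η) ^ 2 / 2 + (κ * η) ^ 3 / 3 := by
  have hD1 : 0 < 1 - 0.5279 * η := by norm_num at hη1 ⊢; linarith
  have hD2 : 0 < a2 - 0.2112 * η := by norm_num at hη1 ⊢; linarith
  have e1 : A / (1 - 0.5279 * η) + 0.7946 / (a2 - 0.2112 * η) + C * η / (1 - 0.5279 * η) =
      ((A + C * η) * (a2 - 0.2112 * η) + 0.7946 * (1 - 0.5279 * η)) /
        ((1 - 0.5279 * η) * (a2 - 0.2112 * η)) := by
    rw [add_right_comm, ← add_div, div_add_div _ _ hD1.ne' hD2.ne', mul_comm (1 - 0.5279 * η) 0.7946]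
  have e2 : A / (1 - 0.5279 * η) + 0.7946 / (a2 - 0.2112 * η) + C * η / (1 - 0.5279 * η) ≤
      κ + κ ^ 2 * η / 2 + κ ^ 3 * η ^ 2 / 3 := by
    rw [e1, div_le_iff₀ (mul_pos hD1 hD2), ← mul_assoc]
    exact hP
  have e3 := mul_le_mul_of_nonneg_left e2 hη
  nlinarith [e3]

private lemma YA_phi {r c : ℝ} (h : 3 + 2.6395 * r ^ 2 ≤ c * (3 + 0.5279 * r ^ 2) ^ 2) :
    (3 + 2.6395 * r ^ 2) / (3 + 0.5279 * r ^ 2) ^ 2 ≤ c := by
  rw [div_le_iff₀ (by positivity)]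
  exact h

private lemma YA_G {r η : ℝ} (h0 : 0 < r) (hη : 0 ≤ η)
    (hG : (1 - r) ^ 2 * gg r + bb r * η < 1) : 0 < 1 - (1 - r) ^ 2 * gg r := by
  have h1 : 0 ≤ bb r := by
    unfold bb
    positivity
  have h2 := mul_nonneg h1 hη
  linarith

theorem core_eta1 {r η : ℝ} (h0 : 0 < r) (h1 : r ≤ 1) (hη : 0 ≤ η)
    (hG : (1 - r) ^ 2 * gg r + bb r * η < 1) : η ≤ 0.9434 := by
  have hM := YA_G h0 hη hG
  have hk := core_k1 h0.le h1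
  have e1 : (1.06 + 0.16 * r ^ 3) * (1 - (1 - r) ^ 2 * gg r) * η ≤ bb r * η :=
    mul_le_mul_of_nonneg_right hk hη
  have e2 : (1.06 + 0.16 * r ^ 3) * η * (1 - (1 - r) ^ 2 * gg r) < 1 * (1 - (1 - r) ^ 2 * gg r) := by
    linarith
  have e3 : (1.06 + 0.16 * r ^ 3) * η < 1 := lt_of_mul_lt_mul_right e2 hM.le
  have e4 : 0 ≤ r ^ 3 * η := mul_nonneg (pow_nonneg h0.le 3) hη
  norm_num at e3 ⊢
  linarith

theorem core_y1 {r η : ℝ} (h0 : 0 < r) (h1 : r ≤ 1) (hη : 0 ≤ η)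
    (hG : (1 - r) ^ 2 * gg r + bb r * η < 1) :
    (1 - (1 - r) ^ 2 * gg r - bb r * η) * Real.exp (c1 r η) ≤ 1 - (1 - r) ^ 2 * gg r := by
  have hM := YA_G h0 hη hG
  have hη1 := core_eta1 h0 h1 hη hG
  have hk := core_k1 h0.le h1
  set M := 1 - (1 - r) ^ 2 * gg r with hMdef
  set g := bb r * η / M with hg
  have hgM : g * M = bb r * η := by
    rw [hg]
    field_simp
  have hg1 : g ≤ 1 := by
    rw [hg, div_le_one hM]
    linarith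
  have hg0 : 0 ≤ g := by
    rw [hg]
    refine div_nonneg (mul_nonneg ?_ hη) hM.le
    unfold bb
    positivity
  have hkg : (1.06 + 0.16 * r ^ 3) * η ≤ g := by
    rw [hg, le_div_iff₀ hM]
    have := mul_le_mul_of_nonneg_right hk hη
    linarith
  -- it suffices to bound the exponent
  have key : c1 r η ≤ g + g ^ 2 / 2 + g ^ 3 / 3 := by
    have main : ∀ κ A a2 C : ℝ, 0 ≤ κ → κ ≤ 1.06 + 0.16 * r ^ 3 → 1 ≤ a2 →
        ((0 ≤ 1 - κ * η) → (A + C * η) * (a2 - 0.2112 * η) + 0.7946 * (1 - 0.5279 * η) ≤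
          (κ + κ ^ 2 * η / 2 + κ ^ 3 * η ^ 2 / 3) * (1 - 0.5279 * η) * (a2 - 0.2112 * η)) →
        c1 r η ≤ η * (A / (1 - 0.5279 * η) + 0.7946 / (a2 - 0.2112 * η) +
          C * η / (1 - 0.5279 * η)) → c1 r η ≤ g + g ^ 2 / 2 + g ^ 3 / 3 := by
      intro κ A a2 C hκ0 hκ ha2 hP hc
      have e1 : κ * η ≤ g := (mul_le_mul_of_nonneg_right hκ hη).trans hkg
      have e0 : 0 ≤ κ * η := mul_nonneg hκ0 hη
      have e2 : (κ * η) ^ 2 ≤ g ^ 2 := pow_le_pow_left₀ e0 e1 2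
      have e3 : (κ * η) ^ 3 ≤ g ^ 3 := pow_le_pow_left₀ e0 e1 3
      have e4 := YA_div hη hη1 ha2 (hP (by linarith))
      linarith
    rcases le_total r (1 / 2) with hr | hr
    · refine main 1.06 0.1373 1 0.1675 (by norm_num) ?_ le_rfl (fun h => YA_p0 hη h)
        (YA_c1 (a := 0) (b := 1 / 2) (c := 0.3732) le_rfl h0.le hr (by norm_num) hη hη1
          (by norm_num) (by norm_num) le_rfl (YA_phi ?_) (by norm_num))
      · have := pow_nonneg h0.le 3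
        linarith
      · have e1 : r ^ 2 ≤ 1 / 4 := by nlinarith
        nlinarith [mul_nonneg (sq_nonneg r) (sub_nonneg.2 e1), sq_nonneg r]
    rcases le_total r (3 / 4) with hr' | hr'
    · refine main 1.08 0.2021 1.1319 0.3071 (by norm_num) ?_ (by norm_num) (fun h => YA_p1 hη h)
        (YA_c1 (a := 1 / 2) (b := 3 / 4) (c := 0.4126) (by norm_num) hr hr' (by norm_num) hη hη1
          (by norm_num) (by norm_num) (by norm_num) (YA_phi ?_) (by norm_num))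
      · have := pow_le_pow_left₀ (by norm_num : (0 : ℝ) ≤ 1 / 2) hr 3
        norm_num at this ⊢
        linarith
      · have e1 : r ^ 2 ≤ 9 / 16 := by nlinarith
        nlinarith [mul_nonneg (sq_nonneg r) (sub_nonneg.2 e1), sq_nonneg r]
    rcases le_total r (9 / 10) with hr'' | hr''
    · refine main 1.1275 0.2387 1.2969 0.4141 (by norm_num) ?_ (by norm_num)
        (fun h => YA_p2 hη h)
        (YA_c1 (a := 3 / 4) (b := 9 / 10) (c := 0.43736) (by norm_num) hr' hr'' (by norm_num) hη hη1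
          (by norm_num) (by norm_num) (by norm_num) (YA_phi ?_) (by norm_num))
      · have := pow_le_pow_left₀ (by norm_num : (0 : ℝ) ≤ 3 / 4) hr' 3
        norm_num at this ⊢
        linarith
      · have e1 : r ^ 2 ≤ 81 / 100 := by nlinarith
        nlinarith [mul_nonneg (sq_nonneg r) (sub_nonneg.2 e1), sq_nonneg r]
    · refine main 1.1766 0.2635 1.4275 0.4939 (by norm_num) ?_ (by norm_num)
        (fun h => YA_p3 hη h)
        (YA_c1 (a := 9 / 10) (b := 1) (c := 0.45313) (by norm_num) hr'' h1 le_rfl hη hη1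
          (by norm_num) (by norm_num) (by norm_num) (YA_phi ?_) (by norm_num))
      · have := pow_le_pow_left₀ (by norm_num : (0 : ℝ) ≤ 9 / 10) hr'' 3
        norm_num at this ⊢
        linarith
      · have e1 : r ^ 2 ≤ 1 := by nlinarith
        nlinarith [mul_nonneg (sq_nonneg r) (sub_nonneg.2 e1), sq_nonneg r]
  have h3 := exp_log3 hg0 hg1
  have h4 : (1 - g) * Real.exp (c1 r η) ≤ 1 :=
    (mul_le_mul_of_nonneg_left (Real.exp_le_exp.2 key) (by linarith)).trans h3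
  have h5 := mul_le_mul_of_nonneg_left h4 hM.le
  have h6 : M - bb r * η = M * (1 - g) := by
    rw [← hgM]
    ring
  rw [h6, mul_assoc]
  linarith

end Pool.Agent.H45.SN
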