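import Pool.Agent.H45.SN.ND

set_option autoImplicit false

/-! Steklov, part A: wide sides at `y = 0` (one variable). `x = (r-1)²/r`.

PROOF of `core_x2`. `(r+1) ≤ 0.6 (3 + 0.5279 r²)`, so `(D r)² ≤ 0.1004 (r-1)²`, and the exponent is
`≤ w := x ω`, `ω = 0.2071 (1+r) + 0.07 r²`. `exp(-w) ≥ 1 - w + w²/2 - w³/6`, and
`(1 - 1.0453 x)(1 + 0.326 x) ≤ 1 - w + w²/2 - w³/6` is, after division by `x`,
`0 ≤ 0.7193 - ω + x (0.34077 - ... + ω²/2) - x² ω³/6` (with `0.3407` in place of `1.0453·0.326 = 0.34077`),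
times `r²` a polynomial of degree 10 whose Bernstein coefficients on `[1, 2.6]` are positive
(smallest `0.23`). `core_k2`: `1.7 r² - 1.22 (r - 1.0453 (r-1)²)(1+0.176 r²)²` has positive
Bernstein coefficients on `[1,2.6]` (smallest `0.0127`). -/

open Finset

namespace Pool.Agent.H45.SN

/-- `δ* - 1` at `y = 0`, up to the sign -/
noncomputable def dr (r : ℝ) : ℝ := 0.5279 * (r ^ 2 - 1) / (3 + 0.5279 * r ^ 2)

private theorem xb_one {r : ℝ} (h0 : 1 ≤ r) (h1 : r ≤ 2.6) :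
    0 ≤ r ^ 2 * (0.7193 - (0.2071 * (1 + r) + 0.07 * r ^ 2)) +
      r * (r - 1) ^ 2 * (1.0453 * 0.326 + (0.2071 * (1 + r) + 0.07 * r ^ 2) ^ 2 / 2) -
      (r - 1) ^ 4 * (0.2071 * (1 + r) + 0.07 * r ^ 2) ^ 3 / 6 := by
  obtain ⟨u, hu⟩ : ∃ u, u = r - 1 := ⟨_, rfl⟩
  obtain ⟨v, hv⟩ : ∃ v, v = 2.6 - r := ⟨_, rfl⟩
  have hu0 : 0 ≤ u := by rw [hu]; linarith
  have hv0 : 0 ≤ v := by rw [hv]; linarith
  have e : r ^ 2 * (0.7193 - (0.2071 * (1 + r) + 0.07 * r ^ 2)) +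
      r * (r - 1) ^ 2 * (1.0453 * 0.326 + (0.2071 * (1 + r) + 0.07 * r ^ 2) ^ 2 / 2) -
      (r - 1) ^ 4 * (0.2071 * (1 + r) + 0.07 * r ^ 2) ^ 3 / 6 =
      (36734375 / 17179869184) * (u ^ 0 * v ^ 10) + (199059375 / 8589934592) * (u ^ 1 *
      v ^ 9) + (1901578923 / 17179869184) * (u ^ 2 * v ^ 8) + (3360884241 /
      10737418240) * (u ^ 3 * v ^ 7) + (80491308896791 / 134217728000000) * (u ^ 4 * v
      ^ 6) + (285185664991161 / 335544320000000) * (u ^ 5 * v ^ 5) + (3121893926024143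
      / 3355443200000000) * (u ^ 6 * v ^ 4) + (3211872280811921 / 4194304000000000) *
      (u ^ 7 * v ^ 3) + (14373285550103079 / 33554432000000000) * (u ^ 8 * v ^ 2) +
      (2287902592458187 / 16777216000000000) * (u ^ 9 * v ^ 1) + (1700851432556249 /
      100663296000000000) * (u ^ 10 * v ^ 0) := by
    rw [hu, hv]
    ring
  rw [e]
  positivity

private theorem xb_two {r : ℝ} (h0 : 1 ≤ r) (h1 : r ≤ 2.6) :
    0 ≤ 1.7 * r ^ 2 - 1.22 * (r - 1.0453 * (r - 1) ^ 2) * (1 + 0.176 * r ^ 2) ^ 2 := by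
  obtain ⟨u, hu⟩ : ∃ u, u = r - 1 := ⟨_, rfl⟩
  obtain ⟨v, hv⟩ : ∃ v, v = 2.6 - r := ⟨_, rfl⟩
  have hu0 : 0 ≤ u := by rw [hu]; linarith
  have hv0 : 0 ≤ v := by rw [hv]; linarith
  have e : 1.7 * r ^ 2 - 1.22 * (r - 1.0453 * (r - 1) ^ 2) * (1 + 0.176 * r ^ 2) ^ 2 =
      (1247 / 1638400) * (u ^ 0 * v ^ 6) + (117283 / 1638400) * (u ^ 1 * v ^ 5) +
      (31783398997 / 51200000000) * (u ^ 2 * v ^ 4) + (29489895709 / 16000000000) * (u
      ^ 3 * v ^ 3) + (865050802927 / 320000000000) * (u ^ 4 * v ^ 2) + (6662639543693 /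
      3200000000000) * (u ^ 5 * v ^ 1) + (22766894781817 / 32000000000000) * (u ^ 6 * v
      ^ 0) := by
    rw [hu, hv]
    ring
  rw [e]
  positivity

private theorem xb_nonneg {f f' : ℝ → ℝ} (h0 : f 0 = 0) (hd : ∀ x, HasDerivAt f (f' x) x)
    (hp : ∀ x, 0 ≤ x → 0 ≤ f' x) {x : ℝ} (hx : 0 ≤ x) : 0 ≤ f x := by
  have hm : MonotoneOn f (Set.Ici 0) := by
    refine monotoneOn_of_deriv_nonneg (convex_Ici _)
      (fun y _ => (hd y).continuousAt.continuousWithinAt)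
      (fun y _ => (hd y).differentiableAt.differentiableWithinAt) fun y hy => ?_
    rw [interior_Ici] at hy
    rw [(hd y).deriv]
    exact hp y (le_of_lt hy)
  have h := hm (a := 0) (b := x) (Set.mem_Ici.2 le_rfl) (Set.mem_Ici.2 hx) hx
  rw [h0] at h
  exact h

private theorem xb_exp2 {w : ℝ} (h0 : 0 ≤ w) : Real.exp (-w) ≤ 1 - w + w ^ 2 / 2 := by
  have h : 0 ≤ (fun w : ℝ => (1 - w + w ^ 2 / 2) - Real.exp (-w)) w := by
    refine xb_nonneg (f := (fun w : ℝ => (1 - w + w ^ 2 / 2) - Real.exp (-w)))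
      (f' := fun w => w - 1 + Real.exp (-w)) (by simp) (fun y => ?_)
      (fun y _ => by linarith [Real.add_one_le_exp (-y)]) h0
    have k1 : HasDerivAt (fun y : ℝ => -y) (-1) y := (hasDerivAt_id y).neg
    refine ((((hasDerivAt_const y (1 : ℝ)).sub (hasDerivAt_id y)).add
      ((hasDerivAt_pow 2 y).div_const 2)).sub k1.exp).congr_deriv ?_
    simp only [Nat.cast_ofNat, Nat.add_one_sub_one, pow_one]
    ring
  simp only at h
  linarith

private theorem xb_exp3 {w : ℝ} (h0 : 0 ≤ w) :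
    1 - w + w ^ 2 / 2 - w ^ 3 / 6 ≤ Real.exp (-w) := by
  have h : 0 ≤ (fun w : ℝ => Real.exp (-w) - (1 - w + w ^ 2 / 2 - w ^ 3 / 6)) w := by
    refine xb_nonneg (f := (fun w : ℝ => Real.exp (-w) - (1 - w + w ^ 2 / 2 - w ^ 3 / 6)))
      (f' := fun w => (1 - w + w ^ 2 / 2) - Real.exp (-w)) (by simp) (fun y => ?_)
      (fun y hy => by linarith [xb_exp2 hy]) h0
    have k1 : HasDerivAt (fun y : ℝ => -y) (-1) y := (hasDerivAt_id y).neg
    refine (k1.exp.sub ((((hasDerivAt_const y (1 : ℝ)).sub (hasDerivAt_id y)).add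
      ((hasDerivAt_pow 2 y).div_const 2)).sub ((hasDerivAt_pow 3 y).div_const 6))).congr_deriv ?_
    simp only [Nat.cast_ofNat, Nat.add_one_sub_one, pow_one]
    ring
  simp only at h
  linarith

private theorem xb_dr0 {r : ℝ} (h0 : 1 ≤ r) : 0 ≤ dr r := by
  unfold dr
  apply div_nonneg _ (by positivity)
  nlinarith

private theorem xb_dr {r : ℝ} (h0 : 1 ≤ r) : dr r ≤ 0.31674 * (r - 1) := by
  unfold dr
  rw [div_le_iff₀ (by positivity)]
  have h1 : (r + 1) ≤ 0.6 * (3 + 0.5279 * r ^ 2) := by nlinarith [sq_nonneg (r - 1.5786)]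
  have h2 := mul_le_mul_of_nonneg_left h1 (show (0 : ℝ) ≤ 0.5279 * (r - 1) by linarith)
  nlinarith

theorem core_x2 {r : ℝ} (h0 : 1 ≤ r) (h1 : r ≤ 2.6) :
    (1 - 1.0453 * ((r - 1) ^ 2 / r)) * (1 + 0.326 * ((r - 1) ^ 2 / r)) *
      Real.exp (0.2071 * (1 + r) * ((r - 1) ^ 2 / r) + 0.6934 * r * dr r ^ 2) ≤ 1 := by
  have hr : 0 < r := by linarith
  obtain ⟨x, hx⟩ : ∃ x, x = (r - 1) ^ 2 / r := ⟨_, rfl⟩
  have hx0 : 0 ≤ x := by rw [hx]; positivity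
  have hxr : x * r = (r - 1) ^ 2 := by rw [hx]; field_simp
  rw [← hx]
  obtain ⟨ω, hω⟩ : ∃ ω, ω = 0.2071 * (1 + r) + 0.07 * r ^ 2 := ⟨_, rfl⟩
  have hω0 : 0 ≤ ω := by rw [hω]; positivity
  have hE : 0.2071 * (1 + r) * x + 0.6934 * r * dr r ^ 2 ≤ x * ω := by
    have h2 : dr r ^ 2 ≤ (0.31674 * (r - 1)) ^ 2 := pow_le_pow_left₀ (xb_dr0 h0) (xb_dr h0) 2
    have h3 : 0.6934 * r * dr r ^ 2 ≤ 0.6934 * r * (0.31674 * (r - 1)) ^ 2 :=
      mul_le_mul_of_nonneg_left h2 (by positivity)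
    have h4 : 0.6934 * r * (0.31674 * (r - 1)) ^ 2 ≤ 0.07 * r * (r - 1) ^ 2 := by
      have : 0 ≤ r * (r - 1) ^ 2 := by positivity
      nlinarith
    have h5 : 0.07 * r * (r - 1) ^ 2 = x * (0.07 * r ^ 2) := by rw [← hxr]; ring
    rw [hω]
    nlinarith
  have hB : 0 ≤ 1 + 0.326 * x := by positivity
  rcases le_or_gt (1 - 1.0453 * x) 0 with hA | hA
  · have h2 : (1 - 1.0453 * x) * (1 + 0.326 * x) ≤ 0 := mul_nonpos_of_nonpos_of_nonneg hA hB
    have h3 := mul_nonpos_of_nonpos_of_nonneg h2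
      (Real.exp_pos (0.2071 * (1 + r) * x + 0.6934 * r * dr r ^ 2)).le
    linarith
  · have hw0 : 0 ≤ x * ω := mul_nonneg hx0 hω0
    have h2 := xb_one h0 h1
    rw [← hω] at h2
    have h3 : (1 - 1.0453 * x) * (1 + 0.326 * x) ≤
        1 - x * ω + (x * ω) ^ 2 / 2 - (x * ω) ^ 3 / 6 := by
      have h4 : 0 ≤ 0.7193 - ω + x * (1.0453 * 0.326 + ω ^ 2 / 2) - x ^ 2 * ω ^ 3 / 6 := by
        have h5 : r ^ 2 * (0.7193 - ω) + r * (r - 1) ^ 2 * (1.0453 * 0.326 + ω ^ 2 / 2) -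
            (r - 1) ^ 4 * ω ^ 3 / 6 =
            r ^ 2 * (0.7193 - ω + x * (1.0453 * 0.326 + ω ^ 2 / 2) - x ^ 2 * ω ^ 3 / 6) := by
          have e4 : (r - 1) ^ 4 = (x * r) ^ 2 := by rw [hxr]; ring
          rw [e4, ← hxr]
          ring
        rw [h5] at h2
        exact nonneg_of_mul_nonneg_right h2 (by positivity)
      have h6 := mul_nonneg hx0 h4
      nlinarith [h6]
    have h4 := xb_exp3 hw0
    have h5 : 0 ≤ (1 - 1.0453 * x) * (1 + 0.326 * x) := mul_nonneg hA.le hB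
    calc (1 - 1.0453 * x) * (1 + 0.326 * x) *
          Real.exp (0.2071 * (1 + r) * x + 0.6934 * r * dr r ^ 2)
        ≤ (1 - 1.0453 * x) * (1 + 0.326 * x) * Real.exp (x * ω) :=
          mul_le_mul_of_nonneg_left (Real.exp_le_exp.2 hE) h5
      _ ≤ Real.exp (-(x * ω)) * Real.exp (x * ω) :=
          mul_le_mul_of_nonneg_right (h3.trans h4) (Real.exp_pos _).le
      _ = 1 := by rw [← Real.exp_add, neg_add_cancel, Real.exp_zero]

theorem core_k2 {r : ℝ} (h0 : 1 ≤ r) (h1 : r ≤ 2.6) :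
    1.22 * (1 - 1.0453 * ((r - 1) ^ 2 / r)) ≤ bb r := by
  have hr : 0 < r := by linarith
  have h2 := xb_two h0 h1
  unfold bb
  rw [le_div_iff₀ (by positivity)]
  have e : 1.22 * (1 - 1.0453 * ((r - 1) ^ 2 / r)) * (1 + 0.176 * r ^ 2) ^ 2 =
      (1.22 * (r - 1.0453 * (r - 1) ^ 2) * (1 + 0.176 * r ^ 2) ^ 2) / r := by
    field_simp
  rw [e, div_le_iff₀ hr]
  linarith

theorem core_eta2 {r η : ℝ} (h0 : 1 ≤ r) (h1 : r ≤ 2.6) (hη : 0 ≤ η)
    (hG : 1.0453 * ((r - 1) ^ 2 / r) + bb r * η < 1) : η ≤ 0.82 := by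
  have hr : 0 < r := by linarith
  have hb : 0 < bb r := by unfold bb; positivity
  have h2 := core_k2 h0 h1
  by_contra hne
  rw [not_le] at hne
  have h3 : bb r * 0.82 < bb r * η := mul_lt_mul_of_pos_left hne hb
  nlinarith

end Pool.Agent.H45.SN
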