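import Pool.Agent.H45.SN.XA
import Pool.Agent.H45.SN.XB

set_option autoImplicit false

/-! Steklov, part A: the inequality for the maximum of the angles (cores).

PROOF of `core_z1`. `G = (1-r)² gg r`. By `core_k1`, `η ≤ (1-G)/bb ≤ 1/1.06`, so `0.8447/(1-0.2112η) ≤ 1.055`. If
`1.5 bb r ≥ 1.055` the terms in `η` are fine and `0.6318 ≤ 1.5 gg r`. Otherwise
`η (1.055 - 1.5 bb) ≤ (1-G)(1.055 - 1.5 bb)/bb ≤ (1-r)²(1.5 gg - 0.6318)`, the last inequality times `bb`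
and `(1+0.176r²)²` is `(1-r)²·1.7 r (1.5 gg - 0.6318) - (1-G)(1.055 (1+0.176r²)² - 2.55 r) ≥ 0`, degree 9, Bernstein
coefficients positive on `[0,0.5]` and `[0.5,1]` (smallest `0.0067`; it holds for all `r ∈ [0,1]`).
`core_z2`: `0.38 (r-1)² ≤ 1.56795 (r-1)²/r` (`r ≤ 2.6`), `0.8447/(1-0.2112·0.82) ≤ 1.0217 ≤ 1.5 bb r`
on `[1,2.6]` (`bb ≥ 0.92`: `1.7 r ≥ 0.92 (1+0.176 r²)²`, by `core_eta2` `η ≤ 0.82`). -/

open Finset

namespace Pool.Agent.H45.SN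

private theorem za_one {r : ℝ} (h0 : 0 ≤ r) (h1 : r ≤ 0.5) :
    0 ≤ (1 - r) ^ 2 * 1.7 * r *
      (1.5 * (1.0214 + 0.3809 * r - 0.2596 * r ^ 2 - 0.1298 * r ^ 3) - 0.6318) -
      (1 - (1 - r) ^ 2 * (1.0214 + 0.3809 * r - 0.2596 * r ^ 2 - 0.1298 * r ^ 3)) *
        (1.055 * (1 + 0.176 * r ^ 2) ^ 2 - 2.55 * r) := by
  obtain ⟨u, hu⟩ : ∃ u, u = r - 0 := ⟨_, rfl⟩
  obtain ⟨v, hv⟩ : ∃ v, v = 0.5 - r := ⟨_, rfl⟩
  have hu0 : 0 ≤ u := by rw [hu]; linarith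
  have hv0 : 0 ≤ v := by rw [hv]; linarith
  have e : (1 - r) ^ 2 * 1.7 * r *
      (1.5 * (1.0214 + 0.3809 * r - 0.2596 * r ^ 2 - 0.1298 * r ^ 3) - 0.6318) -
      (1 - (1 - r) ^ 2 * (1.0214 + 0.3809 * r - 0.2596 * r ^ 2 - 0.1298 * r ^ 3)) *
        (1.055 * (1 + 0.176 * r ^ 2) ^ 2 - 2.55 * r) =
      (180616 / 15625) * (u ^ 0 * v ^ 9) + (516086 / 15625) * (u ^ 1 * v ^ 8) +
      (242330776 / 1953125) * (u ^ 2 * v ^ 7) + (3353325693 / 3906250) * (u ^ 3 * v ^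
      6) + (717371811509 / 244140625) * (u ^ 4 * v ^ 5) + (5179209605927 / 976562500) *
      (u ^ 5 * v ^ 4) + (1351468212087 / 244140625) * (u ^ 6 * v ^ 3) + (6619761421227
      / 1953125000) * (u ^ 7 * v ^ 2) + (1109822393211 / 976562500) * (u ^ 8 * v ^ 1) +
      (631820473599 / 3906250000) * (u ^ 9 * v ^ 0) := by
    rw [hu, hv]
    ring
  rw [e]
  positivity

private theorem za_two {r : ℝ} (h0 : 0.5 ≤ r) (h1 : r ≤ 1) :
    0 ≤ (1 - r) ^ 2 * 1.7 * r *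
      (1.5 * (1.0214 + 0.3809 * r - 0.2596 * r ^ 2 - 0.1298 * r ^ 3) - 0.6318) -
      (1 - (1 - r) ^ 2 * (1.0214 + 0.3809 * r - 0.2596 * r ^ 2 - 0.1298 * r ^ 3)) *
        (1.055 * (1 + 0.176 * r ^ 2) ^ 2 - 2.55 * r) := by
  obtain ⟨u, hu⟩ : ∃ u, u = r - 0.5 := ⟨_, rfl⟩
  obtain ⟨v, hv⟩ : ∃ v, v = 1 - r := ⟨_, rfl⟩
  have hu0 : 0 ≤ u := by rw [hu]; linarith
  have hv0 : 0 ≤ v := by rw [hv]; linarith
  have e : (1 - r) ^ 2 * 1.7 * r *
      (1.5 * (1.0214 + 0.3809 * r - 0.2596 * r ^ 2 - 0.1298 * r ^ 3) - 0.6318) -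
      (1 - (1 - r) ^ 2 * (1.0214 + 0.3809 * r - 0.2596 * r ^ 2 - 0.1298 * r ^ 3)) *
        (1.055 * (1 + 0.176 * r ^ 2) ^ 2 - 2.55 * r) =
      (631820473599 / 3906250000) * (u ^ 0 * v ^ 9) + (3466739475969 / 1953125000) * (u
      ^ 1 * v ^ 8) + (16596518937603 / 1953125000) * (u ^ 2 * v ^ 7) + (22778188625241
      / 976562500) * (u ^ 3 * v ^ 6) + (39575801652653 / 976562500) * (u ^ 4 * v ^ 5) +
      (22605396937803 / 488281250) * (u ^ 5 * v ^ 4) + (17004673891433 / 488281250) *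
      (u ^ 6 * v ^ 3) + (4065927150371 / 244140625) * (u ^ 7 * v ^ 2) + (1796072448 /
      390625) * (u ^ 8 * v ^ 1) + (218192064 / 390625) * (u ^ 9 * v ^ 0) := by
    rw [hu, hv]
    ring
  rw [e]
  positivity

private theorem za_three {r : ℝ} (h0 : 1 ≤ r) (h1 : r ≤ 2.6) :
    0 ≤ 1.5 * 1.7 * r - 1.0217 * (1 + 0.176 * r ^ 2) ^ 2 := by
  obtain ⟨u, hu⟩ : ∃ u, u = r - 1 := ⟨_, rfl⟩
  obtain ⟨v, hv⟩ : ∃ v, v = 2.6 - r := ⟨_, rfl⟩
  have hu0 : 0 ≤ u := by rw [hu]; linarith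
  have hv0 : 0 ≤ v := by rw [hv]; linarith
  have e : 1.5 * 1.7 * r - 1.0217 * (1 + 0.176 * r ^ 2) ^ 2 =
      (177658347 / 1024000000) * (u ^ 0 * v ^ 4) + (1420832511 / 1280000000) * (u ^ 1 *
      v ^ 3) + (26552961929 / 12800000000) * (u ^ 2 * v ^ 2) + (45877810359 /
      32000000000) * (u ^ 3 * v ^ 1) + (169033064667 / 640000000000) * (u ^ 4 * v ^ 0) := by
    rw [hu, hv]
    ring
  rw [e]
  positivity

theorem core_z1 {r η : ℝ} (h0 : 0 < r) (h1 : r ≤ 1) (hη : 0 ≤ η)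
    (hG : (1 - r) ^ 2 * gg r + bb r * η < 1) :
    0.6318 * (1 - r) ^ 2 + 0.8447 * η / (1 - 0.2112 * η) ≤
      1.5 * ((1 - r) ^ 2 * gg r + bb r * η) := by
  have hB : 0 < bb r := by unfold bb; positivity
  have hBη : 0 ≤ bb r * η := mul_nonneg hB.le hη
  have hk := core_k1 h0.le h1
  obtain ⟨z, hz⟩ : ∃ z, z = (1 - r) ^ 2 := ⟨_, rfl⟩
  have hz0 : 0 ≤ z := by rw [hz]; positivity
  have hQ : (0 : ℝ) < (1 + 0.176 * r ^ 2) ^ 2 := by positivity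
  have hBQ : bb r * (1 + 0.176 * r ^ 2) ^ 2 = 1.7 * r := by
    unfold bb
    exact div_mul_cancel₀ _ hQ.ne'
  have hp : 0 ≤ (1 - r) ^ 2 * 1.7 * r * (1.5 * gg r - 0.6318) -
      (1 - (1 - r) ^ 2 * gg r) * (1.055 * (1 + 0.176 * r ^ 2) ^ 2 - 2.55 * r) := by
    unfold gg
    rcases le_total r 0.5 with h | h
    · exact za_one h0.le h
    · exact za_two h h1
  have hg : 0 ≤ 1.5 * gg r - 0.6318 := by
    unfold gg
    have h2 : r ^ 2 ≤ r := by nlinarith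
    have h3 : r ^ 3 ≤ r := by nlinarith [mul_nonneg h0.le h0.le]
    linarith
  rw [← hz] at hG hk hp ⊢
  have hD : 0 < 1 - z * gg r := by linarith
  have hk2 : 1.06 * (1 - z * gg r) ≤ bb r := by
    have : 0 ≤ 0.16 * r ^ 3 * (1 - z * gg r) := by positivity
    linarith
  have hη1 : 1.06 * η ≤ 1 := by
    have h2 : bb r * (1.06 * η) ≤ bb r * 1 := by nlinarith
    exact le_of_mul_le_mul_left h2 hB
  have hden : 0 < 1 - 0.2112 * η := by linarith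
  have h2 : 0.8447 * η / (1 - 0.2112 * η) ≤ 1.055 * η := by
    rw [div_le_iff₀ hden]
    have : 0.2112 * η ≤ 0.19925 := by linarith
    nlinarith
  have h3 : η * (1.055 - 1.5 * bb r) ≤ z * (1.5 * gg r - 0.6318) := by
    rcases le_or_gt (1.055 - 1.5 * bb r) 0 with h | h
    · exact (mul_nonpos_of_nonneg_of_nonpos hη h).trans (mul_nonneg hz0 hg)
    · have h4 : (1 - z * gg r) * (1.055 - 1.5 * bb r) ≤ bb r * (z * (1.5 * gg r - 0.6318)) := by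
        have h5 : ((1 - z * gg r) * (1.055 - 1.5 * bb r)) * (1 + 0.176 * r ^ 2) ^ 2 ≤
            (bb r * (z * (1.5 * gg r - 0.6318))) * (1 + 0.176 * r ^ 2) ^ 2 := by
          have e1 : ((1 - z * gg r) * (1.055 - 1.5 * bb r)) * (1 + 0.176 * r ^ 2) ^ 2 =
              (1 - z * gg r) * (1.055 * (1 + 0.176 * r ^ 2) ^ 2 -
                1.5 * (bb r * (1 + 0.176 * r ^ 2) ^ 2)) := by ring
          have e2 : (bb r * (z * (1.5 * gg r - 0.6318))) * (1 + 0.176 * r ^ 2) ^ 2 =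
              (bb r * (1 + 0.176 * r ^ 2) ^ 2) * (z * (1.5 * gg r - 0.6318)) := by ring
          rw [e1, e2, hBQ]
          linarith
        exact le_of_mul_le_mul_right h5 hQ
      have h6 : bb r * η * (1.055 - 1.5 * bb r) ≤ (1 - z * gg r) * (1.055 - 1.5 * bb r) :=
        mul_le_mul_of_nonneg_right (by linarith) h.le
      have h7 : bb r * (η * (1.055 - 1.5 * bb r)) ≤ bb r * (z * (1.5 * gg r - 0.6318)) := by
        linarith
      exact le_of_mul_le_mul_left h7 hB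
  linarith

theorem core_z2 {r η : ℝ} (h0 : 1 ≤ r) (h1 : r ≤ 2.6) (hη : 0 ≤ η)
    (hG : 1.0453 * ((r - 1) ^ 2 / r) + bb r * η < 1) :
    0.38 * (r - 1) ^ 2 + 0.8447 * η / (1 - 0.2112 * η) ≤
      1.5 * (1.0453 * ((r - 1) ^ 2 / r) + bb r * η) := by
  have hr : 0 < r := by linarith
  have hη1 := core_eta2 h0 h1 hη hG
  have hden : 0 < 1 - 0.2112 * η := by linarith
  have hb : 1.0217 ≤ 1.5 * bb r := by
    have h2 := za_three h0 h1
    have h3 : 1.0217 / 1.5 ≤ bb r := by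
      unfold bb
      rw [le_div_iff₀ (by positivity)]
      linarith
    linarith
  have h2 : 0.8447 * η / (1 - 0.2112 * η) ≤ 1.0217 * η := by
    rw [div_le_iff₀ hden]
    nlinarith
  have h3 : 0.38 * (r - 1) ^ 2 ≤ 1.5 * (1.0453 * ((r - 1) ^ 2 / r)) := by
    have e : 1.5 * (1.0453 * ((r - 1) ^ 2 / r)) = (1.56795 * (r - 1) ^ 2) / r := by ring
    rw [e, le_div_iff₀ hr]
    have h4 := sq_nonneg (r - 1)
    nlinarith
  have h4 : 1.0217 * η ≤ 1.5 * bb r * η := mul_le_mul_of_nonneg_right hb hη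
  linarith

end Pool.Agent.H45.SN
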