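import Pool.Agent.H45.SN.PE
import Pool.Agent.H45.SN.SA
import Pool.Agent.H45.SN.YA
import Pool.Agent.H45.SN.ZA

set_option autoImplicit false

/-! Steklov, part A: the per side inequality for the maximum of the angles.

PROOF. Same cases as in `PS.lean` (`t = tn n`, `r = q/t`, `η = y/t²`). `u² ≤ m/(1-0.4m)`, `m = τη/(1+Q) ≤ τη`
(`sin_m`, `m ≤ 1/2` by `core_eta1` or `core_eta2`), so `u² ≤ τη/(1-0.4τη) ≤ τη/(1-0.2112η)`. Thin: `0 ≤ arctan t - arctan (r t) ≤
(1-r) π/n` (concavity of `arctan` on `[0,∞)`; `nt_arctan`), so with `nt_c`, `nt_b` the left side is at most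
`0.6318 (1-r)² + 0.8447 η/(1-0.2112η)`; `core_z1`, `gam_thin`. Wide: `arctan_diff` and `(1+rτ) ≥ (1+τ)`, `nt_d`:
`≤ 0.38 (r-1)² + 0.8447η/(1-0.2112η)`; `core_z2`, `gam_wide`. -/

open Finset

namespace Pool.Agent.H45.SN

private theorem zb_nonneg {f f' : ℝ → ℝ} (h0 : f 0 = 0) (hd : ∀ x, HasDerivAt f (f' x) x)
    (hp : ∀ x, 0 ≤ x → 0 ≤ f' x) {x : ℝ} (hx : 0 ≤ x) : 0 ≤ f x := by
  have hm : MonotoneOn f (Set.Ici 0) := by
    refine monotoneOn_of_deriv_nonneg (convex_Ici _)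
      (fun y _ => (hd y).continuousAt.continuousWithinAt)
      (fun y _ => (hd y).differentiableAt.differentiableWithinAt) fun y hy => ?_
    rw [interior_Ici] at hy
    rw [(hd y).deriv]
    exact hp y (le_of_lt hy)
  have h := hm (a := 0) (b := x) (Set.mem_Ici.2 le_rfl) (Set.mem_Ici.2 hx) hx
  rw [h0] at h
  exact h

/-- concavity of `arctan` at `0` -/
private theorem zb_arctan {r t : ℝ} (h0 : 0 ≤ r) (h1 : r ≤ 1) (ht : 0 ≤ t) :
    r * Real.arctan t ≤ Real.arctan (r * t) := by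
  have h : 0 ≤ (fun x : ℝ => Real.arctan (r * x) - r * Real.arctan x) t := by
    refine zb_nonneg (f := (fun x : ℝ => Real.arctan (r * x) - r * Real.arctan x))
      (f' := fun x => 1 / (1 + (r * x) ^ 2) * r - r * (1 / (1 + x ^ 2))) (by simp)
      (fun y => ?_) (fun y _ => ?_) ht
    · have k1 : HasDerivAt (fun y : ℝ => r * y) r y := by
        simpa using (hasDerivAt_id y).const_mul r
      exact k1.arctan.sub ((Real.hasDerivAt_arctan y).const_mul r)
    · have k : 1 / (1 + y ^ 2) ≤ 1 / (1 + (r * y) ^ 2) := by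
        refine one_div_le_one_div_of_le (by positivity) ?_
        rw [mul_pow]
        have : r ^ 2 * y ^ 2 ≤ 1 * y ^ 2 :=
          mul_le_mul_of_nonneg_right (by nlinarith) (sq_nonneg y)
        linarith
      have := mul_le_mul_of_nonneg_left k h0
      linarith
  simp only at h
  linarith

/-- the part coming from `u` -/
private theorem zb_u {n : ℕ} (hn : 5 ≤ n) {r η u : ℝ} (hη : 0 ≤ η) (hη1 : η ≤ 0.9434)
    (hu : |u| ≤ Real.pi / 2)
    (hs : Real.sin u ^ 2 = tn n ^ 2 * η / (1 + (r * tn n) ^ 2)) :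
    ((n : ℝ) ^ 2 - 1) / (3 * n) * u ^ 2 ≤ 0.8447 * η / (1 - 0.2112 * η) := by
  have h5 : (5 : ℝ) ≤ n := by exact_mod_cast hn
  have h1 := nt_sq_le hn
  have hb := nt_b hn
  have h0 := sq_nonneg (tn n)
  have hm : Real.sin u ^ 2 ≤ tn n ^ 2 * η := by
    rw [hs]
    refine div_le_self (mul_nonneg h0 hη) ?_
    have := sq_nonneg (r * tn n)
    linarith
  have hm2 : tn n ^ 2 * η ≤ 0.52787 * η := mul_le_mul_of_nonneg_right h1 hη
  have hs2 := sin_m hu (by linarith)
  have hu0 := sq_nonneg u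
  have h3 : u ^ 2 * (1 - 0.2112 * η) ≤ tn n ^ 2 * η := by
    have : u ^ 2 * (1 - 0.2112 * η) ≤ u ^ 2 * (1 - 0.4 * Real.sin u ^ 2) :=
      mul_le_mul_of_nonneg_left (by linarith) hu0
    linarith
  have hd : 0 < 1 - 0.2112 * η := by linarith
  have hN : 0 ≤ ((n : ℝ) ^ 2 - 1) / (3 * n) := by
    apply div_nonneg
    · nlinarith
    · linarith
  rw [le_div_iff₀ hd, mul_assoc]
  refine (mul_le_mul_of_nonneg_left h3 hN).trans ?_
  have h4 : ((n : ℝ) ^ 2 - 1) / (3 * n) * tn n ^ 2 ≤ 0.8447 := by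
    rw [div_mul_eq_mul_div, div_le_iff₀ (by linarith)]
    linarith
  have h6 := mul_le_mul_of_nonneg_right h4 hη
  linarith

theorem per_side_z {n : ℕ} (hn : 5 ≤ n) {q y u : ℝ} (hq : 0 < q)
    (hy0 : 0 ≤ y) (hy1 : y < 1) (hu : |u| ≤ Real.pi / 2)
    (hs : Real.sin u ^ 2 = y / (1 + q ^ 2)) (hg : gam (tn n) q y < 1) :
    ((n : ℝ) ^ 2 - 1) / (3 * n) * ((Real.arctan q - Real.arctan (tn n)) ^ 2 + u ^ 2) ≤
      1.5 * gam (tn n) q y := by
  have ht := nt_pos hn
  have h5 : (5 : ℝ) ≤ n := by exact_mod_cast hn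
  have h2' := nt_sq_le hn
  have h2 : tn n ^ 2 ≤ 0.5279 := h2'.trans (by norm_num)
  have hN : 0 ≤ ((n : ℝ) ^ 2 - 1) / (3 * n) := by
    apply div_nonneg
    · nlinarith
    · linarith
  obtain ⟨r, hr⟩ : ∃ r, q = r * tn n := ⟨q / tn n, by field_simp⟩
  obtain ⟨η, hη⟩ : ∃ η, y = tn n ^ 2 * η := ⟨y / tn n ^ 2, by field_simp⟩
  subst hr
  subst hη
  have r0 : 0 < r := pos_of_mul_pos_left hq ht.le
  have t2 : 0 < tn n ^ 2 := by positivity
  have η0 : 0 ≤ η := nonneg_of_mul_nonneg_right hy0 t2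
  rw [mul_add]
  rcases le_or_gt r 1 with h | h
  · have g1 := gam_thin ht h2 r0 h η0 hy1
    have hG : (1 - r) ^ 2 * gg r + bb r * η < 1 := lt_of_le_of_lt g1 hg
    have hη1 := core_eta1 r0 h η0 hG
    have g2 := core_z1 r0 h η0 hG
    have g3 := zb_u hn η0 hη1 hu hs
    have k1 := zb_arctan r0.le h ht.le
    have k2 : Real.arctan (r * tn n) ≤ Real.arctan (tn n) :=
      Real.arctan_strictMono.monotone (by nlinarith)
    rw [nt_arctan hn] at k1 k2 ⊢
    have k3 : (Real.arctan (r * tn n) - Real.pi / n) ^ 2 ≤ ((1 - r) * (Real.pi / n)) ^ 2 := by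
      rw [← neg_sq, neg_sub]
      exact pow_le_pow_left₀ (by linarith) (by linarith) 2
    have k4 : ((n : ℝ) ^ 2 - 1) / (3 * n) * (Real.arctan (r * tn n) - Real.pi / n) ^ 2 ≤
        0.6318 * (1 - r) ^ 2 := by
      refine (mul_le_mul_of_nonneg_left k3 hN).trans ?_
      have k5 : ((n : ℝ) ^ 2 - 1) / (3 * n) * (Real.pi / n) ^ 2 ≤ 0.6318 := by
        rw [div_mul_eq_mul_div, div_le_iff₀ (by linarith)]
        have := nt_c hn
        linarith
      have k6 := mul_le_mul_of_nonneg_right k5 (sq_nonneg (1 - r))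
      rw [mul_pow]
      linarith
    linarith
  · rcases le_or_gt r 2.6 with h' | h'
    · have g1 := gam_wide ht h2 h.le h' η0 hy1
      have hG : 1.0453 * ((r - 1) ^ 2 / r) + bb r * η < 1 := lt_of_le_of_lt g1 hg
      have hη1 := core_eta2 h.le h' η0 hG
      have g2 := core_z2 h.le h' η0 hG
      have g3 := zb_u hn η0 (by linarith) hu hs
      have k1 := arctan_diff ht r0.le
      have k4 : ((n : ℝ) ^ 2 - 1) / (3 * n) * (Real.arctan (r * tn n) - Real.arctan (tn n)) ^ 2 ≤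
          0.38 * (r - 1) ^ 2 := by
        have k2 : (1 - r) ^ 2 * tn n ^ 2 / (1 + r * tn n ^ 2) ^ 2 ≤
            (1 - r) ^ 2 * tn n ^ 2 / (1 + tn n ^ 2) ^ 2 := by
          refine div_le_div_of_nonneg_left (by positivity) (by positivity) ?_
          refine pow_le_pow_left₀ (by positivity) ?_ 2
          nlinarith
        refine (mul_le_mul_of_nonneg_left (k1.trans k2) hN).trans ?_
        have k3 := nt_d hn
        have k5 : ((n : ℝ) ^ 2 - 1) / (3 * n) * (tn n ^ 2 / (1 + tn n ^ 2) ^ 2) ≤ 0.38 := by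
          rw [div_mul_div_comm, div_le_iff₀ (by positivity)]
          linarith
        have k6 := mul_le_mul_of_nonneg_right k5 (sq_nonneg (r - 1))
        have e : ((n : ℝ) ^ 2 - 1) / (3 * n) * ((1 - r) ^ 2 * tn n ^ 2 / (1 + tn n ^ 2) ^ 2) =
            ((n : ℝ) ^ 2 - 1) / (3 * n) * (tn n ^ 2 / (1 + tn n ^ 2) ^ 2) * (r - 1) ^ 2 := by
          ring
        rw [e]
        exact k6
      linarith
    · exact absurd hg (not_lt.2 (gam_far ht h2 h'.le η0 hy1))

end Pool.Agent.H45.SN
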