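import Pool.Agent.H45.SN.AD
import Pool.Agent.H45.SN.NT2
import Pool.Agent.H45.SN.FP
import Pool.Agent.H45.SN.UU
import Pool.Agent.H45.SN.ZB

set_option autoImplicit false

/-! Steklov, part A: the sum `∑ ℓ² cos ψ`.

PROOFS. `Z = ∑ ((arctan q_j - arctan t)² + u_j²)`. `dpsi`: `(a+b)² ≤ 2a² + 2b²` twice and periodicity: with
`a_j = arctan q_j - arctan t`: `ψ_{j+1}-ψ_j = (a_j + u_j) + (a_{j+1} - u_{j+1})`, square
`≤ 2(a_j+u_j)² + 2(a_{j+1}-u_{j+1})²`, sum over `j` (shift the second by periodicity `pq`, `pu`):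
`∑ 2(a+u)² + 2(a-u)² = 4 ∑ (a²+u²)`.
`psi_sq`: `wirtinger`, `sin²(π/n) = t²/(1+t²)`. `psi_lt`: `psi_max`, `per_side_z`:
`ψ_j² ≤ ((n²-1)/(3n)) Z ≤ 1.5 ∑ gam < 1.5`.
`S_lower`: `cos ψ_j ≥ 1/(1+1.3ψ_j²)` (`cos_psi`) and Cauchy-Schwarz
`(∑ ℓ_j)² ≤ (∑ ℓ_j² cos ψ_j)(∑ 1/cos ψ_j) ≤ S (n + 1.3 ∑ψ²)`; `1 + x ≤ exp x`:
`n + 1.3 ∑ψ² ≤ n exp(1.3 ∑ψ²/n) ≤ n exp(∑ ss/2)`. -/

open Finset

namespace Pool.Agent.H45.SN

private theorem AS_shift {n : ℕ} (f : ℕ → ℝ) (h : f n = f 0) :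
    ∑ j ∈ range n, f (j + 1) = ∑ j ∈ range n, f j := by
  have a1 := Finset.sum_range_succ f n
  have a2 := Finset.sum_range_succ' f n
  rw [a1, h] at a2
  exact (add_right_cancel a2).symm

theorem dpsi {n : ℕ} {q δ y u ψ : ℕ → ℝ} (h : Dat n q δ y u ψ) :
    ∑ j ∈ range n, (ψ (j + 1) - ψ j) ^ 2 ≤
      4 * ∑ j ∈ range n, ((Real.arctan (q j) - Real.arctan (tn n)) ^ 2 + u j ^ 2) := by
  set a : ℕ → ℝ := fun j => Real.arctan (q j) - Real.arctan (tn n) with ha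
  have h1 : ∀ j ∈ range n, (ψ (j + 1) - ψ j) ^ 2 ≤
      2 * (a j + u j) ^ 2 + 2 * (a (j + 1) - u (j + 1)) ^ 2 := by
    intro j hj
    rw [h.dψ j (Finset.mem_range.1 hj)]
    have e : Real.arctan (q j) - Real.arctan (tn n) + (Real.arctan (q (j + 1)) -
        Real.arctan (tn n)) + u j - u (j + 1) = (a j + u j) + (a (j + 1) - u (j + 1)) := by
      simp only [ha]
      ring
    rw [e]
    nlinarith [sq_nonneg ((a j + u j) - (a (j + 1) - u (j + 1)))]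
  have h2 : ∑ j ∈ range n, (a (j + 1) - u (j + 1)) ^ 2 = ∑ j ∈ range n, (a j - u j) ^ 2 := by
    refine AS_shift (fun j => (a j - u j) ^ 2) ?_
    simp only [ha, h.pq, h.pu]
  calc ∑ j ∈ range n, (ψ (j + 1) - ψ j) ^ 2
      ≤ ∑ j ∈ range n, (2 * (a j + u j) ^ 2 + 2 * (a (j + 1) - u (j + 1)) ^ 2) :=
        Finset.sum_le_sum h1
    _ = ∑ j ∈ range n, (2 * (a j + u j) ^ 2 + 2 * (a j - u j) ^ 2) := by
        rw [Finset.sum_add_distrib, Finset.sum_add_distrib, ← Finset.mul_sum, ← Finset.mul_sum,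
          ← Finset.mul_sum, h2]
    _ = 4 * ∑ j ∈ range n, (a j ^ 2 + u j ^ 2) := by
        rw [Finset.mul_sum]
        refine Finset.sum_congr rfl fun j _ => ?_
        ring

private theorem AS_sin {n : ℕ} (hn : 5 ≤ n) :
    0 < Real.sin (Real.pi / n) ∧ 0 < tn n ∧
      Real.sin (Real.pi / n) ^ 2 * (1 + tn n ^ 2) = tn n ^ 2 := by
  have hpi := Real.pi_pos
  have hn0 : (0 : ℝ) < n := by exact_mod_cast (by omega : 0 < n)
  have hn5 : (5 : ℝ) ≤ n := by exact_mod_cast hn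
  have h1 : 0 < Real.pi / n := by positivity
  have h2 : Real.pi / n < Real.pi / 2 := by
    rw [div_lt_div_iff_of_pos_left hpi hn0 (by norm_num)]
    linarith
  have hs : 0 < Real.sin (Real.pi / n) := Real.sin_pos_of_pos_of_lt_pi h1 (by linarith)
  have hc : 0 < Real.cos (Real.pi / n) := Real.cos_pos_of_mem_Ioo ⟨by linarith, h2⟩
  refine ⟨hs, ?_, ?_⟩
  · unfold tn
    rw [Real.tan_eq_sin_div_cos]
    exact div_pos hs hc
  · unfold tn
    rw [Real.tan_eq_sin_div_cos]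
    have h3 := Real.sin_sq_add_cos_sq (Real.pi / n)
    field_simp
    rw [add_comm] at h3
    rw [h3]

theorem psi_sq {n : ℕ} {q δ y u ψ : ℕ → ℝ} (h : Dat n q δ y u ψ) :
    2.6 * (∑ j ∈ range n, ψ j ^ 2) / n ≤ ∑ j ∈ range n, ss n (tn n) (q j) (u j) := by
  have hn := h.hn
  have hn0 : (0 : ℝ) < n := by exact_mod_cast (by omega : 0 < n)
  obtain ⟨hs, ht, hst⟩ := AS_sin hn
  have h1 := wirtinger (by omega) ψ h.pψ h.mean
  have h2 := dpsi h
  set Z := ∑ j ∈ range n, ((Real.arctan (q j) - Real.arctan (tn n)) ^ 2 + u j ^ 2) with hZ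
  have h3 : Real.sin (Real.pi / n) ^ 2 * ∑ j ∈ range n, ψ j ^ 2 ≤ Z := by linarith
  have e : ∑ j ∈ range n, ss n (tn n) (q j) (u j) =
      2.6 * (1 + tn n ^ 2) / (n * tn n ^ 2) * Z := by
    rw [hZ, Finset.mul_sum]
    rfl
  rw [e, div_le_iff₀ hn0]
  have e2 : 2.6 * (1 + tn n ^ 2) / (n * tn n ^ 2) * Z * n =
      2.6 * ((1 + tn n ^ 2) / tn n ^ 2 * Z) := by
    field_simp
  rw [e2]
  have h4 : ∑ j ∈ range n, ψ j ^ 2 ≤ (1 + tn n ^ 2) / tn n ^ 2 * Z := by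
    rw [div_mul_eq_mul_div, le_div_iff₀ (by positivity)]
    calc (∑ j ∈ range n, ψ j ^ 2) * tn n ^ 2
        = (∑ j ∈ range n, ψ j ^ 2) * (Real.sin (Real.pi / n) ^ 2 * (1 + tn n ^ 2)) := by
          rw [hst]
      _ = (1 + tn n ^ 2) * (Real.sin (Real.pi / n) ^ 2 * ∑ j ∈ range n, ψ j ^ 2) := by
          ring
      _ ≤ (1 + tn n ^ 2) * Z := mul_le_mul_of_nonneg_left h3 (by positivity)
  linarith

theorem psi_lt {n : ℕ} {q δ y u ψ : ℕ → ℝ} (h : Dat n q δ y u ψ)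
    (hg : ∀ j < n, 0 ≤ gam (tn n) (q j) (y j))
    (hs : ∑ j ∈ range n, gam (tn n) (q j) (y j) < 1) {j : ℕ} (hj : j < n) :
    ψ j ^ 2 ≤ 1.5 := by
  have hn := h.hn
  have hn0 : (0 : ℝ) < n := by exact_mod_cast (by omega : 0 < n)
  have hn5 : (5 : ℝ) ≤ n := by exact_mod_cast hn
  have h1 := psi_max (by omega) ψ h.pψ h.mean hj
  have h2 := dpsi h
  have hlt : ∀ i ∈ range n, gam (tn n) (q i) (y i) < 1 := by
    intro i hi
    refine lt_of_le_of_lt ?_ hs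
    exact Finset.single_le_sum (f := fun i => gam (tn n) (q i) (y i))
      (fun k hk => hg k (Finset.mem_range.1 hk)) hi
  have h3 : ((n : ℝ) ^ 2 - 1) / (3 * n) *
      ∑ i ∈ range n, ((Real.arctan (q i) - Real.arctan (tn n)) ^ 2 + u i ^ 2) ≤
      1.5 * ∑ i ∈ range n, gam (tn n) (q i) (y i) := by
    rw [Finset.mul_sum, Finset.mul_sum]
    refine Finset.sum_le_sum fun i hi => ?_
    exact per_side_z hn (h.q0 i) (h.y0 i) (h.y1 i) (h.hu i) (h.hs i) (hlt i hi)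
  have hc : 0 ≤ ((n : ℝ) ^ 2 - 1) / (12 * n) := by
    apply div_nonneg _ (by positivity)
    nlinarith
  have h4 := mul_le_mul_of_nonneg_left h2 hc
  have e : ((n : ℝ) ^ 2 - 1) / (12 * n) * (4 * ∑ i ∈ range n,
      ((Real.arctan (q i) - Real.arctan (tn n)) ^ 2 + u i ^ 2)) =
      ((n : ℝ) ^ 2 - 1) / (3 * n) *
      ∑ i ∈ range n, ((Real.arctan (q i) - Real.arctan (tn n)) ^ 2 + u i ^ 2) := by
    field_simp
    ring
  rw [e] at h4
  linarith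

theorem S_lower {n : ℕ} {q δ y u ψ : ℕ → ℝ} (h : Dat n q δ y u ψ)
    (hg : ∀ j < n, 0 ≤ gam (tn n) (q j) (y j))
    (hs : ∑ j ∈ range n, gam (tn n) (q j) (y j) < 1) :
    LLs n q δ y ^ 2 ≤ SSs n q δ y ψ *
      (n * Real.exp ((∑ j ∈ range n, ss n (tn n) (q j) (u j)) / 2)) := by
  have hn := h.hn
  have hn0 : (0 : ℝ) < n := by exact_mod_cast (by omega : 0 < n)
  have hcos : ∀ j ∈ range n, 1 ≤ Real.cos (ψ j) * (1 + 1.3 * ψ j ^ 2) := fun j hj =>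
    cos_psi (psi_lt h hg hs (Finset.mem_range.1 hj))
  have hcp : ∀ j ∈ range n, 0 < Real.cos (ψ j) := by
    intro j hj
    have h1 := hcos j hj
    by_contra hc
    push Not at hc
    have h2 : Real.cos (ψ j) * (1 + 1.3 * ψ j ^ 2) ≤ 0 :=
      mul_nonpos_of_nonpos_of_nonneg hc (by positivity)
    linarith
  set f : ℕ → ℝ := fun j => (TT (q j) (y j) * δ j) ^ 2 * Real.cos (ψ j) with hf
  set g : ℕ → ℝ := fun j => (Real.cos (ψ j))⁻¹ with hg'
  have hf0 : ∀ j ∈ range n, 0 ≤ f j := fun j hj => mul_nonneg (sq_nonneg _) (hcp j hj).le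
  have hg0 : ∀ j ∈ range n, 0 ≤ g j := fun j hj => inv_nonneg.2 (hcp j hj).le
  have h1 : (∑ j ∈ range n, TT (q j) (y j) * δ j) ^ 2 ≤
      (∑ j ∈ range n, f j) * ∑ j ∈ range n, g j := by
    refine Finset.sum_sq_le_sum_mul_sum_of_sq_le_mul (range n) hf0 hg0 fun j hj => le_of_eq ?_
    simp only [hf, hg']
    rw [mul_assoc, mul_inv_cancel₀ (hcp j hj).ne', mul_one]
  have h2 : ∑ j ∈ range n, g j ≤ n + 1.3 * ∑ j ∈ range n, ψ j ^ 2 := by
    calc ∑ j ∈ range n, g j ≤ ∑ j ∈ range n, (1 + 1.3 * ψ j ^ 2) := by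
          refine Finset.sum_le_sum fun j hj => ?_
          simp only [hg']
          rw [inv_le_iff_one_le_mul₀ (hcp j hj)]
          have := hcos j hj
          linarith
      _ = n + 1.3 * ∑ j ∈ range n, ψ j ^ 2 := by
          rw [Finset.sum_add_distrib, Finset.sum_const, Finset.card_range, nsmul_eq_mul, mul_one,
            ← Finset.mul_sum]
  have h3 := psi_sq h
  have h4 : n + 1.3 * ∑ j ∈ range n, ψ j ^ 2 ≤
      n * Real.exp ((∑ j ∈ range n, ss n (tn n) (q j) (u j)) / 2) := by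
    have h5 := Real.add_one_le_exp ((∑ j ∈ range n, ss n (tn n) (q j) (u j)) / 2)
    have h6 : 1.3 * (∑ j ∈ range n, ψ j ^ 2) / n + 1 ≤
        Real.exp ((∑ j ∈ range n, ss n (tn n) (q j) (u j)) / 2) := by
      have e : 2.6 * (∑ j ∈ range n, ψ j ^ 2) / n = 2 * (1.3 * (∑ j ∈ range n, ψ j ^ 2) / n) := by
        ring
      linarith
    have h7 := mul_le_mul_of_nonneg_left h6 hn0.le
    have e : (n : ℝ) * (1.3 * (∑ j ∈ range n, ψ j ^ 2) / n + 1) =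
        n + 1.3 * ∑ j ∈ range n, ψ j ^ 2 := by
      field_simp
      ring
    linarith
  unfold LLs SSs
  refine h1.trans ?_
  exact mul_le_mul_of_nonneg_left (h2.trans h4) (Finset.sum_nonneg hf0)

end Pool.Agent.H45.SN
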