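import Pool.Agent.H45.SN.NT2

set_option autoImplicit false

open Finset

/-! Steklov, part A: constants, easy ones. `t = tn n`, `τ = t²`, `yo = 1 + τ/3`, `A* = yo³/1.7`.

PROOFS. `K_three`: `10.4 A τ ≤ n yo`: `10.4 yo² τ/1.7 ≤ n`: `n = 5`: `10.4·1.38288·0.52787/1.7 = 4.466`;
`n ≥ 6` (`τ ≤ 1/3`... or just `τ ≤ 0.52787`): `4.466 ≤ 6`. `K_four`: `yo + A τ/(2n) ≤ 1.176 + 0.0506`.
`K_P0`: `t yo - (1-t⁴) arctan t ≥ t³(2/3 + (4/5)τ - τ²/3 + τ³/5)` from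
`arctan t ≤ t - t³/3 + t⁵/5` (`t ≥ 0`), and
`2/3 + (4/5)τ - τ²/3 + τ³/5 ≥ (1+τ/3)³/1.7` on `[0, 0.5279]` (difference
`0.0784 + 0.2117τ - 0.5294τ² + 0.1782τ³`, at `0.5279`: `0.069`). -/

namespace Pool.Agent.H45.SN

private theorem K1_arctan {t : ℝ} (ht : 0 ≤ t) :
    Real.arctan t ≤ t - t ^ 3 / 3 + t ^ 5 / 5 := by
  have hd : ∀ x : ℝ, HasDerivAt (fun x : ℝ => x - x ^ 3 / 3 + x ^ 5 / 5 - Real.arctan x)
      (1 - x ^ 2 + x ^ 4 - 1 / (1 + x ^ 2)) x := by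
    intro x
    have h1 := ((((hasDerivAt_id x).sub ((hasDerivAt_pow 3 x).div_const 3)).add
      ((hasDerivAt_pow 5 x).div_const 5)).sub (Real.hasDerivAt_arctan x))
    refine h1.congr_deriv ?_
    norm_num
  have hm : MonotoneOn (fun x : ℝ => x - x ^ 3 / 3 + x ^ 5 / 5 - Real.arctan x) (Set.Ici 0) := by
    refine monotoneOn_of_deriv_nonneg (convex_Ici 0) (fun x _ => (hd x).continuousAt.continuousWithinAt)
      (fun x _ => (hd x).differentiableAt.differentiableWithinAt) fun x _ => ?_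
    rw [(hd x).deriv]
    have h1 : 0 < 1 + x ^ 2 := by positivity
    have e : 1 - x ^ 2 + x ^ 4 - 1 / (1 + x ^ 2) = x ^ 6 / (1 + x ^ 2) := by
      field_simp
      ring
    rw [e]
    positivity
  have h := hm (Set.mem_Ici.2 le_rfl) (Set.mem_Ici.2 ht) ht
  simp only [Real.arctan_zero] at h
  norm_num at h
  linarith

private theorem K1_yo {n : ℕ} (hn : 5 ≤ n) : 1 ≤ yo (tn n) ∧ yo (tn n) ≤ 1.17596 := by
  have h1 := nt_sq_le hn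
  have h2 := sq_nonneg (tn n)
  unfold yo
  constructor <;> linarith

theorem K_three {n : ℕ} (hn : 5 ≤ n) {A : ℝ} (hA0 : 0 ≤ A) (hA : 1.7 * A ≤ yo (tn n) ^ 3) :
    10.4 * A * tn n ^ 2 ≤ n * yo (tn n) := by
  have h1 := nt_sq_le hn
  have h2 := sq_nonneg (tn n)
  obtain ⟨h3, h4⟩ := K1_yo hn
  have h5 : (5 : ℝ) ≤ n := by exact_mod_cast hn
  set y := yo (tn n)
  set τ := tn n ^ 2
  have h6 : y ^ 2 ≤ 1.38289 := by nlinarith
  have h7 : A ≤ y * (1.38289 / 1.7) := by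
    have : y ^ 3 ≤ y * 1.38289 := by
      have : y ^ 3 = y * y ^ 2 := by ring
      rw [this]
      exact mul_le_mul_of_nonneg_left h6 (by linarith)
    linarith
  have h8 : A * τ ≤ y * (1.38289 / 1.7) * 0.52787 :=
    mul_le_mul h7 h1 h2 (by positivity)
  have h9 : 5 * y ≤ n * y := mul_le_mul_of_nonneg_right h5 (by linarith)
  nlinarith

theorem K_four {n : ℕ} (hn : 5 ≤ n) {A : ℝ} (hA0 : 0 ≤ A) (hA : 1.7 * A ≤ yo (tn n) ^ 3) :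
    yo (tn n) + A * tn n ^ 2 / (2 * n) ≤ 1.25 := by
  have h1 := nt_sq_le hn
  have h2 := sq_nonneg (tn n)
  obtain ⟨h3, h4⟩ := K1_yo hn
  have h5 : (5 : ℝ) ≤ n := by exact_mod_cast hn
  set y := yo (tn n)
  set τ := tn n ^ 2
  have h6 : y ^ 2 ≤ 1.38289 := by nlinarith
  have h7 : y ^ 3 ≤ 1.6263 := by
    have e : y ^ 3 = y * y ^ 2 := by ring
    rw [e]
    nlinarith
  have h8 : A ≤ 0.957 := by linarith
  have h9 : A * τ ≤ 0.957 * 0.52787 := mul_le_mul h8 h1 h2 (by norm_num)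
  have h10 : A * τ / (2 * n) ≤ 0.051 := by
    rw [div_le_iff₀ (by linarith)]
    nlinarith
  linarith

theorem K_P0 {n : ℕ} (hn : 5 ≤ n) {A : ℝ} (hA0 : 0 ≤ A) (hA : 1.7 * A ≤ yo (tn n) ^ 3) :
    A * tn n ^ 3 ≤ tn n * yo (tn n) - (1 - tn n ^ 4) * Real.arctan (tn n) := by
  have h1 := nt_sq_le hn
  have h2 := sq_nonneg (tn n)
  have h3 := nt_pos hn
  have h4 := K1_arctan h3.le
  set t := tn n with ht
  have e4 : t ^ 4 = t ^ 2 * t ^ 2 := by ring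
  have h5 : 0 ≤ 1 - t ^ 4 := by rw [e4]; nlinarith
  have h6 : (1 - t ^ 4) * Real.arctan t ≤ (1 - t ^ 4) * (t - t ^ 3 / 3 + t ^ 5 / 5) :=
    mul_le_mul_of_nonneg_left h4 h5
  have h7 : A ≤ 2 / 3 + 4 / 5 * t ^ 2 - (t ^ 2) ^ 2 / 3 + (t ^ 2) ^ 3 / 5 := by
    have h8 : yo t ^ 3 ≤ 1.7 * (2 / 3 + 4 / 5 * t ^ 2 - (t ^ 2) ^ 2 / 3 + (t ^ 2) ^ 3 / 5) := by
      unfold yo
      generalize t ^ 2 = x at h1 h2
      have h9 : 0 ≤ x * (0.52787 - x) := mul_nonneg h2 (by linarith)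
      have h10 : 0 ≤ x ^ 3 := by positivity
      nlinarith
    linarith
  have h8 : A * t ^ 3 ≤ (2 / 3 + 4 / 5 * t ^ 2 - (t ^ 2) ^ 2 / 3 + (t ^ 2) ^ 3 / 5) * t ^ 3 :=
    mul_le_mul_of_nonneg_right h7 (by positivity)
  have h9 : (2 / 3 + 4 / 5 * t ^ 2 - (t ^ 2) ^ 2 / 3 + (t ^ 2) ^ 3 / 5) * t ^ 3 =
      t * yo t - (1 - t ^ 4) * (t - t ^ 3 / 3 + t ^ 5 / 5) := by
    unfold yo
    ring
  linarith

end Pool.Agent.H45.SN
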