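import Pool.Agent.H45.SN.XB
import Pool.Agent.H45.SN.UU

set_option autoImplicit false

/-! Steklov, part A: wide sides, dependence on `η` (definitions and reduction to one piece).

`x = (r-1)²/r`, `G = 1.0453 x`. PROOF of `piece`. By `hk`: `κ (1-G) ≤ bb r`, so `g = bb r η/(1-G)`
satisfies `g ≥ κ η`, `g < 1`; `exp_log3` and `C ≤ η (A + Cq η)/(1-0.5279 η) + 0.52 η/(1-0.1382 η) ≤
κη + (κη)²/2 + (κη)³/3`. Here
`c2 r η = 0.263 r η/(1-y) + 0.52 η/(1-0.1382η) + 0.6934 r ((dr r + dy r η)²/(1-y) - (dr r)²)`, `y = 0.5279 η`,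
`(dr+dy)²/(1-y) - dr² = (dr² y + 2 dr dy + dy²)/(1-y)`, `dy = 0.5279·3.5279·W(r) η`,
`W(r) = (3+2.6395r²)/(3+0.5279r²)²`. -/

open Finset

namespace Pool.Agent.H45.SN

/-- bound for `δ*(0) - δ*(y)` -/
noncomputable def dy (r η : ℝ) : ℝ :=
  0.5279 * η * (3.5279 * (3 + 2.6395 * r ^ 2) / (3 + 0.5279 * r ^ 2) ^ 2)

/-- the exponent for wide sides -/
noncomputable def c2 (r η : ℝ) : ℝ :=
  0.263 * r * η / (1 - 0.5279 * η) + 0.52 * η / (1 - 0.1382 * η) +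
    0.6934 * r * ((dr r + dy r η) ^ 2 / (1 - 0.5279 * η) - dr r ^ 2)

private theorem yb_dr0 {r : ℝ} (h0 : 1 ≤ r) : 0 ≤ dr r := by
  unfold dr
  apply div_nonneg _ (by positivity)
  nlinarith

theorem piece {r η k A C : ℝ} (h0 : 1 ≤ r) (h1 : r ≤ 2.6) (hη : 0 ≤ η) (hk1 : 1.2 ≤ k)
    (hk : k * (1 - 1.0453 * ((r - 1) ^ 2 / r)) ≤ bb r)
    (hA : 0.263 * r + 0.6934 * r * (0.5279 * dr r ^ 2 + 2 * dr r *
      (0.5279 * (3.5279 * (3 + 2.6395 * r ^ 2) / (3 + 0.5279 * r ^ 2) ^ 2))) ≤ A)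
    (hC : 0.6934 * r * (0.5279 * (3.5279 * (3 + 2.6395 * r ^ 2) / (3 + 0.5279 * r ^ 2) ^ 2)) ^ 2 ≤ C)
    (hu : ∀ e : ℝ, 0 ≤ e → k * e ≤ 1 →
      (A + C * e) * (1 - 0.1382 * e) + 0.52 * (1 - 0.5279 * e) ≤
        (k + k ^ 2 * e / 2 + k ^ 3 * e ^ 2 / 3) * (1 - 0.5279 * e) * (1 - 0.1382 * e))
    (hG : 1.0453 * ((r - 1) ^ 2 / r) + bb r * η < 1) :
    (1 - 1.0453 * ((r - 1) ^ 2 / r) - bb r * η) * Real.exp (c2 r η) ≤
      1 - 1.0453 * ((r - 1) ^ 2 / r) := by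
  have hr : 0 < r := by linarith
  have hb : 0 < bb r := by unfold bb; positivity
  have hbη : 0 ≤ bb r * η := mul_nonneg hb.le hη
  obtain ⟨D, hD⟩ : ∃ D, D = 1 - 1.0453 * ((r - 1) ^ 2 / r) := ⟨_, rfl⟩
  rw [← hD] at hk ⊢
  have hD0 : 0 < D := by rw [hD]; linarith
  have hgD : bb r * η < D := by rw [hD]; linarith
  obtain ⟨S, hS⟩ : ∃ S, S = 3.5279 * (3 + 2.6395 * r ^ 2) / (3 + 0.5279 * r ^ 2) ^ 2 := ⟨_, rfl⟩
  rw [← hS] at hA hC
  have hkη : k * η * D ≤ bb r * η := by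
    have := mul_le_mul_of_nonneg_right hk hη
    linarith
  obtain ⟨g, hg⟩ : ∃ g, g = bb r * η / D := ⟨_, rfl⟩
  have hgk : k * η ≤ g := by
    rw [hg, le_div_iff₀ hD0]
    exact hkη
  have hg1 : g < 1 := by
    rw [hg, div_lt_one hD0]
    exact hgD
  have hke0 : 0 ≤ k * η := mul_nonneg (by linarith) hη
  have hg0 : 0 ≤ g := hke0.trans hgk
  have hke1 : k * η ≤ 1 := by linarith
  have hη1 : η ≤ 0.84 := by
    by_contra hne
    rw [not_le] at hne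
    have : 1.2 * 0.84 ≤ k * η := mul_le_mul hk1 hne.le (by norm_num) (by linarith)
    linarith
  have hy1 : 0 < 1 - 0.5279 * η := by linarith
  have hy2 : 0 < 1 - 0.1382 * η := by linarith
  have hc : c2 r η ≤ k * η + (k * η) ^ 2 / 2 + (k * η) ^ 3 / 3 := by
    have e1 : c2 r η = η * ((0.263 * r + 0.6934 * r * (0.5279 * dr r ^ 2 + 2 * dr r *
        (0.5279 * S)) + 0.6934 * r * (0.5279 * S) ^ 2 * η) / (1 - 0.5279 * η) +
        0.52 / (1 - 0.1382 * η)) := by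
      have e0 : (dr r + 0.5279 * η * S) ^ 2 / (1 - 0.5279 * η) - dr r ^ 2 =
          η * ((0.5279 * dr r ^ 2 + 2 * dr r * (0.5279 * S)) + (0.5279 * S) ^ 2 * η) /
            (1 - 0.5279 * η) := by
        rw [eq_div_iff hy1.ne', sub_mul, div_mul_cancel₀ _ hy1.ne']
        ring
      unfold c2 dy
      rw [← hS, e0]
      ring
    rw [e1]
    have h2 : (0.263 * r + 0.6934 * r * (0.5279 * dr r ^ 2 + 2 * dr r *
        (0.5279 * S)) + 0.6934 * r * (0.5279 * S) ^ 2 * η) / (1 - 0.5279 * η) ≤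
        (A + C * η) / (1 - 0.5279 * η) := by
      apply div_le_div_of_nonneg_right _ hy1.le
      have := mul_le_mul_of_nonneg_right hC hη
      linarith
    have h3 : (A + C * η) / (1 - 0.5279 * η) + 0.52 / (1 - 0.1382 * η) ≤
        k + k ^ 2 * η / 2 + k ^ 3 * η ^ 2 / 3 := by
      rw [div_add_div _ _ hy1.ne' hy2.ne', div_le_iff₀ (mul_pos hy1 hy2)]
      have := hu η hη hke1
      linarith
    have h4 := mul_le_mul_of_nonneg_left ((add_le_add_left h2 _).trans h3) hη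
    have e2 : η * (k + k ^ 2 * η / 2 + k ^ 3 * η ^ 2 / 3) =
        k * η + (k * η) ^ 2 / 2 + (k * η) ^ 3 / 3 := by ring
    rw [← e2]
    exact h4
  have hc2 : c2 r η ≤ g + g ^ 2 / 2 + g ^ 3 / 3 := by
    have h2 : (k * η) ^ 2 ≤ g ^ 2 := pow_le_pow_left₀ hke0 hgk 2
    have h3 : (k * η) ^ 3 ≤ g ^ 3 := pow_le_pow_left₀ hke0 hgk 3
    linarith
  have h2 := exp_log3 hg0 hg1.le
  have h3 : (1 - g) * Real.exp (c2 r η) ≤ 1 :=
    (mul_le_mul_of_nonneg_left (Real.exp_le_exp.2 hc2) (by linarith)).trans h2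
  have e3 : (D - bb r * η) = D * (1 - g) := by
    rw [hg]
    field_simp
  rw [e3, mul_assoc]
  calc D * ((1 - g) * Real.exp (c2 r η)) ≤ D * 1 := mul_le_mul_of_nonneg_left h3 hD0.le
    _ = D := mul_one D

end Pool.Agent.H45.SN
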