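import Pool.Agent.H45.SN.NT2
import Pool.Agent.H45.SN.YA
import Pool.Agent.H45.SN.YB

set_option autoImplicit false

/-! Steklov, part A: bounds for `ee` (energy) and `vv` (perimeter) in the variables `r`, `η`.

PROOFS (`t = tn n`, `τ = t² ≤ 0.52787`, `q = r t`, `Q = r²τ`, `y = τη`, `K = KK q y`).
`ee_le`: `q/t = r`; `β (1+τ) r y/(1-y) ≤ 0.326·1.5279·0.5279 r η/(1-0.5279η)`, `0.326·1.5279·0.5279 ≤ 0.263`.
`vv`: `3 + K = (3+Q-3(1-Q)y)/(1-y)²`, so `(τ-K)/(3+K) = (3+τ)/(3+K) - 1 = Δ - E`, `Δ = (τ-Q)/(3+Q)`,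
`E = (3+τ)/(3+Q) · y (3+5Q-(3+Q)y)/(3+Q-3(1-Q)y)`, and `0 ≤ E ≤ (3+τ) y (3+5Q)/(3+Q)²` because
`(3+Q)² ≥ 3(3+5Q)(1-Q)`. The right side is `η τ(3+τ)(3+5τr²)/(3+τr²)²`, increasing in `τ` on
`[0, 0.5279]` (for all `1/1000 ≤ ... r ≤ 2.6`: the logarithmic derivative is
`1/τ + 1/(3+τ) + r²(9-5Q)/((3+5Q)(3+Q)) > 0`), so it is `≤ dy r η` (value at `τ = 0.5279`; in `c1` written
out). Thin: `Δ ≥ 0`, `(Δ-E)² ≤ Δ² + E²`, `Δ ≤ 0.5279(1-r²)/3 ≤ 0.176 (1-r²)`; `1.7334·2/n ≤ 0.69336`,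
`1/(1-y) = 1 + y/(1-y) ≤ 1 + 0.5279η/(1-0.5279η)`, `0.69336·0.176² ≤ 0.0215`, `0.0215·0.5279 ≤ 0.0114`,
`0.69336 (0.5279·3.5279)² ≤ 2.4052`. Wide: `0 ≤ -Δ ≤ dr r`, so `(Δ-E)² ≤ (dr r + dy r η)²`. -/

open Finset

namespace Pool.Agent.H45.SN

private lemma SB_tau {n : ℕ} (hn : 5 ≤ n) : 0 < tn n ∧ 0 < tn n ^ 2 ∧ tn n ^ 2 ≤ 0.5279 :=
  ⟨nt_pos hn, pow_pos (nt_pos hn) 2, (nt_sq_le hn).trans (by norm_num)⟩

theorem ee_le {n : ℕ} (hn : 5 ≤ n) {β r η : ℝ} (hβ0 : 0 ≤ β) (hβ : β ≤ 0.326) (h0 : 0 < r)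
    (hη : 0 ≤ η) (hη1 : η ≤ 0.9434) :
    ee (tn n) β (r * tn n) (tn n ^ 2 * η) ≤
      0.326 * ((1 - r) ^ 2 / r) + 0.263 * r * η / (1 - 0.5279 * η) := by
  obtain ⟨ht, hτ0, hτ⟩ := SB_tau hn
  have hτ' := nt_sq_le hn
  have hq : r * tn n / tn n = r := by
    rw [mul_div_assoc, div_self ht.ne', mul_one]
  unfold ee
  rw [hq]
  generalize tn n ^ 2 = τ at *
  have hY : (0 : ℝ) < 1 - 0.5279 * η := by linarith
  have hy1 : τ * η ≤ 0.5279 * η := mul_le_mul_of_nonneg_right hτ hη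
  have hy : 0 < 1 - τ * η := by linarith
  have hy0 : 0 ≤ τ * η := by positivity
  have e1 : 0 ≤ (1 - r) ^ 2 / r := by positivity
  have e2 : β * ((1 - r) ^ 2 / r) ≤ 0.326 * ((1 - r) ^ 2 / r) :=
    mul_le_mul_of_nonneg_right hβ e1
  have e3 : τ * η / (1 - τ * η) ≤ 0.5279 * η / (1 - 0.5279 * η) := by
    rw [div_le_div_iff₀ hy hY]
    nlinarith
  have e4 : 0 ≤ τ * η / (1 - τ * η) := by positivity
  have e5 : β * (1 + τ) ≤ 0.326 * 1.52787 := by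
    have : 1 + τ ≤ 1.52787 := by linarith
    exact mul_le_mul hβ this (by linarith) (by norm_num)
  have e6 : β * (1 + τ) * (τ * η / (1 - τ * η)) ≤
      0.326 * 1.52787 * (0.5279 * η / (1 - 0.5279 * η)) :=
    mul_le_mul e5 e3 e4 (by norm_num)
  have e7 : r * (β * (1 + τ) * (τ * η / (1 - τ * η))) ≤
      r * (0.326 * 1.52787 * (0.5279 * η / (1 - 0.5279 * η))) :=
    mul_le_mul_of_nonneg_left e6 h0.le
  have e8 : r * (0.326 * 1.52787 * (0.5279 * η / (1 - 0.5279 * η))) ≤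
      0.263 * r * η / (1 - 0.5279 * η) := by
    have e9 : r * (0.326 * 1.52787 * (0.5279 * η / (1 - 0.5279 * η))) =
        (0.326 * 1.52787 * 0.5279) * (r * η) / (1 - 0.5279 * η) := by ring
    rw [e9]
    refine div_le_div_of_nonneg_right ?_ hY.le
    have : 0 ≤ r * η := by positivity
    nlinarith
  have e10 : β * ((1 - r) ^ 2 / r + (1 + τ) * r * (τ * η) / (1 - τ * η)) =
      β * ((1 - r) ^ 2 / r) + r * (β * (1 + τ) * (τ * η / (1 - τ * η))) := by ring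
  rw [e10]
  linarith

/-- `τ ↦ τ (3 + 5 τ R) / (3 + τ R)²` is increasing -/
private lemma SB_mono {a b R : ℝ} (ha : 0 ≤ a) (hab : a ≤ b) (hR : 0 ≤ R) :
    a * (3 + 5 * (R * a)) / (3 + R * a) ^ 2 ≤ b * (3 + 5 * (R * b)) / (3 + R * b) ^ 2 := by
  have hb : 0 ≤ b := ha.trans hab
  have h1 : 0 < (3 + R * a) ^ 2 := by positivity
  have h2 : 0 < (3 + R * b) ^ 2 := by positivity
  rw [div_le_div_iff₀ h1 h2]
  have h3 : b * (3 + 5 * (R * b)) * (3 + R * a) ^ 2 - a * (3 + 5 * (R * a)) * (3 + R * b) ^ 2 =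
      (b - a) * (27 + 45 * R * (a + b) + 27 * a * b * R ^ 2) := by ring
  have h4 : 0 ≤ (b - a) * (27 + 45 * R * (a + b) + 27 * a * b * R ^ 2) :=
    mul_nonneg (by linarith) (by positivity)
  linarith

private lemma SB_E {τ r η q : ℝ} (hτ0 : 0 < τ) (hτ : τ ≤ 0.5279) (h0 : 0 < r) (hη : 0 ≤ η)
    (hy : τ * η < 1) (hq : q ^ 2 = r ^ 2 * τ) :
    ∃ E : ℝ, 0 ≤ E ∧ E ≤ dy r η ∧ (τ - KK q (τ * η)) / (3 + KK q (τ * η)) =
      (τ - r ^ 2 * τ) / (3 + r ^ 2 * τ) - E := by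
  set Q : ℝ := r ^ 2 * τ with hQ
  have hQ0 : 0 < Q := by positivity
  set y : ℝ := τ * η with hyd
  have hy0 : 0 ≤ y := by positivity
  have h1y : 0 < 1 - y := by linarith
  have hD : 0 < 3 + Q - 3 * (1 - Q) * y := by
    nlinarith [mul_nonneg hQ0.le hy0]
  have h3Q : 0 < 3 + Q := by linarith
  have hN : 0 ≤ 3 + 5 * Q - (3 + Q) * y := by nlinarith [mul_pos h3Q h1y]
  have hE2 : (3 + 5 * Q - (3 + Q) * y) / (3 + Q - 3 * (1 - Q) * y) ≤ (3 + 5 * Q) / (3 + Q) := by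
    rw [div_le_div_iff₀ hD h3Q]
    nlinarith [mul_nonneg (sq_nonneg Q) hy0]
  refine ⟨(3 + τ) / (3 + Q) * (y * ((3 + 5 * Q - (3 + Q) * y) / (3 + Q - 3 * (1 - Q) * y))),
    ?_, ?_, ?_⟩
  · positivity
  · have h1 : (3 + τ) / (3 + Q) * (y * ((3 + 5 * Q - (3 + Q) * y) / (3 + Q - 3 * (1 - Q) * y))) ≤
        (3 + τ) / (3 + Q) * (y * ((3 + 5 * Q) / (3 + Q))) := by
      refine mul_le_mul_of_nonneg_left ?_ (by positivity)
      exact mul_le_mul_of_nonneg_left hE2 hy0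
    refine h1.trans ?_
    have h2 : (3 + τ) / (3 + Q) * (y * ((3 + 5 * Q) / (3 + Q))) =
        η * ((3 + τ) * (τ * (3 + 5 * (r ^ 2 * τ)) / (3 + r ^ 2 * τ) ^ 2)) := by
      rw [hyd, hQ]
      rw [hQ] at h3Q
      field_simp
    have h3 := SB_mono hτ0.le hτ (sq_nonneg r)
    have h4 : (3 + τ) * (τ * (3 + 5 * (r ^ 2 * τ)) / (3 + r ^ 2 * τ) ^ 2) ≤
        3.5279 * (0.5279 * (3 + 5 * (r ^ 2 * 0.5279)) / (3 + r ^ 2 * 0.5279) ^ 2) := by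
      refine mul_le_mul (by linarith) h3 (by positivity) (by norm_num)
    have h5 : dy r η = η * (3.5279 * (0.5279 * (3 + 5 * (r ^ 2 * 0.5279)) /
        (3 + r ^ 2 * 0.5279) ^ 2)) := by
      unfold dy
      have h6 : (3 : ℝ) + 2.6395 * r ^ 2 = 3 + 5 * (r ^ 2 * 0.5279) := by ring
      have h7 : (3 : ℝ) + 0.5279 * r ^ 2 = 3 + r ^ 2 * 0.5279 := by ring
      rw [h6, h7]
      ring
    rw [h2, h5]
    exact mul_le_mul_of_nonneg_left h4 hη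
  · have hK : KK q y = (Q + 3 * y * (1 + Q - y)) / (1 - y) ^ 2 := by
      unfold KK
      rw [hq]
    have h3K : 3 + KK q y = (3 + Q - 3 * (1 - Q) * y) / (1 - y) ^ 2 := by
      rw [hK]
      field_simp
      ring
    have hτK : τ - KK q y = (3 + τ) - (3 + Q - 3 * (1 - Q) * y) / (1 - y) ^ 2 := by
      rw [← h3K]
      ring
    rw [h3K, hτK]
    field_simp
    ring

private lemma SB_pre {n : ℕ} (hn : 5 ≤ n) {r y Y X : ℝ} (h0 : 0 < r) (hyY : y ≤ Y) (hY : Y < 1)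
    (hX : 0 ≤ X) :
    1.7334 / n * (2 * r / (1 - y)) * X ≤ 0.69336 * r * X / (1 - Y) := by
  have hn' : (5 : ℝ) ≤ n := by exact_mod_cast hn
  have h1 : (1.7334 : ℝ) / n ≤ 0.34668 := by
    rw [div_le_iff₀ (by linarith)]
    nlinarith
  have h2 : 2 * r / (1 - y) ≤ 2 * r / (1 - Y) :=
    div_le_div_of_nonneg_left (by positivity) (by linarith) (by linarith)
  have h3 : 0 ≤ 2 * r / (1 - y) := div_nonneg (by positivity) (by linarith)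
  have h4 : 1.7334 / n * (2 * r / (1 - y)) ≤ 0.34668 * (2 * r / (1 - Y)) :=
    mul_le_mul h1 h2 h3 (by norm_num)
  refine (mul_le_mul_of_nonneg_right h4 hX).trans (le_of_eq ?_)
  ring

private lemma SB_alg (A B C : ℝ) {Z : ℝ} (hZ : Z ≠ 0) :
    A + B / Z + C / Z = (A * Z + B + C) / Z := by
  field_simp

theorem vv_thin {n : ℕ} (hn : 5 ≤ n) {r η : ℝ} (h0 : 0 < r) (h1 : r ≤ 1) (hη : 0 ≤ η)
    (hη1 : η ≤ 0.9434) :
    vv n (tn n) (r * tn n) (tn n ^ 2 * η) ≤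
      0.0215 * r * (1 - r ^ 2) ^ 2 + 0.0114 * r * (1 - r ^ 2) ^ 2 * η / (1 - 0.5279 * η) +
      2.4052 * r * η ^ 2 * ((3 + 2.6395 * r ^ 2) / (3 + 0.5279 * r ^ 2) ^ 2) ^ 2 /
        (1 - 0.5279 * η) := by
  obtain ⟨ht, hτ0, hτ⟩ := SB_tau hn
  have hq : r * tn n / tn n = r := by
    rw [mul_div_assoc, div_self ht.ne', mul_one]
  have hq2 : (r * tn n) ^ 2 = r ^ 2 * tn n ^ 2 := by ring
  have hY : (0 : ℝ) < 1 - 0.5279 * η := by linarith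
  have hy1 : tn n ^ 2 * η ≤ 0.5279 * η := mul_le_mul_of_nonneg_right hτ hη
  obtain ⟨E, hE0, hE1, hE2⟩ := SB_E hτ0 hτ h0 hη (by linarith) hq2
  unfold vv
  rw [hq, hE2]
  have hr2 : 0 ≤ 1 - r ^ 2 := by nlinarith
  have hΔ0 : 0 ≤ (tn n ^ 2 - r ^ 2 * tn n ^ 2) / (3 + r ^ 2 * tn n ^ 2) := by
    refine div_nonneg ?_ (by positivity)
    nlinarith
  have hΔ1 : (tn n ^ 2 - r ^ 2 * tn n ^ 2) / (3 + r ^ 2 * tn n ^ 2) ≤ 0.176 * (1 - r ^ 2) := by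
    rw [div_le_iff₀ (by positivity)]
    have a1 : tn n ^ 2 - r ^ 2 * tn n ^ 2 ≤ 0.5279 * (1 - r ^ 2) := by nlinarith
    have a2 : 0 ≤ (1 - r ^ 2) * (r ^ 2 * tn n ^ 2) := by positivity
    nlinarith
  generalize (tn n ^ 2 - r ^ 2 * tn n ^ 2) / (3 + r ^ 2 * tn n ^ 2) = Δ at *
  have hX : (Δ - E) ^ 2 ≤ (0.176 * (1 - r ^ 2)) ^ 2 + dy r η ^ 2 := by
    have a1 : Δ ^ 2 ≤ (0.176 * (1 - r ^ 2)) ^ 2 := pow_le_pow_left₀ hΔ0 hΔ1 2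
    have a2 : E ^ 2 ≤ dy r η ^ 2 := pow_le_pow_left₀ hE0 hE1 2
    nlinarith [mul_nonneg hΔ0 hE0]
  have hmain := SB_pre hn (y := tn n ^ 2 * η) (Y := 0.5279 * η) h0 hy1 (by linarith)
    (sq_nonneg (Δ - E))
  refine hmain.trans ?_
  set W : ℝ := (3 + 2.6395 * r ^ 2) / (3 + 0.5279 * r ^ 2) ^ 2 with hW
  have hdy : dy r η = 0.5279 * 3.5279 * (η * W) := by
    unfold dy
    rw [hW]
    ring
  have hb : 0.69336 * r * (Δ - E) ^ 2 ≤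
      0.69336 * r * ((0.176 * (1 - r ^ 2)) ^ 2 + dy r η ^ 2) :=
    mul_le_mul_of_nonneg_left hX (by positivity)
  refine (div_le_div_of_nonneg_right hb hY.le).trans ?_
  rw [hdy]
  have hs : 0 ≤ r * (1 - r ^ 2) ^ 2 := by positivity
  have hs2 : 0 ≤ r * (η ^ 2 * W ^ 2) := by positivity
  have hs3 : 0 ≤ r * (1 - r ^ 2) ^ 2 * η := by positivity
  have key : 0.69336 * r * ((0.176 * (1 - r ^ 2)) ^ 2 + (0.5279 * 3.5279 * (η * W)) ^ 2) ≤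
      0.0215 * r * (1 - r ^ 2) ^ 2 * (1 - 0.5279 * η) + 0.0114 * r * (1 - r ^ 2) ^ 2 * η +
        2.4052 * r * η ^ 2 * W ^ 2 := by
    nlinarith
  have hfin : 0.0215 * r * (1 - r ^ 2) ^ 2 + 0.0114 * r * (1 - r ^ 2) ^ 2 * η / (1 - 0.5279 * η) +
      2.4052 * r * η ^ 2 * W ^ 2 / (1 - 0.5279 * η) =
      (0.0215 * r * (1 - r ^ 2) ^ 2 * (1 - 0.5279 * η) + 0.0114 * r * (1 - r ^ 2) ^ 2 * η +
        2.4052 * r * η ^ 2 * W ^ 2) / (1 - 0.5279 * η) := SB_alg _ _ _ hY.ne'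
  rw [hfin]
  exact div_le_div_of_nonneg_right key hY.le

theorem vv_wide {n : ℕ} (hn : 5 ≤ n) {r η : ℝ} (h0 : 1 ≤ r) (h1 : r ≤ 2.6) (hη : 0 ≤ η)
    (hη1 : η ≤ 0.82) :
    vv n (tn n) (r * tn n) (tn n ^ 2 * η) ≤
      0.6934 * r * ((dr r + dy r η) ^ 2 / (1 - 0.5279 * η)) := by
  obtain ⟨ht, hτ0, hτ⟩ := SB_tau hn
  have hr0 : 0 < r := by linarith
  have hq : r * tn n / tn n = r := by
    rw [mul_div_assoc, div_self ht.ne', mul_one]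
  have hq2 : (r * tn n) ^ 2 = r ^ 2 * tn n ^ 2 := by ring
  have hY : (0 : ℝ) < 1 - 0.5279 * η := by linarith
  have hy1 : tn n ^ 2 * η ≤ 0.5279 * η := mul_le_mul_of_nonneg_right hτ hη
  obtain ⟨E, hE0, hE1, hE2⟩ := SB_E hτ0 hτ hr0 hη (by linarith) hq2
  unfold vv
  rw [hq, hE2]
  have hr2 : 0 ≤ r ^ 2 - 1 := by nlinarith
  have hΔ0 : (tn n ^ 2 - r ^ 2 * tn n ^ 2) / (3 + r ^ 2 * tn n ^ 2) ≤ 0 := by
    refine div_nonpos_of_nonpos_of_nonneg ?_ (by positivity)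
    nlinarith
  have hΔ1 : -dr r ≤ (tn n ^ 2 - r ^ 2 * tn n ^ 2) / (3 + r ^ 2 * tn n ^ 2) := by
    have a0 : (0 : ℝ) < 3 + 0.5279 * r ^ 2 := by positivity
    unfold dr
    rw [← neg_div, div_le_div_iff₀ a0 (by positivity)]
    nlinarith [mul_nonneg hr2 (sub_nonneg.2 hτ)]
  generalize (tn n ^ 2 - r ^ 2 * tn n ^ 2) / (3 + r ^ 2 * tn n ^ 2) = Δ at *
  have hX : (Δ - E) ^ 2 ≤ (dr r + dy r η) ^ 2 := by
    have a1 : (Δ - E) ^ 2 = (E - Δ) ^ 2 := by ring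
    rw [a1]
    exact pow_le_pow_left₀ (by linarith) (by linarith) 2
  have hmain := SB_pre hn (y := tn n ^ 2 * η) (Y := 0.5279 * η) hr0 hy1 (by linarith)
    (sq_nonneg (Δ - E))
  refine hmain.trans ?_
  rw [← mul_div_assoc]
  refine div_le_div_of_nonneg_right ?_ hY.le
  have hs : 0 ≤ r * (dr r + dy r η) ^ 2 := by positivity
  have hb : r * (Δ - E) ^ 2 ≤ r * (dr r + dy r η) ^ 2 := mul_le_mul_of_nonneg_left hX hr0.le
  nlinarith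

end Pool.Agent.H45.SN
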