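import Pool.Agent.H45.SN.YB

set_option autoImplicit false

/-! Steklov, part A: wide sides, dependence on `η`, all pieces.

PROOF. Apply `piece` on the intervals `[a,b]` below with the constants `(k, A, C)`:
`[1, 1.19]: (1.229, 0.401, 0.659)`, `[1.19, 1.33]: (1.338, 0.531, 0.786)`,
`[1.33, 1.45]: (1.437, 0.661, 0.894)`, `[1.45, 1.57]: (1.537, 0.807, 0.997)`,
`[1.57, 1.71]: (1.656, 0.994, 1.109)`, `[1.71, 1.88]: (1.831, 1.242, 1.227)`,
`[1.88, 2.1]: (2.133, 1.595, 1.37)`, `[2.1, 2.5]: (2.845, 2.3, 1.6)`,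
`[2.5, 2.6]: (16.27, 2.416, 1.51)`.
`hk`: `1.7 r² - k (r - 1.0453 (r-1)²)(1+0.176 r²)² ≥ 0` has Bernstein coefficients `≥ 0` on `[a,b]`
(degree 6). `hA`, `hC`: `r` and `dr r` are increasing, `W(r) = (3+2.6395r²)/(3+0.5279r²)²` is increasing for
`0.5279 r² ≤ 1.8` (`r ≤ 1.846`) and decreasing afterwards with `W ≤ 0.52085` everywhere (at `Q = 1.8`:
`12/23.04`), so insert `r = b` (and `W(b)`, or `0.52085` for `b ≥ 1.88`, or `W(a)` for `a ≥ 1.88`); `hu`: all Bernstein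
coefficients on `[0, 1/k]` of the difference (degree 4) are `≥ 0.012`. -/

open Finset

namespace Pool.Agent.H45.SN

private theorem yc_gen {r η b k A C d s : ℝ} (h0 : 1 ≤ r) (hb : r ≤ b) (hr : r ≤ 2.6) (hη : 0 ≤ η)
    (hk1 : 1.2 ≤ k)
    (hk : 0 ≤ 1.7 * r ^ 2 - k * (r - 1.0453 * (r - 1) ^ 2) * (1 + 0.176 * r ^ 2) ^ 2)
    (hd : dr r ≤ d)
    (hS : 3.5279 * (3 + 2.6395 * r ^ 2) / (3 + 0.5279 * r ^ 2) ^ 2 ≤ s)
    (hA : 0.263 * b + 0.6934 * b * (0.5279 * d ^ 2 + 2 * d * (0.5279 * s)) ≤ A)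
    (hC : 0.6934 * b * (0.5279 * s) ^ 2 ≤ C)
    (hu : ∀ e : ℝ, 0 ≤ e → k * e ≤ 1 →
      (A + C * e) * (1 - 0.1382 * e) + 0.52 * (1 - 0.5279 * e) ≤
        (k + k ^ 2 * e / 2 + k ^ 3 * e ^ 2 / 3) * (1 - 0.5279 * e) * (1 - 0.1382 * e))
    (hG : 1.0453 * ((r - 1) ^ 2 / r) + bb r * η < 1) :
    (1 - 1.0453 * ((r - 1) ^ 2 / r) - bb r * η) * Real.exp (c2 r η) ≤
      1 - 1.0453 * ((r - 1) ^ 2 / r) := by
  have hr0 : 0 < r := by linarith
  have hb0 : 0 ≤ b := by linarith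
  have hd0 : 0 ≤ dr r := by
    unfold dr
    apply div_nonneg _ (by positivity)
    nlinarith
  have hdd : 0 ≤ d := hd0.trans hd
  obtain ⟨S, hSd⟩ : ∃ S, S = 3.5279 * (3 + 2.6395 * r ^ 2) / (3 + 0.5279 * r ^ 2) ^ 2 := ⟨_, rfl⟩
  have hS0 : 0 ≤ S := by rw [hSd]; positivity
  rw [← hSd] at hS
  have hs0 : 0 ≤ s := hS0.trans hS
  refine piece h0 hr hη hk1 ?_ ?_ ?_ hu hG
  · unfold bb
    rw [le_div_iff₀ (by positivity)]
    have e : k * (1 - 1.0453 * ((r - 1) ^ 2 / r)) * (1 + 0.176 * r ^ 2) ^ 2 =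
        (k * (r - 1.0453 * (r - 1) ^ 2) * (1 + 0.176 * r ^ 2) ^ 2) / r := by
      rw [eq_div_iff hr0.ne']
      have e2 : (r - 1) ^ 2 / r * r = (r - 1) ^ 2 := div_mul_cancel₀ _ hr0.ne'
      calc k * (1 - 1.0453 * ((r - 1) ^ 2 / r)) * (1 + 0.176 * r ^ 2) ^ 2 * r
          = k * (r - 1.0453 * ((r - 1) ^ 2 / r * r)) * (1 + 0.176 * r ^ 2) ^ 2 := by ring
        _ = _ := by rw [e2]
    rw [e, div_le_iff₀ hr0]
    linarith
  · rw [← hSd]
    refine le_trans ?_ hA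
    have h2 : dr r ^ 2 ≤ d ^ 2 := pow_le_pow_left₀ hd0 hd 2
    have h3 : dr r * (0.5279 * S) ≤ d * (0.5279 * s) :=
      mul_le_mul hd (by linarith) (by positivity) hdd
    have h4 : 0.5279 * dr r ^ 2 + 2 * dr r * (0.5279 * S) ≤
        0.5279 * d ^ 2 + 2 * d * (0.5279 * s) := by linarith
    have h5 : 0.6934 * r * (0.5279 * dr r ^ 2 + 2 * dr r * (0.5279 * S)) ≤
        0.6934 * b * (0.5279 * d ^ 2 + 2 * d * (0.5279 * s)) :=
      mul_le_mul (by linarith) h4 (by positivity) (by positivity)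
    linarith
  · rw [← hSd]
    refine le_trans ?_ hC
    have h2 : (0.5279 * S) ^ 2 ≤ (0.5279 * s) ^ 2 :=
      pow_le_pow_left₀ (by positivity) (by linarith) 2
    exact mul_le_mul (by linarith) h2 (by positivity) (by positivity)

private theorem yc_dr {r b d : ℝ} (h0 : 1 ≤ r) (hb : r ≤ b) (hd1 : d ≤ 1)
    (hd : 0.5279 * (b ^ 2 - 1) ≤ d * (3 + 0.5279 * b ^ 2)) : dr r ≤ d := by
  unfold dr
  rw [div_le_iff₀ (by positivity)]
  have h1 : r ^ 2 ≤ b ^ 2 := pow_le_pow_left₀ (by linarith) hb 2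
  have h2 := mul_nonneg (sub_nonneg.2 hd1) (sub_nonneg.2 h1)
  nlinarith

private theorem yc_k1 {r : ℝ} (h0 : 1 ≤ r) (h1 : r ≤ 1.19) :
    0 ≤ 1.7 * r ^ 2 - 1.229 * (r - 1.0453 * (r - 1) ^ 2) * (1 + 0.176 * r ^ 2) ^ 2 := by
  obtain ⟨u, hu⟩ : ∃ u, u = r - 1 := ⟨_, rfl⟩
  obtain ⟨v, hv⟩ : ∃ v, v = 1.19 - r := ⟨_, rfl⟩
  have hu0 : 0 ≤ u := by rw [hu]; linarith
  have hv0 : 0 ≤ v := by rw [hv]; linarith
  have e : 1.7 * r ^ 2 - 1.229 * (r - 1.0453 * (r - 1) ^ 2) * (1 + 0.176 * r ^ 2) ^ 2 =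
      (322496000 / 47045881) * (u ^ 0 * v ^ 6) + (131672387200 / 47045881) * (u ^ 1 * v
      ^ 5) + (2245118281759426 / 147018378125) * (u ^ 2 * v ^ 4) + (122280792411671444
      / 3675459453125) * (u ^ 3 * v ^ 3) + (6630836621661595877 / 183772972656250) * (u
      ^ 4 * v ^ 2) + (89527377886133965873 / 4594324316406250) * (u ^ 5 * v ^ 1) +
      (7709930877393801555137 / 1837729726562500000) * (u ^ 6 * v ^ 0) := by
    rw [hu, hv]
    ring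
  rw [e]
  positivity

private theorem yc_w1 {q : ℝ} (h0 : 1 ≤ q) (h1 : q ≤ 14161 / 10000) :
    0 ≤ 1.692533 * (3 + 0.5279 * q) ^ 2 - 3.5279 * (3 + 2.6395 * q) := by
  obtain ⟨u, hu⟩ : ∃ u, u = q - 1 := ⟨_, rfl⟩
  obtain ⟨v, hv⟩ : ∃ v, v = 14161 / 10000 - q := ⟨_, rfl⟩
  have hu0 : 0 ≤ u := by rw [hu]; linarith
  have hv0 : 0 ≤ v := by rw [hv]; linarith
  have e : 1.692533 * (3 + 0.5279 * q) ^ 2 - 3.5279 * (3 + 2.6395 * q) =
      (38993545983751 / 5771307000000) * (u ^ 0 * v ^ 2) + (181357136615127911 /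
      28856535000000000) * (u ^ 1 * v ^ 1) + (1586458720792557 / 192376900000000000000)
      * (u ^ 2 * v ^ 0) := by
    rw [hu, hv]
    ring
  rw [e]
  positivity

private theorem yc_u1 (e : ℝ) (h0 : 0 ≤ e) (h1 : 1.229 * e ≤ 1) :
    (0.401 + 0.659 * e) * (1 - 0.1382 * e) + 0.52 * (1 - 0.5279 * e) ≤
      (1.229 + 1.229 ^ 2 * e / 2 + 1.229 ^ 3 * e ^ 2 / 3) * (1 - 0.5279 * e) * (1 - 0.1382 * e) := by
  obtain ⟨v, hv⟩ : ∃ v, v = 1000 / 1229 - e := ⟨_, rfl⟩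
  have hv0 : 0 ≤ v := by rw [hv]; linarith
  have h : (1.229 + 1.229 ^ 2 * e / 2 + 1.229 ^ 3 * e ^ 2 / 3) * (1 - 0.5279 * e) * (1 - 0.1382 * e) -
      ((0.401 + 0.659 * e) * (1 - 0.1382 * e) + 0.52 * (1 - 0.5279 * e)) =
      (175670265115037 / 250000000000000) * (e ^ 0 * v ^ 4) + (10410660641057921 /
      5000000000000000) * (e ^ 1 * v ^ 3) + (743429246337679091 / 300000000000000000) *
      (e ^ 2 * v ^ 2) + (21633679038799837 / 20000000000000000) * (e ^ 3 * v ^ 1) +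
      (1409045731565661 / 50000000000000000) * (e ^ 4 * v ^ 0) := by
    rw [hv]
    ring
  have h2 : 0 ≤
      (175670265115037 / 250000000000000) * (e ^ 0 * v ^ 4) + (10410660641057921 /
      5000000000000000) * (e ^ 1 * v ^ 3) + (743429246337679091 / 300000000000000000) *
      (e ^ 2 * v ^ 2) + (21633679038799837 / 20000000000000000) * (e ^ 3 * v ^ 1) +
      (1409045731565661 / 50000000000000000) * (e ^ 4 * v ^ 0) := by
    positivity
  linarith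

private theorem yc_p1 {r η : ℝ} (h0 : 1 ≤ r) (h1 : r ≤ 1.19) (hη : 0 ≤ η)
    (hG : 1.0453 * ((r - 1) ^ 2 / r) + bb r * η < 1) :
    (1 - 1.0453 * ((r - 1) ^ 2 / r) - bb r * η) * Real.exp (c2 r η) ≤
      1 - 1.0453 * ((r - 1) ^ 2 / r) := by
  have h2 : 1 ≤ r := by linarith
  have hw := yc_w1 (q := r ^ 2) (by nlinarith) (by nlinarith)
  refine yc_gen (b := 1.19) (k := 1.229) (A := 0.401) (C := 0.659) (d := 0.058614) (s := 1.692533)
    h2 h1 (by linarith) hη (by norm_num) (yc_k1 h0 h1) (yc_dr h2 h1 (by norm_num) (by norm_num))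
    ?_ (by norm_num) (by norm_num) yc_u1 hG
  rw [div_le_iff₀ (by positivity)]
  linarith

private theorem yc_k2 {r : ℝ} (h0 : 1.19 ≤ r) (h1 : r ≤ 1.33) :
    0 ≤ 1.7 * r ^ 2 - 1.338 * (r - 1.0453 * (r - 1) ^ 2) * (1 + 0.176 * r ^ 2) ^ 2 := by
  obtain ⟨u, hu⟩ : ∃ u, u = r - 1.19 := ⟨_, rfl⟩
  obtain ⟨v, hv⟩ : ∃ v, v = 1.33 - r := ⟨_, rfl⟩
  have hu0 : 0 ≤ u := by rw [hu]; linarith
  have hv0 : 0 ≤ v := by rw [hv]; linarith
  have e : 1.7 * r ^ 2 - 1.338 * (r - 1.0453 * (r - 1) ^ 2) * (1 + 0.176 * r ^ 2) ^ 2 =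
      (26752414901507925457 / 147061250000000000) * (u ^ 0 * v ^ 6) +
      (1685110390279869210097 / 73530625000000000) * (u ^ 1 * v ^ 5) +
      (3449988000043252673179 / 29412250000000000) * (u ^ 2 * v ^ 4) +
      (1793613631154689649251 / 7353062500000000) * (u ^ 3 * v ^ 3) +
      (7484660929071873808771 / 29412250000000000) * (u ^ 4 * v ^ 2) +
      (9769576193169710164897 / 73530625000000000) * (u ^ 5 * v ^ 1) +
      (4081655100707217617593 / 147061250000000000) * (u ^ 6 * v ^ 0) := by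
    rw [hu, hv]
    ring
  rw [e]
  positivity

private theorem yc_w2 {q : ℝ} (h0 : 14161 / 10000 ≤ q) (h1 : q ≤ 17689 / 10000) :
    0 ≤ 1.748359 * (3 + 0.5279 * q) ^ 2 - 3.5279 * (3 + 2.6395 * q) := by
  obtain ⟨u, hu⟩ : ∃ u, u = q - 14161 / 10000 := ⟨_, rfl⟩
  obtain ⟨v, hv⟩ : ∃ v, v = 17689 / 10000 - q := ⟨_, rfl⟩
  have hu0 : 0 ≤ u := by rw [hu]; linarith
  have hv0 : 0 ≤ v := by rw [hv]; linarith
  have e : 1.748359 * (3 + 0.5279 * q) ^ 2 - 3.5279 * (3 + 2.6395 * q) =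
      (1120047043508968505057 / 177811200000000000000) * (u ^ 0 * v ^ 2) +
      (516706825838591108393 / 88905600000000000000) * (u ^ 1 * v ^ 1) +
      (1542470713460657 / 177811200000000000000) * (u ^ 2 * v ^ 0) := by
    rw [hu, hv]
    ring
  rw [e]
  positivity

private theorem yc_u2 (e : ℝ) (h0 : 0 ≤ e) (h1 : 1.338 * e ≤ 1) :
    (0.531 + 0.786 * e) * (1 - 0.1382 * e) + 0.52 * (1 - 0.5279 * e) ≤
      (1.338 + 1.338 ^ 2 * e / 2 + 1.338 ^ 3 * e ^ 2 / 3) * (1 - 0.5279 * e) * (1 - 0.1382 * e) := by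
  obtain ⟨v, hv⟩ : ∃ v, v = 500 / 669 - e := ⟨_, rfl⟩
  have hv0 : 0 ≤ v := by rw [hv]; linarith
  have h : (1.338 + 1.338 ^ 2 * e / 2 + 1.338 ^ 3 * e ^ 2 / 3) * (1 - 0.5279 * e) * (1 - 0.1382 * e) -
      ((0.531 + 0.786 * e) * (1 - 0.1382 * e) + 0.52 * (1 - 0.5279 * e)) =
      (57489213582927 / 62500000000000) * (e ^ 0 * v ^ 4) + (824745037375719 /
      312500000000000) * (e ^ 1 * v ^ 3) + (4890327505372359 / 1562500000000000) * (e ^
      2 * v ^ 2) + (698571367692453 / 500000000000000) * (e ^ 3 * v ^ 1) +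
      (561766137088347 / 12500000000000000) * (e ^ 4 * v ^ 0) := by
    rw [hv]
    ring
  have h2 : 0 ≤
      (57489213582927 / 62500000000000) * (e ^ 0 * v ^ 4) + (824745037375719 /
      312500000000000) * (e ^ 1 * v ^ 3) + (4890327505372359 / 1562500000000000) * (e ^
      2 * v ^ 2) + (698571367692453 / 500000000000000) * (e ^ 3 * v ^ 1) +
      (561766137088347 / 12500000000000000) * (e ^ 4 * v ^ 0) := by
    positivity
  linarith

private theorem yc_p2 {r η : ℝ} (h0 : 1.19 ≤ r) (h1 : r ≤ 1.33) (hη : 0 ≤ η)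
    (hG : 1.0453 * ((r - 1) ^ 2 / r) + bb r * η < 1) :
    (1 - 1.0453 * ((r - 1) ^ 2 / r) - bb r * η) * Real.exp (c2 r η) ≤
      1 - 1.0453 * ((r - 1) ^ 2 / r) := by
  have h2 : 1 ≤ r := by linarith
  have hw := yc_w2 (q := r ^ 2) (by nlinarith) (by nlinarith)
  refine yc_gen (b := 1.33) (k := 1.338) (A := 0.531) (C := 0.786) (d := 0.103184) (s := 1.748359)
    h2 h1 (by linarith) hη (by norm_num) (yc_k2 h0 h1) (yc_dr h2 h1 (by norm_num) (by norm_num))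
    ?_ (by norm_num) (by norm_num) yc_u2 hG
  rw [div_le_iff₀ (by positivity)]
  linarith

private theorem yc_k3 {r : ℝ} (h0 : 1.33 ≤ r) (h1 : r ≤ 1.45) :
    0 ≤ 1.7 * r ^ 2 - 1.437 * (r - 1.0453 * (r - 1) ^ 2) * (1 + 0.176 * r ^ 2) ^ 2 := by
  obtain ⟨u, hu⟩ : ∃ u, u = r - 1.33 := ⟨_, rfl⟩
  obtain ⟨v, hv⟩ : ∃ v, v = 1.45 - r := ⟨_, rfl⟩
  have hu0 : 0 ≤ u := by rw [hu]; linarith
  have hv0 : 0 ≤ v := by rw [hv]; linarith
  have e : 1.7 * r ^ 2 - 1.437 * (r - 1.0453 * (r - 1) ^ 2) * (1 + 0.176 * r ^ 2) ^ 2 =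
      (75890293391288066489 / 116640000000000000) * (u ^ 0 * v ^ 6) +
      (266732565100546030337 / 3888000000000000) * (u ^ 1 * v ^ 5) +
      (35825528126501892227 / 103680000000000) * (u ^ 2 * v ^ 4) +
      (33118994834607454033 / 46656000000000) * (u ^ 3 * v ^ 3) + (9115606509644664409
      / 12441600000000) * (u ^ 4 * v ^ 2) + (785523938610392459 / 2073600000000) * (u ^
      5 * v ^ 1) + (585393315192268841 / 7464960000000) * (u ^ 6 * v ^ 0) := by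
    rw [hu, hv]
    ring
  rw [e]
  positivity

private theorem yc_w3 {q : ℝ} (h0 : 17689 / 10000 ≤ q) (h1 : q ≤ 841 / 400) :
    0 ≤ 1.785645 * (3 + 0.5279 * q) ^ 2 - 3.5279 * (3 + 2.6395 * q) := by
  obtain ⟨u, hu⟩ : ∃ u, u = q - 17689 / 10000 := ⟨_, rfl⟩
  obtain ⟨v, hv⟩ : ∃ v, v = 841 / 400 - q := ⟨_, rfl⟩
  have hu0 : 0 ≤ u := by rw [hu]; linarith
  have hv0 : 0 ≤ v := by rw [hv]; linarith
  have e : 1.785645 * (3 + 0.5279 * q) ^ 2 - 3.5279 * (3 + 2.6395 * q) =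
      (1153988990858238000569 / 222577920000000000000) * (u ^ 0 * v ^ 2) +
      (20865239938020995561 / 4451558400000000000) * (u ^ 1 * v ^ 1) + (51821592688409
      / 356124672000000000) * (u ^ 2 * v ^ 0) := by
    rw [hu, hv]
    ring
  rw [e]
  positivity

private theorem yc_u3 (e : ℝ) (h0 : 0 ≤ e) (h1 : 1.437 * e ≤ 1) :
    (0.661 + 0.894 * e) * (1 - 0.1382 * e) + 0.52 * (1 - 0.5279 * e) ≤
      (1.437 + 1.437 ^ 2 * e / 2 + 1.437 ^ 3 * e ^ 2 / 3) * (1 - 0.5279 * e) * (1 - 0.1382 * e) := by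
  obtain ⟨v, hv⟩ : ∃ v, v = 1000 / 1437 - e := ⟨_, rfl⟩
  have hv0 : 0 ≤ v := by rw [hv]; linarith
  have h : (1.437 + 1.437 ^ 2 * e / 2 + 1.437 ^ 3 * e ^ 2 / 3) * (1 - 0.5279 * e) * (1 - 0.1382 * e) -
      ((0.661 + 0.894 * e) * (1 - 0.1382 * e) + 0.52 * (1 - 0.5279 * e)) =
      (4264096970961 / 3906250000000) * (e ^ 0 * v ^ 4) + (604537377729237 /
      200000000000000) * (e ^ 1 * v ^ 3) + (361236733976918529 / 100000000000000000) *
      (e ^ 2 * v ^ 2) + (33691613918794461 / 20000000000000000) * (e ^ 3 * v ^ 1) +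
      (3772672619031477 / 50000000000000000) * (e ^ 4 * v ^ 0) := by
    rw [hv]
    ring
  have h2 : 0 ≤
      (4264096970961 / 3906250000000) * (e ^ 0 * v ^ 4) + (604537377729237 /
      200000000000000) * (e ^ 1 * v ^ 3) + (361236733976918529 / 100000000000000000) *
      (e ^ 2 * v ^ 2) + (33691613918794461 / 20000000000000000) * (e ^ 3 * v ^ 1) +
      (3772672619031477 / 50000000000000000) * (e ^ 4 * v ^ 0) := by
    positivity
  linarith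

private theorem yc_p3 {r η : ℝ} (h0 : 1.33 ≤ r) (h1 : r ≤ 1.45) (hη : 0 ≤ η)
    (hG : 1.0453 * ((r - 1) ^ 2 / r) + bb r * η < 1) :
    (1 - 1.0453 * ((r - 1) ^ 2 / r) - bb r * η) * Real.exp (c2 r η) ≤
      1 - 1.0453 * ((r - 1) ^ 2 / r) := by
  have h2 : 1 ≤ r := by linarith
  have hw := yc_w3 (q := r ^ 2) (by nlinarith) (by nlinarith)
  refine yc_gen (b := 1.45) (k := 1.437) (A := 0.661) (C := 0.894) (d := 0.141612) (s := 1.785645)
    h2 h1 (by linarith) hη (by norm_num) (yc_k3 h0 h1) (yc_dr h2 h1 (by norm_num) (by norm_num))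
    ?_ (by norm_num) (by norm_num) yc_u3 hG
  rw [div_le_iff₀ (by positivity)]
  linarith

private theorem yc_k4 {r : ℝ} (h0 : 1.45 ≤ r) (h1 : r ≤ 1.57) :
    0 ≤ 1.7 * r ^ 2 - 1.537 * (r - 1.0453 * (r - 1) ^ 2) * (1 + 0.176 * r ^ 2) ^ 2 := by
  obtain ⟨u, hu⟩ : ∃ u, u = r - 1.45 := ⟨_, rfl⟩
  obtain ⟨v, hv⟩ : ∃ v, v = 1.57 - r := ⟨_, rfl⟩
  have hu0 : 0 ≤ u := by rw [hu]; linarith
  have hv0 : 0 ≤ v := by rw [hv]; linarith
  have e : 1.7 * r ^ 2 - 1.537 * (r - 1.0453 * (r - 1) ^ 2) * (1 + 0.176 * r ^ 2) ^ 2 =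
      (4305515275238141 / 7464960000000) * (u ^ 0 * v ^ 6) + (545846815290641933 /
      6220800000000) * (u ^ 1 * v ^ 5) + (1847102674953648223 / 4147200000000) * (u ^ 2
      * v ^ 4) + (42768907285793416237 / 46656000000000) * (u ^ 3 * v ^ 3) +
      (294438552003505248061 / 311040000000000) * (u ^ 4 * v ^ 2) +
      (211451634220834033957 / 432000000000000) * (u ^ 5 * v ^ 1) +
      (11817349635052238341469 / 116640000000000000) * (u ^ 6 * v ^ 0) := by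
    rw [hu, hv]
    ring
  rw [e]
  positivity

private theorem yc_w4 {q : ℝ} (h0 : 841 / 400 ≤ q) (h1 : q ≤ 24649 / 10000) :
    0 ≤ 1.81274 * (3 + 0.5279 * q) ^ 2 - 3.5279 * (3 + 2.6395 * q) := by
  obtain ⟨u, hu⟩ : ∃ u, u = q - 841 / 400 := ⟨_, rfl⟩
  obtain ⟨v, hv⟩ : ∃ v, v = 24649 / 10000 - q := ⟨_, rfl⟩
  have hu0 : 0 ≤ u := by rw [hu]; linarith
  have hv0 : 0 ≤ v := by rw [hv]; linarith
  have e : 1.81274 * (3 + 0.5279 * q) ^ 2 - 3.5279 * (3 + 2.6395 * q) =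
      (122050011575248159 / 35022336000000000) * (u ^ 0 * v ^ 2) + (1304514648641336351
      / 437779200000000000) * (u ^ 1 * v ^ 1) + (717991608921013 / 7296320000000000000)
      * (u ^ 2 * v ^ 0) := by
    rw [hu, hv]
    ring
  rw [e]
  positivity

private theorem yc_u4 (e : ℝ) (h0 : 0 ≤ e) (h1 : 1.537 * e ≤ 1) :
    (0.807 + 0.997 * e) * (1 - 0.1382 * e) + 0.52 * (1 - 0.5279 * e) ≤
      (1.537 + 1.537 ^ 2 * e / 2 + 1.537 ^ 3 * e ^ 2 / 3) * (1 - 0.5279 * e) * (1 - 0.1382 * e) := by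
  obtain ⟨v, hv⟩ : ∃ v, v = 1000 / 1537 - e := ⟨_, rfl⟩
  have hv0 : 0 ≤ v := by rw [hv]; linarith
  have h : (1.537 + 1.537 ^ 2 * e / 2 + 1.537 ^ 3 * e ^ 2 / 3) * (1 - 0.5279 * e) * (1 - 0.1382 * e) -
      ((0.807 + 0.997 * e) * (1 - 0.1382 * e) + 0.52 * (1 - 0.5279 * e)) =
      (117196533135381 / 100000000000000) * (e ^ 0 * v ^ 4) + (15204726078371713 /
      5000000000000000) * (e ^ 1 * v ^ 3) + (1104595610382754027 / 300000000000000000)
      * (e ^ 2 * v ^ 2) + (109339524642469931 / 60000000000000000) * (e ^ 3 * v ^ 1) +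
      (14642969216218421 / 150000000000000000) * (e ^ 4 * v ^ 0) := by
    rw [hv]
    ring
  have h2 : 0 ≤
      (117196533135381 / 100000000000000) * (e ^ 0 * v ^ 4) + (15204726078371713 /
      5000000000000000) * (e ^ 1 * v ^ 3) + (1104595610382754027 / 300000000000000000)
      * (e ^ 2 * v ^ 2) + (109339524642469931 / 60000000000000000) * (e ^ 3 * v ^ 1) +
      (14642969216218421 / 150000000000000000) * (e ^ 4 * v ^ 0) := by
    positivity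
  linarith

private theorem yc_p4 {r η : ℝ} (h0 : 1.45 ≤ r) (h1 : r ≤ 1.57) (hη : 0 ≤ η)
    (hG : 1.0453 * ((r - 1) ^ 2 / r) + bb r * η < 1) :
    (1 - 1.0453 * ((r - 1) ^ 2 / r) - bb r * η) * Real.exp (c2 r η) ≤
      1 - 1.0453 * ((r - 1) ^ 2 / r) := by
  have h2 : 1 ≤ r := by linarith
  have hw := yc_w4 (q := r ^ 2) (by nlinarith) (by nlinarith)
  refine yc_gen (b := 1.57) (k := 1.537) (A := 0.807) (C := 0.997) (d := 0.179791) (s := 1.81274)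
    h2 h1 (by linarith) hη (by norm_num) (yc_k4 h0 h1) (yc_dr h2 h1 (by norm_num) (by norm_num))
    ?_ (by norm_num) (by norm_num) yc_u4 hG
  rw [div_le_iff₀ (by positivity)]
  linarith

private theorem yc_k5 {r : ℝ} (h0 : 1.57 ≤ r) (h1 : r ≤ 1.71) :
    0 ≤ 1.7 * r ^ 2 - 1.656 * (r - 1.0453 * (r - 1) ^ 2) * (1 + 0.176 * r ^ 2) ^ 2 := by
  obtain ⟨u, hu⟩ : ∃ u, u = r - 1.57 := ⟨_, rfl⟩
  obtain ⟨v, hv⟩ : ∃ v, v = 1.71 - r := ⟨_, rfl⟩
  have hu0 : 0 ≤ u := by rw [hu]; linarith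
  have hv0 : 0 ≤ v := by rw [hv]; linarith
  have e : 1.7 * r ^ 2 - 1.656 * (r - 1.0453 * (r - 1) ^ 2) * (1 + 0.176 * r ^ 2) ^ 2 =
      (7404349891957278259 / 36765312500000000) * (u ^ 0 * v ^ 6) +
      (966065366773695573431 / 18382656250000000) * (u ^ 1 * v ^ 5) +
      (1988605282017308305593 / 7353062500000000) * (u ^ 2 * v ^ 4) +
      (1031688751437253068893 / 1838265625000000) * (u ^ 3 * v ^ 3) +
      (4291207316528145291737 / 7353062500000000) * (u ^ 4 * v ^ 2) +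
      (5583358580977241896311 / 18382656250000000) * (u ^ 5 * v ^ 1) +
      (2326157552982899523411 / 36765312500000000) * (u ^ 6 * v ^ 0) := by
    rw [hu, hv]
    ring
  rw [e]
  positivity

private theorem yc_w5 {q : ℝ} (h0 : 24649 / 10000 ≤ q) (h1 : q ≤ 29241 / 10000) :
    0 ≤ 1.831599 * (3 + 0.5279 * q) ^ 2 - 3.5279 * (3 + 2.6395 * q) := by
  obtain ⟨u, hu⟩ : ∃ u, u = q - 24649 / 10000 := ⟨_, rfl⟩
  obtain ⟨v, hv⟩ : ∃ v, v = 29241 / 10000 - q := ⟨_, rfl⟩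
  have hu0 : 0 ≤ u := by rw [hu]; linarith
  have hv0 : 0 ≤ v := by rw [hv]; linarith
  have e : 1.831599 * (3 + 0.5279 * q) ^ 2 - 3.5279 * (3 + 2.6395 * q) =
      (3489138457324310166559 / 2108646400000000000000) * (u ^ 0 * v ^ 2) +
      (1206496874099355072431 / 1054323200000000000000) * (u ^ 1 * v ^ 1) +
      (165551589510652479 / 2108646400000000000000) * (u ^ 2 * v ^ 0) := by
    rw [hu, hv]
    ring
  rw [e]
  positivity

private theorem yc_u5 (e : ℝ) (h0 : 0 ≤ e) (h1 : 1.656 * e ≤ 1) :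
    (0.994 + 1.109 * e) * (1 - 0.1382 * e) + 0.52 * (1 - 0.5279 * e) ≤
      (1.656 + 1.656 ^ 2 * e / 2 + 1.656 ^ 3 * e ^ 2 / 3) * (1 - 0.5279 * e) * (1 - 0.1382 * e) := by
  obtain ⟨v, hv⟩ : ∃ v, v = 125 / 207 - e := ⟨_, rfl⟩
  have hv0 : 0 ≤ v := by rw [hv]; linarith
  have h : (1.656 + 1.656 ^ 2 * e / 2 + 1.656 ^ 3 * e ^ 2 / 3) * (1 - 0.5279 * e) * (1 - 0.1382 * e) -
      ((0.994 + 1.109 * e) * (1 - 0.1382 * e) + 0.52 * (1 - 0.5279 * e)) =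
      (130358612871 / 122070312500) * (e ^ 0 * v ^ 4) + (11344250511369 /
      4882812500000) * (e ^ 1 * v ^ 3) + (289133746419897 / 97656250000000) * (e ^ 2 *
      v ^ 2) + (13429836031959 / 7812500000000) * (e ^ 3 * v ^ 1) + (24244615119159 /
      195312500000000) * (e ^ 4 * v ^ 0) := by
    rw [hv]
    ring
  have h2 : 0 ≤
      (130358612871 / 122070312500) * (e ^ 0 * v ^ 4) + (11344250511369 /
      4882812500000) * (e ^ 1 * v ^ 3) + (289133746419897 / 97656250000000) * (e ^ 2 *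
      v ^ 2) + (13429836031959 / 7812500000000) * (e ^ 3 * v ^ 1) + (24244615119159 /
      195312500000000) * (e ^ 4 * v ^ 0) := by
    positivity
  linarith

private theorem yc_p5 {r η : ℝ} (h0 : 1.57 ≤ r) (h1 : r ≤ 1.71) (hη : 0 ≤ η)
    (hG : 1.0453 * ((r - 1) ^ 2 / r) + bb r * η < 1) :
    (1 - 1.0453 * ((r - 1) ^ 2 / r) - bb r * η) * Real.exp (c2 r η) ≤
      1 - 1.0453 * ((r - 1) ^ 2 / r) := by
  have h2 : 1 ≤ r := by linarith
  have hw := yc_w5 (q := r ^ 2) (by nlinarith) (by nlinarith)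
  refine yc_gen (b := 1.71) (k := 1.656) (A := 0.994) (C := 1.109) (d := 0.223551) (s := 1.831599)
    h2 h1 (by linarith) hη (by norm_num) (yc_k5 h0 h1) (yc_dr h2 h1 (by norm_num) (by norm_num))
    ?_ (by norm_num) (by norm_num) yc_u5 hG
  rw [div_le_iff₀ (by positivity)]
  linarith

private theorem yc_k6 {r : ℝ} (h0 : 1.71 ≤ r) (h1 : r ≤ 1.88) :
    0 ≤ 1.7 * r ^ 2 - 1.831 * (r - 1.0453 * (r - 1) ^ 2) * (1 + 0.176 * r ^ 2) ^ 2 := by
  obtain ⟨u, hu⟩ : ∃ u, u = r - 1.71 := ⟨_, rfl⟩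
  obtain ⟨v, hv⟩ : ∃ v, v = 1.88 - r := ⟨_, rfl⟩
  have hu0 : 0 ≤ u := by rw [hu]; linarith
  have hv0 : 0 ≤ v := by rw [hv]; linarith
  have e : 1.7 * r ^ 2 - 1.831 * (r - 1.0453 * (r - 1) ^ 2) * (1 + 0.176 * r ^ 2) ^ 2 =
      (55746136303449407563 / 942873789062500000) * (u ^ 0 * v ^ 6) +
      (819496892168542336062 / 29464805908203125) * (u ^ 1 * v ^ 5) +
      (1709936860270657061711 / 11785922363281250) * (u ^ 2 * v ^ 4) +
      (1792436139374232000972 / 5892961181640625) * (u ^ 3 * v ^ 3) +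
      (1881639523521562336862 / 5892961181640625) * (u ^ 4 * v ^ 2) +
      (4942264733554432293472 / 29464805908203125) * (u ^ 5 * v ^ 1) +
      (1039162234410658443136 / 29464805908203125) * (u ^ 6 * v ^ 0) := by
    rw [hu, hv]
    ring
  rw [e]
  positivity

private theorem yc_w6 {q : ℝ} : 0 ≤ 1.837507 * (3 + 0.5279 * q) ^ 2 - 3.5279 * (3 + 2.6395 * q) := by
  have e : 1.837507 * (3 + 0.5279 * q) ^ 2 - 3.5279 * (3 + 2.6395 * q) =
      (51207352912387 / 100000000000000) * (q + (-33072290000 / 9700199453)) ^ 2 + (25012811 / 18375070000) := by ring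
  rw [e]
  positivity

private theorem yc_u6 (e : ℝ) (h0 : 0 ≤ e) (h1 : 1.831 * e ≤ 1) :
    (1.242 + 1.227 * e) * (1 - 0.1382 * e) + 0.52 * (1 - 0.5279 * e) ≤
      (1.831 + 1.831 ^ 2 * e / 2 + 1.831 ^ 3 * e ^ 2 / 3) * (1 - 0.5279 * e) * (1 - 0.1382 * e) := by
  obtain ⟨v, hv⟩ : ∃ v, v = 1000 / 1831 - e := ⟨_, rfl⟩
  have hv0 : 0 ≤ v := by rw [hv]; linarith
  have h : (1.831 + 1.831 ^ 2 * e / 2 + 1.831 ^ 3 * e ^ 2 / 3) * (1 - 0.5279 * e) * (1 - 0.1382 * e) -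
      ((1.242 + 1.227 * e) * (1 - 0.1382 * e) + 0.52 * (1 - 0.5279 * e)) =
      (775536902851749 / 1000000000000000) * (e ^ 0 * v ^ 4) + (5560282660668609 /
      5000000000000000) * (e ^ 1 * v ^ 3) + (844758121462519999 / 300000000000000000) *
      (e ^ 2 * v ^ 2) + (187562366350875893 / 60000000000000000) * (e ^ 3 * v ^ 1) +
      (3731152977350761 / 4687500000000000) * (e ^ 4 * v ^ 0) := by
    rw [hv]
    ring
  have h2 : 0 ≤
      (775536902851749 / 1000000000000000) * (e ^ 0 * v ^ 4) + (5560282660668609 /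
      5000000000000000) * (e ^ 1 * v ^ 3) + (844758121462519999 / 300000000000000000) *
      (e ^ 2 * v ^ 2) + (187562366350875893 / 60000000000000000) * (e ^ 3 * v ^ 1) +
      (3731152977350761 / 4687500000000000) * (e ^ 4 * v ^ 0) := by
    positivity
  linarith

private theorem yc_p6 {r η : ℝ} (h0 : 1.71 ≤ r) (h1 : r ≤ 1.88) (hη : 0 ≤ η)
    (hG : 1.0453 * ((r - 1) ^ 2 / r) + bb r * η < 1) :
    (1 - 1.0453 * ((r - 1) ^ 2 / r) - bb r * η) * Real.exp (c2 r η) ≤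
      1 - 1.0453 * ((r - 1) ^ 2 / r) := by
  have h2 : 1 ≤ r := by linarith
  have hw := yc_w6 (q := r ^ 2)
  refine yc_gen (b := 1.88) (k := 1.831) (A := 1.242) (C := 1.227) (d := 0.274962) (s := 1.837507)
    h2 h1 (by linarith) hη (by norm_num) (yc_k6 h0 h1) (yc_dr h2 h1 (by norm_num) (by norm_num))
    ?_ (by norm_num) (by norm_num) yc_u6 hG
  rw [div_le_iff₀ (by positivity)]
  linarith

private theorem yc_k7 {r : ℝ} (h0 : 1.88 ≤ r) (h1 : r ≤ 2.1) :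
    0 ≤ 1.7 * r ^ 2 - 2.133 * (r - 1.0453 * (r - 1) ^ 2) * (1 + 0.176 * r ^ 2) ^ 2 := by
  obtain ⟨u, hu⟩ : ∃ u, u = r - 1.88 := ⟨_, rfl⟩
  obtain ⟨v, hv⟩ : ∃ v, v = 2.1 - r := ⟨_, rfl⟩
  have hu0 : 0 ≤ u := by rw [hu]; linarith
  have hv0 : 0 ≤ v := by rw [hv]; linarith
  have e : 1.7 * r ^ 2 - 2.133 * (r - 1.0453 * (r - 1) ^ 2) * (1 + 0.176 * r ^ 2) ^ 2 =
      (12739039655025082 / 2162550048828125) * (u ^ 0 * v ^ 6) + (5220636580442258093 /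
      432510009765625) * (u ^ 1 * v ^ 5) + (8878897469270788533 / 138403203125000) * (u
      ^ 2 * v ^ 4) + (472616249090364382 / 3460080078125) * (u ^ 3 * v ^ 3) +
      (805671837227992303 / 5536128125000) * (u ^ 4 * v ^ 2) + (214749335030026407 /
      2768064062500) * (u ^ 5 * v ^ 1) + (73319080996699929 / 4428902500000) * (u ^ 6 *
      v ^ 0) := by
    rw [hu, hv]
    ring
  rw [e]
  positivity

private theorem yc_w7 {q : ℝ} (h0 : 2209 / 625 ≤ q) (h1 : q ≤ 441 / 100) :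
    0 ≤ 1.837112 * (3 + 0.5279 * q) ^ 2 - 3.5279 * (3 + 2.6395 * q) := by
  obtain ⟨u, hu⟩ : ∃ u, u = q - 2209 / 625 := ⟨_, rfl⟩
  obtain ⟨v, hv⟩ : ∃ v, v = 441 / 100 - q := ⟨_, rfl⟩
  have hu0 : 0 ≤ u := by rw [hu]; linarith
  have hv0 : 0 ≤ v := by rw [hv]; linarith
  have e : 1.837112 * (3 + 0.5279 * q) ^ 2 - 3.5279 * (3 + 2.6395 * q) =
      (22705452526719 / 3743532031250000000) * (u ^ 0 * v ^ 2) + (43080328481871931 /
      299482562500000000) * (u ^ 1 * v ^ 1) + (62848844256956919 / 95834420000000000) *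
      (u ^ 2 * v ^ 0) := by
    rw [hu, hv]
    ring
  rw [e]
  positivity

private theorem yc_u7 (e : ℝ) (h0 : 0 ≤ e) (h1 : 2.133 * e ≤ 1) :
    (1.595 + 1.37 * e) * (1 - 0.1382 * e) + 0.52 * (1 - 0.5279 * e) ≤
      (2.133 + 2.133 ^ 2 * e / 2 + 2.133 ^ 3 * e ^ 2 / 3) * (1 - 0.5279 * e) * (1 - 0.1382 * e) := by
  obtain ⟨v, hv⟩ : ∃ v, v = 1000 / 2133 - e := ⟨_, rfl⟩
  have hv0 : 0 ≤ v := by rw [hv]; linarith
  have h : (2.133 + 2.133 ^ 2 * e / 2 + 2.133 ^ 3 * e ^ 2 / 3) * (1 - 0.5279 * e) * (1 - 0.1382 * e) -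
      ((1.595 + 1.37 * e) * (1 - 0.1382 * e) + 0.52 * (1 - 0.5279 * e)) =
      (186297029970489 / 500000000000000) * (e ^ 0 * v ^ 4) + (6432434582089347 /
      5000000000000000) * (e ^ 1 * v ^ 3) + (1101674587409635401 / 100000000000000000)
      * (e ^ 2 * v ^ 2) + (308447794129640301 / 20000000000000000) * (e ^ 3 * v ^ 1) +
      (277776807644826153 / 50000000000000000) * (e ^ 4 * v ^ 0) := by
    rw [hv]
    ring
  have h2 : 0 ≤
      (186297029970489 / 500000000000000) * (e ^ 0 * v ^ 4) + (6432434582089347 /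
      5000000000000000) * (e ^ 1 * v ^ 3) + (1101674587409635401 / 100000000000000000)
      * (e ^ 2 * v ^ 2) + (308447794129640301 / 20000000000000000) * (e ^ 3 * v ^ 1) +
      (277776807644826153 / 50000000000000000) * (e ^ 4 * v ^ 0) := by
    positivity
  linarith

private theorem yc_p7 {r η : ℝ} (h0 : 1.88 ≤ r) (h1 : r ≤ 2.1) (hη : 0 ≤ η)
    (hG : 1.0453 * ((r - 1) ^ 2 / r) + bb r * η < 1) :
    (1 - 1.0453 * ((r - 1) ^ 2 / r) - bb r * η) * Real.exp (c2 r η) ≤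
      1 - 1.0453 * ((r - 1) ^ 2 / r) := by
  have h2 : 1 ≤ r := by linarith
  have hw := yc_w7 (q := r ^ 2) (by nlinarith) (by nlinarith)
  refine yc_gen (b := 2.1) (k := 2.133) (A := 1.595) (C := 1.37) (d := 0.337862) (s := 1.837112)
    h2 h1 (by linarith) hη (by norm_num) (yc_k7 h0 h1) (yc_dr h2 h1 (by norm_num) (by norm_num))
    ?_ (by norm_num) (by norm_num) yc_u7 hG
  rw [div_le_iff₀ (by positivity)]
  linarith

private theorem yc_k8 {r : ℝ} (h0 : 2.1 ≤ r) (h1 : r ≤ 2.5) :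
    0 ≤ 1.7 * r ^ 2 - 2.845 * (r - 1.0453 * (r - 1) ^ 2) * (1 + 0.176 * r ^ 2) ^ 2 := by
  obtain ⟨u, hu⟩ : ∃ u, u = r - 2.1 := ⟨_, rfl⟩
  obtain ⟨v, hv⟩ : ∃ v, v = 2.5 - r := ⟨_, rfl⟩
  have hu0 : 0 ≤ u := by rw [hu]; linarith
  have hv0 : 0 ≤ v := by rw [hv]; linarith
  have e : 1.7 * r ^ 2 - 2.845 * (r - 1.0453 * (r - 1) ^ 2) * (1 + 0.176 * r ^ 2) ^ 2 =
      (7733046001997 / 32000000000000) * (u ^ 0 * v ^ 6) + (3931330609802751 /
      3200000000000) * (u ^ 1 * v ^ 5) + (8758380320380403 / 1280000000000) * (u ^ 2 *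
      v ^ 4) + (195448431870693 / 12800000000) * (u ^ 3 * v ^ 3) + (34943859729883 /
      2048000000) * (u ^ 4 * v ^ 2) + (391067320331 / 40960000) * (u ^ 5 * v ^ 1) +
      (7013747533 / 3276800) * (u ^ 6 * v ^ 0) := by
    rw [hu, hv]
    ring
  rw [e]
  positivity

private theorem yc_w8 {q : ℝ} (h0 : 441 / 100 ≤ q) (h1 : q ≤ 25 / 4) :
    0 ≤ 1.819401 * (3 + 0.5279 * q) ^ 2 - 3.5279 * (3 + 2.6395 * q) := by
  obtain ⟨u, hu⟩ : ∃ u, u = q - 441 / 100 := ⟨_, rfl⟩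
  obtain ⟨v, hv⟩ : ∃ v, v = 25 / 4 - q := ⟨_, rfl⟩
  have hu0 : 0 ≤ u := by rw [hu]; linarith
  have hv0 : 0 ≤ v := by rw [hv]; linarith
  have e : 1.819401 * (3 + 0.5279 * q) ^ 2 - 3.5279 * (3 + 2.6395 * q) =
      (10893396492921 / 3385600000000000000) * (u ^ 0 * v ^ 2) + (1358472763276481 /
      2708480000000000) * (u ^ 1 * v ^ 1) + (8741563661641 / 8667136000000) * (u ^ 2 *
      v ^ 0) := by
    rw [hu, hv]
    ring
  rw [e]
  positivity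

private theorem yc_u8 (e : ℝ) (h0 : 0 ≤ e) (h1 : 2.845 * e ≤ 1) :
    (2.3 + 1.6 * e) * (1 - 0.1382 * e) + 0.52 * (1 - 0.5279 * e) ≤
      (2.845 + 2.845 ^ 2 * e / 2 + 2.845 ^ 3 * e ^ 2 / 3) * (1 - 0.5279 * e) * (1 - 0.1382 * e) := by
  obtain ⟨v, hv⟩ : ∃ v, v = 200 / 569 - e := ⟨_, rfl⟩
  have hv0 : 0 ≤ v := by rw [hv]; linarith
  have h : (2.845 + 2.845 ^ 2 * e / 2 + 2.845 ^ 3 * e ^ 2 / 3) * (1 - 0.5279 * e) * (1 - 0.1382 * e) -
      ((2.3 + 1.6 * e) * (1 - 0.1382 * e) + 0.52 * (1 - 0.5279 * e)) =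
      (104821185121 / 64000000000) * (e ^ 0 * v ^ 4) + (131609169289717 /
      4000000000000) * (e ^ 1 * v ^ 3) + (318381206620725131 / 2400000000000000) * (e ^
      2 * v ^ 2) + (76538875550158183 / 480000000000000) * (e ^ 3 * v ^ 1) +
      (70345934853339343 / 1200000000000000) * (e ^ 4 * v ^ 0) := by
    rw [hv]
    ring
  have h2 : 0 ≤
      (104821185121 / 64000000000) * (e ^ 0 * v ^ 4) + (131609169289717 /
      4000000000000) * (e ^ 1 * v ^ 3) + (318381206620725131 / 2400000000000000) * (e ^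
      2 * v ^ 2) + (76538875550158183 / 480000000000000) * (e ^ 3 * v ^ 1) +
      (70345934853339343 / 1200000000000000) * (e ^ 4 * v ^ 0) := by
    positivity
  linarith

private theorem yc_p8 {r η : ℝ} (h0 : 2.1 ≤ r) (h1 : r ≤ 2.5) (hη : 0 ≤ η)
    (hG : 1.0453 * ((r - 1) ^ 2 / r) + bb r * η < 1) :
    (1 - 1.0453 * ((r - 1) ^ 2 / r) - bb r * η) * Real.exp (c2 r η) ≤
      1 - 1.0453 * ((r - 1) ^ 2 / r) := by
  have h2 : 1 ≤ r := by linarith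
  have hw := yc_w8 (q := r ^ 2) (by nlinarith) (by nlinarith)
  refine yc_gen (b := 2.5) (k := 2.845) (A := 2.3) (C := 1.6) (d := 0.439961) (s := 1.819401)
    h2 h1 (by linarith) hη (by norm_num) (yc_k8 h0 h1) (yc_dr h2 h1 (by norm_num) (by norm_num))
    ?_ (by norm_num) (by norm_num) yc_u8 hG
  rw [div_le_iff₀ (by positivity)]
  linarith

private theorem yc_k9 {r : ℝ} (h0 : 2.5 ≤ r) (h1 : r ≤ 2.6) :
    0 ≤ 1.7 * r ^ 2 - 16.27 * (r - 1.0453 * (r - 1) ^ 2) * (1 + 0.176 * r ^ 2) ^ 2 := by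
  obtain ⟨u, hu⟩ : ∃ u, u = r - 2.5 := ⟨_, rfl⟩
  obtain ⟨v, hv⟩ : ∃ v, v = 2.6 - r := ⟨_, rfl⟩
  have hu0 : 0 ≤ u := by rw [hu]; linarith
  have hv0 : 0 ≤ v := by rw [hv]; linarith
  have e : 1.7 * r ^ 2 - 16.27 * (r - 1.0453 * (r - 1) ^ 2) * (1 + 0.176 * r ^ 2) ^ 2 =
      (206039 / 400) * (u ^ 0 * v ^ 6) + (9554930986 / 625) * (u ^ 1 * v ^ 5) +
      (4902916658601 / 62500) * (u ^ 2 * v ^ 4) + (62903430975676 / 390625) * (u ^ 3 *
      v ^ 3) + (6456764185640151 / 39062500) * (u ^ 4 * v ^ 2) + (4142497495338176 /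
      48828125) * (u ^ 5 * v ^ 1) + (4252606767373616 / 244140625) * (u ^ 6 * v ^ 0) := by
    rw [hu, hv]
    ring
  rw [e]
  positivity

private theorem yc_w9 {q : ℝ} (h0 : 25 / 4 ≤ q) (h1 : q ≤ 169 / 25) :
    0 ≤ 1.733351 * (3 + 0.5279 * q) ^ 2 - 3.5279 * (3 + 2.6395 * q) := by
  obtain ⟨u, hu⟩ : ∃ u, u = q - 25 / 4 := ⟨_, rfl⟩
  obtain ⟨v, hv⟩ : ∃ v, v = 169 / 25 - q := ⟨_, rfl⟩
  have hu0 : 0 ≤ u := by rw [hu]; linarith
  have hv0 : 0 ≤ v := by rw [hv]; linarith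
  have e : 1.733351 * (3 + 0.5279 * q) ^ 2 - 3.5279 * (3 + 2.6395 * q) =
      (22541197 / 221952000000) * (u ^ 0 * v ^ 2) + (25120574230231 / 5780000000000) *
      (u ^ 1 * v ^ 1) + (26167501662806717 / 5418750000000000) * (u ^ 2 * v ^ 0) := by
    rw [hu, hv]
    ring
  rw [e]
  positivity

private theorem yc_u9 (e : ℝ) (h0 : 0 ≤ e) (h1 : 16.27 * e ≤ 1) :
    (2.416 + 1.51 * e) * (1 - 0.1382 * e) + 0.52 * (1 - 0.5279 * e) ≤
      (16.27 + 16.27 ^ 2 * e / 2 + 16.27 ^ 3 * e ^ 2 / 3) * (1 - 0.5279 * e) * (1 - 0.1382 * e) := by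
  obtain ⟨v, hv⟩ : ∃ v, v = 100 / 1627 - e := ⟨_, rfl⟩
  have hv0 : 0 ≤ v := by rw [hv]; linarith
  have h : (16.27 + 16.27 ^ 2 * e / 2 + 16.27 ^ 3 * e ^ 2 / 3) * (1 - 0.5279 * e) * (1 - 0.1382 * e) -
      ((2.416 + 1.51 * e) * (1 - 0.1382 * e) + 0.52 * (1 - 0.5279 * e)) =
      (46717615381587547 / 50000000000) * (e ^ 0 * v ^ 4) + (21284468864922507513 /
      5000000000000) * (e ^ 1 * v ^ 3) + (70515261933402523541 / 9375000000000) * (e ^
      2 * v ^ 2) + (359674942360611866249 / 60000000000000) * (e ^ 3 * v ^ 1) +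
      (538680190710831226087 / 300000000000000) * (e ^ 4 * v ^ 0) := by
    rw [hv]
    ring
  have h2 : 0 ≤
      (46717615381587547 / 50000000000) * (e ^ 0 * v ^ 4) + (21284468864922507513 /
      5000000000000) * (e ^ 1 * v ^ 3) + (70515261933402523541 / 9375000000000) * (e ^
      2 * v ^ 2) + (359674942360611866249 / 60000000000000) * (e ^ 3 * v ^ 1) +
      (538680190710831226087 / 300000000000000) * (e ^ 4 * v ^ 0) := by
    positivity
  linarith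

private theorem yc_p9 {r η : ℝ} (h0 : 2.5 ≤ r) (h1 : r ≤ 2.6) (hη : 0 ≤ η)
    (hG : 1.0453 * ((r - 1) ^ 2 / r) + bb r * η < 1) :
    (1 - 1.0453 * ((r - 1) ^ 2 / r) - bb r * η) * Real.exp (c2 r η) ≤
      1 - 1.0453 * ((r - 1) ^ 2 / r) := by
  have h2 : 1 ≤ r := by linarith
  have hw := yc_w9 (q := r ^ 2) (by nlinarith) (by nlinarith)
  refine yc_gen (b := 2.6) (k := 16.27) (A := 2.416) (C := 1.51) (d := 0.462915) (s := 1.733351)
    h2 h1 (by linarith) hη (by norm_num) (yc_k9 h0 h1) (yc_dr h2 h1 (by norm_num) (by norm_num))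
    ?_ (by norm_num) (by norm_num) yc_u9 hG
  rw [div_le_iff₀ (by positivity)]
  linarith

theorem core_y2 {r η : ℝ} (h0 : 1 ≤ r) (h1 : r ≤ 2.6) (hη : 0 ≤ η)
    (hG : 1.0453 * ((r - 1) ^ 2 / r) + bb r * η < 1) :
    (1 - 1.0453 * ((r - 1) ^ 2 / r) - bb r * η) * Real.exp (c2 r η) ≤
      1 - 1.0453 * ((r - 1) ^ 2 / r) := by
  rcases le_total r 1.19 with g1 | g1
  · exact yc_p1 h0 g1 hη hG
  rcases le_total r 1.33 with g2 | g2
  · exact yc_p2 g1 g2 hη hG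
  rcases le_total r 1.45 with g3 | g3
  · exact yc_p3 g2 g3 hη hG
  rcases le_total r 1.57 with g4 | g4
  · exact yc_p4 g3 g4 hη hG
  rcases le_total r 1.71 with g5 | g5
  · exact yc_p5 g4 g5 hη hG
  rcases le_total r 1.88 with g6 | g6
  · exact yc_p6 g5 g6 hη hG
  rcases le_total r 2.1 with g7 | g7
  · exact yc_p7 g6 g7 hη hG
  rcases le_total r 2.5 with g8 | g8
  · exact yc_p8 g7 g8 hη hG
  exact yc_p9 g8 h1 hη hG

end Pool.Agent.H45.SN
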