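import Pool.Agent.H45.SN.PE
import Pool.Agent.H45.SN.SA
import Pool.Agent.H45.SN.SB
import Pool.Agent.H45.SN.YC

set_option autoImplicit false

/-! Steklov, part A: the per side inequality.

PROOF. `t = tn n`, `r = q/t`, `η = y/t²` (so `q = r t`, `y = t²η`); `t² ≤ 0.5279` (`nt_sq_le`). Three cases.
`r ≥ 2.6`: `gam_far` contradicts `gam < 1`. `r ≤ 1`: `gam_thin` gives `G + bb r η ≤ gam < 1` with
`G = (1-r)² gg r`, `core_eta1`, then `ee ≤ e0 + e1`, `e0 = 0.326 (1-r)²/r`, `ss ≤ s0 + s1`, `vv ≤ v0 + v1`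
(`ee_le`, `ss_thin`, `vv_thin`) with `e1 + s1 + v1 = c1 r η` and
`s0 + v0 = (1-r)² (0.7946/(1+0.5279r)² + 0.0215 r (1+r)²)`; `(1+e0+e1) ≤ (1+e0) exp e1` (as `1 + e0 + e1 ≤
(1+e0)(1+e1)`). So the product is at most
`[(1-G-bb r η) exp(c1 r η)] (1+e0) exp(s0+v0) ≤ (1-G)(1+e0) exp(s0+v0) ≤ 1` by `core_y1`, `core_x1`
(`core_x1` divided by `r`; `1 - G > 0`). `1 ≤ r ≤ 2.6`: the same with `gam_wide`, `core_eta2`, `ss_wide`,
`vv_wide`, `core_y2`, `core_x2`: `v0 = 0.6934 r dr²`. -/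

open Finset

namespace Pool.Agent.H45.SN

private lemma ps_abs {g G B E e0 e1 S w0 w1 : ℝ} (hg : g < 1) (hG : G + B ≤ g)
    (hE : E ≤ e0 + e1) (he0 : 0 ≤ e0) (he1 : 0 ≤ e1) (hS : S ≤ w0 + w1)
    (h1 : (1 - G - B) * Real.exp (e1 + w1) ≤ 1 - G)
    (h0 : (1 - G) * (1 + e0) * Real.exp w0 ≤ 1) : (1 - g) * (1 + E) * Real.exp S ≤ 1 := by
  have a1 : 1 + E ≤ (1 + e0) * Real.exp e1 := by
    have a2 := Real.add_one_le_exp e1
    have a3 : (1 + e0) * (e1 + 1) ≤ (1 + e0) * Real.exp e1 :=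
      mul_le_mul_of_nonneg_left a2 (by linarith)
    have a4 := mul_nonneg he0 he1
    nlinarith
  have a5 : 0 ≤ (1 + e0) * Real.exp e1 := mul_nonneg (by linarith) (Real.exp_pos _).le
  have a6 : 0 ≤ 1 - G - B := by linarith
  have a7 : (1 - g) * (1 + E) ≤ (1 - G - B) * ((1 + e0) * Real.exp e1) :=
    (mul_le_mul_of_nonneg_left a1 (by linarith)).trans
      (mul_le_mul_of_nonneg_right (by linarith) a5)
  have a8 : Real.exp S ≤ Real.exp (w0 + w1) := Real.exp_le_exp.2 hS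
  calc (1 - g) * (1 + E) * Real.exp S
      ≤ (1 - G - B) * ((1 + e0) * Real.exp e1) * Real.exp S :=
        mul_le_mul_of_nonneg_right a7 (Real.exp_pos _).le
    _ ≤ (1 - G - B) * ((1 + e0) * Real.exp e1) * Real.exp (w0 + w1) :=
        mul_le_mul_of_nonneg_left a8 (mul_nonneg a6 a5)
    _ = (1 - G - B) * Real.exp (e1 + w1) * ((1 + e0) * Real.exp w0) := by
        rw [Real.exp_add, Real.exp_add]
        ring
    _ ≤ (1 - G) * ((1 + e0) * Real.exp w0) :=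
        mul_le_mul_of_nonneg_right h1 (mul_nonneg (by linarith) (Real.exp_pos _).le)
    _ = (1 - G) * (1 + e0) * Real.exp w0 := by ring
    _ ≤ 1 := h0

private lemma ps_thin {n : ℕ} (hn : 5 ≤ n) {β r η u : ℝ} (hβ0 : 0 ≤ β) (hβ : β ≤ 0.326)
    (ht : 0 < tn n) (h2 : tn n ^ 2 ≤ 0.5279) (h0 : 0 < r) (h1 : r ≤ 1) (hη : 0 ≤ η)
    (hy : tn n ^ 2 * η < 1) (hu : |u| ≤ Real.pi / 2)
    (hs : Real.sin u ^ 2 = tn n ^ 2 * η / (1 + (r * tn n) ^ 2))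
    (hg : gam (tn n) (r * tn n) (tn n ^ 2 * η) < 1) :
    (1 - gam (tn n) (r * tn n) (tn n ^ 2 * η)) *
      (1 + ee (tn n) β (r * tn n) (tn n ^ 2 * η)) *
      Real.exp (ss n (tn n) (r * tn n) u + vv n (tn n) (r * tn n) (tn n ^ 2 * η)) ≤ 1 := by
  have g1 := gam_thin ht h2 h0 h1 hη hy
  have hG : (1 - r) ^ 2 * gg r + bb r * η < 1 := lt_of_le_of_lt g1 hg
  have hη1 := core_eta1 h0 h1 hη hG
  have d1 : 0 < 1 - 0.5279 * η := by linarith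
  have g2 := ee_le hn hβ0 hβ h0 hη hη1
  have g3 := ss_thin hn h0 h1 hη hη1 hu hs
  have g4 := vv_thin hn h0 h1 hη hη1
  have g5 := core_y1 h0 h1 hη hG
  have g6 := core_x1 h0 h1
  refine ps_abs (e1 := 0.263 * r * η / (1 - 0.5279 * η))
    (w0 := 0.7946 * (1 - r) ^ 2 / (1 + 0.5279 * r) ^ 2 + 0.0215 * r * (1 - r ^ 2) ^ 2)
    (w1 := 0.7946 * η / (1 + 0.5279 * r ^ 2 - 0.2112 * η) +
      0.0114 * r * (1 - r ^ 2) ^ 2 * η / (1 - 0.5279 * η) +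
      2.4052 * r * η ^ 2 * ((3 + 2.6395 * r ^ 2) / (3 + 0.5279 * r ^ 2) ^ 2) ^ 2 /
        (1 - 0.5279 * η)) hg g1 g2 (by positivity) (by positivity) (by linarith) ?_ ?_
  · have e : 0.263 * r * η / (1 - 0.5279 * η) +
        (0.7946 * η / (1 + 0.5279 * r ^ 2 - 0.2112 * η) +
        0.0114 * r * (1 - r ^ 2) ^ 2 * η / (1 - 0.5279 * η) +
        2.4052 * r * η ^ 2 * ((3 + 2.6395 * r ^ 2) / (3 + 0.5279 * r ^ 2) ^ 2) ^ 2 /
          (1 - 0.5279 * η)) = c1 r η := by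
      unfold c1
      ring
    rw [e]
    exact g5
  · have e : 0.7946 * (1 - r) ^ 2 / (1 + 0.5279 * r) ^ 2 + 0.0215 * r * (1 - r ^ 2) ^ 2 =
        (1 - r) ^ 2 * (0.7946 / (1 + 0.5279 * r) ^ 2 + 0.0215 * r * (1 + r) ^ 2) := by
      ring
    rw [e]
    have e2 : 1 + 0.326 * ((1 - r) ^ 2 / r) = (r + 0.326 * (1 - r) ^ 2) / r := by
      field_simp
    rw [e2]
    have e3 : ∀ a b c : ℝ, a * (b / r) * c = a * b * c / r := fun a b c => by ring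
    rw [e3, div_le_one h0]
    exact g6

private lemma ps_wide {n : ℕ} (hn : 5 ≤ n) {β r η u : ℝ} (hβ0 : 0 ≤ β) (hβ : β ≤ 0.326)
    (ht : 0 < tn n) (h2 : tn n ^ 2 ≤ 0.5279) (h0 : 1 ≤ r) (h1 : r ≤ 2.6) (hη : 0 ≤ η)
    (hy : tn n ^ 2 * η < 1) (hu : |u| ≤ Real.pi / 2)
    (hs : Real.sin u ^ 2 = tn n ^ 2 * η / (1 + (r * tn n) ^ 2))
    (hg : gam (tn n) (r * tn n) (tn n ^ 2 * η) < 1) :
    (1 - gam (tn n) (r * tn n) (tn n ^ 2 * η)) *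
      (1 + ee (tn n) β (r * tn n) (tn n ^ 2 * η)) *
      Real.exp (ss n (tn n) (r * tn n) u + vv n (tn n) (r * tn n) (tn n ^ 2 * η)) ≤ 1 := by
  have g1 := gam_wide ht h2 h0 h1 hη hy
  have hG : 1.0453 * ((r - 1) ^ 2 / r) + bb r * η < 1 := lt_of_le_of_lt g1 hg
  have hη1 := core_eta2 h0 h1 hη hG
  have d1 : 0 < 1 - 0.5279 * η := by linarith
  have r0 : 0 < r := by linarith
  have g2 := ee_le hn hβ0 hβ r0 hη (by linarith)
  have g3 := ss_wide hn h0 hη hη1 hu hs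
  have g4 := vv_wide hn h0 h1 hη hη1
  have g5 := core_y2 h0 h1 hη hG
  have g6 := core_x2 h0 h1
  have e0 : (1 - r) ^ 2 = (r - 1) ^ 2 := by ring
  rw [e0] at g2
  refine ps_abs (e1 := 0.263 * r * η / (1 - 0.5279 * η))
    (w0 := 0.2071 * (1 + r) * ((r - 1) ^ 2 / r) + 0.6934 * r * dr r ^ 2)
    (w1 := 0.52 * η / (1 - 0.1382 * η) +
      0.6934 * r * ((dr r + dy r η) ^ 2 / (1 - 0.5279 * η) - dr r ^ 2)) hg g1 g2
    (by positivity) (by positivity) (by linarith) ?_ g6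
  have e : 0.263 * r * η / (1 - 0.5279 * η) + (0.52 * η / (1 - 0.1382 * η) +
      0.6934 * r * ((dr r + dy r η) ^ 2 / (1 - 0.5279 * η) - dr r ^ 2)) = c2 r η := by
    unfold c2
    ring
  rw [e]
  exact g5

theorem per_side {n : ℕ} (hn : 5 ≤ n) {β q y u : ℝ} (hβ0 : 0 ≤ β) (hβ : β ≤ 0.326) (hq : 0 < q)
    (hy0 : 0 ≤ y) (hy1 : y < 1) (hu : |u| ≤ Real.pi / 2)
    (hs : Real.sin u ^ 2 = y / (1 + q ^ 2)) (hg : gam (tn n) q y < 1) :
    (1 - gam (tn n) q y) * (1 + ee (tn n) β q y) *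
      Real.exp (ss n (tn n) q u + vv n (tn n) q y) ≤ 1 := by
  have ht := nt_pos hn
  have h2 : tn n ^ 2 ≤ 0.5279 := (nt_sq_le hn).trans (by norm_num)
  obtain ⟨r, hr⟩ : ∃ r, q = r * tn n := ⟨q / tn n, by field_simp⟩
  obtain ⟨η, hη⟩ : ∃ η, y = tn n ^ 2 * η := ⟨y / tn n ^ 2, by field_simp⟩
  subst hr
  subst hη
  have r0 : 0 < r := pos_of_mul_pos_left hq ht.le
  have t2 : 0 < tn n ^ 2 := by positivity
  have η0 : 0 ≤ η := nonneg_of_mul_nonneg_right hy0 t2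
  rcases le_or_gt r 1 with h | h
  · exact ps_thin hn hβ0 hβ ht h2 r0 h η0 hy1 hu hs hg
  · rcases le_or_gt r 2.6 with h' | h'
    · exact ps_wide hn hβ0 hβ ht h2 h.le h' η0 hy1 hu hs hg
    · exact absurd hg (not_lt.2 (gam_far ht h2 h'.le η0 hy1))

end Pool.Agent.H45.SN
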