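import Pool.Agent.H45.SN.AJ
import Pool.Agent.H45.SN.AS
import Pool.Agent.H45.SN.PS
import Pool.Agent.H45.SN.K1

set_option autoImplicit false

/-! Steklov, part A: the final inequality for star-shaped polygons.

PROOF of `final_ineq`. `t = tn n`, `X = JJs - 2nt yo < A t³`, so `A > 0` (`X ≥ ∑ PP ≥ 0` by `excess`,
`gam_nonneg`). `γ_j = gam ≤ PP_j/(A t³)` as `A ≤ yo³/1.7`; `∑ γ_j + X2 ≤ X/(A t³) < 1`, `X2 = ∑ T(δ-δ*)² yo/(2At³)`.
`1 - X/(At³) ≤ (1 - ∑γ_j) exp(-X2)`, `1 - ∑ γ_j ≤ ∏ (1-γ_j)`, `1 + ∑ e_j ≤ ∏ (1+e_j)`, and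
`∏ (1-γ_j)(1+e_j) exp(ss_j+vv_j) ≤ 1` (`per_side`). `λ = 1 - L/(2nt)`. `ς = S/(4nt²) ≥ (1-λ)² exp(-∑ss/2)`
(`S_lower`), so `ς² ≥ (1-λ)⁴ exp(-∑ ss)`. If `λ ≤ 0` then `(nβ-1)λ ≤ 0` and `(1-λ)⁴ ≥ 1`. If `λ > 0`: `λ ≤ 0.2` because
`1 - λ = L/(2nt) ≥ 2nt/JJs` (`perim_mom`), `JJs ≤ 2nt yo + A t³ ≤ 1.25·2nt` (`K_four`); then
`1 + E + 0.63λ ≤ (1+E)(1+0.63λ) ≤ (1+E)(1-λ)⁴ exp(5.2λ)` (`exp_lam`) and `5.2 λ ≤ ∑ vv_j + X2`: `perim`,
`(δ-1)² ≤ 4(δ-δ*)² + (4/3)(δ*-1)²`, `δ*-1 = (t²-K)/(3+K)`, `5.2/(nt) ≤ yo/(2At³)` (`K_three`). -/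

open Finset

namespace Pool.Agent.H45.SN

private theorem af_prod_sub {n : ℕ} (G : ℕ → ℝ) (h0 : ∀ j < n, 0 ≤ G j) (h1 : ∀ j < n, G j ≤ 1) :
    1 - ∑ j ∈ range n, G j ≤ ∏ j ∈ range n, (1 - G j) ∧ ∏ j ∈ range n, (1 - G j) ≤ 1 ∧
      0 ≤ ∏ j ∈ range n, (1 - G j) := by
  induction n with
  | zero => simp
  | succ n ih =>
    obtain ⟨a, b, c⟩ := ih (fun j hj => h0 j (by omega)) (fun j hj => h1 j (by omega))
    rw [Finset.sum_range_succ, Finset.prod_range_succ]
    have h2 := h0 n (Nat.lt_succ_self n)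
    have h3 := h1 n (Nat.lt_succ_self n)
    refine ⟨?_, ?_, ?_⟩
    · nlinarith
    · nlinarith
    · exact mul_nonneg c (by linarith)

private theorem af_prod_add {n : ℕ} (e : ℕ → ℝ) (h0 : ∀ j < n, 0 ≤ e j) :
    1 + ∑ j ∈ range n, e j ≤ ∏ j ∈ range n, (1 + e j) ∧ 1 ≤ ∏ j ∈ range n, (1 + e j) := by
  induction n with
  | zero => simp
  | succ n ih =>
    obtain ⟨a, b⟩ := ih (fun j hj => h0 j (by omega))
    rw [Finset.sum_range_succ, Finset.prod_range_succ]
    have h2 := h0 n (Nat.lt_succ_self n)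
    refine ⟨?_, ?_⟩
    · nlinarith
    · nlinarith

private theorem af_prod_all {n : ℕ} (G e w : ℕ → ℝ) (h1 : ∀ j < n, G j ≤ 1)
    (h2 : ∀ j < n, 0 ≤ e j) (h : ∀ j < n, (1 - G j) * (1 + e j) * Real.exp (w j) ≤ 1) :
    (∏ j ∈ range n, (1 - G j)) * (∏ j ∈ range n, (1 + e j)) *
      Real.exp (∑ j ∈ range n, w j) ≤ 1 := by
  rw [Real.exp_sum, ← Finset.prod_mul_distrib, ← Finset.prod_mul_distrib]
  refine Finset.prod_le_one (fun j hj => ?_) fun j hj => ?_
  · have hj' := Finset.mem_range.1 hj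
    have h3 := h1 j hj'
    have h4 := h2 j hj'
    have h5 := Real.exp_pos (w j)
    have h6 : 0 ≤ 1 - G j := by linarith
    have h7 : 0 ≤ 1 + e j := by linarith
    positivity
  · exact h j (Finset.mem_range.1 hj)

theorem final_ineq {n : ℕ} {q δ y u ψ : ℕ → ℝ} (h : Dat n q δ y u ψ) {A β : ℝ} (hA0 : 0 ≤ A)
    (hA : 1.7 * A ≤ yo (tn n) ^ 3) (hβ0 : 1 ≤ n * β) (hβ : n * β ≤ 1.63)
    (hX : JJs n q δ y - 2 * n * tn n * yo (tn n) < A * tn n ^ 3) :
    0 < SSs n q δ y ψ ∧
    (A * tn n ^ 3 - (JJs n q δ y - 2 * n * tn n * yo (tn n))) *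
      (1 + ∑ j ∈ range n, ee (tn n) β (q j) (y j) + (n * β - 1) * (1 - LLs n q δ y / (2 * n * tn n)))
      ≤ A * tn n ^ 3 * (SSs n q δ y ψ / (4 * n * tn n ^ 2)) ^ 2 := by
  have hn := h.hn
  have hnr : (5 : ℝ) ≤ n := by exact_mod_cast hn
  have hn0 : (0 : ℝ) < n := by linarith
  have hexc := excess h
  have hper := perim h
  have hmom := perim_mom h
  have hK3 := K_three hn hA0 hA
  have hK4 := K_four hn hA0 hA
  have ht0 := nt_pos hn
  have ht2 := nt_sq_le hn
  have hgn : ∀ j < n, 0 ≤ gam (tn n) (q j) (y j) := fun j _ =>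
    gam_nonneg ht0 (by linarith) (h.q0 j) (h.y0 j) (h.y1 j)
  have hps : ∀ β' : ℝ, 0 ≤ β' → β' ≤ 0.326 → ∀ j < n, gam (tn n) (q j) (y j) < 1 →
      (1 - gam (tn n) (q j) (y j)) * (1 + ee (tn n) β' (q j) (y j)) *
      Real.exp (ss n (tn n) (q j) (u j) + vv n (tn n) (q j) (y j)) ≤ 1 :=
    fun β' hb0 hb1 j _ hg => per_side hn hb0 hb1 (h.q0 j) (h.y0 j) (h.y1 j) (h.hu j) (h.hs j) hg
  have hSl : ∀ _ : ∑ j ∈ range n, gam (tn n) (q j) (y j) < 1, _ := fun hs => S_lower h hgn hs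
  generalize hJ : JJs n q δ y = J at *
  generalize hL : LLs n q δ y = L at *
  generalize hS : SSs n q δ y ψ = S at *
  generalize ht : tn n = t at *
  generalize hyo : yo t = Y at *
  have hY1 : 1 ≤ Y := by
    rw [← hyo]
    unfold yo
    nlinarith [sq_nonneg t]
  have hY0 : 0 < Y := by linarith
  have ht3 : 0 < t ^ 3 := by positivity
  have hY3 : 0 < Y ^ 3 := by positivity
  have hW : 0 < 2 * (n : ℝ) * t := by positivity
  -- the sums
  obtain ⟨g, hg⟩ : ∃ g, g = ∑ j ∈ range n, gam t (q j) (y j) := ⟨_, rfl⟩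
  obtain ⟨P, hP⟩ : ∃ P, P = ∑ j ∈ range n, PP t (q j) (y j) := ⟨_, rfl⟩
  obtain ⟨D, hD⟩ : ∃ D, D = ∑ j ∈ range n, TT (q j) (y j) * (δ j - ds t (q j) (y j)) ^ 2 := ⟨_, rfl⟩
  have hT0 : ∀ j, 0 < TT (q j) (y j) := by
    intro j
    unfold TT
    have h1 := h.q0 j
    have h2 := h.y1 j
    have h3 : 0 < 1 - y j := by linarith
    positivity
  have hD0 : 0 ≤ D := by
    rw [hD]
    exact Finset.sum_nonneg fun j _ => mul_nonneg (hT0 j).le (sq_nonneg _)
  have hgP : g = 1.7 * P / (Y ^ 3 * t ^ 3) := by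
    rw [hg, hP, Finset.mul_sum, Finset.sum_div]
    refine Finset.sum_congr rfl fun j _ => ?_
    rw [← hyo]
    rfl
  have hg0 : 0 ≤ g := by
    rw [hg]
    exact Finset.sum_nonneg fun j hj => hgn j (Finset.mem_range.1 hj)
  have hP0 : P = g * (Y ^ 3 * t ^ 3) / 1.7 := by
    rw [hgP]
    field_simp
  have hPn : 0 ≤ P := by
    rw [hP0]
    positivity
  have hexc' : P + D * (Y / 2) ≤ J - 2 * n * t * Y := by
    rw [hP, hD, Finset.sum_mul]
    exact hexc
  obtain ⟨X, hXd⟩ : ∃ X, X = J - 2 * n * t * Y := ⟨_, rfl⟩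
  rw [← hXd] at hexc' hX ⊢
  have hX0 : 0 ≤ X := le_trans (by positivity) hexc'
  have hAt : 0 < A * t ^ 3 := lt_of_le_of_lt hX0 hX
  have hA1 : 0 < A := by
    rcases hA0.lt_or_eq with h1 | h1
    · exact h1
    · rw [← h1] at hAt
      linarith
  obtain ⟨X2, hX2⟩ : ∃ X2, X2 = D * (Y / 2) / (A * t ^ 3) := ⟨_, rfl⟩
  have hX20 : 0 ≤ X2 := by
    rw [hX2]
    positivity
  have hsum : (g + X2) * (A * t ^ 3) ≤ X := by
    have h1 : g * (A * t ^ 3) ≤ P := by
      rw [hP0, le_div_iff₀ (by norm_num)]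
      have h2 : g * (A * t ^ 3) * 1.7 = g * t ^ 3 * (1.7 * A) := by ring
      have h3 : g * (Y ^ 3 * t ^ 3) = g * t ^ 3 * Y ^ 3 := by ring
      rw [h2, h3]
      exact mul_le_mul_of_nonneg_left hA (by positivity)
    have h2 : X2 * (A * t ^ 3) = D * (Y / 2) := by
      rw [hX2]
      field_simp
    rw [add_mul, h2]
    linarith
  have hgX : g + X2 < 1 := by
    by_contra hcon
    push Not at hcon
    have h1 : 1 * (A * t ^ 3) ≤ (g + X2) * (A * t ^ 3) := mul_le_mul_of_nonneg_right hcon hAt.le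
    linarith
  have hg1 : g < 1 := by linarith
  have hgj : ∀ j < n, gam t (q j) (y j) < 1 := by
    intro j hj
    refine lt_of_le_of_lt ?_ hg1
    rw [hg]
    exact Finset.single_le_sum (f := fun j => gam t (q j) (y j))
      (fun i hi => hgn i (Finset.mem_range.1 hi)) (Finset.mem_range.2 hj)
  -- the bound for S
  have hSl' := hSl (by rw [← hg]; exact hg1)
  obtain ⟨s, hs⟩ : ∃ s, s = ∑ j ∈ range n, ss n t (q j) (u j) := ⟨_, rfl⟩
  obtain ⟨v, hv⟩ : ∃ v, v = ∑ j ∈ range n, vv n t (q j) (y j) := ⟨_, rfl⟩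
  obtain ⟨E, hE⟩ : ∃ E, E = ∑ j ∈ range n, ee t β (q j) (y j) := ⟨_, rfl⟩
  rw [← hs] at hSl'
  rw [← hE]
  have hJ0 : 0 < J := by
    have h1 : 0 < 2 * (n : ℝ) * t * Y := by positivity
    linarith
  have hL0 : 0 < L := by
    by_contra hcon
    push Not at hcon
    have h1 : L * J ≤ 0 := mul_nonpos_of_nonpos_of_nonneg hcon hJ0.le
    have h2 : 0 < (2 * (n : ℝ) * t) ^ 2 := by positivity
    linarith
  have hes := Real.exp_pos (s / 2)
  have hS0 : 0 < S := by
    by_contra hcon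
    push Not at hcon
    have h1 : S * (n * Real.exp (s / 2)) ≤ 0 :=
      mul_nonpos_of_nonpos_of_nonneg hcon (by positivity)
    have h2 : 0 < L ^ 2 := by positivity
    linarith
  refine ⟨hS0, ?_⟩
  have hβr : 0 ≤ β ∧ β ≤ 0.326 := by
    constructor
    · by_contra hcon
      push Not at hcon
      have h1 : (n : ℝ) * β ≤ 0 := mul_nonpos_of_nonneg_of_nonpos hn0.le hcon.le
      linarith
    · by_contra hcon
      push Not at hcon
      have h1 : 5 * β ≤ n * β := mul_le_mul_of_nonneg_right hnr (by linarith)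
      linarith
  have hy' : ∀ j, 0 < 1 - y j := fun j => by linarith [h.y1 j]
  have hee0 : ∀ j < n, 0 ≤ ee t β (q j) (y j) := by
    intro j _
    unfold ee
    have h1 := h.q0 j
    have h2 := h.y0 j
    have h3 := hy' j
    have h4 := hβr.1
    positivity
  have hvv0 : ∀ j < n, 0 ≤ vv n t (q j) (y j) := by
    intro j _
    unfold vv
    have h1 := h.q0 j
    have h3 := hy' j
    positivity
  have hE0 : 0 ≤ E := by
    rw [hE]
    exact Finset.sum_nonneg fun j hj => hee0 j (Finset.mem_range.1 hj)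
  have hv0 : 0 ≤ v := by
    rw [hv]
    exact Finset.sum_nonneg fun j hj => hvv0 j (Finset.mem_range.1 hj)
  -- the product
  have hprod : (1 - g) * (1 + E) * Real.exp (s + v) ≤ 1 := by
    obtain ⟨a1, a2, a3⟩ := af_prod_sub (n := n) (fun j => gam t (q j) (y j)) hgn
      (fun j hj => (hgj j hj).le)
    obtain ⟨b1, b2⟩ := af_prod_add (n := n) (fun j => ee t β (q j) (y j)) hee0
    have hall := af_prod_all (n := n) (fun j => gam t (q j) (y j)) (fun j => ee t β (q j) (y j))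
      (fun j => ss n t (q j) (u j) + vv n t (q j) (y j)) (fun j hj => (hgj j hj).le) hee0
      (fun j hj => hps β hβr.1 hβr.2 j hj (hgj j hj))
    rw [Finset.sum_add_distrib, ← hs, ← hv] at hall
    refine le_trans ?_ hall
    refine mul_le_mul_of_nonneg_right ?_ (Real.exp_pos _).le
    rw [hg, hE]
    refine mul_le_mul a1 b1 ?_ a3
    rw [← hE]
    linarith
  -- normalised quantities
  obtain ⟨lam, hlam⟩ : ∃ lam, lam = 1 - L / (2 * n * t) := ⟨_, rfl⟩
  rw [← hlam]
  obtain ⟨sg, hsg⟩ : ∃ sg, sg = S / (4 * n * t ^ 2) := ⟨_, rfl⟩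
  rw [← hsg]
  have hsg0 : 0 < sg := by
    rw [hsg]
    positivity
  have hLl : L / (2 * n * t) = 1 - lam := by
    rw [hlam]
    ring
  have hl1 : 0 < 1 - lam := by
    rw [← hLl]
    positivity
  have hsq : (1 - lam) ^ 2 ≤ sg * Real.exp (s / 2) := by
    rw [← hLl, hsg, div_pow, div_le_iff₀ (by positivity)]
    have h1 : S / (4 * n * t ^ 2) * Real.exp (s / 2) * (2 * n * t) ^ 2 =
        S * (n * Real.exp (s / 2)) := by
      field_simp
      ring
    rw [h1]
    exact hSl'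
  have hquad : (1 - lam) ^ 4 ≤ sg ^ 2 * Real.exp s := by
    have h1 : (1 - lam) ^ 2 * (1 - lam) ^ 2 ≤ (sg * Real.exp (s / 2)) * (sg * Real.exp (s / 2)) :=
      mul_le_mul hsq hsq (by positivity) (by positivity)
    have h2 : Real.exp (s / 2) * Real.exp (s / 2) = Real.exp s := by
      rw [← Real.exp_add]
      congr 1
      ring
    calc (1 - lam) ^ 4 = (1 - lam) ^ 2 * (1 - lam) ^ 2 := by ring
      _ ≤ _ := h1
      _ = sg ^ 2 * (Real.exp (s / 2) * Real.exp (s / 2)) := by ring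
      _ = _ := by rw [h2]
  -- reduction
  have hx : A * t ^ 3 - X ≤ A * t ^ 3 * ((1 - g) * Real.exp (-X2)) := by
    have h1 : 1 - g - X2 ≤ (1 - g) * Real.exp (-X2) := by
      have h2 := Real.add_one_le_exp (-X2)
      have h3 : (1 - g) * (-X2 + 1) ≤ (1 - g) * Real.exp (-X2) :=
        mul_le_mul_of_nonneg_left h2 (by linarith)
      have h4 : (1 - g) * (-X2 + 1) = 1 - g - X2 + g * X2 := by ring
      have h5 := mul_nonneg hg0 hX20
      linarith
    have h4 := mul_le_mul_of_nonneg_left h1 hAt.le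
    linarith
  have hexs := Real.exp_pos s
  have hgoal : ((1 - g) * Real.exp (-X2)) * (1 + E + (n * β - 1) * lam) ≤ sg ^ 2 := by
    rcases le_total lam 0 with hl | hl
    · have h1 : (n * β - 1) * lam ≤ 0 :=
        mul_nonpos_of_nonneg_of_nonpos (by linarith) hl
      have h2 : Real.exp (-X2) ≤ 1 := Real.exp_le_one_iff.2 (by linarith)
      have h3 : ((1 - g) * Real.exp (-X2)) * (1 + E + (n * β - 1) * lam) ≤ (1 - g) * (1 + E) := by
        have h4 : ((1 - g) * Real.exp (-X2)) * (1 + E + (n * β - 1) * lam) ≤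
            ((1 - g) * Real.exp (-X2)) * (1 + E) :=
          mul_le_mul_of_nonneg_left (by linarith)
            (mul_nonneg (by linarith) (Real.exp_pos _).le)
        have h5 : ((1 - g) * Real.exp (-X2)) * (1 + E) ≤ ((1 - g) * 1) * (1 + E) :=
          mul_le_mul_of_nonneg_right (mul_le_mul_of_nonneg_left h2 (by linarith)) (by linarith)
        linarith
      refine h3.trans ?_
      have h6 : (1 - g) * (1 + E) * Real.exp s ≤ 1 := by
        refine le_trans ?_ hprod
        refine mul_le_mul_of_nonneg_left (Real.exp_le_exp.2 (by linarith)) ?_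
        exact mul_nonneg (by linarith) (by linarith)
      have h7 : 1 ≤ (1 - lam) ^ 4 := one_le_pow₀ (by linarith)
      have h8 : (1 - g) * (1 + E) * Real.exp s ≤ sg ^ 2 * Real.exp s := by linarith
      exact le_of_mul_le_mul_right h8 hexs
    · have hl02 : lam ≤ 0.2 := by
        have h1 : J ≤ 1.25 * (2 * n * t) := by
          have h2 : A * t ^ 3 = 2 * n * t * (A * t ^ 2 / (2 * n)) := by
            field_simp
          have h3 := mul_le_mul_of_nonneg_left hK4 hW.le
          rw [mul_add, ← h2] at h3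
          linarith
        have h4 : (2 * (n : ℝ) * t) ^ 2 ≤ L * (1.25 * (2 * n * t)) :=
          hmom.trans (mul_le_mul_of_nonneg_left h1 hL0.le)
        have h5 : 2 * (n : ℝ) * t ≤ 1.25 * L := by
          have h6 : (2 * (n : ℝ) * t) * (2 * n * t) ≤ (1.25 * L) * (2 * n * t) := by linarith
          exact le_of_mul_le_mul_right h6 hW
        have h7 : 0.8 ≤ L / (2 * n * t) := by
          rw [le_div_iff₀ hW]
          linarith
        rw [hLl] at h7
        linarith
      have hexl := exp_lam hl hl02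
      -- the perimeter defect
      have hvx : 5.2 * lam ≤ v + X2 := by
        obtain ⟨Q, hQ⟩ : ∃ Q, Q = ∑ j ∈ range n, TT (q j) (y j) * (δ j - 1) ^ 2 := ⟨_, rfl⟩
        rw [← hQ] at hper
        have h1 : lam * (2 * n * t) ≤ Q / 2 := by
          have h2 : lam * (2 * n * t) = 2 * n * t - L := by
            rw [hlam]
            field_simp
          rw [h2]
          linarith
        obtain ⟨Q', hQ'⟩ : ∃ Q', Q' = ∑ j ∈ range n,
          TT (q j) (y j) * (ds t (q j) (y j) - 1) ^ 2 := ⟨_, rfl⟩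
        have h3 : Q ≤ 4 * D + 4 / 3 * Q' := by
          rw [hQ, hD, hQ', Finset.mul_sum, Finset.mul_sum, ← Finset.sum_add_distrib]
          refine Finset.sum_le_sum fun j _ => ?_
          have h4 : (δ j - 1) ^ 2 ≤ 4 * (δ j - ds t (q j) (y j)) ^ 2 +
              4 / 3 * (ds t (q j) (y j) - 1) ^ 2 := by
            have h5 : 4 * (δ j - ds t (q j) (y j)) ^ 2 + 4 / 3 * (ds t (q j) (y j) - 1) ^ 2 -
                (δ j - 1) ^ 2 =
                1 / 3 * (3 * (δ j - ds t (q j) (y j)) - (ds t (q j) (y j) - 1)) ^ 2 := by ring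
            have h6 := sq_nonneg (3 * (δ j - ds t (q j) (y j)) - (ds t (q j) (y j) - 1))
            linarith
          have h5 := mul_le_mul_of_nonneg_left h4 (hT0 j).le
          linarith
        have h6 : 5.2 / 3 * Q' / (n * t) ≤ v := by
          rw [hQ', hv, Finset.mul_sum, Finset.sum_div]
          refine Finset.sum_le_sum fun j _ => ?_
          have hk : 0 ≤ KK (q j) (y j) := KK_nonneg (h.y0 j) (h.y1 j)
          have h7 : ds t (q j) (y j) - 1 = (t ^ 2 - KK (q j) (y j)) / (3 + KK (q j) (y j)) := by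
            unfold ds
            field_simp
            ring
          have h8 : vv n t (q j) (y j) = 1.7334 / (n * t) *
              (TT (q j) (y j) * ((t ^ 2 - KK (q j) (y j)) / (3 + KK (q j) (y j))) ^ 2) := by
            unfold vv TT
            have h9 := hy' j
            field_simp
          have h10 : 0 ≤ TT (q j) (y j) *
              ((t ^ 2 - KK (q j) (y j)) / (3 + KK (q j) (y j))) ^ 2 :=
            mul_nonneg (hT0 j).le (sq_nonneg _)
          have h11 : (5.2 / 3 : ℝ) ≤ 1.7334 := by norm_num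
          have h12 : 0 ≤ (n : ℝ) * t := by positivity
          rw [h7, h8, div_mul_eq_mul_div (1.7334 : ℝ)]
          exact div_le_div_of_nonneg_right (mul_le_mul_of_nonneg_right h11 h10) h12
        have h7 : 5.2 * D / (n * t) ≤ X2 := by
          rw [hX2, div_le_div_iff₀ (by positivity) hAt]
          have h8 : 5.2 * D * (A * t ^ 3) = D / 2 * t * (10.4 * A * t ^ 2) := by ring
          have h9 : D * (Y / 2) * (n * t) = D / 2 * t * (n * Y) := by ring
          rw [h8, h9]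
          exact mul_le_mul_of_nonneg_left hK3 (by positivity)
        have h8 : 5.2 * lam ≤ 5.2 * (Q / 2 / (2 * n * t)) := by
          have h9 : lam ≤ Q / 2 / (2 * n * t) := by
            rw [le_div_iff₀ hW]
            exact h1
          linarith
        have h9 : 5.2 * (Q / 2 / (2 * n * t)) ≤ 5.2 * ((4 * D + 4 / 3 * Q') / 2 / (2 * n * t)) := by
          have h10 : Q / 2 / (2 * n * t) ≤ (4 * D + 4 / 3 * Q') / 2 / (2 * n * t) :=
            div_le_div_of_nonneg_right (by linarith) hW.le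
          linarith
        have h10 : 5.2 * ((4 * D + 4 / 3 * Q') / 2 / (2 * n * t)) =
            5.2 * D / (n * t) + 5.2 / 3 * Q' / (n * t) := by
          field_simp
          ring
        linarith
      have h1 : 1 + E + (n * β - 1) * lam ≤ (1 + E) * (1 + 0.63 * lam) := by
        have h2 : (n * β - 1) * lam ≤ 0.63 * lam := mul_le_mul_of_nonneg_right (by linarith) hl
        have h3 : (1 + E) * (1 + 0.63 * lam) = 1 + E + 0.63 * lam + 0.63 * (E * lam) := by ring
        have h4 := mul_nonneg hE0 hl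
        linarith
      have h2 : (1 + E) * (1 + 0.63 * lam) ≤ (1 + E) * ((1 - lam) ^ 4 * Real.exp (5.2 * lam)) :=
        mul_le_mul_of_nonneg_left hexl (by linarith)
      have h3 : ((1 - g) * Real.exp (-X2)) * (1 + E + (n * β - 1) * lam) ≤
          ((1 - g) * Real.exp (-X2)) * ((1 + E) * ((1 - lam) ^ 4 * Real.exp (5.2 * lam))) :=
        mul_le_mul_of_nonneg_left (h1.trans h2) (mul_nonneg (by linarith) (Real.exp_pos _).le)
      refine h3.trans ?_
      have h4 : Real.exp (-X2) * Real.exp (5.2 * lam) ≤ Real.exp v := by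
        rw [← Real.exp_add]
        exact Real.exp_le_exp.2 (by linarith)
      have h5 : ((1 - g) * Real.exp (-X2)) * ((1 + E) * ((1 - lam) ^ 4 * Real.exp (5.2 * lam))) =
          ((1 - g) * (1 + E)) * (1 - lam) ^ 4 * (Real.exp (-X2) * Real.exp (5.2 * lam)) := by ring
      rw [h5]
      have h6 : ((1 - g) * (1 + E)) * (1 - lam) ^ 4 * (Real.exp (-X2) * Real.exp (5.2 * lam)) ≤
          ((1 - g) * (1 + E)) * (1 - lam) ^ 4 * Real.exp v := by
        refine mul_le_mul_of_nonneg_left h4 ?_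
        exact mul_nonneg (mul_nonneg (by linarith) (by linarith)) (by positivity)
      refine h6.trans ?_
      have h7 : ((1 - g) * (1 + E)) * (1 - lam) ^ 4 * Real.exp v ≤
          ((1 - g) * (1 + E)) * (sg ^ 2 * Real.exp s) * Real.exp v := by
        refine mul_le_mul_of_nonneg_right ?_ (Real.exp_pos _).le
        exact mul_le_mul_of_nonneg_left hquad (mul_nonneg (by linarith) (by linarith))
      refine h7.trans ?_
      rw [Real.exp_add] at hprod
      calc ((1 - g) * (1 + E)) * (sg ^ 2 * Real.exp s) * Real.exp v =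
          sg ^ 2 * ((1 - g) * (1 + E) * (Real.exp s * Real.exp v)) := by ring
        _ ≤ sg ^ 2 * 1 := mul_le_mul_of_nonneg_left hprod (by positivity)
        _ = sg ^ 2 := by ring
  by_cases hneg : 0 ≤ 1 + E + (n * β - 1) * lam
  · calc (A * t ^ 3 - X) * (1 + E + (n * β - 1) * lam) ≤
        A * t ^ 3 * ((1 - g) * Real.exp (-X2)) * (1 + E + (n * β - 1) * lam) :=
          mul_le_mul_of_nonneg_right hx hneg
      _ = A * t ^ 3 * (((1 - g) * Real.exp (-X2)) * (1 + E + (n * β - 1) * lam)) := by ring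
      _ ≤ A * t ^ 3 * sg ^ 2 := mul_le_mul_of_nonneg_left hgoal hAt.le
  · push Not at hneg
    have h1 : (A * t ^ 3 - X) * (1 + E + (n * β - 1) * lam) ≤ 0 :=
      mul_nonpos_of_nonneg_of_nonpos (by linarith) hneg.le
    have h2 : 0 ≤ A * t ^ 3 * sg ^ 2 := by positivity
    linarith

end Pool.Agent.H45.SN
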