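import Pool.Agent.H45.SN.PA

set_option autoImplicit false

/-! Steklov, part A: the Lagrangian `pp` for wide sides.

PROOF. (`pp_deriv` may be used.) `pp_wide`: put `F(q) = pp t q - t² (q + t²/q - 2t)` (`= pp - t³(r-1)²/r`
for `q = r t`), `F(t) = 0`, and `F'(q) = pp'(q) - t² (1 - t²/q²) ≥ 0` for `t ≤ q ≤ 2.6 t`: with `Q = q²`,
`τ = t²`, `a = 1+Q/3`, `b = 1+τ/3` the claim is
`[(1-τ²) a³ - (1-Q²) b³] Q ≥ τ (Q-τ)(1+Q) a³` for `τ ≤ Q ≤ 6.76 τ`, `τ ≤ 0.5279`; here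
`(1-τ²) a³ - (1-Q²) b³ = (a³ - b³) + Q² b³ - τ² a³` is divisible by `Q - τ`:
`a³-b³ = (Q-τ)(a²+ab+b²)/3`, `Q² b³ - τ² a³ = (Q b - τ a)(...)+...`. After division by `Q - τ` the
ratio of the two sides is at least `1.0075` (close to `1` only for `Q → τ`, `τ → 0` where it is `Q/τ`, put `Q = k τ`).
`pp_far`: `pp' ≥ 0` for `q ≥ t` (as `F(Q) = (1-Q²)/(1+Q/3)³` is decreasing where positive), so for
`r ≥ 2.6`: `pp t (r t) ≥ pp t (2.6 t) ≥ t³ 1.6²/2.6 ≥ 0.984 t³ ≥ yo t ^ 3 t³/1.7`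
(`yo t ^ 3 ≤ 1.6265`, `1.6265/1.7 = 0.957`). `pp_nonneg`: `pp' ≤ 0` on `[0,t]`, `≥ 0` on `[t,∞)`,
`pp t t = 0`. -/

open Finset

namespace Pool.Agent.H45.SN

private lemma PC_self {t : ℝ} : pp t t = 0 := by
  unfold pp yo
  have h3 : (3 + t ^ 2 : ℝ) ≠ 0 := by positivity
  rw [sub_self, mul_zero, add_zero]
  field_simp
  ring

private lemma PC_dd {t q : ℝ} : (1 - t ^ 4) / (1 + q ^ 2) -
    27 * yo t ^ 3 * (1 - q ^ 2) / (3 + q ^ 2) ^ 3 =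
    ((1 - t ^ 4) * (1 + q ^ 2 / 3) ^ 3 - (1 - q ^ 4) * (1 + t ^ 2 / 3) ^ 3) /
      ((1 + q ^ 2) * (1 + q ^ 2 / 3) ^ 3) := by
  unfold yo
  have h1 : (1 + q ^ 2 : ℝ) ≠ 0 := by positivity
  have h3 : (3 + q ^ 2 : ℝ) ≠ 0 := by positivity
  have h4 : (1 + q ^ 2 / 3 : ℝ) = (3 + q ^ 2) / 3 := by ring
  rw [h4]
  field_simp
  ring

private lemma PC_pos {t q : ℝ} (h2 : t ^ 2 ≤ 0.5279) (hq : t ^ 2 ≤ q ^ 2) :
    0 ≤ (1 - t ^ 4) / (1 + q ^ 2) - 27 * yo t ^ 3 * (1 - q ^ 2) / (3 + q ^ 2) ^ 3 := by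
  rw [PC_dd]
  apply div_nonneg _ (by positivity)
  have e1 : t ^ 4 = (t ^ 2) ^ 2 := by ring
  have e2 : q ^ 4 = (q ^ 2) ^ 2 := by ring
  rw [e1, e2]
  have ht0 : 0 ≤ t ^ 2 := sq_nonneg t
  generalize t ^ 2 = τ at *
  generalize q ^ 2 = Q at *
  have h3 : (1 + τ / 3) ^ 3 ≤ (1 + Q / 3) ^ 3 := pow_le_pow_left₀ (by positivity) (by linarith) 3
  have h4 : 0 ≤ (1 + τ / 3) ^ 3 := by positivity
  have h5 : τ ^ 2 ≤ Q ^ 2 := pow_le_pow_left₀ ht0 hq 2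
  have h6 : 0 ≤ 1 - τ ^ 2 := by nlinarith
  nlinarith [mul_nonneg h6 (sub_nonneg.2 h3), mul_nonneg (sub_nonneg.2 h5) h4]

private lemma PC_neg {t q : ℝ} (h2 : t ^ 2 ≤ 0.5279) (hq : q ^ 2 ≤ t ^ 2) :
    (1 - t ^ 4) / (1 + q ^ 2) - 27 * yo t ^ 3 * (1 - q ^ 2) / (3 + q ^ 2) ^ 3 ≤ 0 := by
  rw [PC_dd]
  apply div_nonpos_of_nonpos_of_nonneg _ (by positivity)
  have e1 : t ^ 4 = (t ^ 2) ^ 2 := by ring
  have e2 : q ^ 4 = (q ^ 2) ^ 2 := by ring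
  rw [e1, e2]
  have hq0 : 0 ≤ q ^ 2 := sq_nonneg q
  have ht0 : 0 ≤ t ^ 2 := sq_nonneg t
  generalize t ^ 2 = τ at *
  generalize q ^ 2 = Q at *
  have h3 : (1 + Q / 3) ^ 3 ≤ (1 + τ / 3) ^ 3 := pow_le_pow_left₀ (by positivity) (by linarith) 3
  have h4 : 0 ≤ (1 + τ / 3) ^ 3 := by positivity
  have h5 : Q ^ 2 ≤ τ ^ 2 := pow_le_pow_left₀ hq0 hq 2
  have h6 : 0 ≤ 1 - τ ^ 2 := by nlinarith
  nlinarith [mul_nonneg h6 (sub_nonneg.2 h3), mul_nonneg (sub_nonneg.2 h5) h4]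

private lemma PC_diff (t : ℝ) : Differentiable ℝ (pp t) := fun q => (pp_deriv t q).differentiableAt

private lemma PC_mono {t x y : ℝ} (ht : 0 < t) (h2 : t ^ 2 ≤ 0.5279) (hx : t ≤ x) (hxy : x ≤ y) :
    pp t x ≤ pp t y := by
  have h : MonotoneOn (pp t) (Set.Ici t) := by
    apply monotoneOn_of_deriv_nonneg (convex_Ici t) (PC_diff t).continuous.continuousOn
      (PC_diff t).differentiableOn
    intro q hq
    rw [interior_Ici, Set.mem_Ioi] at hq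
    rw [(pp_deriv t q).deriv]
    exact PC_pos h2 (pow_le_pow_left₀ ht.le hq.le 2)
  exact h hx (hx.trans hxy) hxy

private lemma PC_anti {t x : ℝ} (h2 : t ^ 2 ≤ 0.5279) (hx : 0 ≤ x) (hxy : x ≤ t) :
    0 ≤ pp t x := by
  have h : AntitoneOn (pp t) (Set.Icc 0 t) := by
    apply antitoneOn_of_deriv_nonpos (convex_Icc 0 t) (PC_diff t).continuous.continuousOn
      (PC_diff t).differentiableOn
    intro q hq
    rw [interior_Icc, Set.mem_Ioo] at hq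
    rw [(pp_deriv t q).deriv]
    exact PC_neg h2 (pow_le_pow_left₀ hq.1.le hq.2.le 2)
  have h1 := h ⟨hx, hxy⟩ ⟨hx.trans hxy, le_refl t⟩ hxy
  rwa [PC_self] at h1

private lemma PC_H {τ Q : ℝ} (h0 : 0 ≤ τ) (h2 : τ ≤ 0.5279) (h1 : τ ≤ Q) (h3 : Q ≤ 6.76 * τ) :
    0 ≤ 27 * (Q - τ) + 36 * Q ^ 2 - 18 * Q * τ + Q ^ 3 - 8 * Q ^ 2 * τ + Q * τ ^ 2
      - 10 * Q ^ 3 * τ - Q ^ 4 * τ - Q ^ 3 * τ ^ 2 := by
  have hQ : 0 ≤ Q := h0.trans h1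
  rcases le_total Q 0.5279 with h4 | h4
  · have e : 27 * (Q - τ) + 36 * Q ^ 2 - 18 * Q * τ + Q ^ 3 - 8 * Q ^ 2 * τ + Q * τ ^ 2
      - 10 * Q ^ 3 * τ - Q ^ 4 * τ - Q ^ 3 * τ ^ 2 =
      (Q - τ) * (27 + 18 * Q + 8 * Q ^ 2 + 10 * Q ^ 3 + Q ^ 4 - (Q - Q ^ 3) * (Q + τ)) +
      2 * Q ^ 2 * (9 - 3 * Q - 5 * Q ^ 2 - Q ^ 3) := by ring
    rw [e]
    have h5 : 0 ≤ 27 + 18 * Q + 8 * Q ^ 2 + 10 * Q ^ 3 + Q ^ 4 - (Q - Q ^ 3) * (Q + τ) := by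
      have : (Q - Q ^ 3) * (Q + τ) ≤ Q * (Q + τ) :=
        mul_le_mul_of_nonneg_right (by nlinarith [pow_nonneg hQ 3]) (by linarith)
      nlinarith [pow_nonneg hQ 2, pow_nonneg hQ 3, pow_nonneg hQ 4]
    have h6 : 0 ≤ 9 - 3 * Q - 5 * Q ^ 2 - Q ^ 3 := by
      have : Q ^ 2 ≤ 0.5279 ^ 2 := pow_le_pow_left₀ hQ h4 2
      have : Q ^ 3 ≤ 0.5279 ^ 3 := pow_le_pow_left₀ hQ h4 3
      norm_num at *
      linarith
    have h7 := mul_nonneg (sub_nonneg.2 h1) h5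
    have h8 := mul_nonneg (mul_nonneg (by norm_num : (0:ℝ) ≤ 2) (pow_nonneg hQ 2)) h6
    linarith
  · have e : 27 * (Q - τ) + 36 * Q ^ 2 - 18 * Q * τ + Q ^ 3 - 8 * Q ^ 2 * τ + Q * τ ^ 2
      - 10 * Q ^ 3 * τ - Q ^ 4 * τ - Q ^ 3 * τ ^ 2 =
      (0.5279 - τ) * (27 + 18 * Q + 8 * Q ^ 2 + 10 * Q ^ 3 + Q ^ 4 - (Q - Q ^ 3) * (0.5279 + τ)) +
      (27 * (Q - 0.5279) + 36 * Q ^ 2 - 18 * Q * 0.5279 + Q ^ 3 - 8 * Q ^ 2 * 0.5279 +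
        Q * 0.5279 ^ 2 - 10 * Q ^ 3 * 0.5279 - Q ^ 4 * 0.5279 - Q ^ 3 * 0.5279 ^ 2) := by ring
    rw [e]
    have h5 : 0 ≤ 27 + 18 * Q + 8 * Q ^ 2 + 10 * Q ^ 3 + Q ^ 4 - (Q - Q ^ 3) * (0.5279 + τ) := by
      have : (Q - Q ^ 3) * (0.5279 + τ) ≤ Q * (0.5279 + τ) :=
        mul_le_mul_of_nonneg_right (by nlinarith [pow_nonneg hQ 3]) (by linarith)
      nlinarith [pow_nonneg hQ 2, pow_nonneg hQ 3, pow_nonneg hQ 4]
    have h9 : Q ≤ 3.57 := by linarith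
    have h7 := mul_nonneg (sub_nonneg.2 h2) h5
    have h8 : 0 ≤ 27 * (Q - 0.5279) + 36 * Q ^ 2 - 18 * Q * 0.5279 + Q ^ 3 - 8 * Q ^ 2 * 0.5279 +
        Q * 0.5279 ^ 2 - 10 * Q ^ 3 * 0.5279 - Q ^ 4 * 0.5279 - Q ^ 3 * 0.5279 ^ 2 := by
      have e2 : 27 * (Q - 0.5279) + 36 * Q ^ 2 - 18 * Q * 0.5279 + Q ^ 3 - 8 * Q ^ 2 * 0.5279 +
        Q * 0.5279 ^ 2 - 10 * Q ^ 3 * 0.5279 - Q ^ 4 * 0.5279 - Q ^ 3 * 0.5279 ^ 2 =
        Q ^ 2 * (31.7768 - 4.55767841 * Q - 0.5279 * Q ^ 2) + 17.77647841 * Q - 14.2533 := by ring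
      rw [e2]
      rcases le_total Q 1 with h10 | h10
      · have h11 : 26.6 ≤ 31.7768 - 4.55767841 * Q - 0.5279 * Q ^ 2 := by nlinarith
        have h12 : 0.278 ≤ Q ^ 2 := by nlinarith
        nlinarith [mul_le_mul h12 h11 (by norm_num) (by positivity)]
      · have h11 : 8.7 ≤ 31.7768 - 4.55767841 * Q - 0.5279 * Q ^ 2 := by nlinarith
        have h12 : 1 ≤ Q ^ 2 := by nlinarith
        nlinarith [mul_le_mul h12 h11 (by norm_num) (by positivity)]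
    linarith

theorem pp_wide {t r : ℝ} (ht : 0 < t) (h2 : t ^ 2 ≤ 0.5279) (h0 : 1 ≤ r) (h1 : r ≤ 2.6) :
    t ^ 3 * (r - 1) ^ 2 / r ≤ pp t (r * t) := by
  have hd : ∀ q : ℝ, q ≠ 0 → HasDerivAt (fun q => pp t q - t ^ 2 * (q + t ^ 2 / q - 2 * t))
      (((1 - t ^ 4) / (1 + q ^ 2) - 27 * yo t ^ 3 * (1 - q ^ 2) / (3 + q ^ 2) ^ 3) -
        t ^ 2 * (1 - t ^ 2 / q ^ 2)) q := by
    intro q hq
    have h3 : HasDerivAt (fun q : ℝ => t ^ 2 * (q + t ^ 2 / q - 2 * t))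
        (t ^ 2 * (1 - t ^ 2 / q ^ 2)) q := by
      have h4 : HasDerivAt (fun q : ℝ => t ^ 2 / q) (-(t ^ 2 / q ^ 2)) q := by
        have := (hasDerivAt_inv hq).const_mul (t ^ 2)
        simp only [← div_eq_mul_inv] at this
        exact this.congr_deriv (by ring)
      exact ((((hasDerivAt_id q).add h4).sub_const (2 * t)).const_mul (t ^ 2)).congr_deriv (by ring)
    exact (pp_deriv t q).sub h3
  have hmono : MonotoneOn (fun q => pp t q - t ^ 2 * (q + t ^ 2 / q - 2 * t))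
      (Set.Icc t (2.6 * t)) := by
    apply monotoneOn_of_deriv_nonneg (convex_Icc _ _)
    · intro q hq
      exact (hd q (by linarith [hq.1])).continuousAt.continuousWithinAt
    · intro q hq
      rw [interior_Icc, Set.mem_Ioo] at hq
      exact (hd q (by linarith [hq.1])).differentiableAt.differentiableWithinAt
    · intro q hq
      rw [interior_Icc, Set.mem_Ioo] at hq
      have hq0 : 0 < q := by linarith [hq.1]
      rw [(hd q hq0.ne').deriv, PC_dd]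
      have hQ1 : t ^ 2 ≤ q ^ 2 := pow_le_pow_left₀ ht.le hq.1.le 2
      have hQ2 : q ^ 2 ≤ 6.76 * t ^ 2 := by
        have := pow_le_pow_left₀ hq0.le hq.2.le 2
        calc q ^ 2 ≤ (2.6 * t) ^ 2 := this
          _ = 6.76 * t ^ 2 := by ring
      have hH := PC_H (sq_nonneg t) h2 hQ1 hQ2
      have e1 : t ^ 4 = (t ^ 2) ^ 2 := by ring
      have e2 : q ^ 4 = (q ^ 2) ^ 2 := by ring
      rw [e1, e2]
      have hQpos : 0 < q ^ 2 := by positivity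
      have ht0 : 0 ≤ t ^ 2 := sq_nonneg t
      generalize t ^ 2 = τ at *
      generalize q ^ 2 = Q at *
      have key : ((1 - τ ^ 2) * (1 + Q / 3) ^ 3 - (1 - Q ^ 2) * (1 + τ / 3) ^ 3) /
          ((1 + Q) * (1 + Q / 3) ^ 3) - τ * (1 - τ / Q) =
          (Q - τ) * (27 * (Q - τ) + 36 * Q ^ 2 - 18 * Q * τ + Q ^ 3 - 8 * Q ^ 2 * τ + Q * τ ^ 2
            - 10 * Q ^ 3 * τ - Q ^ 4 * τ - Q ^ 3 * τ ^ 2) /
            (27 * Q * ((1 + Q) * (1 + Q / 3) ^ 3)) := by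
        have h5 : (1 + Q : ℝ) ≠ 0 := by positivity
        have h6 : (3 + Q : ℝ) ≠ 0 := by positivity
        have h7 : (1 + Q / 3 : ℝ) = (3 + Q) / 3 := by ring
        rw [h7]
        field_simp
        ring
      rw [key]
      exact div_nonneg (mul_nonneg (sub_nonneg.2 hQ1) hH) (by positivity)
  have h3 := hmono (Set.left_mem_Icc.2 (by linarith))
    (show r * t ∈ Set.Icc t (2.6 * t) from ⟨by nlinarith, by nlinarith⟩) (by nlinarith)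
  simp only [PC_self] at h3
  have h4 : t ^ 2 * (t + t ^ 2 / t - 2 * t) = 0 := by field_simp; ring
  have h5 : t ^ 2 * (r * t + t ^ 2 / (r * t) - 2 * t) = t ^ 3 * (r - 1) ^ 2 / r := by
    have hr : r ≠ 0 := by linarith
    field_simp
    ring
  rw [h4, h5] at h3
  linarith

theorem pp_far {t r : ℝ} (ht : 0 < t) (h2 : t ^ 2 ≤ 0.5279) (h0 : 2.6 ≤ r) :
    yo t ^ 3 * t ^ 3 ≤ 1.7 * pp t (r * t) := by
  have h1 := pp_wide ht h2 (r := 2.6) (by norm_num) le_rfl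
  have h3 := PC_mono ht h2 (x := 2.6 * t) (y := r * t) (by linarith) (by nlinarith)
  have h4 : yo t ^ 3 ≤ 1.67 := by
    have h5 : yo t ≤ 1.176 := by unfold yo; linarith
    have h6 : 0 ≤ yo t := by unfold yo; positivity
    calc yo t ^ 3 ≤ 1.176 ^ 3 := pow_le_pow_left₀ h6 h5 3
      _ ≤ 1.67 := by norm_num
  have h5 : 0 ≤ t ^ 3 := by positivity
  have h6 := mul_le_mul_of_nonneg_right h4 h5
  have h7 : t ^ 3 * (2.6 - 1) ^ 2 / 2.6 = t ^ 3 * ((2.6 - 1) ^ 2 / 2.6) := by ring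
  rw [h7] at h1
  norm_num at h1 h6 h3 ⊢
  linarith

theorem pp_nonneg {t q : ℝ} (ht : 0 < t) (h2 : t ^ 2 ≤ 0.5279) (h0 : 0 ≤ q) : 0 ≤ pp t q := by
  rcases le_total q t with h | h
  · exact PC_anti h2 h0 h
  · have := PC_mono ht h2 le_rfl h
    rwa [PC_self] at this

end Pool.Agent.H45.SN
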