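import Pool.Agent.H45.SN.ND

set_option autoImplicit false

/-! Steklov, part A: dependence of the Lagrangian on `y`, and bounds for `gam`.

PROOF. `PP_y`: it is enough that `(1-y)³/(3+Q-3(1-Q)y)² ≤ (1-y)/(3+Q)²` (`Q = q²`), i.e.
`((1-y)(3+Q))² ≤ (3+Q-3(1-Q)y)²`, which follows from `0 ≤ (1-y)(3+Q) ≤ 3+Q-3(1-Q)y` (`3(1-Q) ≤ 3+Q`). -/

open Finset

namespace Pool.Agent.H45.SN

theorem PP_y {t q y : ℝ} (hq : 0 < q) (h0 : 0 ≤ y) (h1 : y < 1) :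
    pp t q + 9 * yo t ^ 3 * q * y / (3 + q ^ 2) ^ 2 ≤ PP t q y := by
  have hyo : 0 < yo t := by
    unfold yo
    positivity
  have hQ : 0 < q ^ 2 := by positivity
  have hy : 0 < 1 - y := by linarith
  have hD1 : 0 < 3 + q ^ 2 := by positivity
  have hD : (1 - y) * (3 + q ^ 2) ≤ 3 + q ^ 2 - 3 * (1 - q ^ 2) * y := by nlinarith
  have hD2 : 0 < 3 + q ^ 2 - 3 * (1 - q ^ 2) * y := lt_of_lt_of_le (mul_pos hy hD1) hD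
  have h2 : ((1 - y) * (3 + q ^ 2)) ^ 2 ≤ (3 + q ^ 2 - 3 * (1 - q ^ 2) * y) ^ 2 :=
    pow_le_pow_left₀ (mul_pos hy hD1).le hD 2
  have h3 : (1 - y) ^ 3 / (3 + q ^ 2 - 3 * (1 - q ^ 2) * y) ^ 2 ≤ (1 - y) / (3 + q ^ 2) ^ 2 := by
    rw [div_le_div_iff₀ (by positivity) (by positivity)]
    calc (1 - y) ^ 3 * (3 + q ^ 2) ^ 2 = (1 - y) * ((1 - y) * (3 + q ^ 2)) ^ 2 := by ring
      _ ≤ (1 - y) * (3 + q ^ 2 - 3 * (1 - q ^ 2) * y) ^ 2 := mul_le_mul_of_nonneg_left h2 hy.le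
  have h4 : 0 ≤ 9 * yo t ^ 3 * q := by positivity
  have h5 := mul_le_mul_of_nonneg_left h3 h4
  unfold pp PP
  have e1 : 9 * yo t ^ 3 * q * (1 - y) ^ 3 / (3 + q ^ 2 - 3 * (1 - q ^ 2) * y) ^ 2 =
      9 * yo t ^ 3 * q * ((1 - y) ^ 3 / (3 + q ^ 2 - 3 * (1 - q ^ 2) * y) ^ 2) := by ring
  have e2 : 9 * yo t ^ 3 * q * ((1 - y) / (3 + q ^ 2) ^ 2) =
      9 * yo t ^ 3 * q / (3 + q ^ 2) ^ 2 - 9 * yo t ^ 3 * q * y / (3 + q ^ 2) ^ 2 := by ring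
  rw [e1]
  rw [e2] at h5
  linarith

end Pool.Agent.H45.SN
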