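import Pool.Agent.H45.SN.PB
import Pool.Agent.H45.SN.PC
import Pool.Agent.H45.SN.PD

set_option autoImplicit false

/-! Steklov, part A: lower bounds for `gam` in the normalised variables `r = q/t`, `η = y/t²`.

PROOF. `gam t (r t) (t² η) = 1.7 PP/(yo³ t³)`, `PP ≥ pp + 9 yo³ q y/(3+q²)²` (`PP_y`), and
`1.7·9 yo³ (r t)(t² η)/((3+r²t²)² yo³ t³) = 1.7 r η/(1 + r² t²/3)² ≥ bb r * η` since
`t²/3 ≤ 0.17597 ≤ 0.176`. Thin: `pp_thin'`. Wide: `pp_wide` and `1.7/yo³ ≥ 1.0453`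
(`(1+0.5279/3)³ ≤ 1.62627`, `1.7/1.62627 = 1.04533`). Far: `pp_far`. Nonnegativity: `pp_nonneg`. -/

open Finset

namespace Pool.Agent.H45.SN

private lemma PE_key {t r η : ℝ} (ht : 0 < t) (h2 : t ^ 2 ≤ 0.5279) (h0 : 0 < r)
    (hη : 0 ≤ η) (hy : t ^ 2 * η < 1) :
    1.7 * pp t (r * t) / (yo t ^ 3 * t ^ 3) + bb r * η ≤ gam t (r * t) (t ^ 2 * η) := by
  have hyo : 0 < yo t := by
    unfold yo
    positivity
  have h3 : 0 < yo t ^ 3 * t ^ 3 := by positivity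
  have h4 := PP_y (t := t) (q := r * t) (y := t ^ 2 * η) (by positivity) (by positivity) hy
  have h5 : bb r * η * (yo t ^ 3 * t ^ 3) ≤
      1.7 * (9 * yo t ^ 3 * (r * t) * (t ^ 2 * η) / (3 + (r * t) ^ 2) ^ 2) := by
    have h6 : 1 / (1 + 0.176 * r ^ 2) ^ 2 ≤ 9 / (3 + (r * t) ^ 2) ^ 2 := by
      rw [div_le_div_iff₀ (by positivity) (by positivity), one_mul]
      have h7 : 3 + (r * t) ^ 2 ≤ 3 * (1 + 0.176 * r ^ 2) := by
        have : (r * t) ^ 2 = r ^ 2 * t ^ 2 := by ring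
        rw [this]
        nlinarith [sq_nonneg r]
      calc (3 + (r * t) ^ 2) ^ 2 ≤ (3 * (1 + 0.176 * r ^ 2)) ^ 2 :=
            pow_le_pow_left₀ (by positivity) h7 2
        _ = 9 * (1 + 0.176 * r ^ 2) ^ 2 := by ring
    have h8 : 0 ≤ 1.7 * r * η * (yo t ^ 3 * t ^ 3) := by positivity
    have h9 := mul_le_mul_of_nonneg_left h6 h8
    unfold bb
    calc 1.7 * r / (1 + 0.176 * r ^ 2) ^ 2 * η * (yo t ^ 3 * t ^ 3)
        = 1.7 * r * η * (yo t ^ 3 * t ^ 3) * (1 / (1 + 0.176 * r ^ 2) ^ 2) := by ring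
      _ ≤ _ := h9
      _ = _ := by ring
  unfold gam
  rw [le_div_iff₀ h3, add_mul, div_mul_cancel₀ _ h3.ne']
  linarith

theorem gam_thin {t r η : ℝ} (ht : 0 < t) (h2 : t ^ 2 ≤ 0.5279) (h0 : 0 < r) (h1 : r ≤ 1)
    (hη : 0 ≤ η) (hy : t ^ 2 * η < 1) :
    (1 - r) ^ 2 * gg r + bb r * η ≤ gam t (r * t) (t ^ 2 * η) := by
  refine le_trans ?_ (PE_key ht h2 h0 hη hy)
  have hyo : 0 < yo t := by
    unfold yo
    positivity
  have h3 : 0 < yo t ^ 3 * t ^ 3 := by positivity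
  have h4 := pp_thin' ht h2 h0.le h1
  have h5 : (1 - r) ^ 2 * gg r ≤ 1.7 * pp t (r * t) / (yo t ^ 3 * t ^ 3) := by
    rw [le_div_iff₀ h3]
    exact h4
  linarith

theorem gam_wide {t r η : ℝ} (ht : 0 < t) (h2 : t ^ 2 ≤ 0.5279) (h0 : 1 ≤ r) (h1 : r ≤ 2.6)
    (hη : 0 ≤ η) (hy : t ^ 2 * η < 1) :
    1.0453 * ((r - 1) ^ 2 / r) + bb r * η ≤ gam t (r * t) (t ^ 2 * η) := by
  refine le_trans ?_ (PE_key ht h2 (by linarith) hη hy)
  have hyo : 0 < yo t := by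
    unfold yo
    positivity
  have h3 : 0 < yo t ^ 3 * t ^ 3 := by positivity
  have h4 := pp_wide ht h2 h0 h1
  have h6 : yo t ^ 3 ≤ 1.6263 := by
    have h5 : yo t ≤ 1.17597 := by unfold yo; linarith
    calc yo t ^ 3 ≤ 1.17597 ^ 3 := pow_le_pow_left₀ hyo.le h5 3
      _ ≤ 1.6263 := by norm_num
  have h5 : 1.0453 * ((r - 1) ^ 2 / r) ≤ 1.7 * pp t (r * t) / (yo t ^ 3 * t ^ 3) := by
    rw [le_div_iff₀ h3]
    have hr : 0 ≤ (r - 1) ^ 2 / r := div_nonneg (sq_nonneg _) (by linarith)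
    have h7 : 1.0453 * yo t ^ 3 ≤ 1.7 := by linarith
    have h8 : 0 ≤ (r - 1) ^ 2 / r * t ^ 3 := mul_nonneg hr (by positivity)
    have h9 := mul_le_mul_of_nonneg_right h7 h8
    have e : t ^ 3 * (r - 1) ^ 2 / r = (r - 1) ^ 2 / r * t ^ 3 := by ring
    rw [e] at h4
    linarith
  linarith

theorem gam_far {t r η : ℝ} (ht : 0 < t) (h2 : t ^ 2 ≤ 0.5279) (h0 : 2.6 ≤ r)
    (hη : 0 ≤ η) (hy : t ^ 2 * η < 1) :
    1 ≤ gam t (r * t) (t ^ 2 * η) := by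
  refine le_trans ?_ (PE_key ht h2 (by linarith) hη hy)
  have hyo : 0 < yo t := by
    unfold yo
    positivity
  have h3 : 0 < yo t ^ 3 * t ^ 3 := by positivity
  have h4 := pp_far ht h2 h0
  have h5 : 1 ≤ 1.7 * pp t (r * t) / (yo t ^ 3 * t ^ 3) := by
    rw [le_div_iff₀ h3, one_mul]
    exact h4
  have h6 : 0 ≤ bb r * η := by
    have : 0 ≤ r := by linarith
    unfold bb
    positivity
  linarith

theorem gam_nonneg {t q y : ℝ} (ht : 0 < t) (h2 : t ^ 2 ≤ 0.5279) (h0 : 0 < q) (hy0 : 0 ≤ y)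
    (hy : y < 1) : 0 ≤ gam t q y := by
  have hyo : 0 < yo t := by
    unfold yo
    positivity
  have h3 : 0 < yo t ^ 3 * t ^ 3 := by positivity
  have h4 := PP_y (t := t) h0 hy0 hy
  have h5 := pp_nonneg ht h2 h0.le
  have h6 : 0 ≤ 9 * yo t ^ 3 * q * y / (3 + q ^ 2) ^ 2 := by positivity
  unfold gam
  exact div_nonneg (by linarith) h3.le

end Pool.Agent.H45.SN
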