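import Pool.Agent.H45.SN.AD
import Pool.Agent.H45.SN.NT2
import Pool.Agent.H45.SN.PE

set_option autoImplicit false

/-! Steklov, part A: the excess of the moment and the perimeter.

PROOFS (`t = tn n`, `T = TT q y`, `K = KK q y ≥ 0`, `a = 1 + K/3`, `δ* = ds t q y = yo t/a`).
`side_id`: `T δ³ a - (3/2) yo T δ² = T (δ-δ*)² (a δ + yo/2) - yo³ T/(2 a²)` (expand:
`aδ³ - (3/2)yo δ² = (δ-δ*)²(aδ+yo/2) - yo δ*²/2`), and `yo³ T/(2a²) = 9 yo³ q (1-y)³/(3+q²-3(1-q²)y)²`
because `3 + K = (3+q²-3(1-q²)y)/(1-y)²`; so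
`T δ³ a - (3/2) yo T δ² + t yo + (1-t⁴)(arctan q - arctan t) = PP t q y + T (δ-δ*)² (aδ + yo/2)`.
`excess`: sum over the sides, `∑ T δ² = 2 n t`, `∑ (arctan q_j - arctan t) = 0` (`ang`, `nt_arctan`):
`JJs - 3 n t yo + n t yo = ...`; drop `aδ ≥ 0`.
`perim`: `∑ T_j ≥ 2 ∑ q_j ≥ 2 n t` (`tan` convex on `[0, π/2)`: `q_j ≥ t + (1+t²)(arctan q_j - arctan t)`,
tangent line; sum) and `T δ = T(1+δ²)/2 - T(δ-1)²/2`.
`perim_mom`: Cauchy-Schwarz `(∑ Tδ²)² ≤ (∑ Tδ)(∑ Tδ³)`, `a ≥ 1`. -/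

open Finset

namespace Pool.Agent.H45.SN

theorem KK_nonneg {q y : ℝ} (h0 : 0 ≤ y) (h1 : y < 1) : 0 ≤ KK q y := by
  unfold KK
  have h2 : 0 ≤ 1 + q ^ 2 - y := by nlinarith [sq_nonneg q]
  positivity

private theorem AJ_ds {t q y : ℝ} (h1 : y < 1) (hD : 0 < 3 + q ^ 2 - 3 * (1 - q ^ 2) * y) :
    ds t q y = 3 * yo t * (1 - y) ^ 2 / (3 + q ^ 2 - 3 * (1 - q ^ 2) * y) ∧
    1 + KK q y / 3 = (3 + q ^ 2 - 3 * (1 - q ^ 2) * y) / (3 * (1 - y) ^ 2) := by
  have hy : 0 < 1 - y := by linarith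
  have hK : 3 + KK q y = (3 + q ^ 2 - 3 * (1 - q ^ 2) * y) / (1 - y) ^ 2 := by
    unfold KK
    rw [eq_div_iff (by positivity)]
    field_simp
    ring
  constructor
  · unfold ds yo
    rw [hK]
    field_simp
  · have : 1 + KK q y / 3 = (3 + KK q y) / 3 := by ring
    rw [this, hK]
    field_simp

theorem side_id {t q δ y : ℝ} (hq : 0 < q) (h0 : 0 ≤ y) (h1 : y < 1) :
    TT q y * δ ^ 3 * (1 + KK q y / 3) - 3 / 2 * yo t * (TT q y * δ ^ 2) + t * yo t +
      (1 - t ^ 4) * (Real.arctan q - Real.arctan t) =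
    PP t q y + TT q y * (δ - ds t q y) ^ 2 * ((1 + KK q y / 3) * δ + yo t / 2) := by
  have hy : 0 < 1 - y := by linarith
  have hD : 0 < 3 + q ^ 2 - 3 * (1 - q ^ 2) * y := by
    have e : 3 + q ^ 2 - 3 * (1 - q ^ 2) * y = 3 * (1 - y) + q ^ 2 * (1 + 3 * y) := by ring
    rw [e]
    positivity
  obtain ⟨e1, e2⟩ := AJ_ds (t := t) h1 hD
  have hT : TT q y = 2 * q / (1 - y) := rfl
  have hP : PP t q y = t * yo t + (1 - t ^ 4) * (Real.arctan q - Real.arctan t) -
    9 * yo t ^ 3 * q * (1 - y) ^ 3 / (3 + q ^ 2 - 3 * (1 - q ^ 2) * y) ^ 2 := rfl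
  rw [e1, e2, hT, hP]
  generalize (1 - t ^ 4) * (Real.arctan q - Real.arctan t) = A
  generalize yo t = Y
  generalize 3 + q ^ 2 - 3 * (1 - q ^ 2) * y = D at hD
  generalize 1 - y = z at hy
  field_simp
  ring

private theorem AJ_TT_pos {q y : ℝ} (hq : 0 < q) (h1 : y < 1) : 0 < TT q y := by
  unfold TT
  have hy : 0 < 1 - y := by linarith
  positivity

private theorem AJ_yo_pos (t : ℝ) : 0 < yo t := by
  unfold yo
  positivity

private theorem AJ_sum_arctan {n : ℕ} {q δ y u ψ : ℕ → ℝ} (h : Dat n q δ y u ψ) :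
    ∑ j ∈ range n, (Real.arctan (q j) - Real.arctan (tn n)) = 0 := by
  have hn : (n : ℝ) ≠ 0 := by
    have := h.hn
    have h1 : 0 < n := by omega
    exact_mod_cast h1.ne'
  rw [Finset.sum_sub_distrib, h.ang, Finset.sum_const, Finset.card_range, nsmul_eq_mul,
    nt_arctan h.hn]
  field_simp
  ring

theorem excess {n : ℕ} {q δ y u ψ : ℕ → ℝ} (h : Dat n q δ y u ψ) :
    ∑ j ∈ range n, PP (tn n) (q j) (y j) +
      ∑ j ∈ range n, TT (q j) (y j) * (δ j - ds (tn n) (q j) (y j)) ^ 2 * (yo (tn n) / 2) ≤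
    JJs n q δ y - 2 * n * tn n * yo (tn n) := by
  have h1 : ∀ j ∈ range n, PP (tn n) (q j) (y j) +
      TT (q j) (y j) * (δ j - ds (tn n) (q j) (y j)) ^ 2 * (yo (tn n) / 2) ≤
      TT (q j) (y j) * δ j ^ 3 * (1 + KK (q j) (y j) / 3) -
        3 / 2 * yo (tn n) * (TT (q j) (y j) * δ j ^ 2) + tn n * yo (tn n) +
      (1 - tn n ^ 4) * (Real.arctan (q j) - Real.arctan (tn n)) := by
    intro j _
    rw [side_id (h.q0 j) (h.y0 j) (h.y1 j)]
    have h2 := AJ_TT_pos (h.q0 j) (h.y1 j)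
    have h3 := KK_nonneg (q := q j) (h.y0 j) (h.y1 j)
    have h4 := h.d0 j
    have h5 : 0 ≤ TT (q j) (y j) * (δ j - ds (tn n) (q j) (y j)) ^ 2 *
        ((1 + KK (q j) (y j) / 3) * δ j) := by positivity
    have e : TT (q j) (y j) * (δ j - ds (tn n) (q j) (y j)) ^ 2 *
        ((1 + KK (q j) (y j) / 3) * δ j + yo (tn n) / 2) =
        TT (q j) (y j) * (δ j - ds (tn n) (q j) (y j)) ^ 2 * ((1 + KK (q j) (y j) / 3) * δ j) +
        TT (q j) (y j) * (δ j - ds (tn n) (q j) (y j)) ^ 2 * (yo (tn n) / 2) := by ring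
    rw [e]
    linarith
  have h2 := Finset.sum_le_sum h1
  rw [Finset.sum_add_distrib, Finset.sum_add_distrib, Finset.sum_add_distrib,
    Finset.sum_sub_distrib, ← Finset.mul_sum, ← Finset.mul_sum,
    ← Finset.mul_sum (s := range n)
      (f := fun j => Real.arctan (q j) - Real.arctan (tn n)), AJ_sum_arctan h, h.area,
    Finset.sum_const, Finset.card_range, nsmul_eq_mul] at h2
  unfold JJs
  refine h2.trans (le_of_eq ?_)
  ring

private theorem AJ_tan_line {q t : ℝ} (hq : 0 < q) (ht : 0 < t) :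
    (1 + t ^ 2) * (Real.arctan q - Real.arctan t) ≤ q - t := by
  have hd : ∀ x, deriv Real.arctan x = 1 / (1 + x ^ 2) := fun x => by
    rw [Real.deriv_arctan]
  rcases lt_trichotomy q t with h | h | h
  · obtain ⟨c, hc, hc2⟩ := exists_deriv_eq_slope Real.arctan h Real.continuous_arctan.continuousOn
      Real.differentiable_arctan.differentiableOn
    rw [hd] at hc2
    have h1 : 0 < t - q := by linarith
    have h2 : Real.arctan t - Real.arctan q = 1 / (1 + c ^ 2) * (t - q) := by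
      rw [hc2]; field_simp
    have h3 : 1 ≤ (1 + t ^ 2) * (1 / (1 + c ^ 2)) := by
      rw [mul_one_div, le_div_iff₀ (by positivity)]
      nlinarith [hc.1, hc.2]
    have h4 : (1 + t ^ 2) * (Real.arctan q - Real.arctan t) =
        -((1 + t ^ 2) * (1 / (1 + c ^ 2)) * (t - q)) := by
      have : Real.arctan q - Real.arctan t = -(1 / (1 + c ^ 2) * (t - q)) := by linarith
      rw [this]; ring
    rw [h4]
    nlinarith
  · rw [h]; simp
  · obtain ⟨c, hc, hc2⟩ := exists_deriv_eq_slope Real.arctan h Real.continuous_arctan.continuousOn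
      Real.differentiable_arctan.differentiableOn
    rw [hd] at hc2
    have h1 : 0 < q - t := by linarith
    have h2 : Real.arctan q - Real.arctan t = 1 / (1 + c ^ 2) * (q - t) := by
      rw [hc2]; field_simp
    have h3 : (1 + t ^ 2) * (1 / (1 + c ^ 2)) ≤ 1 := by
      rw [mul_one_div, div_le_iff₀ (by positivity)]
      nlinarith [hc.1, hc.2]
    have h4 : (1 + t ^ 2) * (Real.arctan q - Real.arctan t) =
        (1 + t ^ 2) * (1 / (1 + c ^ 2)) * (q - t) := by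
      rw [h2]; ring
    rw [h4]
    nlinarith

theorem perim {n : ℕ} {q δ y u ψ : ℕ → ℝ} (h : Dat n q δ y u ψ) :
    2 * n * tn n - (∑ j ∈ range n, TT (q j) (y j) * (δ j - 1) ^ 2) / 2 ≤ LLs n q δ y := by
  have ht := nt_pos h.hn
  have h1 : ∀ j ∈ range n, 2 * (tn n + (1 + tn n ^ 2) * (Real.arctan (q j) - Real.arctan (tn n))) ≤
      TT (q j) (y j) := by
    intro j _
    have h2 := AJ_tan_line (h.q0 j) ht
    have h3 : 2 * q j ≤ TT (q j) (y j) := by
      unfold TT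
      have hy : 0 < 1 - y j := by linarith [h.y1 j]
      rw [le_div_iff₀ hy]
      nlinarith [h.y0 j, h.q0 j]
    linarith
  have h2 := Finset.sum_le_sum h1
  rw [← Finset.mul_sum, Finset.sum_add_distrib, ← Finset.mul_sum, AJ_sum_arctan h,
    Finset.sum_const, Finset.card_range, nsmul_eq_mul] at h2
  have h3 : LLs n q δ y = (∑ j ∈ range n, TT (q j) (y j)) / 2 +
      (∑ j ∈ range n, TT (q j) (y j) * δ j ^ 2) / 2 -
      (∑ j ∈ range n, TT (q j) (y j) * (δ j - 1) ^ 2) / 2 := by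
    unfold LLs
    rw [Finset.sum_div, Finset.sum_div, Finset.sum_div, ← Finset.sum_add_distrib,
      ← Finset.sum_sub_distrib]
    refine Finset.sum_congr rfl fun j _ => ?_
    ring
  rw [h3, h.area]
  linarith

theorem perim_mom {n : ℕ} {q δ y u ψ : ℕ → ℝ} (h : Dat n q δ y u ψ) :
    (2 * n * tn n) ^ 2 ≤ LLs n q δ y * JJs n q δ y := by
  have hT : ∀ j, 0 < TT (q j) (y j) := fun j => AJ_TT_pos (h.q0 j) (h.y1 j)
  have h1 : (∑ j ∈ range n, TT (q j) (y j) * δ j ^ 2) ^ 2 ≤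
      (∑ j ∈ range n, TT (q j) (y j) * δ j) * (∑ j ∈ range n, TT (q j) (y j) * δ j ^ 3) := by
    refine Finset.sum_sq_le_sum_mul_sum_of_sq_le_mul _ (fun j _ => ?_) (fun j _ => ?_)
      (fun j _ => ?_)
    · have := hT j
      have := h.d0 j
      positivity
    · have := hT j
      have := h.d0 j
      positivity
    · exact le_of_eq (by ring)
  rw [h.area] at h1
  refine h1.trans ?_
  unfold LLs JJs
  refine mul_le_mul_of_nonneg_left ?_ (Finset.sum_nonneg fun j _ => ?_)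
  · refine Finset.sum_le_sum fun j _ => ?_
    have h2 := hT j
    have h3 := h.d0 j
    have h4 := KK_nonneg (q := q j) (h.y0 j) (h.y1 j)
    have h5 : 0 ≤ TT (q j) (y j) * δ j ^ 3 * (KK (q j) (y j) / 3) := by positivity
    have e : TT (q j) (y j) * δ j ^ 3 * (1 + KK (q j) (y j) / 3) =
        TT (q j) (y j) * δ j ^ 3 + TT (q j) (y j) * δ j ^ 3 * (KK (q j) (y j) / 3) := by ring
    rw [e]
    linarith
  · have := hT j
    have := h.d0 j
    positivity

end Pool.Agent.H45.SN
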