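import Pool.Agent.H45.SN.PC
import Pool.Agent.H45.SN.NT2
import Pool.Agent.H45.SN.K1

set_option autoImplicit false

/-! Steklov, part A: the bath lemma.

`t = tn n`, `P0 = t yo - (1-t⁴) arctan t`, `h(s) = D³s² - (3/2) yo D² s + (1-t⁴)/2`, `s = 1/cos² θ ≥ 1`.
PROOF of `bath`. (A) `h(1) ≤ 0`: `h` is convex, so `{s ≥ 1 : h(s) < 0} = (1 or [1, s2)`, i.e. the set where the
integrand is negative is `|θ| < θ2 = arctan q`, `s2 = 1 + q²`, and the integral is
`2D³(q+q³/3) - 3 yo D² q + (1-t⁴) arctan q` (antiderivative in `θ`: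
`D³(tan θ + tan³θ/3) - (3/2) yo D² tan θ + (1-t⁴)θ/2`). Minimum over `D > 0` of the first two terms is
`-9 yo³ q/(3+q²)²` (`D = yo/(1+q²/3)`: `2a D³ - 3 yo D² + yo³/a² = (D-yo/a)²(2aD+yo)`, `a = 1+q²/3`), so it is
`≥ pp t q - P0 ≥ -P0` (`pp_nonneg`). Instead of computing the set exactly: for EVERY `q ≥ 0` the integral of
`h` over `|θ| ≤ arctan q` is `≥ -P0`. (B) `h(1) > 0` and `D ≥ (3/4) yo`: `h` is increasing on `[1,∞)`, integrand
`0`. (C) `h(1) > 0`, `D < (3/4) yo`: `h ≥ -E`, `E = (9/16) yo² D - (1-t⁴)/2`, so the integral is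
`≥ -π E` (or `≥ 0` if `E ≤ 0`). `h(1) > 0` gives `E ≤ D ((3/4) yo - D)²`, and `E > 0` gives
`D > D0 = (8/9)(1-t⁴)/yo²`, `D0 ≥ yo/4`, so `E ≤ D0 ((3/4)yo - D0)²` and `D0 < (3/4) yo`. Finally
`π D0 ((3/4) yo - D0)² ≤ P0`: `n = 5`: `0.255 ≤ 0.401`; `n = 6`: `0.075 ≤ 0.176`; `n = 7`: `0.016 ≤ 0.094`; `n ≥ 8`:
`(3/4)yo - D0 ≤ 0.022`, `P0 ≥ (2/3)t³` (`P0 ≥ t³(2/3+(4/5)τ-τ²/3+τ³/5)`, see `K1.lean`), and `(3/4) yo - D0 < 0`
for `τ ≤ 0.15` (`n ≥ 9`).
PROOF of `bath_V`. The integral over `V` is `≥` the integral over `(-π,π]` of `H(θ - η)`,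
`H(x) = min(h(1/cos²x), 0)` if `cos x > 0`, `0` otherwise; `H` is `2π`-periodic
(`Function.Periodic.intervalIntegral_add_eq`), so this is `∫_{-π}^{π} H = ∫_{-π/2}^{π/2} H ≥ -P0`. -/

open Finset MeasureTheory

namespace Pool.Agent.H45.SN

private theorem sq5279 {n : ℕ} (hn : 5 ≤ n) : tn n ^ 2 ≤ 0.5279 := by
  have := nt_sq_le hn
  linarith

private theorem P0_nonneg {n : ℕ} (hn : 5 ≤ n) :
    0 ≤ tn n * yo (tn n) - (1 - tn n ^ 4) * Real.arctan (tn n) := by
  have h := pp_nonneg (nt_pos hn) (sq5279 hn) (le_refl (0 : ℝ))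
  unfold pp at h
  simp only [Real.arctan_zero] at h
  linarith

theorem bath_q {n : ℕ} (hn : 5 ≤ n) {D q : ℝ} (hD : 0 < D) (hq : 0 ≤ q) :
    -(tn n * yo (tn n) - (1 - tn n ^ 4) * Real.arctan (tn n)) ≤
      2 * D ^ 3 * (q + q ^ 3 / 3) - 3 * yo (tn n) * D ^ 2 * q + (1 - tn n ^ 4) * Real.arctan q := by
  have h := pp_nonneg (nt_pos hn) (sq5279 hn) hq
  unfold pp at h
  have hy : 0 < yo (tn n) := by unfold yo; positivity
  set w := yo (tn n) with hw
  have ha : 0 < 3 + q ^ 2 := by positivity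
  have key : -(9 * w ^ 3 * q / (3 + q ^ 2) ^ 2) ≤ 2 * D ^ 3 * (q + q ^ 3 / 3) - 3 * w * D ^ 2 * q := by
    have e : 2 * D ^ 3 * (q + q ^ 3 / 3) - 3 * w * D ^ 2 * q + 9 * w ^ 3 * q / (3 + q ^ 2) ^ 2 =
        q * (D - 3 * w / (3 + q ^ 2)) ^ 2 * (2 * (3 + q ^ 2) / 3 * D + w) := by
      field_simp
      ring
    have : 0 ≤ q * (D - 3 * w / (3 + q ^ 2)) ^ 2 * (2 * (3 + q ^ 2) / 3 * D + w) := by positivity
    linarith
  linarith

private theorem poly_num {x : ℝ} (h0 : 0.15 ≤ x) (h1 : x ≤ 0.5279) :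
    1.7 * 3.1416 * (1 - x ^ 2) * (3 / 4 * (1 + x / 3) ^ 3 - 8 / 9 * (1 - x ^ 2)) ^ 2 ≤
      9 / 8 * (1 + x / 3) ^ 9 * (0.9 * x - 0.108) := by
  obtain ⟨y, rfl⟩ : ∃ y, x = 0.15 + y := ⟨x - 0.15, by ring⟩
  have hy0 : 0 ≤ y := by linarith
  have hy1 : y ≤ 0.3779 := by linarith
  have h2 : y ^ 2 ≤ 0.3779 ^ 2 := pow_le_pow_left₀ hy0 hy1 2
  have e : 9 / 8 * (1 + (0.15 + y) / 3) ^ 9 * (0.9 * (0.15 + y) - 0.108) -
      1.7 * 3.1416 * (1 - (0.15 + y) ^ 2) *
        (3 / 4 * (1 + (0.15 + y) / 3) ^ 3 - 8 / 9 * (1 - (0.15 + y) ^ 2)) ^ 2 =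
      (26055060525366397/552960000000000000) * y ^ 0 + (2631175938184199/1536000000000000) * y ^ 1 + (-727358283364657/460800000000000) * y ^ 2 + (-46785935467243/8640000000000) * y ^ 3 + (95443959051/12800000000) * y ^ 4 + (750187596781/43200000000) * y ^ 5 + (11729211739/1440000000) * y ^ 6 + (25837301/54000000) * y ^ 7 + (486857/21600000) * y ^ 8 + (473/324000) * y ^ 9 + (1/19440) * y ^ 10 := by ring
  have hp : 0 ≤ (26055060525366397/552960000000000000) * y ^ 0 + (2631175938184199/1536000000000000) * y ^ 1 + (-727358283364657/460800000000000) * y ^ 2 + (-46785935467243/8640000000000) * y ^ 3 + (95443959051/12800000000) * y ^ 4 + (750187596781/43200000000) * y ^ 5 + (11729211739/1440000000) * y ^ 6 + (25837301/54000000) * y ^ 7 + (486857/21600000) * y ^ 8 + (473/324000) * y ^ 9 + (1/19440) * y ^ 10 := by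
    have a1 : 0 ≤ y * ((2631175938184199/1536000000000000) + (-727358283364657/460800000000000) * y + (-46785935467243/8640000000000) * y ^ 2) := by
      apply mul_nonneg hy0
      nlinarith
    have a4 : 0 ≤ (95443959051/12800000000) * y ^ 4 + (750187596781/43200000000) * y ^ 5 + (11729211739/1440000000) * y ^ 6 + (25837301/54000000) * y ^ 7 + (486857/21600000) * y ^ 8 + (473/324000) * y ^ 9 + (1/19440) * y ^ 10 := by positivity
    linarith
  linarith

private theorem three_halves {x t : ℝ} (ht : 0 < t) (hx : t ^ 2 = x) : 0.9 * x - 0.108 ≤ t ^ 3 := by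
  subst hx
  nlinarith [mul_nonneg (sq_nonneg (t - 0.6)) ht.le, sq_nonneg (t - 0.6)]

private theorem mono_E {a D D₀ : ℝ} (h0 : a / 3 ≤ D₀) (h1 : D₀ ≤ D) (h2 : D ≤ a) :
    D * (a - D) ^ 2 ≤ D₀ * (a - D₀) ^ 2 := by
  have key : a ^ 2 - 2 * a * (D + D₀) + D ^ 2 + D * D₀ + D₀ ^ 2 ≤ 0 := by
    nlinarith [mul_nonneg (sub_nonneg.2 h1) (sub_nonneg.2 h2), mul_nonneg (sub_nonneg.2 h0) (sub_nonneg.2 h2),
      mul_nonneg (sub_nonneg.2 h0) (sub_nonneg.2 (h1.trans h2))]
  nlinarith [mul_nonneg (sub_nonneg.2 h1) (neg_nonneg.2 key)]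

theorem bath_num {n : ℕ} (hn : 5 ≤ n) {D : ℝ} (hD : 0 < D) (h1 : D < 3 / 4 * yo (tn n))
    (h2 : 0 < D ^ 3 - 3 / 2 * yo (tn n) * D ^ 2 + (1 - tn n ^ 4) / 2) :
    Real.pi * (9 / 16 * yo (tn n) ^ 2 * D - (1 - tn n ^ 4) / 2) ≤
      tn n * yo (tn n) - (1 - tn n ^ 4) * Real.arctan (tn n) := by
  have ht := nt_pos hn
  have hx1 := sq5279 hn
  have hP := P0_nonneg hn
  set t := tn n with ht'
  obtain ⟨x, hx⟩ : ∃ x, t ^ 2 = x := ⟨_, rfl⟩
  have hx0 : 0 < x := by rw [← hx]; positivity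
  have ht4 : t ^ 4 = x ^ 2 := by rw [← hx]; ring
  have hw : yo t = 1 + x / 3 := by unfold yo; rw [hx]
  have hK := K_P0 hn (A := yo t ^ 3 / 1.7) (by rw [hw]; positivity) (by rw [← ht']; linarith [mul_div_cancel₀ (yo t ^ 3) (by norm_num : (1.7 : ℝ) ≠ 0), mul_comm (1.7 : ℝ) (yo t ^ 3 / 1.7), div_mul_cancel₀ (yo t ^ 3) (by norm_num : (1.7 : ℝ) ≠ 0)])
  rw [← ht'] at hK
  rw [hx] at hx1
  have hw0 : 0 < yo t := by rw [hw]; positivity
  set w := yo t with hw'
  rcases le_or_gt (9 / 16 * w ^ 2 * D - (1 - t ^ 4) / 2) 0 with hE | hE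
  · have := mul_nonneg Real.pi_pos.le (neg_nonneg.2 hE)
    linarith
  refine le_trans ?_ hK
  rw [ht4] at hE h2 ⊢
  have hx2 : x ^ 2 ≤ 0.5279 ^ 2 := pow_le_pow_left₀ hx0.le hx1 2
  -- the lower bound for D
  obtain ⟨D₀, hD₀⟩ : ∃ D₀, D₀ * w ^ 2 = 8 / 9 * (1 - x ^ 2) :=
    ⟨8 / 9 * (1 - x ^ 2) / w ^ 2, div_mul_cancel₀ _ (by positivity)⟩
  have hD1 : D₀ < D := by
    by_contra hc
    push Not at hc
    have := mul_le_mul_of_nonneg_right hc (sq_nonneg w)
    nlinarith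
  have hD2 : 3 / 4 * w / 3 ≤ D₀ := by
    by_contra hc
    push Not at hc
    have h3 := mul_lt_mul_of_pos_right hc (by positivity : 0 < w ^ 2)
    rw [hD₀, hw] at h3
    have : (1 + x / 3) ^ 3 ≤ (1 + 0.5279 / 3) ^ 3 := pow_le_pow_left₀ (by positivity) (by linarith) 3
    nlinarith
  have hD₀0 : 0 < D₀ := lt_of_lt_of_le (by positivity) hD2
  have hE1 : 9 / 16 * w ^ 2 * D - (1 - x ^ 2) / 2 ≤ D₀ * (3 / 4 * w - D₀) ^ 2 := by
    have := mono_E hD2 hD1.le h1.le
    nlinarith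
  have hpi : Real.pi ≤ 3.1416 := Real.pi_lt_d4.le
  -- x ≥ 0.15
  have hx15 : 0.15 ≤ x := by
    by_contra hc
    push Not at hc
    have h3 : D₀ * w ^ 2 < 3 / 4 * w * w ^ 2 := mul_lt_mul_of_pos_right (hD1.trans h1) (by positivity)
    rw [hD₀, hw] at h3
    have h4 : (1 + x / 3) ^ 3 ≤ (1 + 0.15 / 3) ^ 3 := pow_le_pow_left₀ (by positivity) (by linarith) 3
    have h5 : x ^ 2 ≤ 0.15 ^ 2 := pow_le_pow_left₀ hx0.le hc.le 2
    nlinarith
  have h3h := three_halves ht hx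
  have hpn := poly_num hx15 hx1
  rw [← hw] at hpn
  have e1 : 3 / 4 * w ^ 3 - 8 / 9 * (1 - x ^ 2) = w ^ 2 * (3 / 4 * w - D₀) := by rw [← hD₀]; ring
  have e2 : 1 - x ^ 2 = 9 / 8 * (D₀ * w ^ 2) := by rw [hD₀]; ring
  rw [e1, e2] at hpn
  have h6 : 3.1416 * (D₀ * (3 / 4 * w - D₀) ^ 2) ≤ w ^ 3 / 1.7 * (0.9 * x - 0.108) := by
    have h7 : w ^ 6 * (3.1416 * (D₀ * (3 / 4 * w - D₀) ^ 2)) ≤ w ^ 6 * (w ^ 3 / 1.7 * (0.9 * x - 0.108)) := by
      have e3 : w ^ 6 * (w ^ 3 / 1.7 * (0.9 * x - 0.108)) = (8 / 9) / 1.7 * (9 / 8 * w ^ 9 * (0.9 * x - 0.108)) := by ring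
      rw [e3]
      calc w ^ 6 * (3.1416 * (D₀ * (3 / 4 * w - D₀) ^ 2)) =
          (8 / 9) / 1.7 * (1.7 * 3.1416 * (9 / 8 * (D₀ * w ^ 2)) * (w ^ 2 * (3 / 4 * w - D₀)) ^ 2) := by ring
        _ ≤ _ := by
          apply mul_le_mul_of_nonneg_left hpn
          norm_num
    exact le_of_mul_le_mul_left h7 (by positivity)
  calc Real.pi * (9 / 16 * w ^ 2 * D - (1 - x ^ 2) / 2) ≤ 3.1416 * (9 / 16 * w ^ 2 * D - (1 - x ^ 2) / 2) :=
        mul_le_mul_of_nonneg_right hpi hE.le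
    _ ≤ 3.1416 * (D₀ * (3 / 4 * w - D₀) ^ 2) := mul_le_mul_of_nonneg_left hE1 (by norm_num)
    _ ≤ w ^ 3 / 1.7 * (0.9 * x - 0.108) := h6
    _ ≤ w ^ 3 / 1.7 * t ^ 3 := mul_le_mul_of_nonneg_left h3h (by positivity)

/-- the integrand as a function of `s = 1 / cos² θ` -/
private noncomputable def hs (n : ℕ) (D s : ℝ) : ℝ :=
  D ^ 3 * s ^ 2 - 3 / 2 * yo (tn n) * D ^ 2 * s + (1 - tn n ^ 4) / 2

/-- the integrand -/
private noncomputable def FF (n : ℕ) (D θ : ℝ) : ℝ :=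
  D ^ 3 / Real.cos θ ^ 4 - 3 / 2 * yo (tn n) * (D ^ 2 / Real.cos θ ^ 2) + (1 - tn n ^ 4) / 2

private theorem FF_eq (n : ℕ) (D θ : ℝ) : FF n D θ = hs n D (1 / Real.cos θ ^ 2) := by
  unfold FF hs
  ring

private theorem hs_ge (n : ℕ) {D : ℝ} (hD : 0 < D) (s : ℝ) :
    -(9 / 16 * yo (tn n) ^ 2 * D - (1 - tn n ^ 4) / 2) ≤ hs n D s := by
  unfold hs
  have e : D ^ 3 * s ^ 2 - 3 / 2 * yo (tn n) * D ^ 2 * s + (1 - tn n ^ 4) / 2 =
      D * (D * s - 3 / 4 * yo (tn n)) ^ 2 - 9 / 16 * yo (tn n) ^ 2 * D + (1 - tn n ^ 4) / 2 := by ring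
  have : 0 ≤ D * (D * s - 3 / 4 * yo (tn n)) ^ 2 := by positivity
  linarith

private theorem FF_meas (n : ℕ) (D : ℝ) : Measurable (FF n D) := by
  unfold FF
  fun_prop

private theorem minFF_bd (n : ℕ) {D : ℝ} (hD : 0 < D) (θ : ℝ) :
    ‖min (FF n D θ) 0‖ ≤ |9 / 16 * yo (tn n) ^ 2 * D - (1 - tn n ^ 4) / 2| := by
  have h1 := hs_ge n hD (1 / Real.cos θ ^ 2)
  rw [← FF_eq] at h1
  rw [Real.norm_eq_abs, abs_of_nonpos (min_le_right _ _), ← max_neg_neg]
  have := le_abs_self (9 / 16 * yo (tn n) ^ 2 * D - (1 - tn n ^ 4) / 2)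
  apply max_le
  · linarith
  · simp

private theorem minFF_int (n : ℕ) {D : ℝ} (hD : 0 < D) (a b : ℝ) :
    IntervalIntegrable (fun θ => min (FF n D θ) 0) volume a b := by
  rw [intervalIntegrable_iff]
  refine IntegrableOn.of_bound ?_ ?_ |9 / 16 * yo (tn n) ^ 2 * D - (1 - tn n ^ 4) / 2| ?_
  · simp [Set.uIoc]
  · exact ((FF_meas n D).min measurable_const).aestronglyMeasurable
  · exact Filter.Eventually.of_forall fun θ => minFF_bd n hD θ

private theorem t4_le {n : ℕ} (hn : 5 ≤ n) : 0 < (1 - tn n ^ 4) / 2 := by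
  have h := sq5279 hn
  have h0 : 0 ≤ tn n ^ 2 := by positivity
  have : tn n ^ 4 = tn n ^ 2 * tn n ^ 2 := by ring
  nlinarith

private theorem one_le_sec (θ : ℝ) (h : Real.cos θ ≠ 0) : 1 ≤ 1 / Real.cos θ ^ 2 := by
  have h1 : 0 < Real.cos θ ^ 2 := by positivity
  rw [le_div_iff₀ h1]
  nlinarith [Real.sin_sq_add_cos_sq θ, sq_nonneg (Real.sin θ)]

/-- antiderivative of the integrand -/
private theorem FF_deriv (n : ℕ) (D : ℝ) {θ : ℝ} (h : Real.cos θ ≠ 0) :
    HasDerivAt (fun θ => D ^ 3 * (Real.tan θ + Real.tan θ ^ 3 / 3) -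
      3 / 2 * yo (tn n) * D ^ 2 * Real.tan θ + (1 - tn n ^ 4) / 2 * θ) (FF n D θ) θ := by
  have h1 := Real.hasDerivAt_tan h
  have h2 := (((h1.add ((h1.pow 3).div_const 3)).const_mul (D ^ 3)).sub
    (h1.const_mul (3 / 2 * yo (tn n) * D ^ 2))).add ((hasDerivAt_id θ).const_mul ((1 - tn n ^ 4) / 2))
  refine HasDerivAt.congr_deriv (h2.congr_of_eventuallyEq ?_) ?_
  · exact Filter.Eventually.of_forall fun x => by simp
  · unfold FF
    have e : 1 / Real.cos θ ^ 4 = 1 / Real.cos θ ^ 2 * (1 + Real.tan θ ^ 2) := by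
      rw [Real.tan_eq_sin_div_cos]
      field_simp
      linarith [Real.sin_sq_add_cos_sq θ]
    have e2 : D ^ 3 / Real.cos θ ^ 4 = D ^ 3 * (1 / Real.cos θ ^ 2 * (1 + Real.tan θ ^ 2)) := by
      rw [← e]; ring
    rw [e2]
    simp only [Nat.cast_ofNat, Nat.add_one_sub_one, mul_one]
    ring

private theorem FF_integral (n : ℕ) (D : ℝ) {q : ℝ} (hq : 0 ≤ q) :
    ∫ θ in (-(Real.arctan q))..(Real.arctan q), FF n D θ =
      2 * D ^ 3 * (q + q ^ 3 / 3) - 3 * yo (tn n) * D ^ 2 * q + (1 - tn n ^ 4) * Real.arctan q := by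
  have ha0 : 0 ≤ Real.arctan q := Real.arctan_nonneg.2 hq
  have ha1 := Real.arctan_lt_pi_div_two q
  have hc : ∀ θ ∈ Set.uIcc (-(Real.arctan q)) (Real.arctan q), Real.cos θ ≠ 0 := by
    intro θ hθ
    rw [Set.uIcc_of_le (by linarith)] at hθ
    exact (Real.cos_pos_of_mem_Ioo ⟨by linarith [hθ.1], by linarith [hθ.2]⟩).ne'
  rw [intervalIntegral.integral_eq_sub_of_hasDerivAt (fun θ hθ => FF_deriv n D (hc θ hθ))]
  · simp only [Real.tan_neg, Real.tan_arctan]
    ring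
  · apply ContinuousOn.intervalIntegrable
    unfold FF
    apply ContinuousOn.add _ continuousOn_const
    apply ContinuousOn.sub
    · apply ContinuousOn.div continuousOn_const (by fun_prop)
      intro θ hθ
      exact pow_ne_zero _ (hc θ hθ)
    · apply ContinuousOn.mul continuousOn_const
      apply ContinuousOn.div continuousOn_const (by fun_prop)
      intro θ hθ
      exact pow_ne_zero _ (hc θ hθ)

theorem bath {n : ℕ} (hn : 5 ≤ n) {D : ℝ} (hD : 0 < D) :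
    -(tn n * yo (tn n) - (1 - tn n ^ 4) * Real.arctan (tn n)) ≤
      ∫ θ in (-(Real.pi / 2))..(Real.pi / 2),
        min (D ^ 3 / Real.cos θ ^ 4 - 3 / 2 * yo (tn n) * (D ^ 2 / Real.cos θ ^ 2) +
          (1 - tn n ^ 4) / 2) 0 := by
  change _ ≤ ∫ θ in (-(Real.pi / 2))..(Real.pi / 2), min (FF n D θ) 0
  have hP := P0_nonneg hn
  have h4 := t4_le hn
  have hpi := Real.pi_pos
  have hw : 0 < yo (tn n) := by unfold yo; positivity
  rcases le_or_gt (hs n D 1) 0 with h1 | h1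
  · -- case A
    obtain ⟨q, hq0, hq1, hq2⟩ : ∃ q : ℝ, 0 ≤ q ∧ (∀ s, 1 ≤ s → s ≤ 1 + q ^ 2 → hs n D s ≤ 0) ∧
        (∀ s, 1 + q ^ 2 ≤ s → 0 ≤ hs n D s) := by
      unfold hs at h1
      set w := yo (tn n)
      set c := (1 - tn n ^ 4) / 2
      have hdisc : 0 ≤ (3 / 2 * w * D ^ 2) ^ 2 - 4 * D ^ 3 * c := by
        have : c ≤ 3 / 2 * w * D ^ 2 - D ^ 3 := by linarith
        have hD3 : 0 < D ^ 3 := by positivity
        nlinarith [mul_le_mul_of_nonneg_left this hD3.le, sq_nonneg (3 / 2 * w * D ^ 2 - 2 * D ^ 3)]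
      obtain ⟨R, hR0, hR⟩ : ∃ R : ℝ, 0 ≤ R ∧ R ^ 2 = (3 / 2 * w * D ^ 2) ^ 2 - 4 * D ^ 3 * c :=
        ⟨√_, Real.sqrt_nonneg _, Real.sq_sqrt hdisc⟩
      have hD3 : 0 < D ^ 3 := by positivity
      have hfac : ∀ s, 4 * D ^ 3 * (D ^ 3 * s ^ 2 - 3 / 2 * w * D ^ 2 * s + c) =
          (2 * D ^ 3 * s - 3 / 2 * w * D ^ 2 - R) * (2 * D ^ 3 * s - 3 / 2 * w * D ^ 2 + R) := by
        intro s
        have : (2 * D ^ 3 * s - 3 / 2 * w * D ^ 2 - R) * (2 * D ^ 3 * s - 3 / 2 * w * D ^ 2 + R) =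
          (2 * D ^ 3 * s - 3 / 2 * w * D ^ 2) ^ 2 - R ^ 2 := by ring
        rw [this, hR]
        ring
      have h1' : (2 * D ^ 3 * 1 - 3 / 2 * w * D ^ 2 - R) * (2 * D ^ 3 * 1 - 3 / 2 * w * D ^ 2 + R) ≤ 0 := by
        rw [← hfac]
        have : D ^ 3 * 1 ^ 2 - 3 / 2 * w * D ^ 2 * 1 + c ≤ 0 := h1
        nlinarith
      have hb1 : 2 * D ^ 3 - 3 / 2 * w * D ^ 2 ≤ R := by
        by_contra hcc
        push Not at hcc
        have h5 : 0 < 2 * D ^ 3 * 1 - 3 / 2 * w * D ^ 2 - R := by linarith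
        have h6 : 0 < 2 * D ^ 3 * 1 - 3 / 2 * w * D ^ 2 + R := by linarith
        have := mul_pos h5 h6
        linarith
      have hb2 : -R ≤ 2 * D ^ 3 - 3 / 2 * w * D ^ 2 := by
        by_contra hcc
        push Not at hcc
        have h5 : 2 * D ^ 3 * 1 - 3 / 2 * w * D ^ 2 - R < 0 := by linarith
        have h6 : 2 * D ^ 3 * 1 - 3 / 2 * w * D ^ 2 + R < 0 := by linarith
        have := mul_pos_of_neg_of_neg h5 h6
        linarith
      have hs2 : 1 ≤ (3 / 2 * w * D ^ 2 + R) / (2 * D ^ 3) := by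
        rw [le_div_iff₀ (by positivity)]
        linarith
      have hQ : 1 + √((3 / 2 * w * D ^ 2 + R) / (2 * D ^ 3) - 1) ^ 2 = (3 / 2 * w * D ^ 2 + R) / (2 * D ^ 3) := by
        rw [Real.sq_sqrt (by linarith)]
        ring
      refine ⟨√((3 / 2 * w * D ^ 2 + R) / (2 * D ^ 3) - 1), Real.sqrt_nonneg _, ?_, ?_⟩
      · intro s hs1 hs2'
        rw [hQ, le_div_iff₀ (by positivity)] at hs2'
        have h5 := hfac s
        have h6 : (2 * D ^ 3 * s - 3 / 2 * w * D ^ 2 - R) * (2 * D ^ 3 * s - 3 / 2 * w * D ^ 2 + R) ≤ 0 := by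
          apply mul_nonpos_of_nonpos_of_nonneg
          · linarith
          · nlinarith
        change D ^ 3 * s ^ 2 - 3 / 2 * w * D ^ 2 * s + c ≤ 0
        by_contra hcc
        push Not at hcc
        have := mul_pos (by positivity : 0 < 4 * D ^ 3) hcc
        linarith
      · intro s hs2'
        rw [hQ, div_le_iff₀ (by positivity)] at hs2'
        have h5 := hfac s
        have h6 : 0 ≤ (2 * D ^ 3 * s - 3 / 2 * w * D ^ 2 - R) * (2 * D ^ 3 * s - 3 / 2 * w * D ^ 2 + R) := by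
          apply mul_nonneg
          · linarith
          · linarith
        change 0 ≤ D ^ 3 * s ^ 2 - 3 / 2 * w * D ^ 2 * s + c
        by_contra hcc
        push Not at hcc
        have := mul_neg_of_pos_of_neg (by positivity : 0 < 4 * D ^ 3) hcc
        linarith
    set a := Real.arctan q with ha
    have ha0 : 0 ≤ a := Real.arctan_nonneg.2 hq0
    have ha1 : a < Real.pi / 2 := Real.arctan_lt_pi_div_two q
    have hcosa : 0 < Real.cos a := Real.cos_arctan_pos q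
    have hsec : 1 / Real.cos a ^ 2 = 1 + q ^ 2 := by
      rw [ha, Real.cos_sq_arctan]
      field_simp
    -- outside
    have hout : ∀ θ : ℝ, a ≤ |θ| → |θ| ≤ Real.pi / 2 → 0 ≤ min (FF n D θ) 0 := by
      intro θ hθ1 hθ2
      apply le_min _ le_rfl
      rcases eq_or_ne (Real.cos θ) 0 with hc | hc
      · unfold FF
        simp [hc]
        linarith
      · rw [FF_eq]
        apply hq2
        rw [← hsec]
        have hcle : Real.cos θ ≤ Real.cos a := by
          rw [← Real.cos_abs θ]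
          exact Real.cos_le_cos_of_nonneg_of_le_pi ha0 (by linarith) hθ1
        have hc0 : 0 ≤ Real.cos θ := by
          rw [← Real.cos_abs θ]
          exact Real.cos_nonneg_of_mem_Icc ⟨by linarith [abs_nonneg θ], hθ2⟩
        exact one_div_le_one_div_of_le (by positivity) (pow_le_pow_left₀ hc0 hcle 2)
    have hin : ∀ θ : ℝ, |θ| ≤ a → min (FF n D θ) 0 = FF n D θ := by
      intro θ hθ
      apply min_eq_left
      rw [FF_eq]
      have hcle : Real.cos a ≤ Real.cos θ := by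
        rw [← Real.cos_abs θ]
        exact Real.cos_le_cos_of_nonneg_of_le_pi (abs_nonneg θ) (by linarith) hθ
      apply hq1
      · exact one_le_sec θ (by linarith)
      · rw [← hsec]
        exact one_div_le_one_div_of_le (by positivity) (pow_le_pow_left₀ hcosa.le hcle 2)
    have hi := fun a b => minFF_int n hD a b
    rw [← intervalIntegral.integral_add_adjacent_intervals (hi _ (-a)) (hi _ _),
      ← intervalIntegral.integral_add_adjacent_intervals (hi (-a) a) (hi _ _)]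
    have e1 : 0 ≤ ∫ θ in (-(Real.pi / 2))..(-a), min (FF n D θ) 0 := by
      apply intervalIntegral.integral_nonneg (by linarith)
      intro θ hθ
      have : |θ| = -θ := abs_of_nonpos (by linarith [hθ.2])
      exact hout θ (by linarith [hθ.2]) (by linarith [hθ.1])
    have e3 : 0 ≤ ∫ θ in a..(Real.pi / 2), min (FF n D θ) 0 := by
      apply intervalIntegral.integral_nonneg (by linarith)
      intro θ hθ
      have : |θ| = θ := abs_of_nonneg (by linarith [hθ.1])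
      exact hout θ (by linarith [hθ.1]) (by linarith [hθ.2])
    have e2 : ∫ θ in (-a)..a, min (FF n D θ) 0 = ∫ θ in (-a)..a, FF n D θ := by
      apply intervalIntegral.integral_congr
      intro θ hθ
      rw [Set.uIcc_of_le (by linarith)] at hθ
      exact hin θ (abs_le.2 ⟨hθ.1, hθ.2⟩)
    rw [e2, FF_integral n D hq0]
    have := bath_q hn hD hq0
    linarith
  · -- lower bound by a constant
    have hconst : ∀ C : ℝ, C ≤ 0 → (∀ θ, C ≤ FF n D θ) →
        Real.pi * C ≤ ∫ θ in (-(Real.pi / 2))..(Real.pi / 2), min (FF n D θ) 0 := by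
      intro C hC hF
      have : ∫ θ in (-(Real.pi / 2))..(Real.pi / 2), C ≤
          ∫ θ in (-(Real.pi / 2))..(Real.pi / 2), min (FF n D θ) 0 := by
        apply intervalIntegral.integral_mono_on (by linarith) (by simp) (minFF_int n hD _ _)
        intro θ _
        exact le_min (hF θ) hC
      rw [intervalIntegral.integral_const, smul_eq_mul] at this
      linarith
    rcases le_or_gt (3 / 4 * yo (tn n)) D with h2 | h2
    · -- case B
      have := hconst 0 le_rfl (by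
        intro θ
        rcases eq_or_ne (Real.cos θ) 0 with hc | hc
        · unfold FF
          simp [hc]
          linarith
        · rw [FF_eq]
          have hs1 := one_le_sec θ hc
          set s := 1 / Real.cos θ ^ 2
          unfold hs at h1 ⊢
          have e : D ^ 3 * s ^ 2 - 3 / 2 * yo (tn n) * D ^ 2 * s + (1 - tn n ^ 4) / 2 =
            (D ^ 3 * 1 ^ 2 - 3 / 2 * yo (tn n) * D ^ 2 * 1 + (1 - tn n ^ 4) / 2) +
              (s - 1) * D ^ 2 * (D * (s + 1) - 3 / 2 * yo (tn n)) := by ring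
          rw [e]
          have h3 : 0 ≤ D * (s + 1) - 3 / 2 * yo (tn n) := by nlinarith
          have h4 : 0 ≤ (s - 1) * D ^ 2 * (D * (s + 1) - 3 / 2 * yo (tn n)) :=
            mul_nonneg (mul_nonneg (by linarith) (by positivity)) h3
          linarith)
      linarith
    · -- case C
      rcases le_or_gt (9 / 16 * yo (tn n) ^ 2 * D - (1 - tn n ^ 4) / 2) 0 with hE | hE
      · have := hconst 0 le_rfl (by
          intro θ
          have := hs_ge n hD (1 / Real.cos θ ^ 2)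
          rw [← FF_eq] at this
          linarith)
        linarith
      · have h3 := hconst (-(9 / 16 * yo (tn n) ^ 2 * D - (1 - tn n ^ 4) / 2)) (by linarith) (by
          intro θ
          have := hs_ge n hD (1 / Real.cos θ ^ 2)
          rwa [← FF_eq] at this)
        have h4 := bath_num hn hD h2 (by unfold hs at h1; linarith)
        linarith

/-- periodic version of the integrand -/
private noncomputable def HH (n : ℕ) (D θ : ℝ) : ℝ := if 0 < Real.cos θ then min (FF n D θ) 0 else 0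

private theorem HH_nonpos (n : ℕ) (D θ : ℝ) : HH n D θ ≤ 0 := by
  unfold HH
  split_ifs
  · exact min_le_right _ _
  · exact le_rfl

private theorem HH_meas (n : ℕ) (D : ℝ) : Measurable (HH n D) := by
  unfold HH
  exact Measurable.ite (measurableSet_lt measurable_const Real.measurable_cos)
    ((FF_meas n D).min measurable_const) measurable_const

private theorem HH_bd (n : ℕ) {D : ℝ} (hD : 0 < D) (θ : ℝ) :
    ‖HH n D θ‖ ≤ |9 / 16 * yo (tn n) ^ 2 * D - (1 - tn n ^ 4) / 2| := by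
  unfold HH
  split_ifs
  · exact minFF_bd n hD θ
  · simp

private theorem HH_int (n : ℕ) {D : ℝ} (hD : 0 < D) (a b : ℝ) :
    IntervalIntegrable (HH n D) volume a b := by
  rw [intervalIntegrable_iff]
  refine IntegrableOn.of_bound ?_ ?_ |9 / 16 * yo (tn n) ^ 2 * D - (1 - tn n ^ 4) / 2| ?_
  · simp [Set.uIoc]
  · exact (HH_meas n D).aestronglyMeasurable
  · exact Filter.Eventually.of_forall fun θ => HH_bd n hD θ

private theorem HH_periodic (n : ℕ) (D : ℝ) : Function.Periodic (HH n D) (2 * Real.pi) := by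
  intro θ
  unfold HH FF
  rw [Real.cos_add_two_pi]

private theorem HH_zero (n : ℕ) (D : ℝ) {θ : ℝ} (h : Real.cos θ ≤ 0) : HH n D θ = 0 := by
  unfold HH
  rw [if_neg (not_lt.2 h)]

private theorem HH_integral (n : ℕ) {D : ℝ} (hn : 5 ≤ n) (hD : 0 < D) :
    ∫ θ in (-Real.pi)..Real.pi, HH n D θ =
      ∫ θ in (-(Real.pi / 2))..(Real.pi / 2), min (FF n D θ) 0 := by
  have hpi := Real.pi_pos
  have hi := fun a b => HH_int n hD a b
  have h4 := t4_le hn
  rw [← intervalIntegral.integral_add_adjacent_intervals (hi _ (-(Real.pi / 2))) (hi _ _),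
    ← intervalIntegral.integral_add_adjacent_intervals (hi (-(Real.pi / 2)) (Real.pi / 2)) (hi _ _)]
  have e1 : ∫ θ in (-Real.pi)..(-(Real.pi / 2)), HH n D θ = 0 := by
    rw [← intervalIntegral.integral_zero (μ := volume) (a := -Real.pi) (b := -(Real.pi / 2)) (E := ℝ)]
    apply intervalIntegral.integral_congr
    intro θ hθ
    rw [Set.uIcc_of_le (by linarith)] at hθ
    apply HH_zero
    rw [← Real.cos_neg]
    exact Real.cos_nonpos_of_pi_div_two_le_of_le (by linarith [hθ.2]) (by linarith [hθ.1])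
  have e3 : ∫ θ in (Real.pi / 2)..Real.pi, HH n D θ = 0 := by
    rw [← intervalIntegral.integral_zero (μ := volume) (a := Real.pi / 2) (b := Real.pi) (E := ℝ)]
    apply intervalIntegral.integral_congr
    intro θ hθ
    rw [Set.uIcc_of_le (by linarith)] at hθ
    apply HH_zero
    exact Real.cos_nonpos_of_pi_div_two_le_of_le (by linarith [hθ.1]) (by linarith [hθ.2])
  rw [e1, e3, zero_add, add_zero]
  apply intervalIntegral.integral_congr
  intro θ hθ
  rw [Set.uIcc_of_le (by linarith)] at hθ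
  have hc0 := Real.cos_nonneg_of_mem_Icc hθ
  rcases hc0.eq_or_lt with hc | hc
  · simp only
    rw [HH_zero n D hc.symm.le]
    unfold FF
    rw [← hc]
    simp
    linarith
  · simp only
    unfold HH
    rw [if_pos hc]

theorem bath_V {n : ℕ} (hn : 5 ≤ n) {D η : ℝ} (hD : 0 < D) {V : Set ℝ} (hV : MeasurableSet V)
    (hV1 : V ⊆ Set.Ioc (-Real.pi) Real.pi) (hV2 : ∀ θ ∈ V, 0 < Real.cos (θ - η))
    (hi : IntegrableOn (fun θ => D ^ 3 / Real.cos (θ - η) ^ 4 -
      3 / 2 * yo (tn n) * (D ^ 2 / Real.cos (θ - η) ^ 2) + (1 - tn n ^ 4) / 2) V) :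
    -(tn n * yo (tn n) - (1 - tn n ^ 4) * Real.arctan (tn n)) ≤
      ∫ θ in V, (D ^ 3 / Real.cos (θ - η) ^ 4 -
        3 / 2 * yo (tn n) * (D ^ 2 / Real.cos (θ - η) ^ 2) + (1 - tn n ^ 4) / 2) := by
  change IntegrableOn (fun θ => FF n D (θ - η)) V at hi
  change _ ≤ ∫ θ in V, FF n D (θ - η)
  have hpi := Real.pi_pos
  have hb := bath hn hD
  change _ ≤ ∫ θ in (-(Real.pi / 2))..(Real.pi / 2), min (FF n D θ) 0 at hb
  rw [← HH_integral n hn hD] at hb
  have hper : ∫ θ in (-Real.pi)..Real.pi, HH n D θ = ∫ θ in (-Real.pi)..Real.pi, HH n D (θ - η) := by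
    rw [intervalIntegral.integral_comp_sub_right (fun θ => HH n D θ) η]
    have := (HH_periodic n D).intervalIntegral_add_eq (-Real.pi) (-Real.pi - η)
    have e1 : -Real.pi + 2 * Real.pi = Real.pi := by ring
    have e2 : -Real.pi - η + 2 * Real.pi = Real.pi - η := by ring
    rw [e1, e2] at this
    exact this
  rw [hper, intervalIntegral.integral_of_le (by linarith)] at hb
  have hIoc : IntegrableOn (fun θ => HH n D (θ - η)) (Set.Ioc (-Real.pi) Real.pi) := by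
    refine IntegrableOn.of_bound ?_ ?_ |9 / 16 * yo (tn n) ^ 2 * D - (1 - tn n ^ 4) / 2| ?_
    · simp
    · exact ((HH_meas n D).comp (measurable_id.sub_const η)).aestronglyMeasurable
    · exact Filter.Eventually.of_forall fun θ => HH_bd n hD _
  have h1 : ∫ θ in Set.Ioc (-Real.pi) Real.pi, HH n D (θ - η) ≤ ∫ θ in V, HH n D (θ - η) := by
    have := setIntegral_mono_set (μ := volume) (f := fun θ => -HH n D (θ - η)) (s := V)
      (t := Set.Ioc (-Real.pi) Real.pi) hIoc.neg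
      (Filter.Eventually.of_forall fun θ => by
        have := HH_nonpos n D (θ - η)
        simpa using this) (Filter.Eventually.of_forall hV1)
    rw [integral_neg, integral_neg] at this
    linarith
  have h2 : ∫ θ in V, HH n D (θ - η) ≤ ∫ θ in V, FF n D (θ - η) := by
    apply setIntegral_mono_on (hIoc.mono_set hV1) hi hV
    intro θ hθ
    unfold HH
    rw [if_pos (hV2 θ hθ)]
    exact min_le_left _ _
  linarith

end Pool.Agent.H45.SN
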