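import Pool.Agent.H45.SN.AD
import Pool.Agent.H32.SG.Basic
import Pool.Agent.H32.Q4.DG

set_option autoImplicit false

/-! Steklov, part D: formulas for one side of a star-shaped polygon.

`P = r e^{iϑ}`, `P' = r' e^{i(ϑ+θ)}`, `0 < θ < π`, `w = P' - P`, `ℓ = ‖w‖`, `q = tan(θ/2)`,
`y = ((r'-r)/ℓ)²`, `D = cr P P' = r r' sin θ`, `δ = D/ℓ`.

PROOFS. `ℓ² = r² + r'² - 2 r r' cos θ = (r'-r)² + 2 r r'(1 - cos θ)`, so `y < 1` and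
`ℓ²(1-y) = 2 r r'(1 - cos θ)`. `sd_len`: `TT q y δ = 2 tan(θ/2)/(1-y) · r r' sin θ/ℓ = ℓ` since
`2 tan(θ/2) sin θ = 2 (1 - cos θ)`. `sd_area` follows. `sd_mom`: `segInt (‖z‖²) P P' = ℓ (‖m‖² + ℓ²/12)`
(`seg_sq` in Q4/DG.lean), `m = (P+P')/2`, `‖m‖² = δ² + ((r'²-r²)/(2ℓ))²` (`‖m‖²‖w‖² = cr(m,w)² + dt(m,w)²`,
`cr(m,w) = D`, `dt(m,w) = (r'²-r²)/2`), `(r'²-r²)²/(4ℓ²) = y (r+r')²/4`,
`(r+r')² = yℓ² + 4rr' = yℓ² + ℓ²(1-y)(1+q²)/q²` (`1 - cos θ = 2q²/(1+q²)`), `ℓ = TT δ = 2qδ/(1-y)`: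
`‖m‖² = δ² (1 + y(1+q²-y)/(1-y)²)`, `ℓ²/12 = δ² q²/(3(1-y)²)`. `sd_w`: `ℓ²/(4 t D/2) = TT/(2t)`.
`sd_m`: `t‖m‖²/(D/2) = (2t/TT)(1 + y(1+q²-y)/(1-y)²) = (1-y+yq²)t/(q(1-y))`. `sd_u`: with
`u = arcsin((r'-r) cos(θ/2)/ℓ)`: `w e^{-i(ϑ+θ/2)} = (r'-r) cos(θ/2) + i (r+r') sin(θ/2)`, its norm is `ℓ`, so
`sin u = (r'-r)cos(θ/2)/ℓ`, `cos u = (r+r') sin(θ/2)/ℓ`, and `w = ℓ e^{i(ϑ+θ/2)} (sin u + i cos u) =
i ℓ e^{i(ϑ+θ/2-u)}`; `sin² u = y cos²(θ/2) = y/(1+q²)`. -/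

open Complex MeasureTheory Finset

namespace Pool.Agent.H45.SN

open Pool.Agent.H32.Stek (grad segInt tri)
open Pool.Agent.H32.Q4 (cr dt)

variable {r r' ϑ θ : ℝ}

/-- the end points -/
noncomputable def eP (r ϑ : ℝ) : ℂ := (r : ℂ) * exp ((ϑ : ℂ) * I)

/-- length of the side -/
noncomputable def el (r r' ϑ θ : ℝ) : ℝ := ‖eP r' (ϑ + θ) - eP r ϑ‖

noncomputable def ey (r r' ϑ θ : ℝ) : ℝ := ((r' - r) / el r r' ϑ θ) ^ 2

noncomputable def ed (r r' ϑ θ : ℝ) : ℝ := cr (eP r ϑ) (eP r' (ϑ + θ)) / el r r' ϑ θ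

noncomputable def eu (r r' ϑ θ : ℝ) : ℝ :=
  Real.arcsin ((r' - r) * Real.cos (θ / 2) / el r r' ϑ θ)

private theorem da_re (r ϑ : ℝ) : (eP r ϑ).re = r * Real.cos ϑ := by
  unfold eP
  rw [Complex.re_ofReal_mul, Complex.exp_ofReal_mul_I_re]

private theorem da_im (r ϑ : ℝ) : (eP r ϑ).im = r * Real.sin ϑ := by
  unfold eP
  rw [Complex.im_ofReal_mul, Complex.exp_ofReal_mul_I_im]

private theorem da_ct (ϑ θ : ℝ) : Real.cos ϑ =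
    Real.cos (ϑ + θ / 2) * Real.cos (θ / 2) + Real.sin (ϑ + θ / 2) * Real.sin (θ / 2) := by
  rw [← Real.cos_sub]; congr 1; ring

private theorem da_st (ϑ θ : ℝ) : Real.sin ϑ =
    Real.sin (ϑ + θ / 2) * Real.cos (θ / 2) - Real.cos (ϑ + θ / 2) * Real.sin (θ / 2) := by
  rw [← Real.sin_sub]; congr 1; ring

private theorem da_ct2 (ϑ θ : ℝ) : Real.cos (ϑ + θ) =
    Real.cos (ϑ + θ / 2) * Real.cos (θ / 2) - Real.sin (ϑ + θ / 2) * Real.sin (θ / 2) := by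
  rw [← Real.cos_add]; congr 1; ring

private theorem da_st2 (ϑ θ : ℝ) : Real.sin (ϑ + θ) =
    Real.sin (ϑ + θ / 2) * Real.cos (θ / 2) + Real.cos (ϑ + θ / 2) * Real.sin (θ / 2) := by
  rw [← Real.sin_add]; congr 1; ring

private theorem da_cr (r r' ϑ θ : ℝ) : cr (eP r ϑ) (eP r' (ϑ + θ)) =
    2 * r * r' * Real.sin (θ / 2) * Real.cos (θ / 2) := by
  unfold cr
  rw [da_re, da_im, da_re, da_im, da_ct ϑ θ, da_st ϑ θ, da_ct2 ϑ θ, da_st2 ϑ θ]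
  linear_combination (2 * r * r' * Real.sin (θ / 2) * Real.cos (θ / 2)) *
    Real.sin_sq_add_cos_sq (ϑ + θ / 2)

private theorem da_wre (r r' ϑ θ : ℝ) : (eP r' (ϑ + θ) - eP r ϑ).re =
    (r' - r) * Real.cos (θ / 2) * Real.cos (ϑ + θ / 2) -
      (r + r') * Real.sin (θ / 2) * Real.sin (ϑ + θ / 2) := by
  rw [Complex.sub_re, da_re, da_re, da_ct ϑ θ, da_ct2 ϑ θ]
  ring

private theorem da_wim (r r' ϑ θ : ℝ) : (eP r' (ϑ + θ) - eP r ϑ).im =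
    (r' - r) * Real.cos (θ / 2) * Real.sin (ϑ + θ / 2) +
      (r + r') * Real.sin (θ / 2) * Real.cos (ϑ + θ / 2) := by
  rw [Complex.sub_im, da_im, da_im, da_st ϑ θ, da_st2 ϑ θ]
  ring

private theorem da_sq (r r' ϑ θ : ℝ) : el r r' ϑ θ ^ 2 =
    (r' - r) ^ 2 * Real.cos (θ / 2) ^ 2 + (r + r') ^ 2 * Real.sin (θ / 2) ^ 2 := by
  unfold el
  rw [Complex.sq_norm, Complex.normSq_apply, da_wre, da_wim]
  linear_combination ((r' - r) ^ 2 * Real.cos (θ / 2) ^ 2 + (r + r') ^ 2 * Real.sin (θ / 2) ^ 2) *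
    Real.sin_sq_add_cos_sq (ϑ + θ / 2)

private theorem da_msq (r r' ϑ θ : ℝ) : ‖(eP r ϑ + eP r' (ϑ + θ)) / 2‖ ^ 2 =
    ((r + r') ^ 2 * Real.cos (θ / 2) ^ 2 + (r' - r) ^ 2 * Real.sin (θ / 2) ^ 2) / 4 := by
  have h2 : ‖(2 : ℂ)‖ = 2 := by simp
  rw [norm_div, h2, div_pow, Complex.sq_norm, Complex.normSq_apply, Complex.add_re, Complex.add_im,
    da_re, da_re, da_im, da_im, da_ct ϑ θ, da_st ϑ θ, da_ct2 ϑ θ, da_st2 ϑ θ]
  linear_combination (((r + r') ^ 2 * Real.cos (θ / 2) ^ 2 +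
    (r' - r) ^ 2 * Real.sin (θ / 2) ^ 2) / 4) * Real.sin_sq_add_cos_sq (ϑ + θ / 2)

/-- all the data of the side in terms of `c = cos (θ/2)`, `s = sin (θ/2)`, `ℓ` -/
private theorem da_all (hr : 0 < r) (hr' : 0 < r') (h0 : 0 < θ) (h1 : θ < Real.pi) :
    ∃ c s L : ℝ, 0 < c ∧ 0 < s ∧ 0 < L ∧ c ^ 2 + s ^ 2 = 1 ∧
      L ^ 2 = (r' - r) ^ 2 * c ^ 2 + (r + r') ^ 2 * s ^ 2 ∧
      Real.cos (θ / 2) = c ∧ Real.sin (θ / 2) = s ∧ el r r' ϑ θ = L ∧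
      Real.tan (θ / 2) = s / c ∧ ey r r' ϑ θ = (r' - r) ^ 2 / L ^ 2 ∧
      1 - ey r r' ϑ θ = 4 * r * r' * s ^ 2 / L ^ 2 ∧
      ed r r' ϑ θ = 2 * r * r' * s * c / L := by
  have hc : 0 < Real.cos (θ / 2) := Real.cos_pos_of_mem_Ioo ⟨by linarith [Real.pi_pos], by linarith⟩
  have hs : 0 < Real.sin (θ / 2) :=
    Real.sin_pos_of_pos_of_lt_pi (by linarith) (by linarith [Real.pi_pos])
  have hsc : Real.cos (θ / 2) ^ 2 + Real.sin (θ / 2) ^ 2 = 1 := by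
    rw [add_comm]; exact Real.sin_sq_add_cos_sq _
  have hsq := da_sq r r' ϑ θ
  have hL0 : 0 ≤ el r r' ϑ θ := norm_nonneg _
  have hL : 0 < el r r' ϑ θ := by
    rcases hL0.lt_or_eq with h | h
    · exact h
    · exfalso
      rw [← h] at hsq
      have : 0 < (r + r') ^ 2 * Real.sin (θ / 2) ^ 2 := by positivity
      have h2 : 0 ≤ (r' - r) ^ 2 * Real.cos (θ / 2) ^ 2 := by positivity
      nlinarith
  have hy : ey r r' ϑ θ = (r' - r) ^ 2 / el r r' ϑ θ ^ 2 := by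
    unfold ey; rw [div_pow]
  refine ⟨Real.cos (θ / 2), Real.sin (θ / 2), el r r' ϑ θ, hc, hs, hL, hsc, hsq, rfl, rfl, rfl,
    Real.tan_eq_sin_div_cos _, hy, ?_, ?_⟩
  · rw [hy]
    have hL2 : el r r' ϑ θ ^ 2 ≠ 0 := by positivity
    rw [eq_div_iff hL2, sub_mul, div_mul_cancel₀ _ hL2, one_mul, hsq]
    linear_combination (r' - r) ^ 2 * hsc
  · unfold ed
    rw [da_cr]

theorem sd_pos (hr : 0 < r) (hr' : 0 < r') (h0 : 0 < θ) (h1 : θ < Real.pi) :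
    0 < el r r' ϑ θ ∧ 0 < Real.tan (θ / 2) ∧ 0 ≤ ey r r' ϑ θ ∧ ey r r' ϑ θ < 1 ∧
      0 < ed r r' ϑ θ := by
  obtain ⟨c, s, L, hc, hs, hL, hsc, hsq, ec, es, eL, et, ey', e1, ed'⟩ :=
    da_all (ϑ := ϑ) hr hr' h0 h1
  refine ⟨by rw [eL]; exact hL, by rw [et]; positivity, by rw [ey']; positivity, ?_, ?_⟩
  · have : 0 < 1 - ey r r' ϑ θ := by rw [e1]; positivity
    linarith
  · rw [ed']; positivity

private theorem da_TT (hr : 0 < r) (hr' : 0 < r') (h0 : 0 < θ) (h1 : θ < Real.pi) :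
    TT (Real.tan (θ / 2)) (ey r r' ϑ θ) =
      el r r' ϑ θ ^ 2 / (2 * r * r' * Real.sin (θ / 2) * Real.cos (θ / 2)) := by
  obtain ⟨c, s, L, hc, hs, hL, hsc, hsq, ec, es, eL, et, ey', e1, ed'⟩ :=
    da_all (ϑ := ϑ) hr hr' h0 h1
  unfold TT
  rw [e1, et, eL, ec, es]
  field_simp
  norm_num

theorem sd_len (hr : 0 < r) (hr' : 0 < r') (h0 : 0 < θ) (h1 : θ < Real.pi) :
    TT (Real.tan (θ / 2)) (ey r r' ϑ θ) * ed r r' ϑ θ = el r r' ϑ θ := by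
  rw [da_TT hr hr' h0 h1]
  obtain ⟨c, s, L, hc, hs, hL, hsc, hsq, ec, es, eL, et, ey', e1, ed'⟩ :=
    da_all (ϑ := ϑ) hr hr' h0 h1
  rw [ed', eL, ec, es]
  field_simp

theorem sd_area (hr : 0 < r) (hr' : 0 < r') (h0 : 0 < θ) (h1 : θ < Real.pi) :
    TT (Real.tan (θ / 2)) (ey r r' ϑ θ) * ed r r' ϑ θ ^ 2 = cr (eP r ϑ) (eP r' (ϑ + θ)) := by
  rw [pow_two, ← mul_assoc, sd_len hr hr' h0 h1]
  unfold ed
  rw [mul_div_assoc', mul_div_cancel_left₀]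
  exact (sd_pos (ϑ := ϑ) hr hr' h0 h1).1.ne'

theorem sd_mom (hr : 0 < r) (hr' : 0 < r') (h0 : 0 < θ) (h1 : θ < Real.pi) :
    segInt (fun z => ‖z‖ ^ 2) (eP r ϑ) (eP r' (ϑ + θ)) =
      TT (Real.tan (θ / 2)) (ey r r' ϑ θ) * ed r r' ϑ θ ^ 3 *
        (1 + KK (Real.tan (θ / 2)) (ey r r' ϑ θ) / 3) := by
  rw [Pool.Agent.H32.Q4.seg_sq, da_msq]
  have hlen := sd_len (ϑ := ϑ) hr hr' h0 h1
  have e3 : TT (Real.tan (θ / 2)) (ey r r' ϑ θ) * ed r r' ϑ θ ^ 3 =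
      el r r' ϑ θ * ed r r' ϑ θ ^ 2 := by
    rw [← hlen]; ring
  rw [e3]
  obtain ⟨c, s, L, hc, hs, hL, hsc, hsq, ec, es, eL, et, ey', e1, ed'⟩ :=
    da_all (ϑ := ϑ) hr hr' h0 h1
  have eL' : ‖eP r' (ϑ + θ) - eP r ϑ‖ = L := eL
  unfold KK
  rw [e1, et, ey', eL', eL, ed', ec, es]
  have hD : L ≠ 0 := hL.ne'
  have key : 4 * r ^ 2 * r' ^ 2 * s ^ 2 * c ^ 2 * 4 + (r' - r) ^ 2 * (r + r') ^ 2 =
      ((r + r') ^ 2 * c ^ 2 + (r' - r) ^ 2 * s ^ 2) *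
        ((r' - r) ^ 2 * c ^ 2 + (r + r') ^ 2 * s ^ 2) := by
    have h4 : (c ^ 2 + s ^ 2) ^ 2 = 1 := by rw [hsc]; norm_num
    linear_combination (-(r' - r) ^ 2 * (r + r') ^ 2) * h4
  have hK : (L * (2 * r * r' * s * c / L) ^ 2) *
      (((s / c) ^ 2 + 3 * ((r' - r) ^ 2 / L ^ 2) * (1 + (s / c) ^ 2 - (r' - r) ^ 2 / L ^ 2)) /
        (4 * r * r' * s ^ 2 / L ^ 2) ^ 2 / 3) =
      L ^ 3 / 12 + (r' - r) ^ 2 * (r + r') ^ 2 / (4 * L) := by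
    have h5 : 1 + (s / c) ^ 2 = 1 / c ^ 2 := by
      rw [div_pow, eq_div_iff (by positivity), add_mul, div_mul_cancel₀ _ (by positivity)]
      linarith
    have h6 : 3 * ((r' - r) ^ 2 / L ^ 2) * (1 + (s / c) ^ 2 - (r' - r) ^ 2 / L ^ 2) =
        3 * (r' - r) ^ 2 * (r + r') ^ 2 * s ^ 2 / (L ^ 4 * c ^ 2) := by
      rw [h5]
      have h7 : 1 / c ^ 2 - (r' - r) ^ 2 / L ^ 2 = (r + r') ^ 2 * s ^ 2 / (c ^ 2 * L ^ 2) := by
        rw [div_sub_div _ _ (by positivity) (by positivity)]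
        congr 1
        linear_combination hsq
      rw [h7]
      field_simp
    rw [h6]
    field_simp
    ring
  have hm : L * (((r + r') ^ 2 * c ^ 2 + (r' - r) ^ 2 * s ^ 2) / 4) =
      L * (2 * r * r' * s * c / L) ^ 2 + (r' - r) ^ 2 * (r + r') ^ 2 / (4 * L) := by
    have : L * (((r + r') ^ 2 * c ^ 2 + (r' - r) ^ 2 * s ^ 2) / 4) =
        ((r + r') ^ 2 * c ^ 2 + (r' - r) ^ 2 * s ^ 2) * L ^ 2 / (4 * L) := by
      field_simp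
    rw [this, hsq, ← key]
    field_simp
    ring
  calc L * (((r + r') ^ 2 * c ^ 2 + (r' - r) ^ 2 * s ^ 2) / 4 + L ^ 2 / 12)
      = L * (((r + r') ^ 2 * c ^ 2 + (r' - r) ^ 2 * s ^ 2) / 4) + L ^ 3 / 12 := by ring
    _ = L * (2 * r * r' * s * c / L) ^ 2 +
        (L ^ 3 / 12 + (r' - r) ^ 2 * (r + r') ^ 2 / (4 * L)) := by rw [hm]; ring
    _ = _ := by rw [← hK]; ring

theorem sd_w (hr : 0 < r) (hr' : 0 < r') (h0 : 0 < θ) (h1 : θ < Real.pi) {t : ℝ} (ht : 0 < t) :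
    ‖eP r' (ϑ + θ) - eP r ϑ‖ ^ 2 / (4 * t * (cr (eP r ϑ) (eP r' (ϑ + θ)) / 2)) =
      Real.tan (θ / 2) / t / (1 - ey r r' ϑ θ) := by
  rw [da_cr]
  obtain ⟨c, s, L, hc, hs, hL, hsc, hsq, ec, es, eL, et, ey', e1, ed'⟩ :=
    da_all (ϑ := ϑ) hr hr' h0 h1
  have eL' : ‖eP r' (ϑ + θ) - eP r ϑ‖ = L := eL
  rw [eL', et, e1, ec, es]
  field_simp

theorem sd_m (hr : 0 < r) (hr' : 0 < r') (h0 : 0 < θ) (h1 : θ < Real.pi) {t : ℝ} (ht : 0 < t) :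
    t * ‖(eP r ϑ + eP r' (ϑ + θ)) / 2‖ ^ 2 / (cr (eP r ϑ) (eP r' (ϑ + θ)) / 2) =
      1 / (Real.tan (θ / 2) / t) +
        t ^ 2 * (Real.tan (θ / 2) / t) * ey r r' ϑ θ / (1 - ey r r' ϑ θ) := by
  rw [da_cr, da_msq]
  obtain ⟨c, s, L, hc, hs, hL, hsc, hsq, ec, es, eL, et, ey', e1, ed'⟩ :=
    da_all (ϑ := ϑ) hr hr' h0 h1
  rw [et, e1, ey', ec, es]
  have : t ^ 2 * (s / c / t) * ((r' - r) ^ 2 / L ^ 2) / (4 * r * r' * s ^ 2 / L ^ 2) =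
      t * (r' - r) ^ 2 / (4 * r * r' * s * c) := by
    field_simp
  rw [this]
  have h2 : 1 / (s / c / t) = 4 * r * r' * c ^ 2 * t / (4 * r * r' * s * c) := by
    field_simp
  rw [h2, ← add_div]
  rw [div_eq_div_iff (by positivity) (by positivity)]
  linear_combination (t * (r' - r) ^ 2 * r * r' * s * c) * hsc

theorem sd_u (hr : 0 < r) (hr' : 0 < r') (h0 : 0 < θ) (h1 : θ < Real.pi) :
    |eu r r' ϑ θ| ≤ Real.pi / 2 ∧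
    Real.sin (eu r r' ϑ θ) ^ 2 = ey r r' ϑ θ / (1 + Real.tan (θ / 2) ^ 2) ∧
    eP r' (ϑ + θ) - eP r ϑ =
      (el r r' ϑ θ : ℂ) * I * exp (((ϑ + θ / 2 - eu r r' ϑ θ : ℝ) : ℂ) * I) := by
  obtain ⟨c, s, L, hc, hs, hL, hsc, hsq, ec, es, eL, et, ey', e1, ed'⟩ :=
    da_all (ϑ := ϑ) hr hr' h0 h1
  have hx : ((r' - r) * c / L) ^ 2 ≤ 1 := by
    rw [div_pow, div_le_one (by positivity), mul_pow, hsq]
    have : 0 ≤ (r + r') ^ 2 * s ^ 2 := by positivity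
    linarith
  have hx2 := abs_le.1 ((sq_le_one_iff_abs_le_one _).1 hx)
  have hu : eu r r' ϑ θ = Real.arcsin ((r' - r) * c / L) := by
    unfold eu; rw [eL, ec]
  have hsin : Real.sin (eu r r' ϑ θ) = (r' - r) * c / L := by
    rw [hu, Real.sin_arcsin hx2.1 hx2.2]
  have hcos : Real.cos (eu r r' ϑ θ) = (r + r') * s / L := by
    rw [hu, Real.cos_arcsin]
    have : 1 - ((r' - r) * c / L) ^ 2 = ((r + r') * s / L) ^ 2 := by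
      have hL2 : L ^ 2 ≠ 0 := by positivity
      rw [div_pow, div_pow, eq_div_iff hL2, sub_mul, div_mul_cancel₀ _ hL2, one_mul]
      linear_combination hsq
    rw [this, Real.sqrt_sq (by positivity)]
  refine ⟨?_, ?_, ?_⟩
  · rw [hu]
    exact abs_le.2 ⟨Real.neg_pi_div_two_le_arcsin _, Real.arcsin_le_pi_div_two _⟩
  · rw [hsin, ey', et]
    have h5 : 1 + (s / c) ^ 2 = 1 / c ^ 2 := by
      rw [div_pow, eq_div_iff (by positivity), add_mul, div_mul_cancel₀ _ (by positivity)]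
      linarith
    rw [h5]
    field_simp
  · rw [eL, Complex.exp_ofReal_mul_I]
    apply Complex.ext
    · rw [da_wre, ec, es]
      simp only [Complex.mul_re, Complex.mul_im, Complex.ofReal_re, Complex.ofReal_im, Complex.I_re,
        Complex.I_im, Complex.add_re, Complex.add_im]
      rw [Real.sin_sub, hsin, hcos]
      field_simp
      ring
    · rw [da_wim, ec, es]
      simp only [Complex.mul_re, Complex.mul_im, Complex.ofReal_re, Complex.ofReal_im, Complex.I_re,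
        Complex.I_im, Complex.add_re, Complex.add_im]
      rw [Real.cos_sub, hsin, hcos]
      field_simp
      ring

end Pool.Agent.H45.SN
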