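import Pool.Agent.H45.SN.DB0

set_option autoImplicit false

/-! Steklov, part D: moment, perimeter and `Sc` of a star-shaped polygon.

PROOF. `p j = eP (r j) (th j)`, `p (j+1) = eP (r (j+1)) (th j + qa th j)`. `star_J`, `star_L`: `sd_mom`, `sd_len`
(`el` is the norm of the side vector). `star_S`: `w_j = ℓ_j i e^{i(th j + qa/2 - u_j)}` (`sd_u`), `om n ^ j = e^{2πij/n}`, so
`ℓ_j i conj(w_j) om^j = ℓ_j² e^{-i qs j}` (`i · conj i = 1`), and `‖∑ ℓ_j² e^{-i qs j}‖ = ‖e^{i m} ∑ ℓ_j² e^{-i qs j}‖`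
(`m` = mean) `= ‖∑ ℓ_j² e^{-i qp j}‖ ≥ Re = ∑ ℓ_j² cos (qp j)`, `ℓ_j = TT δ` (`sd_len`). -/

open Complex MeasureTheory Finset

namespace Pool.Agent.H45.SN

open Pool.Agent.H32.SG (Star Ast JJb perim Sc Est)

private lemma db2_pos {n : ℕ} {p : ℕ → ℂ} {r th : ℕ → ℝ} (h : Star n p r th) (j : ℕ) :
    0 < qa th j ∧ qa th j < Real.pi ∧ eP (r j) (th j) = p j ∧
      eP (r (j + 1)) (th j + qa th j) = p (j + 1) := by
  refine ⟨?_, ?_, (h.rep j).symm, ?_⟩
  · unfold qa; linarith [h.lt j]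
  · unfold qa; linarith [h.lt_pi j]
  · have h2 : th j + qa th j = th (j + 1) := by unfold qa; ring
    rw [h2]; exact (h.rep (j + 1)).symm

theorem star_J {n : ℕ} {p : ℕ → ℂ} {r th : ℕ → ℝ} (h : Star n p r th) :
    JJb n p = JJs n (qq th) (qd r th) (qy r th) := by
  unfold JJb Pool.Agent.H32.SG.bd JJs
  refine Finset.sum_congr rfl fun j _ => ?_
  obtain ⟨h0, h1, h2, h3⟩ := db2_pos h j
  have h4 := sd_mom (h.rpos j) (h.rpos (j + 1)) h0 h1 (ϑ := th j)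
  rw [h2, h3] at h4
  rw [h4]
  rfl

theorem star_L {n : ℕ} {p : ℕ → ℂ} {r th : ℕ → ℝ} (h : Star n p r th) :
    perim n p = LLs n (qq th) (qd r th) (qy r th) := by
  unfold perim LLs
  refine Finset.sum_congr rfl fun j _ => ?_
  obtain ⟨h0, h1, h2, h3⟩ := db2_pos h j
  have h4 := sd_len (h.rpos j) (h.rpos (j + 1)) h0 h1 (ϑ := th j)
  unfold qq qy qd
  rw [h4]
  unfold el
  rw [h2, h3]

private lemma db2_term {n : ℕ} (hn : 5 ≤ n) {p : ℕ → ℂ} {r th : ℕ → ℝ} (h : Star n p r th)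
    (j : ℕ) :
    (‖Pool.Agent.H32.SG.sw p j‖ : ℂ) * I * (starRingEnd ℂ) (Pool.Agent.H32.SG.sw p j) *
      Pool.Agent.H32.SG.om n ^ j =
      (((TT (qq th j) (qy r th j) * qd r th j) ^ 2 : ℝ) : ℂ) *
        exp (((-(qs n r th j) : ℝ) : ℂ) * I) := by
  obtain ⟨h0, h1, h2, h3⟩ := db2_pos h j
  have hn0 : (n : ℂ) ≠ 0 := by
    have : n ≠ 0 := by omega
    exact_mod_cast this
  have h4 := sd_len (h.rpos j) (h.rpos (j + 1)) h0 h1 (ϑ := th j)
  have h5 := (sd_u (h.rpos j) (h.rpos (j + 1)) h0 h1 (ϑ := th j)).2.2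
  have h6 : Pool.Agent.H32.SG.sw p j =
      (el (r j) (r (j + 1)) (th j) (qa th j) : ℂ) * I *
        exp (((th j + qa th j / 2 - qu r th j : ℝ) : ℂ) * I) := by
    unfold Pool.Agent.H32.SG.sw
    rw [← h2, ← h3, h5]
    rfl
  have h7 : ‖Pool.Agent.H32.SG.sw p j‖ = el (r j) (r (j + 1)) (th j) (qa th j) := by
    unfold Pool.Agent.H32.SG.sw el
    rw [h2, h3]
  have h8 : TT (qq th j) (qy r th j) * qd r th j = el (r j) (r (j + 1)) (th j) (qa th j) := h4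
  rw [h8, h7, h6]
  generalize el (r j) (r (j + 1)) (th j) (qa th j) = L
  have h9 : (starRingEnd ℂ) (exp (((th j + qa th j / 2 - qu r th j : ℝ) : ℂ) * I)) =
      exp (((-(th j + qa th j / 2 - qu r th j) : ℝ) : ℂ) * I) := by
    rw [← Complex.exp_conj, map_mul, Complex.conj_ofReal, Complex.conj_I]
    congr 1
    push_cast
    ring
  rw [map_mul, map_mul, Complex.conj_ofReal, Complex.conj_I, h9]
  unfold Pool.Agent.H32.SG.om
  rw [← Complex.exp_nat_mul]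
  have h10 : exp (((-(qs n r th j) : ℝ) : ℂ) * I) =
      exp (((-(th j + qa th j / 2 - qu r th j) : ℝ) : ℂ) * I) *
        exp ((j : ℂ) * (2 * Real.pi * I / n)) := by
    rw [← Complex.exp_add]
    congr 1
    unfold qs
    push_cast
    field_simp
    ring
  rw [h10]
  push_cast
  have hI : I * -I = 1 := by
    rw [mul_neg, Complex.I_mul_I, neg_neg]
  linear_combination ((L : ℂ) ^ 2 * exp ((-((th j : ℂ) + (qa th j : ℂ) / 2 - (qu r th j : ℂ))) * I) *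
    exp ((j : ℂ) * (2 * Real.pi * I / n))) * hI

theorem star_S {n : ℕ} (hn : 5 ≤ n) {p : ℕ → ℂ} {r th : ℕ → ℝ} (h : Star n p r th) :
    SSs n (qq th) (qd r th) (qy r th) (qp n r th) ≤ ‖Sc n p‖ := by
  have h1 : ∀ m : ℝ, ‖Sc n p‖ = ‖exp ((m : ℂ) * I) * Sc n p‖ := fun m => by
    rw [norm_mul, Complex.norm_exp_ofReal_mul_I, one_mul]
  rw [h1 ((∑ i ∈ range n, qs n r th i) / n)]
  refine le_trans (le_of_eq ?_) (Complex.re_le_norm _)
  unfold Sc SSs
  rw [Finset.mul_sum, Complex.re_sum]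
  refine Finset.sum_congr rfl fun j _ => ?_
  rw [db2_term hn h j]
  have h2 : exp ((((∑ i ∈ range n, qs n r th i) / n : ℝ) : ℂ) * I) *
      ((((TT (qq th j) (qy r th j) * qd r th j) ^ 2 : ℝ) : ℂ) *
        exp (((-(qs n r th j) : ℝ) : ℂ) * I)) =
      (((TT (qq th j) (qy r th j) * qd r th j) ^ 2 : ℝ) : ℂ) *
        exp (((-(qp n r th j) : ℝ) : ℂ) * I) := by
    rw [mul_left_comm, ← Complex.exp_add]
    congr 2
    unfold qp
    push_cast
    ring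
  rw [h2, Complex.re_ofReal_mul, Complex.exp_ofReal_mul_I_re, Real.cos_neg]

end Pool.Agent.H45.SN
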