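import Pool.Agent.H45.SN.DB0

set_option autoImplicit false

/-! Steklov, part D: the energy `Est` of a star-shaped polygon.

PROOF. `Est = ∑ (hh ρ/(1-y) + ht (1/ρ + t²ρy/(1-y)))`, `ρ = q/t` (`sd_w`, `sd_m`; `al p j = cr/2`, `sw`, `mp` are the side vector and
the midpoint), `ρ/(1-y) = ρ + ρy/(1-y)`. It has to be
`≤ n(hh+ht) + (hh+ht) ∑ ((1-ρ)²/ρ + (1+t²)ρy/(1-y))`, `(1-ρ)²/ρ = ρ + 1/ρ - 2`: the terms with `y` are clear (`hh + t² ht ≤
(hh+ht)(1+t²)`) and the rest is `0 ≤ hh ∑ (1/ρ_j - 1) + ht ∑ (ρ_j - 1)`: tangent lines of `tan` and `cot` at `x0 = π/n`: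
`tan x ≥ t + (1+t²)(x - x0)`, `1/tan x ≥ 1/t - (1 + 1/t²)(x - x0)` for `0 < x < π/2` (convexity; e.g. `tan x - x(1+t²)` has derivative
`tan² x - t²`, which changes sign at `x0`), sum over `x = qa th j/2`, `∑ x_j = π = n x0` (`tot 0`). -/

open Complex MeasureTheory Finset

namespace Pool.Agent.H45.SN

open Pool.Agent.H32.SG (Star Ast JJb perim Sc Est)

theorem tan_tangent {x0 x : ℝ} (h0 : 0 < x0) (h1 : x0 < Real.pi / 2) (hx0 : 0 < x)
    (hx1 : x < Real.pi / 2) :
    Real.tan x0 + (1 + Real.tan x0 ^ 2) * (x - x0) ≤ Real.tan x := by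
  have hc0 : 0 < Real.cos x0 := Real.cos_pos_of_mem_Ioo ⟨by linarith [Real.pi_pos], h1⟩
  have hc : 0 < Real.cos x := Real.cos_pos_of_mem_Ioo ⟨by linarith [Real.pi_pos], hx1⟩
  have hs0 : 0 < Real.sin x0 := Real.sin_pos_of_pos_of_lt_pi h0 (by linarith [Real.pi_pos])
  have key : 0 ≤ Real.sin (x - x0) * Real.cos x0 - Real.cos x * (x - x0) := by
    rcases le_total x0 x with h | h
    · rcases h.eq_or_lt with rfl | h
      · simp
      have e1 : Real.cos x = Real.cos x0 * Real.cos (x - x0) - Real.sin x0 * Real.sin (x - x0) := by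
        rw [← Real.cos_add]
        congr 1
        ring
      have hh : 0 < x - x0 := by linarith
      have hh1 : x - x0 < Real.pi / 2 := by linarith
      have h2 : 0 < Real.sin (x - x0) :=
        Real.sin_pos_of_pos_of_lt_pi hh (by linarith [Real.pi_pos])
      have h3 : 0 < Real.cos (x - x0) :=
        Real.cos_pos_of_mem_Ioo ⟨by linarith [Real.pi_pos], hh1⟩
      have h4 := Real.lt_tan hh hh1
      rw [Real.tan_eq_sin_div_cos, lt_div_iff₀ h3] at h4
      rw [e1]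
      have h5 : 0 ≤ Real.sin x0 * Real.sin (x - x0) * (x - x0) := by positivity
      nlinarith [mul_nonneg hc0.le (sub_nonneg.2 h4.le)]
    · have h2 : Real.cos x0 ≤ Real.cos x :=
        Real.cos_le_cos_of_nonneg_of_le_pi hx0.le (by linarith [Real.pi_pos]) h
      have h3 : Real.sin (x0 - x) ≤ x0 - x := Real.sin_le (by linarith)
      have h4 : Real.sin (x - x0) = - Real.sin (x0 - x) := by
        rw [← Real.sin_neg]
        congr 1
        ring
      rw [h4]
      nlinarith [mul_nonneg hc0.le (sub_nonneg.2 h3), mul_nonneg (sub_nonneg.2 h2) (sub_nonneg.2 h)]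
  have e : Real.tan x - (Real.tan x0 + (1 + Real.tan x0 ^ 2) * (x - x0)) =
      (Real.sin (x - x0) * Real.cos x0 - Real.cos x * (x - x0)) / (Real.cos x * Real.cos x0 ^ 2) := by
    rw [Real.tan_eq_sin_div_cos, Real.tan_eq_sin_div_cos, Real.sin_sub]
    have h6 : Real.sin x0 ^ 2 = 1 - Real.cos x0 ^ 2 := by
      have := Real.sin_sq_add_cos_sq x0
      linarith
    field_simp
    rw [h6]
    ring
  have h7 : 0 ≤ (Real.sin (x - x0) * Real.cos x0 - Real.cos x * (x - x0)) /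
      (Real.cos x * Real.cos x0 ^ 2) := by positivity
  linarith

theorem cot_tangent {x0 x : ℝ} (h0 : 0 < x0) (h1 : x0 < Real.pi / 2) (hx0 : 0 < x)
    (hx1 : x < Real.pi / 2) :
    1 / Real.tan x0 - (1 + 1 / Real.tan x0 ^ 2) * (x - x0) ≤ 1 / Real.tan x := by
  have h := tan_tangent (x0 := Real.pi / 2 - x0) (x := Real.pi / 2 - x) (by linarith) (by linarith)
    (by linarith) (by linarith)
  rw [Real.tan_pi_div_two_sub, Real.tan_pi_div_two_sub] at h
  rw [one_div, one_div, one_div]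
  rw [inv_pow] at h
  linarith

private theorem DB3_tot {n : ℕ} {p : ℕ → ℂ} {r th : ℕ → ℝ} (h : Star n p r th) :
    ∑ j ∈ range n, qa th j / 2 = Real.pi := by
  rw [← Finset.sum_div]
  unfold qa
  rw [Finset.sum_range_sub]
  have := h.tot 0
  rw [zero_add] at this
  rw [this]
  ring

private theorem DB3_pt {n : ℕ} {p : ℕ → ℂ} {r th : ℕ → ℝ} (h : Star n p r th) (j : ℕ) :
    p j = eP (r j) (th j) := h.rep j

private theorem DB3_pt1 {n : ℕ} {p : ℕ → ℂ} {r th : ℕ → ℝ} (h : Star n p r th) (j : ℕ) :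
    p (j + 1) = eP (r (j + 1)) (th j + qa th j) := by
  rw [h.rep (j + 1)]
  unfold eP qa
  congr 3
  push_cast
  ring

private theorem DB3_term {n : ℕ} (hn : 5 ≤ n) {p : ℕ → ℂ} {r th : ℕ → ℝ} (h : Star n p r th)
    {hh ht : ℝ} (h1 : 0 ≤ hh) (h2 : 0 ≤ ht) (j : ℕ) :
    hh * (‖Pool.Agent.H32.SG.sw p j‖ ^ 2 /
      (4 * Pool.Agent.H32.SG.tn n * Pool.Agent.H32.SG.al p j)) +
      ht * (Pool.Agent.H32.SG.tn n * ‖Pool.Agent.H32.SG.mp p j‖ ^ 2 /
        Pool.Agent.H32.SG.al p j) ≤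
    (hh + ht) + ee (tn n) (hh + ht) (qq th j) (qy r th j) +
      (hh - ht) * (tn n + 1 / tn n) * (qa th j / 2 - Real.pi / n) := by
  have ht0 := nt_pos hn
  have hr := h.rpos j
  have hr' := h.rpos (j + 1)
  have a0 : 0 < qa th j := by
    have := h.lt j
    unfold qa
    linarith
  have a1 : qa th j < Real.pi := by
    have := h.lt_pi j
    unfold qa
    linarith
  obtain ⟨-, q0, y0, y1, -⟩ := sd_pos (ϑ := th j) hr hr' a0 a1
  have e1 := sd_w (ϑ := th j) hr hr' a0 a1 ht0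
  have e2 := sd_m (ϑ := th j) hr hr' a0 a1 ht0
  rw [← DB3_pt1 h j] at e1 e2
  change ‖p (j + 1) - eP (r j) (th j)‖ ^ 2 / _ = _ at e1
  rw [← DB3_pt h j] at e1 e2
  have e3 : ‖Pool.Agent.H32.SG.sw p j‖ ^ 2 /
      (4 * Pool.Agent.H32.SG.tn n * Pool.Agent.H32.SG.al p j) =
      qq th j / tn n / (1 - qy r th j) := e1
  have e4 : Pool.Agent.H32.SG.tn n * ‖Pool.Agent.H32.SG.mp p j‖ ^ 2 /
        Pool.Agent.H32.SG.al p j = 1 / (qq th j / tn n) +
        tn n ^ 2 * (qq th j / tn n) * qy r th j / (1 - qy r th j) := e2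
  rw [e3, e4]
  have x0 : 0 < Real.pi / n := by
    have : (0 : ℝ) < n := by exact_mod_cast (by omega : 0 < n)
    have := Real.pi_pos
    positivity
  have x1 : Real.pi / n < Real.pi / 2 := by
    have h5 : (2 : ℝ) < n := by exact_mod_cast (by omega : 2 < n)
    exact div_lt_div_of_pos_left Real.pi_pos (by norm_num) h5
  have t1 := tan_tangent x0 x1 (x := qa th j / 2) (by linarith) (by linarith)
  have t2 := cot_tangent x0 x1 (x := qa th j / 2) (by linarith) (by linarith)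
  change tn n + (1 + tn n ^ 2) * _ ≤ qq th j at t1
  change 1 / tn n - (1 + 1 / tn n ^ 2) * _ ≤ 1 / qq th j at t2
  have q0' : 0 < qq th j := q0
  have y0' : 0 ≤ qy r th j := y0
  have y1' : qy r th j < 1 := y1
  generalize qq th j = q at *
  generalize qy r th j = y at *
  generalize tn n = t at *
  generalize qa th j / 2 - Real.pi / n = z at *
  have r1 : 1 - q / t ≤ - ((t + 1 / t) * z) := by
    have : q / t ≥ (t + (1 + t ^ 2) * z) / t := by gcongr
    have e : (t + (1 + t ^ 2) * z) / t = 1 + (t + 1 / t) * z := by field_simp; ring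
    linarith
  have r2 : 1 - 1 / (q / t) ≤ (t + 1 / t) * z := by
    have : t * (1 / q) ≥ t * (1 / t - (1 + 1 / t ^ 2) * z) := by gcongr
    have e : t * (1 / t - (1 + 1 / t ^ 2) * z) = 1 - (t + 1 / t) * z := by field_simp
    have e' : 1 / (q / t) = t * (1 / q) := by field_simp
    linarith
  unfold ee
  have hy : 0 < 1 - y := by linarith
  have hρ : 0 < q / t := by positivity
  generalize q / t = ρ at *
  have s1 : ρ / (1 - y) = ρ + ρ * y / (1 - y) := by field_simp; ring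
  have s2 : (1 - ρ) ^ 2 / ρ = ρ + 1 / ρ - 2 := by field_simp; ring
  have s3 : t ^ 2 * ρ * y / (1 - y) = t ^ 2 * (ρ * y / (1 - y)) := by ring
  have s4 : (1 + t ^ 2) * ρ * y / (1 - y) = (1 + t ^ 2) * (ρ * y / (1 - y)) := by ring
  rw [s1, s2, s3, s4]
  have s5 : 0 ≤ ρ * y / (1 - y) := by positivity
  generalize ρ * y / (1 - y) = s at *
  have m1 := mul_le_mul_of_nonneg_left r1 h2
  have m2 := mul_le_mul_of_nonneg_left r2 h1
  have m3 : 0 ≤ (ht + t ^ 2 * hh) * s := by positivity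
  nlinarith

theorem star_E {n : ℕ} (hn : 5 ≤ n) {p : ℕ → ℂ} {r th : ℕ → ℝ} (h : Star n p r th)
    {hh ht : ℝ} (h1 : 0 ≤ hh) (h2 : 0 ≤ ht) : Est n p hh ht ≤
      n * (hh + ht) + ∑ j ∈ range n, ee (tn n) (hh + ht) (qq th j) (qy r th j) := by
  unfold Est
  refine (Finset.sum_le_sum fun j _ => DB3_term hn h h1 h2 j).trans (le_of_eq ?_)
  rw [Finset.sum_add_distrib, Finset.sum_add_distrib, ← Finset.mul_sum, Finset.sum_sub_distrib,
    DB3_tot h]
  have hn0 : (n : ℝ) ≠ 0 := by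
    have : (0 : ℝ) < n := by exact_mod_cast (by omega : 0 < n)
    exact this.ne'
  simp only [Finset.sum_const, Finset.card_range, nsmul_eq_mul]
  have : (n : ℝ) * (Real.pi / n) = Real.pi := by field_simp
  rw [this]
  ring

end Pool.Agent.H45.SN
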