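import Pool.Agent.H45.SN.DB1
import Pool.Agent.H45.SN.DB2
import Pool.Agent.H45.SN.DB3

set_option autoImplicit false

/-! Steklov, part D: the real data of a star-shaped polygon with `Ast n p = n tn n`. -/

open Complex MeasureTheory Finset

namespace Pool.Agent.H45.SN

open Pool.Agent.H32.SG (Star Ast JJb perim Sc Est)

theorem star_dat {n : ℕ} (hn : 5 ≤ n) {p : ℕ → ℂ} {r th : ℕ → ℝ} (h : Star n p r th)
    (ha : Ast n p = n * tn n) : ∃ q δ y u ψ : ℕ → ℝ, Dat n q δ y u ψ ∧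
      JJb n p = JJs n q δ y ∧ perim n p = LLs n q δ y ∧ SSs n q δ y ψ ≤ ‖Sc n p‖ ∧
      ∀ hh ht : ℝ, 0 ≤ hh → 0 ≤ ht → Est n p hh ht ≤
        n * (hh + ht) + ∑ j ∈ range n, ee (tn n) (hh + ht) (q j) (y j) :=
  ⟨_, _, _, _, _, star_Dat hn h ha, star_J h, star_L h, star_S hn h,
    fun _ _ h1 h2 => star_E hn h h1 h2⟩

end Pool.Agent.H45.SN
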