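import Pool.Agent.H45.SN.DA
import Pool.Agent.H45.SN.NT2
import Pool.Agent.H32.SG.Basic

set_option autoImplicit false

/-! Steklov, part D: the real data of a star-shaped polygon, definitions. -/

open Complex MeasureTheory Finset

namespace Pool.Agent.H45.SN

/-- central angle -/
noncomputable def qa (th : ℕ → ℝ) (j : ℕ) : ℝ := th (j + 1) - th j

noncomputable def qq (th : ℕ → ℝ) (j : ℕ) : ℝ := Real.tan (qa th j / 2)

noncomputable def qd (r th : ℕ → ℝ) (j : ℕ) : ℝ := ed (r j) (r (j + 1)) (th j) (qa th j)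

noncomputable def qy (r th : ℕ → ℝ) (j : ℕ) : ℝ := ey (r j) (r (j + 1)) (th j) (qa th j)

noncomputable def qu (r th : ℕ → ℝ) (j : ℕ) : ℝ := eu (r j) (r (j + 1)) (th j) (qa th j)

/-- direction of the normal of the side `j` minus `2 π j / n` -/
noncomputable def qs (n : ℕ) (r th : ℕ → ℝ) (j : ℕ) : ℝ :=
  th j + qa th j / 2 - qu r th j - 2 * (Real.pi / n) * j

/-- the same with mean zero -/
noncomputable def qp (n : ℕ) (r th : ℕ → ℝ) (j : ℕ) : ℝ :=
  qs n r th j - (∑ i ∈ range n, qs n r th i) / n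

end Pool.Agent.H45.SN
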