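import Pool.Agent.H45.SN.DB0

set_option autoImplicit false

/-! Steklov, part D: the real data of a star-shaped polygon with `Ast n p = n tn n`.

PROOF. `0 < qa th j < π`; `p j = eP (r j) (th j)` (`rep`), `p (j+1) = eP (r (j+1)) (th j + qa th j)`. Signs, `hu`, `hs`:
`sd_pos`, `sd_u`. `arctan (qq th j) = qa th j/2` (`Real.arctan_tan`), so `∑ = (th n - th 0)/2 = π` (`Finset.sum_range_sub`,
`tot 0`). `pq`, `pu`: `qa th (j+n) = qa th j` (`tot`), `r` periodic, `el (r) (r') (ϑ + 2π) θ = el r r' ϑ θ`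
(`exp_periodic`); for `j = 0`. `pψ`: `th n = th 0 + 2π`, `2(π/n) n = 2π`. `dψ`: from the definition, `nt_arctan`, `2(π/n)(j+1) - 2(π/n) j = 2 π/n`.
`area`: `sd_area`, `∑ cr/2 = Ast n p = n tn n`. -/

open Complex MeasureTheory Finset

namespace Pool.Agent.H45.SN

open Pool.Agent.H32.SG (Star Ast JJb perim Sc Est)

private lemma el_two_pi (r r' ϑ θ : ℝ) : el r r' (ϑ + 2 * Real.pi) θ = el r r' ϑ θ := by
  have key : ∀ (a x : ℝ), eP a (x + 2 * Real.pi) = eP a x := by
    intro a x
    unfold eP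
    have h1 : ((x + 2 * Real.pi : ℝ) : ℂ) * I = (x : ℂ) * I + 2 * Real.pi * I := by
      push_cast; ring
    rw [h1, Complex.exp_add, Complex.exp_two_pi_mul_I, mul_one]
  unfold el
  rw [show ϑ + 2 * Real.pi + θ = (ϑ + θ) + 2 * Real.pi by ring, key, key]

theorem star_Dat {n : ℕ} (hn : 5 ≤ n) {p : ℕ → ℂ} {r th : ℕ → ℝ} (h : Star n p r th)
    (ha : Ast n p = n * tn n) : Dat n (qq th) (qd r th) (qy r th) (qu r th) (qp n r th) := by
  have hn0 : (n : ℝ) ≠ 0 := by
    have : n ≠ 0 := by omega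
    exact_mod_cast this
  have h0 : ∀ j, 0 < qa th j := fun j => by
    unfold qa; linarith [h.lt j]
  have h1 : ∀ j, qa th j < Real.pi := fun j => by
    unfold qa; linarith [h.lt_pi j]
  have hp : ∀ j, eP (r j) (th j) = p j := fun j => (h.rep j).symm
  have hp' : ∀ j, eP (r (j + 1)) (th j + qa th j) = p (j + 1) := fun j => by
    have h2 : th j + qa th j = th (j + 1) := by unfold qa; ring
    rw [h2]; exact hp (j + 1)
  have hatan : ∀ j, Real.arctan (qq th j) = qa th j / 2 := fun j => by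
    unfold qq
    exact Real.arctan_tan (by linarith [h0 j, Real.pi_pos]) (by linarith [h1 j])
  have hn1 : n + 1 = 1 + n := by omega
  have htn : th n = th 0 + 2 * Real.pi := by
    have h2 := h.tot 0
    rwa [Nat.zero_add] at h2
  have hqan : qa th n = qa th 0 := by
    unfold qa
    have h3 := h.tot 1
    rw [hn1, h3, htn]
    ring
  have hrn : r n = r 0 := by
    have h2 := h.rper 0
    rwa [Nat.zero_add] at h2
  have hrn1 : r (n + 1) = r 1 := by
    rw [hn1]; exact h.rper 1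
  have hqu : qu r th n = qu r th 0 := by
    unfold qu eu
    rw [hqan, hrn, hrn1, htn, el_two_pi]
  have hqs : qs n r th n = qs n r th 0 := by
    unfold qs
    rw [hqan, hqu, htn]
    push_cast
    field_simp
    ring
  refine ⟨hn, ?_, ?_, ?_, ?_, ?_, ?_, ?_, hqu, ?_, ?_, ?_, ?_, ?_⟩
  · intro j
    exact (sd_pos (h.rpos j) (h.rpos (j + 1)) (h0 j) (h1 j) (ϑ := th j)).2.1
  · intro j
    exact (sd_pos (h.rpos j) (h.rpos (j + 1)) (h0 j) (h1 j) (ϑ := th j)).2.2.2.2
  · intro j
    exact (sd_pos (h.rpos j) (h.rpos (j + 1)) (h0 j) (h1 j) (ϑ := th j)).2.2.1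
  · intro j
    exact (sd_pos (h.rpos j) (h.rpos (j + 1)) (h0 j) (h1 j) (ϑ := th j)).2.2.2.1
  · intro j
    exact (sd_u (h.rpos j) (h.rpos (j + 1)) (h0 j) (h1 j) (ϑ := th j)).1
  · intro j
    exact (sd_u (h.rpos j) (h.rpos (j + 1)) (h0 j) (h1 j) (ϑ := th j)).2.1
  · unfold qq
    rw [hqan]
  · unfold qp
    rw [hqs]
  · rw [Finset.sum_congr rfl fun j _ => hatan j, ← Finset.sum_div]
    unfold qa
    rw [Finset.sum_range_sub, htn]
    ring
  · unfold qp
    rw [Finset.sum_sub_distrib, Finset.sum_const, Finset.card_range, nsmul_eq_mul]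
    field_simp
    ring
  · intro j _
    rw [hatan, hatan, nt_arctan hn]
    unfold qp qs
    have h2 : th (j + 1) = th j + qa th j := by unfold qa; ring
    rw [h2]
    push_cast
    ring
  · have h2 : ∀ j ∈ range n, TT (qq th j) (qy r th j) * qd r th j ^ 2 =
        2 * Pool.Agent.H32.SG.al p j := by
      intro j _
      have h3 := sd_area (h.rpos j) (h.rpos (j + 1)) (h0 j) (h1 j) (ϑ := th j)
      rw [hp, hp'] at h3
      unfold qq qy qd Pool.Agent.H32.SG.al
      rw [h3]
      ring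
    rw [Finset.sum_congr rfl h2, ← Finset.mul_sum]
    unfold Ast at ha
    rw [ha]
    ring

end Pool.Agent.H45.SN
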