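import Pool.Agent.H45.SN.Defs
import Pool.Agent.H45.SN.K5
import Pool.Agent.H37.ST.Main

set_option autoImplicit false

/-! Interface of part B (regular polygon). The two targets; `sig`, `Tst`, `Hn`, `Ht`, `Mg`, `Ka`, `om` are those of
`Pool.Agent.H32.SG.Defs` (`SG.tn n = SN.tn n` by `rfl`). -/

open Complex MeasureTheory Finset Filter Topology

namespace Pool.Agent.H45.SN

open Pool.Agent.H32.SG (sig Tst Hn Ht Mg Ka)

/-- Part B, target 1: near minimisers. `σ = sig n (rv n) (RR n)`, `t = tn n`; in the limit the two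
stationarity identities, the Legendre bound and the dual bound. -/
theorem reg_data {n : ℕ} (hn : 5 ≤ n) : ∃ (g : ℕ → ℂ → ℂ) (hh ht M κ : ℝ), (∀ k, Tst n (g k)) ∧
    Tendsto (fun k => Hn n (g k)) atTop (𝓝 hh) ∧ Tendsto (fun k => Ht n (g k)) atTop (𝓝 ht) ∧
    Tendsto (fun k => Mg n (g k)) atTop (𝓝 M) ∧ Tendsto (fun k => Ka n (g k)) atTop (𝓝 κ) ∧
    0 ≤ hh ∧ 0 ≤ ht ∧ 0 ≤ M ∧ 0 ≤ κ ∧
    2 * n * tn n - sig n (rv n) (RR n) * (2 * n * tn n * yo (tn n)) =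
      4 * n * tn n ^ 2 * sig n (rv n) (RR n) * κ ∧
    n * (hh + ht) - 2 * n * tn n * sig n (rv n) (RR n) * M =
      4 * n * tn n ^ 2 * sig n (rv n) (RR n) * κ ∧
    24 * √2 * Real.cos (Real.pi / n) * κ ^ 2 +
      Real.cos (Real.pi / n) * √6 / tn n * (2 * tn n * M - 24 * tn n * κ ^ 2) ≤ hh + ht ∧
    16 * tn n ^ 4 * κ ^ 2 ≤ tn n ^ 3 / n * Qh n (tn n) * (hh + ht) :=
  Pool.Agent.H37.ST.main_data hn

/-- Part B, target 2: consequences for the constants, `A = 4 n κ / t`, `a0 = 4 n t² σ κ`. Proof: paper I9,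
with `K_one`, `K_two`. -/
theorem reg_const {n : ℕ} (hn : 5 ≤ n) {σ hh ht M κ : ℝ} (hσ : 0 ≤ σ) (h0 : 0 ≤ hh) (h0' : 0 ≤ ht)
    (hM : 0 ≤ M) (hκ : 0 ≤ κ)
    (h1 : 2 * n * tn n - σ * (2 * n * tn n * yo (tn n)) = 4 * n * tn n ^ 2 * σ * κ)
    (h2 : n * (hh + ht) - 2 * n * tn n * σ * M = 4 * n * tn n ^ 2 * σ * κ)
    (h3 : 24 * √2 * Real.cos (Real.pi / n) * κ ^ 2 +
      Real.cos (Real.pi / n) * √6 / tn n * (2 * tn n * M - 24 * tn n * κ ^ 2) ≤ hh + ht)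
    (h4 : 16 * tn n ^ 4 * κ ^ 2 ≤ tn n ^ 3 / n * Qh n (tn n) * (hh + ht)) :
    0 < σ ∧ 1.7 * (4 * n * κ / tn n) ≤ yo (tn n) ^ 3 ∧
    4 * n * tn n ^ 2 * σ * κ ≤ n * (hh + ht) ∧
    n * (hh + ht) ≤ 1.63 * (4 * n * tn n ^ 2 * σ * κ) :=
  Pool.Agent.H37.ST.main_const hn hσ h0 h0' hM hκ h1 h2 h3 h4

end Pool.Agent.H45.SN
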