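import Pool.Agent.H45.SN.DB
import Pool.Agent.H45.SN.IB
import Pool.Agent.H45.SN.AF
import Pool.Agent.H32.SG.UB

set_option autoImplicit false

/-! Steklov, part D: star-shaped polygons with `Ast n p = n tn n`. -/

open Complex MeasureTheory Finset Filter Topology

namespace Pool.Agent.H45.SN

open Pool.Agent.H32.SG (Star Ast JJb Sc Est sig area Poly Reg Cen Tst Hn Ht Mg Ka)

/-- the inequality (UB) in the limit -/
theorem ub_lim {n : ℕ} {p : ℕ → ℂ} {Om : Set ℂ} {r th : ℕ → ℝ} (hP : Poly n p) (hR : Reg p Om)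
    (hS : Star n p r th) (hC : Cen n p) {g : ℕ → ℂ → ℂ} {hh ht M κ : ℝ} (hg : ∀ k, Tst n (g k))
    (h1 : Tendsto (fun k => Hn n (g k)) atTop (𝓝 hh))
    (h2 : Tendsto (fun k => Ht n (g k)) atTop (𝓝 ht))
    (h3 : Tendsto (fun k => Mg n (g k)) atTop (𝓝 M))
    (h4 : Tendsto (fun k => Ka n (g k)) atTop (𝓝 κ)) (ξ : ℂ) :
    sig n p Om * (JJb n p + 2 * κ * (ξ * Sc n p).re + ‖ξ‖ ^ 2 * M * Pool.Agent.H32.SG.perim n p) ≤
      2 * Ast n p + ‖ξ‖ ^ 2 * Est n p hh ht := by
  have hE : Tendsto (fun k => Est n p (Hn n (g k)) (Ht n (g k))) atTop (𝓝 (Est n p hh ht)) := by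
    unfold Est
    exact tendsto_finsetSum _ fun j _ => ((h1.mul_const _).add (h2.mul_const _))
  have hL : Tendsto (fun k => sig n p Om * (JJb n p + 2 * Ka n (g k) * (ξ * Sc n p).re +
      ‖ξ‖ ^ 2 * Mg n (g k) * Pool.Agent.H32.SG.perim n p)) atTop
      (𝓝 (sig n p Om * (JJb n p + 2 * κ * (ξ * Sc n p).re + ‖ξ‖ ^ 2 * M * Pool.Agent.H32.SG.perim n p))) := by
    refine Tendsto.const_mul _ ((tendsto_const_nhds.add ?_).add ?_)
    · exact (h4.const_mul 2).mul_const _
    · exact (h3.const_mul _).mul_const _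
  have hRr : Tendsto (fun k => 2 * Ast n p + ‖ξ‖ ^ 2 * Est n p (Hn n (g k)) (Ht n (g k))) atTop
      (𝓝 (2 * Ast n p + ‖ξ‖ ^ 2 * Est n p hh ht)) := tendsto_const_nhds.add (hE.const_mul _)
  exact le_of_tendsto_of_tendsto' hL hRr fun k =>
    Pool.Agent.H32.SG.ub hP hR hS hC (hg k) ξ

/-- the algebra of the last step -/
theorem last_step {N t σ s1 J L Sn hh ht M κ yo' EE lam X a0 : ℝ} (hN : 0 < N) (ht0 : 0 < t)
    (hσ : 0 < σ) (hJ : 0 < J) (hL : 0 ≤ L) (hM : 0 ≤ M) (hκ : 0 ≤ κ) (hh0 : 0 ≤ hh + ht)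
    (h1 : 2 * N * t - σ * (2 * N * t * yo') = a0) (ha0 : a0 = 4 * N * t ^ 2 * σ * κ)
    (h2 : N * (hh + ht) - 2 * N * t * σ * M = a0) (hX : X = J - 2 * N * t * yo')
    (hapos : 0 < a0) (hXlt : σ * X < a0)
    (hlam : lam = 1 - L / (2 * N * t))
    {E : ℝ} (hE : E ≤ N * (hh + ht) + EE)
    (hS : 0 < Sn)
    (hfin : (a0 - σ * X) * (1 + EE / a0 + (N * (hh + ht) / a0 - 1) * lam) ≤
      a0 * (Sn / (4 * N * t ^ 2)) ^ 2)
    (hub : ∀ s : ℝ, 0 ≤ s → s1 * (J + 2 * κ * (s * Sn) + s ^ 2 * M * L) ≤ 2 * (N * t) + s ^ 2 * E) :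
    s1 ≤ σ := by
  by_contra hcon
  push Not at hcon
  set ς : ℝ := Sn / (4 * N * t ^ 2) with hς
  have hςpos : 0 < ς := by positivity
  set G : ℝ := (a0 - σ * X) / a0 with hG
  have hGpos : 0 < G := div_pos (by linarith) hapos
  have hu := hub (G / ς) (by positivity)
  have hpos : 0 < J + 2 * κ * (G / ς * Sn) + (G / ς) ^ 2 * M * L := by positivity
  have hlt : σ * (J + 2 * κ * (G / ς * Sn) + (G / ς) ^ 2 * M * L) <
      s1 * (J + 2 * κ * (G / ς * Sn) + (G / ς) ^ 2 * M * L) := by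
    exact mul_lt_mul_of_pos_right hcon hpos
  have e1 : G / ς * Sn = G * (4 * N * t ^ 2) := by
    rw [hς]
    field_simp
  have e2 : σ * (2 * κ * (G / ς * Sn)) = 2 * G * a0 := by
    rw [e1, ha0]
    ring
  have hEσ : E - σ * M * L ≤ a0 * (1 + EE / a0 + (N * (hh + ht) / a0 - 1) * lam) := by
    have e3 : a0 * (1 + EE / a0 + (N * (hh + ht) / a0 - 1) * lam) =
        a0 + EE + (N * (hh + ht) - a0) * lam := by
      field_simp
    have e4 : N * (hh + ht) - a0 = 2 * N * t * σ * M := by linarith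
    rw [e3, e4, hlam]
    have e5 : 2 * N * t * σ * M * (1 - L / (2 * N * t)) = 2 * N * t * σ * M - σ * M * L := by
      field_simp
    rw [e5]
    linarith
  have e6 : a0 - σ * X = G * a0 := by
    rw [hG]
    field_simp
  rw [e6] at hfin
  have h7 : G * (E - σ * M * L) ≤ a0 * ς ^ 2 := by
    calc G * (E - σ * M * L) ≤ G * (a0 * (1 + EE / a0 + (N * (hh + ht) / a0 - 1) * lam)) :=
          mul_le_mul_of_nonneg_left hEσ hGpos.le
      _ = G * a0 * (1 + EE / a0 + (N * (hh + ht) / a0 - 1) * lam) := by ring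
      _ ≤ a0 * ς ^ 2 := hfin
  have h8 : (G / ς) ^ 2 * (E - σ * M * L) ≤ G * a0 := by
    have e9 : (G / ς) ^ 2 * (E - σ * M * L) = G / ς ^ 2 * (G * (E - σ * M * L)) := by
      field_simp
    rw [e9]
    calc G / ς ^ 2 * (G * (E - σ * M * L)) ≤ G / ς ^ 2 * (a0 * ς ^ 2) :=
          mul_le_mul_of_nonneg_left h7 (by positivity)
      _ = G * a0 := by field_simp
  have h10 : σ * J = 2 * N * t - G * a0 := by
    have : σ * J = σ * X + σ * (2 * N * t * yo') := by rw [hX]; ring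
    rw [this]
    linarith
  nlinarith [h8, h10, e2, hlt, hu]

theorem star_case {n : ℕ} (hn : 5 ≤ n) {p : ℕ → ℂ} {Om : Set ℂ} {r th : ℕ → ℝ} (hP : Poly n p)
    (hR : Reg p Om) (hS : Star n p r th) (hC : Cen n p) (ha : Ast n p = n * tn n)
    (har : area Om ≤ Ast n p) :
    sig n p Om ≤ sig n (rv n) (RR n) := by
  obtain ⟨g, hh, ht, M, κ, hg, l1, l2, l3, l4, p1, p2, p3, p4, r1, r2, r3, r4⟩ := reg_data hn
  set σ : ℝ := sig n (rv n) (RR n) with hσd
  have hσ0 : 0 ≤ σ := Pool.Agent.H32.SG.sig_nonneg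
  obtain ⟨hσ, hA, hb1, hb2⟩ := reg_const hn hσ0 p1 p2 p3 p4 r1 r2 r3 r4
  have hub := ub_lim hP hR hS hC hg l1 l2 l3 l4
  obtain ⟨q, δ, y, u, ψ, hD, eJ, eL, hSc, hEst⟩ := star_dat hn hS ha
  have ht0 : 0 < tn n := nt_pos hn
  have hn0 : (0:ℝ) < n := by
    have : 0 < n := by omega
    exact_mod_cast this
  set t : ℝ := tn n with htd
  set a0 : ℝ := 4 * n * t ^ 2 * σ * κ with ha0
  set A : ℝ := 4 * n * κ / t with hAd
  have hA0 : 0 ≤ A := by positivity
  have hAt : σ * (A * t ^ 3) = a0 := by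
    rw [hAd, ha0]
    field_simp
  have hJpos : 0 < JJb n p := by
    rw [eJ]
    unfold JJs
    refine Finset.sum_pos (fun j _ => ?_) ⟨0, Finset.mem_range.mpr (by omega)⟩
    have h1 := hD.q0 j
    have h2 := hD.d0 j
    have h3 := hD.y1 j
    have h4 := KK_nonneg (q := q j) (hD.y0 j) h3
    unfold TT
    have h5 : 0 < 1 - y j := by linarith
    positivity
  have hlin := Pool.Agent.H32.SG.sig_J hP hR hC
  have hlin2 : sig n p Om * JJb n p ≤ 2 * n * t := by
    calc sig n p Om * JJb n p ≤ 2 * area Om := hlin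
      _ ≤ 2 * (n * t) := by rw [← ha]; linarith
      _ = 2 * n * t := by ring
  by_cases hX : JJs n q δ y - 2 * n * t * yo t < A * t ^ 3
  · have hβ1 : 0 < a0 := by
      have h0 : 0 ≤ JJs n q δ y - 2 * n * t * yo t := by
        have h1 := excess hD
        have h2 : 0 ≤ ∑ j ∈ range n, PP (tn n) (q j) (y j) := by
          refine Finset.sum_nonneg fun j _ => ?_
          have h3 := gam_nonneg ht0 ((nt_sq_le hn).trans (by norm_num)) (hD.q0 j) (hD.y0 j) (hD.y1 j)
          unfold gam at h3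
          have h4 : 0 < yo (tn n) ^ 3 * tn n ^ 3 := by
            have : 0 < yo (tn n) := by unfold yo; positivity
            positivity
          by_contra hc
          push Not at hc
          have h5 : 1.7 * PP (tn n) (q j) (y j) / (yo (tn n) ^ 3 * tn n ^ 3) < 0 :=
            div_neg_of_neg_of_pos (by linarith) h4
          linarith
        have h3 : 0 ≤ ∑ j ∈ range n, TT (q j) (y j) * (δ j - ds (tn n) (q j) (y j)) ^ 2 *
            (yo (tn n) / 2) := by
          refine Finset.sum_nonneg fun j _ => ?_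
          have h4 := hD.q0 j
          have h5 : 0 < 1 - y j := by linarith [hD.y1 j]
          have h6 : 0 < yo (tn n) := by unfold yo; positivity
          unfold TT
          positivity
        have h7 : (t : ℝ) = tn n := htd
        rw [← h7] at h1
        linarith [h1, h2, h3]
      have h1 : 0 < A * t ^ 3 := lt_of_le_of_lt h0 hX
      rw [← hAt]
      positivity
    set β : ℝ := (hh + ht) / a0 with hβ
    have hnβ : n * β = n * (hh + ht) / a0 := by rw [hβ]; ring
    have hβa : 1 ≤ n * β := by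
      rw [hnβ, le_div_iff₀ hβ1]
      linarith
    have hβb : n * β ≤ 1.63 := by
      rw [hnβ, div_le_iff₀ hβ1]
      exact hb2
    obtain ⟨hSpos, hfin⟩ := final_ineq hD hA0 hA hβa hβb hX
    have hScpos : 0 < ‖Sc n p‖ := lt_of_lt_of_le hSpos hSc
    refine last_step (N := n) (t := t) (J := JJb n p) (L := Pool.Agent.H32.SG.perim n p) (Sn := ‖Sc n p‖)
      (yo' := yo t) (EE := ∑ j ∈ range n, ee t (hh + ht) (q j) (y j))
      (lam := 1 - Pool.Agent.H32.SG.perim n p / (2 * n * t)) (X := JJb n p - 2 * n * t * yo t) (a0 := a0)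
      (M := M) (κ := κ) (hh := hh) (ht := ht) (E := Est n p hh ht)
      hn0 ht0 hσ hJpos ?_ p3 p4 (by linarith) r1 rfl r2 rfl hβ1 ?_ rfl (hEst hh ht p1 p2) hScpos ?_ ?_
    · unfold Pool.Agent.H32.SG.perim
      exact Finset.sum_nonneg fun j _ => norm_nonneg _
    · rw [eJ, ← hAt]
      exact mul_lt_mul_of_pos_left hX hσ
    · have e1 : (∑ j ∈ range n, ee t (hh + ht) (q j) (y j)) / a0 =
          ∑ j ∈ range n, ee t β (q j) (y j) := by
        rw [Finset.sum_div]
        refine Finset.sum_congr rfl fun j _ => ?_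
        unfold ee
        rw [hβ]
        ring
      have e2 : a0 - σ * (JJb n p - 2 * n * t * yo t) =
          σ * (A * t ^ 3 - (JJs n q δ y - 2 * n * t * yo t)) := by
        rw [eJ, ← hAt]
        ring
      rw [e1, e2, ← hnβ, eL]
      have hmono : (SSs n q δ y ψ / (4 * n * t ^ 2)) ^ 2 ≤ (‖Sc n p‖ / (4 * n * t ^ 2)) ^ 2 := by
        apply pow_le_pow_left₀ (by positivity)
        gcongr
      calc σ * (A * t ^ 3 - (JJs n q δ y - 2 * n * t * yo t)) *
            (1 + ∑ j ∈ range n, ee t β (q j) (y j) + (n * β - 1) * (1 - LLs n q δ y / (2 * n * t)))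
          = σ * ((A * t ^ 3 - (JJs n q δ y - 2 * n * t * yo t)) *
            (1 + ∑ j ∈ range n, ee t β (q j) (y j) +
              (n * β - 1) * (1 - LLs n q δ y / (2 * n * t)))) := by ring
        _ ≤ σ * (A * t ^ 3 * (SSs n q δ y ψ / (4 * n * t ^ 2)) ^ 2) :=
            mul_le_mul_of_nonneg_left hfin hσ.le
        _ = a0 * (SSs n q δ y ψ / (4 * n * t ^ 2)) ^ 2 := by rw [← hAt]; ring
        _ ≤ a0 * (‖Sc n p‖ / (4 * n * t ^ 2)) ^ 2 :=
            mul_le_mul_of_nonneg_left hmono hβ1.le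
    · intro s hs
      have h1 := hub ((s : ℂ) * (starRingEnd ℂ) (Sc n p) / ‖Sc n p‖)
      have hne : (‖Sc n p‖ : ℂ) ≠ 0 := by exact_mod_cast hScpos.ne'
      have e1 : (s : ℂ) * (starRingEnd ℂ) (Sc n p) / ‖Sc n p‖ * Sc n p = ((s * ‖Sc n p‖ : ℝ) : ℂ) := by
        have : (starRingEnd ℂ) (Sc n p) * Sc n p = (‖Sc n p‖ : ℂ) ^ 2 := by
          rw [mul_comm, Complex.mul_conj, Complex.normSq_eq_norm_sq]
          push_cast
          rfl
        calc (s : ℂ) * (starRingEnd ℂ) (Sc n p) / ‖Sc n p‖ * Sc n p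
            = (s : ℂ) * ((starRingEnd ℂ) (Sc n p) * Sc n p) / ‖Sc n p‖ := by ring
          _ = (s : ℂ) * (‖Sc n p‖ : ℂ) := by
              rw [this]
              field_simp
          _ = _ := by push_cast; ring
      have e2 : ‖(s : ℂ) * (starRingEnd ℂ) (Sc n p) / ‖Sc n p‖‖ = s := by
        rw [norm_div, norm_mul, Complex.norm_real, RCLike.norm_conj, Complex.norm_real,
          Real.norm_of_nonneg hs, norm_norm]
        field_simp
      rw [e1, e2, Complex.ofReal_re, ha] at h1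
      exact h1
  · push Not at hX
    have h1 : 2 * n * t ≤ σ * JJb n p := by
      have h2 : σ * (A * t ^ 3) ≤ σ * (JJs n q δ y - 2 * n * t * yo t) :=
        mul_le_mul_of_nonneg_left hX hσ.le
      rw [hAt] at h2
      rw [eJ]
      nlinarith [h2, r1]
    have h3 : sig n p Om * JJb n p ≤ σ * JJb n p := hlin2.trans h1
    exact le_of_mul_le_mul_right h3 hJpos

end Pool.Agent.H45.SN
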