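import Pool.Agent.H45.SN.Defs
import Pool.Agent.H32.SG.BrD
import Pool.Agent.H32.SG.Sim
import Pool.Agent.H37.ST.Brg
import Pool.Agent.H37.ST.Dis

set_option autoImplicit false

/-! Steklov, part D: the regular polygon in the two normalisations, its area.

PROOFS. `rv n j = (1 - i t) * reg n j` (`om n ^ j = exp(2πij/n)`, `j.val` for `j : ZMod n`), so `RR n` is the image of
`regR n` under `z ↦ (1 - i t) z` (linear homeomorphism: images of convex hull and interior, `Set.range`); `reg_scale`: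
`sim_sig`, `sim_area` (H32/SG/Sim.lean) with `a = 1 - i t ≠ 0`, `c = 0`: `√(‖a‖² x) = ‖a‖ √x`. `area_RR`: `RR n = Up n` and
`area_up` of H37/ST (Brg.lean, Dis.lean), `rv n = rg n` by `rfl`. -/

open Complex MeasureTheory Finset

namespace Pool.Agent.H45.SN

open Pool.Agent.H32.SG (sig area om seqZ)

theorem rv_reg {n : ℕ} (hn : 0 < n) (j : ℕ) : rv n j = (1 - tn n * I) * seqZ (reg n) j := by
  have h1 : om n ^ n = 1 := Pool.Agent.H32.SG.om_pow hn
  have h2 : om n ^ j = om n ^ (j % n) := by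
    conv_lhs => rw [← Nat.mod_add_div j n, pow_add, pow_mul, h1, one_pow, mul_one]
  unfold rv seqZ reg
  rw [ZMod.val_natCast, h2]
  congr 1
  unfold om
  rw [← Complex.exp_nat_mul]
  congr 1
  push_cast
  ring

private theorem DE_ne (n : ℕ) : (1 - tn n * I : ℂ) ≠ 0 := by
  intro h
  have h2 := congrArg Complex.re h
  simp at h2

private theorem DE_range {n : ℕ} (hn : 0 < n) :
    Set.range (rv n) = (fun z => (1 - tn n * I) * z) '' Set.range (reg n) := by
  have : NeZero n := ⟨hn.ne'⟩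
  ext z
  constructor
  · rintro ⟨j, rfl⟩
    exact ⟨reg n (j : ZMod n), ⟨_, rfl⟩, (rv_reg hn j).symm⟩
  · rintro ⟨_, ⟨j, rfl⟩, rfl⟩
    refine ⟨j.val, ?_⟩
    rw [rv_reg hn]
    simp [seqZ]

theorem RR_reg {n : ℕ} (hn : 5 ≤ n) : RR n = (fun z => (1 - tn n * I) * z + 0) '' regR n := by
  have hn0 : 0 < n := by omega
  have e1 : (fun z : ℂ => (1 - tn n * I) * z + 0) = (Homeomorph.mulLeft₀ _ (DE_ne n) : ℂ → ℂ) := by
    funext z
    simp
  have e2 : (Homeomorph.mulLeft₀ _ (DE_ne n) : ℂ → ℂ) =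
      (LinearMap.mulLeft ℝ (1 - tn n * I : ℂ) : ℂ → ℂ) := by
    funext z
    rfl
  have e3 : (fun z => (1 - tn n * I) * z) = (LinearMap.mulLeft ℝ (1 - tn n * I : ℂ) : ℂ → ℂ) := by
    funext z
    rfl
  unfold RR regR
  rw [e1, Homeomorph.image_interior, e2, LinearMap.image_convexHull, DE_range hn0, e3]

theorem area_RR {n : ℕ} (hn : 5 ≤ n) : area (RR n) = n * tn n := by
  rw [Pool.Agent.H37.ST.RR_eq (by omega)]
  exact Pool.Agent.H37.ST.area_up (by omega)

theorem reg_scale {n : ℕ} (hn : 5 ≤ n) : sig n (rv n) (RR n) * √(area (RR n)) =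
    sig n (seqZ (reg n)) (regR n) * √(area (regR n)) := by
  have hn0 : 0 < n := by omega
  have ha := DE_ne n
  have hna : 0 < ‖(1 - tn n * I : ℂ)‖ := norm_pos_iff.mpr ha
  have e1 : rv n = fun j => (1 - tn n * I) * seqZ (reg n) j + 0 := by
    funext j
    rw [rv_reg hn0, add_zero]
  have hO : MeasurableSet (regR n) := isOpen_interior.measurableSet
  rw [RR_reg hn, e1, Pool.Agent.H32.SG.sim_sig ha 0 hO, Pool.Agent.H32.SG.sim_area ha 0,
    Real.sqrt_mul (by positivity), Real.sqrt_sq hna.le]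
  field_simp

end Pool.Agent.H45.SN
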