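import Pool.Agent.H45.SN.DC
import Pool.Agent.H45.SN.DE
import Pool.Agent.H45.SN.BA
import Pool.Agent.H32.SG.Alt
import Pool.Agent.H32.SG.Hid
import Pool.Agent.H32.SG.Sim

set_option autoImplicit false

/-! Steklov, part D: all simple polygons with `n ≥ 5` vertices. -/

open Complex MeasureTheory Finset Filter Topology

namespace Pool.Agent.H45.SN

open Pool.Agent.H32.SG (Star Ast JJb perim Sc Est sig area Poly Reg Cen Tst Hn Ht Mg Ka Vis bdr)

/-- a polygon with a hidden side, centroid of the boundary at the origin, area `n t` -/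
theorem hidden_case {n : ℕ} (hn : 5 ≤ n) {p : ℕ → ℂ} {Om : Set ℂ} (hP : Poly n p)
    (hR : Reg p Om) (hC : Cen n p) (hh : ∃ j < n, ¬ Vis p j) (ha : area Om = n * tn n) :
    sig n p Om ≤ sig n (rv n) (RR n) := by
  obtain ⟨g, h1, ht, M, κ, hg, l1, l2, l3, l4, p1, p2, p3, p4, r1, r2, r3, r4⟩ := reg_data hn
  set σ : ℝ := sig n (rv n) (RR n) with hσd
  have hσ0 : 0 ≤ σ := Pool.Agent.H32.SG.sig_nonneg
  obtain ⟨hσ, hA, hb1, hb2⟩ := reg_const hn hσ0 p1 p2 p3 p4 r1 r2 r3 r4
  have ht0 : 0 < tn n := nt_pos hn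
  have hn0 : (0:ℝ) < n := by
    have : 0 < n := by omega
    exact_mod_cast this
  have hτ := nt_sq_le hn
  have hA0 : 0 ≤ 4 * n * κ / tn n := by positivity
  have hK := K_P0 hn hA0 hA
  set t : ℝ := tn n with htd
  set P0 : ℝ := t * yo t - (1 - t ^ 4) * Real.arctan t with hP0
  have hP0pos : 0 ≤ P0 := le_trans (by positivity) hK
  have hyo : 0 ≤ yo t := by unfold yo; positivity
  have hc : 0 ≤ (1 - t ^ 4) / 2 := by
    have h4 : t ^ 4 = (t ^ 2) ^ 2 := by ring
    have h5 : (t ^ 2) ^ 2 ≤ 1 := by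
      have : 0 ≤ t ^ 2 := sq_nonneg t
      nlinarith
    rw [h4]
    linarith
  have hhid := Pool.Agent.H32.SG.hidden hP hR hyo hc hP0pos (fun D hD => bath hn hD) hh
  have hlin := Pool.Agent.H32.SG.sig_J hP hR hC
  rw [ha] at hhid hlin
  have harc : Real.arctan t = Real.pi / n := nt_arctan hn
  have hπ : Real.pi = n * Real.arctan t := by
    rw [harc]
    field_simp
  have hJ : 2 * n * t * yo t + P0 ≤ JJb n p := by
    have e1 : 2 * Real.pi * ((1 - t ^ 4) / 2) = n * ((1 - t ^ 4) * Real.arctan t) := by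
      rw [hπ]
      ring
    rw [e1] at hhid
    have e2 : (n : ℝ) * ((1 - t ^ 4) * Real.arctan t) = n * (t * yo t) - n * P0 := by
      rw [hP0]
      ring
    rw [e2] at hhid
    linarith
  have e3 : σ * (4 * n * κ / t * t ^ 3) = 4 * n * t ^ 2 * σ * κ := by
    field_simp
  have hJ2 : 2 * n * t ≤ σ * JJb n p := by
    have h3 : σ * (2 * n * t * yo t + 4 * n * κ / t * t ^ 3) ≤ σ * JJb n p :=
      mul_le_mul_of_nonneg_left (by linarith) hσ.le
    have h4 : σ * (2 * n * t * yo t + 4 * n * κ / t * t ^ 3) = 2 * n * t := by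
      rw [mul_add, e3]
      linarith
    linarith
  have hJpos : 0 < JJb n p := by
    have h5 : 0 < 2 * n * t := by positivity
    by_contra hcon
    push Not at hcon
    have h6 : σ * JJb n p ≤ 0 := mul_nonpos_of_nonneg_of_nonpos hσ.le hcon
    linarith
  have h7 : sig n p Om * JJb n p ≤ σ * JJb n p := by linarith
  exact le_of_mul_le_mul_right h7 hJpos

/-- scaling of a star-shaped polygon -/
theorem star_scale {n : ℕ} {p : ℕ → ℂ} {r th : ℕ → ℝ} (h : Star n p r th) {a : ℝ} (ha : 0 < a) :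
    Star n (fun j => (a : ℂ) * p j + 0) (fun j => a * r j) th where
  per j := by simp only [h.per j]
  rper j := by simp only [h.rper j]
  rpos j := mul_pos ha (h.rpos j)
  rep j := by
    show (a : ℂ) * p j + 0 = _
    rw [h.rep j]
    push_cast
    ring
  lt := h.lt
  lt_pi := h.lt_pi
  tot := h.tot

theorem ast_scale {n : ℕ} (p : ℕ → ℂ) (a : ℝ) :
    Ast n (fun j => (a : ℂ) * p j + 0) = a ^ 2 * Ast n p := by
  unfold Ast Pool.Agent.H32.SG.al Pool.Agent.H32.Q4.cr
  rw [Finset.mul_sum]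
  refine Finset.sum_congr rfl fun j _ => ?_
  simp only [add_zero, Complex.mul_re, Complex.mul_im, Complex.ofReal_re, Complex.ofReal_im,
    zero_mul, sub_zero, add_zero]
  ring

theorem seg_scale (f : ℂ → ℝ) (k : ℝ) (hf : ∀ (s : ℝ) (z : ℂ), f ((s : ℂ) * z) = s * f z) {a : ℝ}
    (ha : 0 < a) (P Q : ℂ) :
    Pool.Agent.H32.Stek.segInt f (a * P + 0) (a * Q + 0) =
      a ^ 2 * Pool.Agent.H32.Stek.segInt f P Q := by
  unfold Pool.Agent.H32.Stek.segInt
  have e1 : (a : ℂ) * Q + 0 - (a * P + 0) = (a : ℂ) * (Q - P) := by ring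
  rw [e1, norm_mul, Complex.norm_real, Real.norm_of_nonneg ha.le]
  have e2 : ∀ s : ℝ, f (a * P + 0 + s * (a * (Q - P))) = a * f (P + s * (Q - P)) := by
    intro s
    rw [← hf]
    congr 1
    ring
  simp only [e2]
  rw [intervalIntegral.integral_const_mul]
  ring

theorem cen_scale {n : ℕ} {p : ℕ → ℂ} (h : Cen n p) {a : ℝ} (ha : 0 < a) :
    Cen n (fun j => (a : ℂ) * p j + 0) := by
  unfold Cen Pool.Agent.H32.SG.bd at *
  obtain ⟨h1, h2⟩ := h
  constructor
  · have : ∀ j ∈ range n, Pool.Agent.H32.Stek.segInt (fun z => z.re) (a * p j + 0) (a * p (j + 1) + 0) =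
        a ^ 2 * Pool.Agent.H32.Stek.segInt (fun z => z.re) (p j) (p (j + 1)) := fun j _ =>
      seg_scale _ 0 (fun s z => by simp) ha _ _
    rw [Finset.sum_congr rfl this, ← Finset.mul_sum, h1, mul_zero]
  · have : ∀ j ∈ range n, Pool.Agent.H32.Stek.segInt (fun z => z.im) (a * p j + 0) (a * p (j + 1) + 0) =
        a ^ 2 * Pool.Agent.H32.Stek.segInt (fun z => z.im) (p j) (p (j + 1)) := fun j _ =>
      seg_scale _ 0 (fun s z => by simp) ha _ _
    rw [Finset.sum_congr rfl this, ← Finset.mul_sum, h2, mul_zero]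

theorem oseg_scale {a : ℝ} (ha : 0 < a) {P Q x : ℂ} (h : x ∈ openSegment ℝ P Q) :
    (a : ℂ) * x ∈ openSegment ℝ ((a : ℂ) * P) ((a : ℂ) * Q) := by
  obtain ⟨u, v, hu, hv, huv, rfl⟩ := h
  refine ⟨u, v, hu, hv, huv, ?_⟩
  simp only [Complex.real_smul]
  ring

theorem seg_scale' {a : ℝ} {P Q x : ℂ} (h : x ∈ segment ℝ P Q) :
    (a : ℂ) * x ∈ segment ℝ ((a : ℂ) * P) ((a : ℂ) * Q) := by
  obtain ⟨u, v, hu, hv, huv, rfl⟩ := h
  refine ⟨u, v, hu, hv, huv, ?_⟩
  simp only [Complex.real_smul]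
  ring

theorem vis_scale {p : ℕ → ℂ} {a : ℝ} (ha : 0 < a) {j : ℕ}
    (h : Vis (fun j => (a : ℂ) * p j + 0) j) : Vis p j := by
  simp only [add_zero] at h
  obtain ⟨h1, x, hx, h2⟩ := h
  have hane : (a : ℂ) ≠ 0 := by exact_mod_cast ha.ne'
  have hi : 0 < a⁻¹ := inv_pos.mpr ha
  have hinv : ∀ z : ℂ, ((a⁻¹ : ℝ) : ℂ) * ((a : ℂ) * z) = z := by
    intro z
    rw [← mul_assoc]
    push_cast
    rw [inv_mul_cancel₀ hane, one_mul]
  refine ⟨?_, ((a⁻¹ : ℝ) : ℂ) * x, ?_, ?_⟩
  · intro h0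
    apply h1
    unfold Pool.Agent.H32.Q4.cr at *
    simp only [Complex.mul_re, Complex.mul_im, Complex.ofReal_re, Complex.ofReal_im, zero_mul,
      sub_zero, add_zero]
    linear_combination a ^ 2 * h0
  · have := oseg_scale hi hx
    rwa [hinv, hinv] at this
  · intro s hs hmem
    apply h2 s hs
    obtain ⟨k, hk⟩ := Set.mem_iUnion.mp hmem
    refine Set.mem_iUnion.mpr ⟨k, ?_⟩
    have h3 := seg_scale' (a := a) hk
    have e : (a : ℂ) * ((s : ℂ) * (((a⁻¹ : ℝ) : ℂ) * x)) = (s : ℂ) * x := by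
      push_cast
      field_simp
    rwa [e] at h3

theorem main5 {n : ℕ} (hn : 5 ≤ n) {p : ℕ → ℂ} {Om : Set ℂ} (hP : Poly n p) (hR : Reg p Om) :
    sig n p Om * √(area Om) ≤ sig n (rv n) (RR n) * √(area (RR n)) := by
  obtain ⟨p', Om', hP', hR', hC', es, ea, hcase⟩ := Pool.Agent.H32.SG.alt hP hR
  rw [← es, ← ea, area_RR hn]
  have ht0 : 0 < tn n := nt_pos hn
  have hn0 : (0:ℝ) < n := by
    have : 0 < n := by omega
    exact_mod_cast this
  have hnt : 0 < n * tn n := mul_pos hn0 ht0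
  have hσ0 : 0 ≤ sig n (rv n) (RR n) := Pool.Agent.H32.SG.sig_nonneg
  rcases hcase with hhid | ⟨r, th, hS⟩
  · -- hidden side: normalise the area
    rcases (ENNReal.toReal_nonneg : 0 ≤ (volume Om').toReal).eq_or_lt with h0 | h0
    · have : area Om' = 0 := h0.symm
      rw [this, Real.sqrt_zero, mul_zero]
      positivity
    · set a : ℝ := √(n * tn n / area Om') with had
      have hA0 : 0 < area Om' := h0
      have ha : 0 < a := Real.sqrt_pos.mpr (div_pos hnt hA0)
      have hane : (a : ℂ) ≠ 0 := by exact_mod_cast ha.ne'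
      have hna : ‖(a : ℂ)‖ = a := by rw [Complex.norm_real, Real.norm_of_nonneg ha.le]
      have ha2 : a ^ 2 * area Om' = n * tn n := by
        rw [had, Real.sq_sqrt (div_nonneg hnt.le hA0.le)]
        field_simp
      have e1 := Pool.Agent.H32.SG.sim_area (Om := Om') hane 0
      have e2 := Pool.Agent.H32.SG.sim_sig (n := n) (p := p') hane 0 hR'.op.measurableSet
      have hP2 := Pool.Agent.H32.SG.sim_poly hane 0 hP'
      have hR2 := Pool.Agent.H32.SG.sim_reg hane 0 hR'
      rw [hna] at e1 e2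
      rw [ha2] at e1
      obtain ⟨j, hj, hv⟩ := hhid
      have h3 := hidden_case hn hP2 hR2 (cen_scale hC' ha) ⟨j, hj, fun h => hv (vis_scale ha h)⟩ e1
      rw [e2] at h3
      have h4 : √(area Om') = √(n * tn n) / a := by
        rw [← ha2, Real.sqrt_mul (sq_nonneg a), Real.sqrt_sq ha.le]
        field_simp
      rw [h4]
      have h5 : sig n p' Om' * (√(n * tn n) / a) = sig n p' Om' / a * √(n * tn n) := by ring
      rw [h5]
      exact mul_le_mul_of_nonneg_right h3 (Real.sqrt_nonneg _)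
  · have hcr : ∀ j, 0 < Pool.Agent.H32.Q4.cr (p' j) (p' (j + 1)) := by
      intro j
      exact hS.cr_pos j
    have hA0 : 0 < Ast n p' := by
      unfold Ast Pool.Agent.H32.SG.al
      exact Finset.sum_pos (fun j _ => by have := hcr j; positivity)
        ⟨0, Finset.mem_range.mpr (by omega)⟩
    have hle := Pool.Agent.H32.SG.area_le hP' hR' hcr
    set a : ℝ := √(n * tn n / Ast n p') with had
    have ha : 0 < a := Real.sqrt_pos.mpr (div_pos hnt hA0)
    have hane : (a : ℂ) ≠ 0 := by exact_mod_cast ha.ne'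
    have hna : ‖(a : ℂ)‖ = a := by rw [Complex.norm_real, Real.norm_of_nonneg ha.le]
    have ha2 : a ^ 2 * Ast n p' = n * tn n := by
      rw [had, Real.sq_sqrt (div_nonneg hnt.le hA0.le)]
      field_simp
    have e1 := Pool.Agent.H32.SG.sim_area (Om := Om') hane 0
    have e2 := Pool.Agent.H32.SG.sim_sig (n := n) (p := p') hane 0 hR'.op.measurableSet
    have hP2 := Pool.Agent.H32.SG.sim_poly hane 0 hP'
    have hR2 := Pool.Agent.H32.SG.sim_reg hane 0 hR'
    rw [hna] at e1 e2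
    have hast : Ast n (fun j => (a : ℂ) * p' j + 0) = n * tn n := by rw [ast_scale, ha2]
    have har : area ((fun z => (a : ℂ) * z + 0) '' Om') ≤ Ast n (fun j => (a : ℂ) * p' j + 0) := by
      rw [e1, ast_scale]
      exact mul_le_mul_of_nonneg_left hle (sq_nonneg a)
    have h3 := star_case hn hP2 hR2 (star_scale hS ha) (cen_scale hC' ha) hast har
    rw [e2] at h3
    have h4 : √(area Om') ≤ √(n * tn n) / a := by
      have h5 : √(n * tn n) / a = √(Ast n p') := by
        rw [← ha2, Real.sqrt_mul (sq_nonneg a), Real.sqrt_sq ha.le]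
        field_simp
      rw [h5]
      exact Real.sqrt_le_sqrt hle
    have hs0 : 0 ≤ sig n p' Om' := Pool.Agent.H32.SG.sig_nonneg
    calc sig n p' Om' * √(area Om') ≤ sig n p' Om' * (√(n * tn n) / a) :=
          mul_le_mul_of_nonneg_left h4 hs0
      _ = sig n p' Om' / a * √(n * tn n) := by ring
      _ ≤ sig n (rv n) (RR n) * √(n * tn n) :=
          mul_le_mul_of_nonneg_right h3 (Real.sqrt_nonneg _)

end Pool.Agent.H45.SN
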