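import Pool.Agent.H45.SN.Defs
import Pool.Agent.H32.SG.Basic

set_option autoImplicit false

/-! Steklov, part D: a region lies in every set which is star-shaped and contains its boundary.

PROOF. Let `z ∈ Om`, `z ∉ S`; then `z ≠ c`. The ray `R = {z + s (z - c) : s ≥ 0}` is connected and does not meet `S`
(if `x = z + s(z-c) ∈ S` then `z` lies on the segment from `c` to `x`), so it does not meet `frontier Om = bdr p ⊆ S`; it
meets `Om` in `z`, so `R ⊆ Om` (a preconnected set which meets `Om` and not its frontier lies in `Om`: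
`IsPreconnected.subset_left_of_subset_union` with the open sets `Om` and `(closure Om)ᶜ`), but `R` is unbounded. See
the proof of `ray` in H32/SG/Ray.lean. `area_mono`: `measure_mono`, the larger set has finite measure. `sig_mono`: energy
of a `C¹` function over a smaller set is smaller (`setIntegral_mono_set`, the gradient is continuous, so the integrand is
integrable on compact sets); for every element of the larger set there is a smaller element of the set for `Om`
(the same `u`), `csInf_le_csInf`-like; the set is bounded below by `0`; it is not empty: `hne`. -/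

open Complex MeasureTheory Finset

namespace Pool.Agent.H45.SN

open Pool.Agent.H32.SG (sig area Poly Reg bdr bd en)
open Pool.Agent.H32.Stek (grad)

theorem star_cover {p : ℕ → ℂ} {Om S : Set ℂ} {c : ℂ} (hR : Reg p Om) (hc : c ∈ S)
    (hS : ∀ x ∈ S, segment ℝ c x ⊆ S) (hb : bdr p ⊆ S) : Om ⊆ S := by
  intro z hz
  by_contra hzS
  have hzc : z - c ≠ 0 := by
    intro h
    rw [sub_eq_zero] at h
    exact hzS (h ▸ hc)
  set R : Set ℂ := (fun s : ℝ => z + (s : ℂ) * (z - c)) '' Set.Ici 0 with hRdef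
  have hpre : IsPreconnected R := isPreconnected_Ici.image _ (by fun_prop)
  have hd : ∀ w ∈ R, w ∉ bdr p := by
    rintro w ⟨s, hs, rfl⟩ hw
    have hs0 : 0 ≤ s := hs
    have hx := hb hw
    refine hzS (hS _ hx ?_)
    rw [Pool.Agent.H32.SG.mem_seg]
    refine ⟨1 / (1 + s), by positivity, ?_, ?_⟩
    · rw [div_le_one (by linarith)]
      linarith
    · have h1 : (1 : ℂ) + (s : ℂ) ≠ 0 := by
        have : (1 : ℝ) + s ≠ 0 := by linarith
        exact_mod_cast this
      push_cast
      field_simp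
      ring
  have hzR : z ∈ R := ⟨0, Set.mem_Ici.2 le_rfl, by simp⟩
  have hsub := hR.sub hpre hd hzR hz
  obtain ⟨B, hB⟩ := hR.bd.exists_norm_le
  have hn : 0 < ‖z - c‖ := norm_pos_iff.2 hzc
  have hB0 : 0 ≤ B := (norm_nonneg z).trans (hB z hz)
  have hmem : z + (((2 * B + 1) / ‖z - c‖ : ℝ) : ℂ) * (z - c) ∈ Om :=
    hsub ⟨_, Set.mem_Ici.2 (by positivity), rfl⟩
  have h1 := hB _ hmem
  have h2 : ‖(((2 * B + 1) / ‖z - c‖ : ℝ) : ℂ) * (z - c)‖ = 2 * B + 1 := by
    rw [norm_mul, Complex.norm_real, Real.norm_of_nonneg (by positivity)]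
    field_simp
  have h3 := norm_add_le (z + (((2 * B + 1) / ‖z - c‖ : ℝ) : ℂ) * (z - c)) (-z)
  rw [norm_neg, add_comm z, add_neg_cancel_right, h2] at h3
  have h4 := hB z hz
  rw [add_comm] at h1
  linarith

theorem area_mono {Om K : Set ℂ} (h : Om ⊆ K) (hK : IsCompact K) :
    area Om ≤ (volume K).toReal := by
  unfold area
  exact ENNReal.toReal_mono hK.measure_lt_top.ne (measure_mono h)

private lemma dh_grad {u : ℂ → ℝ} (hu : ContDiff ℝ 1 u) : Continuous fun z => ‖grad u z‖ ^ 2 := by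
  have hfd : Continuous fun z => fderiv ℝ u z := hu.continuous_fderiv (by simp)
  have hgr : (fun z => ‖grad u z‖ ^ 2) = fun z => fderiv ℝ u z 1 ^ 2 + fderiv ℝ u z I ^ 2 := by
    funext z
    rw [← Complex.normSq_eq_norm_sq, Complex.normSq_apply, grad]
    ring
  rw [hgr]
  exact ((hfd.clm_apply continuous_const).pow 2).add ((hfd.clm_apply continuous_const).pow 2)

theorem sig_mono {n : ℕ} {p : ℕ → ℂ} {Om K : Set ℂ} (h : Om ⊆ K) (hO : MeasurableSet Om)
    (hK : IsCompact K)
    (hne : ∃ u : ℂ → ℝ, ContDiff ℝ 1 u ∧ bd n p u = 0 ∧ 0 < bd n p (fun z => u z ^ 2)) :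
    sig n p Om ≤ sInf {s | ∃ u : ℂ → ℝ, ContDiff ℝ 1 u ∧ bd n p u = 0 ∧
      0 < bd n p (fun z => u z ^ 2) ∧
      s = (∫ z in K, ‖grad u z‖ ^ 2) / bd n p (fun z => u z ^ 2)} := by
  obtain ⟨u₀, h1, h2, h3⟩ := hne
  refine le_csInf ⟨_, u₀, h1, h2, h3, rfl⟩ ?_
  rintro s ⟨u, hu, h0, hp, rfl⟩
  have hle : en Om u ≤ ∫ z in K, ‖grad u z‖ ^ 2 := by
    unfold en
    refine setIntegral_mono_set ((dh_grad hu).continuousOn.integrableOn_compact hK)
      (Filter.Eventually.of_forall fun z => sq_nonneg _) h.eventuallyLE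
  have hsig : sig n p Om ≤ en Om u / bd n p (fun z => u z ^ 2) := by
    unfold sig
    refine csInf_le ⟨0, ?_⟩ ⟨u, hu, h0, hp, rfl⟩
    rintro s ⟨v, hv, h4, h5, rfl⟩
    refine div_nonneg ?_ h5.le
    unfold en
    exact integral_nonneg fun z => sq_nonneg _
  exact hsig.trans (div_le_div_of_nonneg_right hle hp.le)

private lemma dh_int (a b : ℝ) : ∫ t in (0 : ℝ)..1, (a + t * b) = a + b / 2 := by
  rw [intervalIntegral.integral_add (by simp)
    ((by fun_prop : Continuous fun t : ℝ => t * b).intervalIntegrable _ _),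
    intervalIntegral.integral_mul_const, integral_id]
  simp
  ring

private lemma dh_int2 (a b : ℝ) : ∫ t in (0 : ℝ)..1, (a + t * b) ^ 2 = (a + b / 2) ^ 2 + b ^ 2 / 12 := by
  have h : ∀ t ∈ Set.uIcc (0 : ℝ) 1, HasDerivAt (fun t => a ^ 2 * t + a * b * t ^ 2 + b ^ 2 * t ^ 3 / 3)
      ((a + t * b) ^ 2) t := by
    intro t _
    have h1 := ((((hasDerivAt_id t).const_mul (a ^ 2)).add (((hasDerivAt_id t).pow 2).const_mul
      (a * b))).add ((((hasDerivAt_id t).pow 3).const_mul (b ^ 2)).div_const 3))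
    refine h1.congr_deriv ?_
    simp
    ring
  rw [intervalIntegral.integral_eq_sub_of_hasDerivAt h
    ((by fun_prop : Continuous fun t : ℝ => (a + t * b) ^ 2).intervalIntegrable _ _)]
  ring

private lemma dh_test {n : ℕ} {p : ℕ → ℂ} (h : Poly n p) (l : ℂ →L[ℝ] ℝ) (hl : l (p 1 - p 0) ≠ 0) :
    ∃ u : ℂ → ℝ, ContDiff ℝ 1 u ∧ bd n p u = 0 ∧ 0 < bd n p (fun z => u z ^ 2) := by
  have hlin : ∀ (j : ℕ) (t : ℝ), l (p j + (t : ℂ) * (p (j + 1) - p j)) =
      l (p j) + t * l (p (j + 1) - p j) := by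
    intro j t
    have h1 : (t : ℂ) * (p (j + 1) - p j) = t • (p (j + 1) - p j) := by
      rw [Complex.real_smul]
    rw [h1, map_add, map_smul, smul_eq_mul]
  have hper : 0 < ∑ j ∈ Finset.range n, ‖p (j + 1) - p j‖ := by
    refine Finset.sum_pos (fun j _ => norm_pos_iff.2 (sub_ne_zero.2 (h.ne j).symm)) ?_
    exact ⟨0, Finset.mem_range.2 h.pos⟩
  set m : ℝ := (∑ j ∈ Finset.range n, ‖p (j + 1) - p j‖ * (l (p j) + l (p (j + 1) - p j) / 2)) /
    ∑ j ∈ Finset.range n, ‖p (j + 1) - p j‖ with hm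
  refine ⟨fun z => l z - m, l.contDiff.sub contDiff_const, ?_, ?_⟩
  · unfold bd
    have h1 : ∀ j ∈ Finset.range n, Pool.Agent.H32.Stek.segInt (fun z => l z - m) (p j) (p (j + 1)) =
        ‖p (j + 1) - p j‖ * (l (p j) + l (p (j + 1) - p j) / 2) - m * ‖p (j + 1) - p j‖ := by
      intro j _
      unfold Pool.Agent.H32.Stek.segInt
      have h2 : (fun t : ℝ => l (p j + (t : ℂ) * (p (j + 1) - p j)) - m) =
          fun t : ℝ => (l (p j) - m) + t * l (p (j + 1) - p j) := by
        funext t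
        rw [hlin]
        ring
      rw [h2, dh_int]
      ring
    rw [Finset.sum_congr rfl h1, Finset.sum_sub_distrib, ← Finset.mul_sum, hm]
    field_simp
    ring
  · unfold bd
    have h1 : ∀ j : ℕ, Pool.Agent.H32.Stek.segInt (fun z => (l z - m) ^ 2) (p j) (p (j + 1)) =
        ‖p (j + 1) - p j‖ * ((l (p j) - m + l (p (j + 1) - p j) / 2) ^ 2 +
          l (p (j + 1) - p j) ^ 2 / 12) := by
      intro j
      unfold Pool.Agent.H32.Stek.segInt
      have h2 : (fun t : ℝ => (l (p j + (t : ℂ) * (p (j + 1) - p j)) - m) ^ 2) =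
          fun t : ℝ => ((l (p j) - m) + t * l (p (j + 1) - p j)) ^ 2 := by
        funext t
        rw [hlin]
        ring
      rw [h2, dh_int2]
    refine Finset.sum_pos' (fun j _ => ?_) ⟨0, Finset.mem_range.2 h.pos, ?_⟩
    · rw [h1]
      positivity
    · rw [h1]
      have h3 : 0 < ‖p (0 + 1) - p 0‖ := norm_pos_iff.2 (sub_ne_zero.2 (h.ne 0).symm)
      have h4 : 0 < l (p (0 + 1) - p 0) ^ 2 := by
        have : l (p (0 + 1) - p 0) ≠ 0 := by simpa using hl
        positivity
      positivity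

/-- test functions exist: subtract the mean of `re` or `im` (they are not both constant on the polygon) -/
theorem test_exists {n : ℕ} {p : ℕ → ℂ} (h : Poly n p) :
    ∃ u : ℂ → ℝ, ContDiff ℝ 1 u ∧ bd n p u = 0 ∧ 0 < bd n p (fun z => u z ^ 2) := by
  have hne : p 1 - p 0 ≠ 0 := sub_ne_zero.2 (h.ne 0).symm
  by_cases hre : (p 1 - p 0).re = 0
  · refine dh_test h Complex.imCLM ?_
    intro him
    exact hne (Complex.ext hre him)
  · exact dh_test h Complex.reCLM hre

end Pool.Agent.H45.SN
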