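import Pool.Agent.H32.SG.BrD
import Pool.Agent.H45.SN.DH
import Pool.Agent.H32.SG.Basic
import Pool.Agent.H32.SG.Ray
import Pool.Agent.H32.SG.Sim
import Pool.Agent.H32.Q4.Mn

set_option autoImplicit false

/-! Steklov, part D: quadrilaterals (`n = 4`), from `Pool.Agent.H32.Q4.area4_main`.

PROOFS. `four_cut`. `o(i,j,k)` = orientation of `p i, p j, p k`; `A = o(0,1,2)`, `B = o(0,2,3)`, `C = o(1,2,3)`,
`D = o(0,1,3)`, `A + B = C + D`. `Cut (p 0) (p 1) (p 2) (p 3)` iff `AB > 0`, `Cut (p 1) (p 2) (p 3) (p 0)` iff `CD > 0`.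
Suppose `AB ≤ 0` and `CD ≤ 0`. If all four are nonzero: `A, B` have different signs and `C, D` too: if `AD < 0`
and `BC < 0` the sides `01` and `23` cross (proper crossing, `meet` is violated); otherwise `AC < 0`, `BD < 0` and the
sides `12` and `30` cross. If one of them vanishes, say `A = 0` (the other cases by relabelling): `p 0, p 1, p 2` on
a line, sides `01`, `12` meet only in `p 1`, so `p 1` is strictly between `p 0` and `p 2`: then `D = λ B`, `C = (1-λ) B`
with `0 < λ < 1`, and `B ≠ 0` (otherwise all points are on a line and some sides overlap), so `CD > 0`.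
`four_sub`: with `Cut A B C D` the set `Q = quad A B C D = tri A B C ∪ tri A C D` is star-shaped with respect to `A`, contains
the sides; the ray from `z ∉ Q` away from `A` does not meet `Q`; as in `three_sub` `Om ⊆ Q`. Then
`sig 4 p Om ≤ sigma4`, `area Om ≤ area4`; for the cyclic relabelling use that `bd 4` is invariant. Square: `regR 4`
is the interior of the convex hull `= quad` of the four vertices, null frontier. -/

open Complex MeasureTheory Finset

namespace Pool.Agent.H45.SN

open Pool.Agent.H32.SG (sig area Poly Reg seqZ)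
open Pool.Agent.H32.Q4 (sigma4 area4 quad Cut IsSq)

open Pool.Agent.H32.Stek (tri segInt grad)
open Pool.Agent.H32.Q4 (cr SimA_mem_tri bd4)
open Pool.Agent.H32.SG (bdr bd en bdr_eq)

private lemma dq_sign {A B C D : ℝ} (hs : A + B = C + D) (h1 : A * B ≤ 0) (h2 : C * D ≤ 0)
    (hne : ¬ (A = 0 ∧ B = 0 ∧ C = 0 ∧ D = 0)) :
    (A * D ≤ 0 ∧ B * C ≤ 0 ∧ B ≠ C) ∨ (A * C ≤ 0 ∧ B * D ≤ 0 ∧ B ≠ D) := by
  rcases mul_nonpos_iff.mp h1 with ⟨a1, b1⟩ | ⟨a1, b1⟩ <;>
    rcases mul_nonpos_iff.mp h2 with ⟨c1, d1⟩ | ⟨c1, d1⟩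
  · left
    refine ⟨mul_nonpos_of_nonneg_of_nonpos a1 d1, mul_nonpos_of_nonpos_of_nonneg b1 c1, ?_⟩
    intro e
    exact hne ⟨by linarith, by linarith, by linarith, by linarith⟩
  · right
    refine ⟨mul_nonpos_of_nonneg_of_nonpos a1 c1, mul_nonpos_of_nonpos_of_nonneg b1 d1, ?_⟩
    intro e
    exact hne ⟨by linarith, by linarith, by linarith, by linarith⟩
  · right
    refine ⟨mul_nonpos_of_nonpos_of_nonneg a1 c1, mul_nonpos_of_nonneg_of_nonpos b1 d1, ?_⟩
    intro e
    exact hne ⟨by linarith, by linarith, by linarith, by linarith⟩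
  · left
    refine ⟨mul_nonpos_of_nonpos_of_nonneg a1 d1, mul_nonpos_of_nonneg_of_nonpos b1 c1, ?_⟩
    intro e
    exact hne ⟨by linarith, by linarith, by linarith, by linarith⟩

/-- two segments cross -/
private lemma dq_cross {x y z w : ℂ}
    (h1 : cr (y - x) (z - x) * cr (y - x) (w - x) ≤ 0)
    (h2 : cr (z - x) (w - x) * cr (z - y) (w - y) ≤ 0)
    (hne : cr (z - x) (w - x) ≠ cr (z - y) (w - y)) :
    ∃ v, v ∈ segment ℝ x y ∧ v ∈ segment ℝ z w := by
  set A := cr (y - x) (z - x) with hA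
  set D := cr (y - x) (w - x) with hD
  set B := cr (z - x) (w - x) with hB
  set C := cr (z - y) (w - y) with hC
  have hsum : A + B = C + D := by
    rw [hA, hB, hC, hD]; unfold cr
    simp only [Complex.sub_re, Complex.sub_im]; ring
  have hBC : B - C ≠ 0 := sub_ne_zero.mpr hne
  have hcr : ((B - C : ℝ) : ℂ) * (z - x) = (B : ℂ) * (y - x) + (A : ℂ) * (w - z) := by
    have e : B - C = D - A := by linarith
    rw [e]
    apply Complex.ext
    · simp only [Complex.mul_re, Complex.add_re, Complex.sub_re, Complex.ofReal_re,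
        Complex.ofReal_im, zero_mul, sub_zero, hA, hB, hD, cr, Complex.sub_im]
      ring
    · simp only [Complex.mul_im, Complex.add_im, Complex.sub_im, Complex.ofReal_re,
        Complex.ofReal_im, zero_mul, add_zero, hA, hB, hD, cr, Complex.sub_re]
      ring
  have hBC' : ((B - C : ℝ) : ℂ) ≠ 0 := by exact_mod_cast hBC
  refine ⟨x + ((B / (B - C) : ℝ) : ℂ) * (y - x), ?_, ?_⟩
  · rw [Pool.Agent.H32.SG.mem_seg]
    refine ⟨B / (B - C), ?_, ?_, rfl⟩
    · rcases lt_or_gt_of_ne hBC with h | h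
      · refine div_nonneg_of_nonpos ?_ h.le
        nlinarith
      · refine div_nonneg ?_ h.le
        nlinarith
    · rcases lt_or_gt_of_ne hBC with h | h
      · rw [div_le_one_of_neg h]
        nlinarith
      · rw [div_le_one h]
        nlinarith
  · rw [Pool.Agent.H32.SG.mem_seg]
    refine ⟨-A / (B - C), ?_, ?_, ?_⟩
    · rcases lt_or_gt_of_ne hBC with h | h
      · refine div_nonneg_of_nonpos ?_ h.le
        nlinarith
      · refine div_nonneg ?_ h.le
        nlinarith
    · rcases lt_or_gt_of_ne hBC with h | h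
      · rw [div_le_one_of_neg h]
        nlinarith
      · rw [div_le_one h]
        nlinarith
    · have e1 : ((B / (B - C) : ℝ) : ℂ) = (B : ℂ) / ((B - C : ℝ) : ℂ) := by push_cast; ring
      have e2 : ((-A / (B - C) : ℝ) : ℂ) = -(A : ℂ) / ((B - C : ℝ) : ℂ) := by push_cast; ring
      rw [e1, e2]
      have hz : z = x + ((B : ℂ) * (y - x) + (A : ℂ) * (w - z)) / ((B - C : ℝ) : ℂ) := by
        rw [← hcr, mul_div_cancel_left₀ _ hBC']; ring
      have : x + (B : ℂ) / ((B - C : ℝ) : ℂ) * (y - x) -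
          (z + -(A : ℂ) / ((B - C : ℝ) : ℂ) * (w - z)) =
          x + ((B : ℂ) * (y - x) + (A : ℂ) * (w - z)) / ((B - C : ℝ) : ℂ) - z := by ring
      rw [← hz, sub_self] at this
      exact sub_eq_zero.mp this

/-- a real multiple -/
private lemma dq_par {u v : ℂ} (hu : u ≠ 0) (h : cr u v = 0) : ∃ a : ℝ, v = (a : ℂ) * u := by
  have hn : 0 < u.re ^ 2 + u.im ^ 2 := by
    rcases eq_or_ne u.re 0 with h1 | h1
    · have h2 : u.im ≠ 0 := fun h2 => hu (Complex.ext h1 h2)
      positivity
    · positivity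
  unfold cr at h
  refine ⟨(u.re * v.re + u.im * v.im) / (u.re ^ 2 + u.im ^ 2), ?_⟩
  apply Complex.ext
  · rw [Complex.re_ofReal_mul, div_mul_eq_mul_div, eq_div_iff hn.ne']
    linear_combination (-u.im) * h
  · rw [Complex.im_ofReal_mul, div_mul_eq_mul_div, eq_div_iff hn.ne']
    linear_combination (u.re) * h

theorem four_cut {p : ℕ → ℂ} (h : Poly 4 p) :
    Cut (p 0) (p 1) (p 2) (p 3) ∨ Cut (p 1) (p 2) (p 3) (p 0) := by
  have hp4 : p 4 = p 0 := h.per 0
  by_contra hcon
  push Not at hcon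
  obtain ⟨hc1, hc2⟩ := hcon
  unfold Cut at hc1 hc2
  rw [not_lt] at hc1 hc2
  set A := cr (p 1 - p 0) (p 2 - p 0) with hA
  set B := cr (p 2 - p 0) (p 3 - p 0) with hB
  set C := cr (p 2 - p 1) (p 3 - p 1) with hC
  set D := cr (p 1 - p 0) (p 3 - p 0) with hD
  have hsum : A + B = C + D := by
    rw [hA, hB, hC, hD]; unfold cr
    simp only [Complex.sub_re, Complex.sub_im]; ring
  have hAB : A * B ≤ 0 := by
    have : cr (p 2 - p 0) (p 1 - p 0) * cr (p 2 - p 0) (p 3 - p 0) = -(A * B) := by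
      rw [hA, hB]; unfold cr; ring
    linarith
  have hCD : C * D ≤ 0 := by
    have : cr (p 3 - p 1) (p 2 - p 1) * cr (p 3 - p 1) (p 0 - p 1) = -(C * D) := by
      rw [hC, hD]; unfold cr
      simp only [Complex.sub_re, Complex.sub_im]; ring
    linarith
  -- sides 0 and 2 are disjoint, sides 1 and 3 are disjoint
  have h02 : ∀ v, v ∈ segment ℝ (p 0) (p 1) → v ∈ segment ℝ (p 2) (p 3) → False := by
    intro v h1 h2
    rcases h.meet 0 2 (by norm_num) (by norm_num) v h1 h2 with ⟨h3, -⟩ | ⟨-, h3, -⟩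
    · omega
    · omega
  have h13 : ∀ v, v ∈ segment ℝ (p 1) (p 2) → v ∈ segment ℝ (p 3) (p 0) → False := by
    intro v h1 h2
    rw [← hp4] at h2
    rcases h.meet 1 3 (by norm_num) (by norm_num) v h1 h2 with ⟨h3, -⟩ | ⟨h3, -, -⟩
    · omega
    · omega
  by_cases hz : A = 0 ∧ B = 0 ∧ C = 0 ∧ D = 0
  · obtain ⟨a0, -, -, d0⟩ := hz
    have hu : p 1 - p 0 ≠ 0 := sub_ne_zero.mpr (h.ne 0).symm
    obtain ⟨a, ha⟩ := dq_par hu (hA ▸ a0)
    obtain ⟨b, hb⟩ := dq_par hu (hD ▸ d0)
    have ha' : p 2 = p 0 + (a : ℂ) * (p 1 - p 0) := by rw [← ha]; ring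
    have hb' : p 3 = p 0 + (b : ℂ) * (p 1 - p 0) := by rw [← hb]; ring
    have inj : ∀ s t : ℝ, p 0 + (s : ℂ) * (p 1 - p 0) = p 0 + (t : ℂ) * (p 1 - p 0) → s = t := by
      intro s t hst
      have := mul_right_cancel₀ hu (add_left_cancel hst)
      exact_mod_cast this
    have ha1 : a ≠ 1 := by
      intro e
      apply h.ne 1
      rw [show (1 : ℕ) + 1 = 2 from rfl, ha', e]; push_cast; ring
    have hb0 : b ≠ 0 := by
      intro e
      apply h.ne 3
      rw [show (3 : ℕ) + 1 = 4 from rfl, hp4, hb', e]; push_cast; ring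
    have ha2 : 1 < a := by
      by_contra hlt
      have hlt' : a < 1 := lt_of_le_of_ne (not_lt.mp hlt) ha1
      have hc1 : max a 0 < 1 := max_lt hlt' one_pos
      have e := h.meet 0 1 (by norm_num) (by norm_num)
        (p 0 + ((max a 0 : ℝ) : ℂ) * (p 1 - p 0)) ?_ ?_
      · rcases e with ⟨-, e⟩ | ⟨-, e, -⟩
        · have : p 0 + ((max a 0 : ℝ) : ℂ) * (p 1 - p 0) = p 0 + ((1 : ℝ) : ℂ) * (p 1 - p 0) := by
            rw [e]; push_cast; ring
          have := inj _ _ this
          linarith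
        · omega
      · rw [show (0 : ℕ) + 1 = 1 from rfl, Pool.Agent.H32.SG.mem_seg]
        exact ⟨max a 0, le_max_right _ _, hc1.le, rfl⟩
      · rw [show (1 : ℕ) + 1 = 2 from rfl, Pool.Agent.H32.SG.mem_seg]
        have h1a : 0 < 1 - a := by linarith
        refine ⟨(1 - max a 0) / (1 - a), div_nonneg (by linarith) h1a.le, ?_, ?_⟩
        · rw [div_le_one h1a]
          have := le_max_left a 0
          linarith
        · rw [ha']
          have h1a' : (1 : ℂ) - (a : ℂ) ≠ 0 := by
            have : ((1 - a : ℝ) : ℂ) ≠ 0 := by exact_mod_cast h1a.ne'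
            push_cast at this
            exact this
          push_cast
          have hd : (1 - ((max a 0 : ℝ) : ℂ)) / (1 - (a : ℂ)) * (1 - (a : ℂ)) =
              1 - ((max a 0 : ℝ) : ℂ) := div_mul_cancel₀ _ h1a'
          have : p 1 + (1 - ((max a 0 : ℝ) : ℂ)) / (1 - (a : ℂ)) *
              (p 0 + (a : ℂ) * (p 1 - p 0) - p 1) =
              p 1 - ((1 - ((max a 0 : ℝ) : ℂ)) / (1 - (a : ℂ)) * (1 - (a : ℂ))) * (p 1 - p 0) := by
            ring
          rw [this, hd]
          ring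
    have hb2 : b < 0 := by
      by_contra hlt
      have hlt' : 0 < b := lt_of_le_of_ne (not_lt.mp hlt) hb0.symm
      have hc1 : 0 < min b 1 := lt_min hlt' one_pos
      have e := h.meet 0 3 (by norm_num) (by norm_num)
        (p 0 + ((min b 1 : ℝ) : ℂ) * (p 1 - p 0)) ?_ ?_
      · rcases e with ⟨e, -⟩ | ⟨-, -, e⟩
        · omega
        · have : p 0 + ((min b 1 : ℝ) : ℂ) * (p 1 - p 0) = p 0 + ((0 : ℝ) : ℂ) * (p 1 - p 0) := by
            rw [e]; push_cast; ring
          have := inj _ _ this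
          linarith
      · rw [show (0 : ℕ) + 1 = 1 from rfl, Pool.Agent.H32.SG.mem_seg]
        exact ⟨min b 1, hc1.le, min_le_right _ _, rfl⟩
      · rw [show (3 : ℕ) + 1 = 4 from rfl, hp4, Pool.Agent.H32.SG.mem_seg]
        refine ⟨1 - min b 1 / b, ?_, ?_, ?_⟩
        · have : min b 1 / b ≤ 1 := by
            rw [div_le_one hlt']
            exact min_le_left _ _
          linarith
        · have : 0 ≤ min b 1 / b := div_nonneg hc1.le hlt'.le
          linarith
        · rw [hb']
          have hbc : (b : ℂ) ≠ 0 := by exact_mod_cast hb0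
          push_cast
          have hd : ((min b 1 : ℝ) : ℂ) / (b : ℂ) * (b : ℂ) = ((min b 1 : ℝ) : ℂ) :=
            div_mul_cancel₀ _ hbc
          have : p 0 + (b : ℂ) * (p 1 - p 0) + (1 - ((min b 1 : ℝ) : ℂ) / (b : ℂ)) *
              (p 0 - (p 0 + (b : ℂ) * (p 1 - p 0))) =
              p 0 + (((min b 1 : ℝ) : ℂ) / (b : ℂ) * (b : ℂ)) * (p 1 - p 0) := by ring
          rw [this, hd]
    have hab : 0 < a - b := by linarith
    refine h02 (p 1) (right_mem_segment ℝ _ _) ?_
    rw [Pool.Agent.H32.SG.mem_seg]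
    refine ⟨(a - 1) / (a - b), div_nonneg (by linarith) hab.le, ?_, ?_⟩
    · rw [div_le_one hab]; linarith
    · rw [ha', hb']
      have habc : (a : ℂ) - (b : ℂ) ≠ 0 := by
        have : ((a - b : ℝ) : ℂ) ≠ 0 := by exact_mod_cast hab.ne'
        push_cast at this
        exact this
      push_cast
      have hd : ((a : ℂ) - 1) / ((a : ℂ) - (b : ℂ)) * ((a : ℂ) - (b : ℂ)) = (a : ℂ) - 1 :=
        div_mul_cancel₀ _ habc
      have : p 0 + (a : ℂ) * (p 1 - p 0) + ((a : ℂ) - 1) / ((a : ℂ) - (b : ℂ)) *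
          (p 0 + (b : ℂ) * (p 1 - p 0) - (p 0 + (a : ℂ) * (p 1 - p 0))) =
          p 0 + (a : ℂ) * (p 1 - p 0) -
            (((a : ℂ) - 1) / ((a : ℂ) - (b : ℂ)) * ((a : ℂ) - (b : ℂ))) * (p 1 - p 0) := by ring
      rw [this, hd]
      ring
  · rcases dq_sign hsum hAB hCD hz with ⟨h1, h2, h3⟩ | ⟨h1, h2, h3⟩
    · obtain ⟨v, hv1, hv2⟩ := dq_cross (x := p 0) (y := p 1) (z := p 2) (w := p 3) h1 h2 h3
      exact h02 v hv1 hv2
    · have e1 : cr (p 2 - p 1) (p 0 - p 1) = A := by
        rw [hA]; unfold cr; simp only [Complex.sub_re, Complex.sub_im]; ring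
      have e2 : cr (p 3 - p 1) (p 0 - p 1) = D := by
        rw [hD]; unfold cr; simp only [Complex.sub_re, Complex.sub_im]; ring
      have e3 : cr (p 3 - p 2) (p 0 - p 2) = B := by
        rw [hB]; unfold cr; simp only [Complex.sub_re, Complex.sub_im]; ring
      obtain ⟨v, hv1, hv2⟩ := dq_cross (x := p 1) (y := p 2) (z := p 3) (w := p 0)
        (by rw [e1, ← hC]; linarith) (by rw [e2, e3]; linarith) (by rw [e2, e3]; exact h3.symm)
      exact h13 v hv1 hv2

private lemma dq_seg {A B C D x : ℂ} (hx : x ∈ quad A B C D) :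
    segment ℝ A x ⊆ quad A B C D := by
  rcases hx with hx | hx
  · refine Set.Subset.trans ?_ Set.subset_union_left
    exact (convex_convexHull ℝ _).segment_subset (subset_convexHull ℝ _ (by simp)) hx
  · refine Set.Subset.trans ?_ Set.subset_union_right
    exact (convex_convexHull ℝ _).segment_subset (subset_convexHull ℝ _ (by simp)) hx

theorem four_sub {p : ℕ → ℂ} {Om : Set ℂ} {A B C D : ℂ} (hR : Reg p Om)
    (hb : Pool.Agent.H32.SG.bdr p ⊆ quad A B C D) : Om ⊆ quad A B C D :=
  star_cover hR (c := A) (Or.inl (subset_convexHull ℝ _ (by simp))) (fun _ hx => dq_seg hx) hb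

private lemma dq_tri {P Q R x y : ℂ} (hx : x ∈ ({P, Q, R} : Set ℂ)) (hy : y ∈ ({P, Q, R} : Set ℂ)) :
    segment ℝ x y ⊆ tri P Q R :=
  (convex_convexHull ℝ _).segment_subset (subset_convexHull ℝ _ hx) (subset_convexHull ℝ _ hy)

private lemma dq_compact (A B C D : ℂ) : IsCompact (quad A B C D) := by
  have h : ∀ P Q R : ℂ, IsCompact (tri P Q R) := fun P Q R =>
    (Set.toFinite ({P, Q, R} : Set ℂ)).isCompact_convexHull ℝ
  exact (h _ _ _).union (h _ _ _)

private lemma dq_bd (p : ℕ → ℂ) (hp : p 4 = p 0) (f : ℂ → ℝ) :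
    bd 4 p f = segInt f (p 0) (p 1) + segInt f (p 1) (p 2) + segInt f (p 2) (p 3) +
      segInt f (p 3) (p 0) := by
  unfold bd
  simp only [Finset.sum_range_succ, Finset.sum_range_zero, zero_add, Nat.reduceAdd]
  rw [hp]

theorem four_le {p : ℕ → ℂ} {Om : Set ℂ} (h : Poly 4 p) (hR : Reg p Om) :
    ∃ A B C D : ℂ, Cut A B C D ∧ sig 4 p Om ≤ sigma4 A B C D ∧ area Om ≤ area4 A B C D := by
  have hp4 : p 4 = p 0 := h.per 0
  have key : ∀ A B C D : ℂ, Cut A B C D → bdr p ⊆ quad A B C D →
      (∀ f : ℂ → ℝ, bd 4 p f = bd4 A B C D f) →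
      Cut A B C D ∧ sig 4 p Om ≤ sigma4 A B C D ∧ area Om ≤ area4 A B C D := by
    intro A B C D hc hb hf
    have hsub := four_sub hR hb
    refine ⟨hc, ?_, area_mono hsub (dq_compact A B C D)⟩
    have h1 := sig_mono (n := 4) (p := p) hsub hR.op.measurableSet (dq_compact A B C D)
      (test_exists h)
    refine h1.trans (le_of_eq ?_)
    unfold sigma4
    simp only [hf]
    rfl
  have hb0 : bdr p = ⋃ j ∈ Finset.range 4, segment ℝ (p j) (p (j + 1)) :=
    bdr_eq (by norm_num) h.per
  rcases four_cut h with hc | hc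
  · refine ⟨p 0, p 1, p 2, p 3, key _ _ _ _ hc ?_ ?_⟩
    · rw [hb0]
      refine Set.iUnion₂_subset fun j hj => ?_
      have hj' : j < 4 := Finset.mem_range.mp hj
      interval_cases j
      · exact (dq_tri (by simp) (by simp)).trans Set.subset_union_left
      · exact (dq_tri (by simp) (by simp)).trans Set.subset_union_left
      · exact (dq_tri (by simp) (by simp)).trans Set.subset_union_right
      · rw [show (3 : ℕ) + 1 = 4 from rfl, hp4]
        exact (dq_tri (by simp) (by simp)).trans Set.subset_union_right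
    · intro f
      rw [dq_bd p hp4]
      rfl
  · refine ⟨p 1, p 2, p 3, p 0, key _ _ _ _ hc ?_ ?_⟩
    · rw [hb0]
      refine Set.iUnion₂_subset fun j hj => ?_
      have hj' : j < 4 := Finset.mem_range.mp hj
      interval_cases j
      · exact (dq_tri (by simp) (by simp)).trans Set.subset_union_right
      · exact (dq_tri (by simp) (by simp)).trans Set.subset_union_left
      · exact (dq_tri (by simp) (by simp)).trans Set.subset_union_left
      · rw [show (3 : ℕ) + 1 = 4 from rfl, hp4]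
        exact (dq_tri (by simp) (by simp)).trans Set.subset_union_right
    · intro f
      rw [dq_bd p hp4]
      unfold bd4
      ring

private lemma dq_r0 : reg 4 0 = 1 := by
  unfold reg
  have : ((0 : ZMod 4).val : ℝ) = 0 := by simp
  rw [this]
  simp

private lemma dq_r1 : reg 4 1 = I := by
  unfold reg
  have : ((1 : ZMod 4).val : ℝ) = 1 := by
    have h : (1 : ZMod 4).val = 1 := rfl
    rw [h]; norm_num
  rw [this]
  have e : 2 * (Real.pi : ℂ) * I * ((1 : ℝ) : ℂ) / ((4 : ℕ) : ℂ) = Real.pi / 2 * I := by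
    push_cast; ring
  rw [e, Complex.exp_pi_div_two_mul_I]

private lemma dq_r2 : reg 4 2 = -1 := by
  unfold reg
  have : ((2 : ZMod 4).val : ℝ) = 2 := by
    have h : (2 : ZMod 4).val = 2 := rfl
    rw [h]; norm_num
  rw [this]
  have e : 2 * (Real.pi : ℂ) * I * ((2 : ℝ) : ℂ) / ((4 : ℕ) : ℂ) = Real.pi * I := by
    push_cast; ring
  rw [e, Complex.exp_pi_mul_I]

private lemma dq_r3 : reg 4 3 = -I := by
  unfold reg
  have : ((3 : ZMod 4).val : ℝ) = 3 := by
    have h : (3 : ZMod 4).val = 3 := rfl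
    rw [h]; norm_num
  rw [this]
  have e : 2 * (Real.pi : ℂ) * I * ((3 : ℝ) : ℂ) / ((4 : ℕ) : ℂ) =
      Real.pi / 2 * I + Real.pi * I := by
    push_cast; ring
  rw [e, Complex.exp_add, Complex.exp_pi_mul_I, Complex.exp_pi_div_two_mul_I]
  ring

private lemma dq_range : Set.range (reg 4) = {1, I, -1, -I} := by
  ext z
  simp only [Set.mem_range, Set.mem_insert_iff, Set.mem_singleton_iff]
  constructor
  · rintro ⟨j, rfl⟩
    have hj : j = 0 ∨ j = 1 ∨ j = 2 ∨ j = 3 := by
      revert j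
      decide
    rcases hj with rfl | rfl | rfl | rfl
    · left; exact dq_r0
    · right; left; exact dq_r1
    · right; right; left; exact dq_r2
    · right; right; right; exact dq_r3
  · rintro (rfl | rfl | rfl | rfl)
    · exact ⟨0, dq_r0⟩
    · exact ⟨1, dq_r1⟩
    · exact ⟨2, dq_r2⟩
    · exact ⟨3, dq_r3⟩

private lemma dq_hull : quad 1 I (-1) (-I) = convexHull ℝ ({1, I, -1, -I} : Set ℂ) := by
  apply Set.Subset.antisymm
  · refine Set.union_subset ?_ ?_
    · refine convexHull_mono ?_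
      rintro x (rfl | rfl | rfl) <;> simp
    · refine convexHull_mono ?_
      rintro x (rfl | rfl | rfl) <;> simp
  · have h1 : convexHull ℝ ({1, I, -1, -I} : Set ℂ) ⊆ {z : ℂ | |z.re| + |z.im| ≤ 1} := by
      refine convexHull_min ?_ ?_
      · rintro x (rfl | rfl | rfl | rfl) <;> simp
      · intro x hx y hy a b ha hb hab
        simp only [Set.mem_setOf_eq] at hx hy ⊢
        simp only [Complex.add_re, Complex.add_im, Complex.real_smul, Complex.re_ofReal_mul,
          Complex.im_ofReal_mul]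
        have e1 := abs_add_le (a * x.re) (b * y.re)
        have e2 := abs_add_le (a * x.im) (b * y.im)
        rw [abs_mul, abs_mul, abs_of_nonneg ha, abs_of_nonneg hb] at e1 e2
        nlinarith
    refine h1.trans ?_
    intro z hz
    simp only [Set.mem_setOf_eq] at hz
    have hx := abs_le.mp (le_refl |z.re|)
    rcases le_total 0 z.im with hi | hi
    · left
      rw [abs_of_nonneg hi] at hz
      rw [SimA_mem_tri]
      refine ⟨(1 - z.im + z.re) / 2, z.im, (1 - z.im - z.re) / 2, by linarith, hi, by linarith,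
        by ring, ?_⟩
      apply Complex.ext
      · simp; ring
      · simp
    · right
      rw [abs_of_nonpos hi] at hz
      rw [SimA_mem_tri]
      refine ⟨(1 + z.im + z.re) / 2, (1 + z.im - z.re) / 2, -z.im, by linarith, by linarith,
        by linarith, by ring, ?_⟩
      apply Complex.ext
      · simp; ring
      · simp

private lemma dq_ae : (regR 4 : Set ℂ) =ᵐ[volume] quad (reg 4 0) (reg 4 1) (reg 4 2) (reg 4 3) := by
  rw [dq_r0, dq_r1, dq_r2, dq_r3, dq_hull]
  unfold regR
  rw [dq_range]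
  exact interior_ae_eq_of_null_frontier ((convex_convexHull ℝ _).addHaar_frontier volume)

theorem four_reg : sigma4 (reg 4 0) (reg 4 1) (reg 4 2) (reg 4 3) =
      sig 4 (seqZ (reg 4)) (regR 4) ∧
    area4 (reg 4 0) (reg 4 1) (reg 4 2) (reg 4 3) = area (regR 4) ∧
    IsSq (reg 4 0) (reg 4 1) (reg 4 2) (reg 4 3) := by
  refine ⟨?_, ?_, ?_⟩
  · have h4 : seqZ (reg 4) 4 = seqZ (reg 4) 0 := by
      unfold seqZ
      congr 1
    have hbd : ∀ f : ℂ → ℝ, bd 4 (seqZ (reg 4)) f =
        bd4 (reg 4 0) (reg 4 1) (reg 4 2) (reg 4 3) f := by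
      intro f
      rw [dq_bd _ h4]
      rfl
    have hen : ∀ u : ℂ → ℝ, en (regR 4) u =
        Pool.Agent.H32.Q4.energy4 (reg 4 0) (reg 4 1) (reg 4 2) (reg 4 3) u := by
      intro u
      exact setIntegral_congr_set dq_ae
    unfold sigma4 sig
    simp only [hbd, hen]
  · unfold area4 area
    rw [measure_congr dq_ae]
  · rw [dq_r0, dq_r1, dq_r2, dq_r3]
    have e1 : dist (1 : ℂ) I = √2 := by
      rw [dist_eq_norm, Complex.norm_def, Complex.normSq_apply]
      congr 1
      simp; norm_num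
    have e2 : dist I (-1 : ℂ) = √2 := by
      rw [dist_eq_norm, Complex.norm_def, Complex.normSq_apply]
      congr 1
      simp; norm_num
    have e3 : dist (-1 : ℂ) (-I) = √2 := by
      rw [dist_eq_norm, Complex.norm_def, Complex.normSq_apply]
      congr 1
      simp; norm_num
    have e4 : dist (-I) (1 : ℂ) = √2 := by
      rw [dist_eq_norm, Complex.norm_def, Complex.normSq_apply]
      congr 1
      simp; norm_num
    have e5 : dist (1 : ℂ) (-1) = √4 := by
      rw [dist_eq_norm, Complex.norm_def, Complex.normSq_apply]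
      congr 1
      simp; norm_num
    have e6 : dist I (-I) = √4 := by
      rw [dist_eq_norm, Complex.norm_def, Complex.normSq_apply]
      congr 1
      simp; norm_num
    refine ⟨?_, by rw [e1, e2], by rw [e2, e3], by rw [e3, e4], by rw [e5, e6]⟩
    intro e
    have := congrArg Complex.re e
    norm_num at this

private lemma dq_nonneg (A B C D : ℂ) : 0 ≤ sigma4 A B C D := by
  unfold sigma4
  refine Real.sInf_nonneg ?_
  rintro s ⟨u, -, -, h1, rfl⟩
  refine div_nonneg ?_ h1.le
  exact integral_nonneg fun z => by positivity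

theorem main4 {p : ℕ → ℂ} {Om : Set ℂ} (h : Poly 4 p) (hR : Reg p Om) :
    sig 4 p Om * √(area Om) ≤ sig 4 (seqZ (reg 4)) (regR 4) * √(area (regR 4)) := by
  obtain ⟨A, B, C, D, hc, h1, h2⟩ := four_le h hR
  obtain ⟨e1, e2, hsq⟩ := four_reg
  have h3 := (Pool.Agent.H32.Q4.area4_main hc hsq).1
  rw [e1, e2] at h3
  exact (mul_le_mul h1 (Real.sqrt_le_sqrt h2) (Real.sqrt_nonneg _) (dq_nonneg A B C D)).trans h3

end Pool.Agent.H45.SN
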