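import Pool.Agent.H32.SG.BrD
import Pool.Agent.H45.SN.DH
import Pool.Agent.H32.SG.Basic
import Pool.Agent.H32.SG.Ray
import Pool.Agent.H32.SG.Sim
import Pool.Agent.H32.Stek.Main

set_option autoImplicit false

/-! Steklov, part D: triangles (`n = 3`), from `Pool.Agent.H32.Stek.area_main`.

PROOFS. `three_sub`: if the polygon `p` with `3` vertices is simple then the vertices are affinely independent: if they
lie on a line, one of them is between the other two (or two coincide, excluded), and then this vertex lies on the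
opposite side, which contradicts `meet`. `three_omega`: the closed triangle `T = tri (p 0) (p 1) (p 2)` is convex, contains the
sides; a point of `Om` outside `T`: choose `c ∈ T` (say `c = p 0`); `star_cover` of DH.lean gives `Om ⊆ T`. Then (`sig_mono`, `test_exists`, `area_mono`)
`sig 3 p Om ≤ sigma1 (p 0) (p 1) (p 2)` (the boundary integrals are the same, the energy over `Om` is at most the
energy over `T`; for `C¹` functions the integrand is integrable on the compact `T`; the set in `sigma1` is not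
empty), and `area Om ≤ area T`. For the regular triangle: `regR 3` is the interior of the convex hull, its closure
differs from it by a null set (`Convex.addHaar_frontier`), so `sigma1 = sig 3` and the areas agree; the three
distances are `√3`. -/

open Complex MeasureTheory Finset

namespace Pool.Agent.H45.SN

open Pool.Agent.H32.SG (sig area Poly Reg seqZ)
open Pool.Agent.H32.Stek (sigma1 tri)

theorem three_indep {p : ℕ → ℂ} (h : Poly 3 p) : AffineIndependent ℝ ![p 0, p 1, p 2] := by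
  rw [affineIndependent_iff_not_collinear_set]
  intro hcol
  have h3 : p 3 = p 0 := h.per 0
  have n01 : p 0 ≠ p 1 := h.ne 0
  have n12 : p 1 ≠ p 2 := h.ne 1
  have n20 : p 2 ≠ p 0 := h3 ▸ h.ne 2
  rcases hcol.wbtw_or_wbtw_or_wbtw with hw | hw | hw
  · have hw' : p 1 ∈ segment ℝ (p 2) (p (2 + 1)) := by
      rw [show (2 + 1 : ℕ) = 3 from rfl, h3, segment_symm, ← affineSegment_eq_segment]
      exact hw
    rcases h.meet 0 2 (by norm_num) (by norm_num) (p 1) (right_mem_segment ℝ _ _) hw' with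
      ⟨h1, -⟩ | ⟨-, -, h1⟩
    · norm_num at h1
    · exact n01 h1.symm
  · have hw' : p 2 ∈ segment ℝ (p 0) (p (0 + 1)) := by
      rw [show (0 + 1 : ℕ) = 1 from rfl, segment_symm, ← affineSegment_eq_segment]
      exact hw
    rcases h.meet 0 1 (by norm_num) (by norm_num) (p 2) hw' (right_mem_segment ℝ _ _) with
      ⟨-, h1⟩ | ⟨-, h1, -⟩
    · exact n12 h1.symm
    · norm_num at h1
  · have hw' : p 0 ∈ segment ℝ (p 1) (p (1 + 1)) := by
      rw [show (1 + 1 : ℕ) = 2 from rfl, segment_symm, ← affineSegment_eq_segment]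
      exact hw
    rcases h.meet 0 1 (by norm_num) (by norm_num) (p 0) (left_mem_segment ℝ _ _) hw' with
      ⟨-, h1⟩ | ⟨-, h1, -⟩
    · exact n01 h1
    · norm_num at h1

private lemma dt_tri_convex (P Q R : ℂ) : Convex ℝ (tri P Q R) := convex_convexHull ℝ _

private lemma dt_tri_compact (P Q R : ℂ) : IsCompact (tri P Q R) :=
  (Set.toFinite {P, Q, R}).isCompact_convexHull ℝ

private lemma dt_mem0 (P Q R : ℂ) : P ∈ tri P Q R := subset_convexHull ℝ _ (by simp)

private lemma dt_mem1 (P Q R : ℂ) : Q ∈ tri P Q R := subset_convexHull ℝ _ (by simp)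

private lemma dt_mem2 (P Q R : ℂ) : R ∈ tri P Q R := subset_convexHull ℝ _ (by simp)

theorem three_sub {p : ℕ → ℂ} {Om : Set ℂ} (h : Poly 3 p) (hR : Reg p Om) :
    Om ⊆ tri (p 0) (p 1) (p 2) := by
  have h3 : p 3 = p 0 := h.per 0
  have hc := dt_tri_convex (p 0) (p 1) (p 2)
  have m0 := dt_mem0 (p 0) (p 1) (p 2)
  have m1 := dt_mem1 (p 0) (p 1) (p 2)
  have m2 := dt_mem2 (p 0) (p 1) (p 2)
  refine star_cover hR m0 (fun x hx => hc.segment_subset m0 hx) ?_
  rw [Pool.Agent.H32.SG.bdr_eq h.pos h.per]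
  refine Set.iUnion₂_subset fun j hj => ?_
  have hj3 : j < 3 := Finset.mem_range.1 hj
  interval_cases j
  · exact hc.segment_subset m0 m1
  · exact hc.segment_subset m1 m2
  · rw [show (2 + 1 : ℕ) = 3 from rfl, h3]
    exact hc.segment_subset m2 m0

private lemma dt_bd {p : ℕ → ℂ} (h3 : p 3 = p 0) (f : ℂ → ℝ) :
    Pool.Agent.H32.SG.bd 3 p f = Pool.Agent.H32.Stek.bdInt (p 0) (p 1) (p 2) f := by
  unfold Pool.Agent.H32.SG.bd Pool.Agent.H32.Stek.bdInt
  rw [Finset.sum_range_succ, Finset.sum_range_succ, Finset.sum_range_succ, Finset.sum_range_zero,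
    zero_add, show (2 + 1 : ℕ) = 3 from rfl, h3]

theorem three_le {p : ℕ → ℂ} {Om : Set ℂ} (h : Poly 3 p) (hR : Reg p Om) :
    sig 3 p Om ≤ sigma1 (p 0) (p 1) (p 2) ∧
      area Om ≤ Pool.Agent.H32.Stek.area (p 0) (p 1) (p 2) := by
  have h3 : p 3 = p 0 := h.per 0
  refine ⟨?_, area_mono (three_sub h hR) (dt_tri_compact _ _ _)⟩
  refine (sig_mono (three_sub h hR) hR.op.measurableSet (dt_tri_compact _ _ _)
    (test_exists h)).trans (le_of_eq ?_)
  unfold sigma1 Pool.Agent.H32.Stek.energy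
  simp only [dt_bd h3]

private lemma dt_range : Set.range (reg 3) = {reg 3 0, reg 3 1, reg 3 2} := by
  ext z
  simp only [Set.mem_range, Set.mem_insert_iff, Set.mem_singleton_iff]
  constructor
  · rintro ⟨j, rfl⟩
    fin_cases j
    · exact Or.inl rfl
    · exact Or.inr (Or.inl rfl)
    · exact Or.inr (Or.inr rfl)
  · rintro (rfl | rfl | rfl)
    · exact ⟨0, rfl⟩
    · exact ⟨1, rfl⟩
    · exact ⟨2, rfl⟩

private lemma dt_ae : regR 3 =ᵐ[volume] tri (reg 3 0) (reg 3 1) (reg 3 2) := by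
  unfold regR tri
  rw [dt_range]
  exact interior_ae_eq_of_null_frontier ((convex_convexHull ℝ _).addHaar_frontier volume)

private lemma dt_reg (j : ZMod 3) : reg 3 j = Complex.exp (2 * Real.pi * I / (3 : ℕ)) ^ j.val := by
  unfold reg
  rw [← Complex.exp_nat_mul]
  congr 1
  push_cast
  ring

theorem three_reg : sigma1 (reg 3 0) (reg 3 1) (reg 3 2) =
      sig 3 (seqZ (reg 3)) (regR 3) ∧
    Pool.Agent.H32.Stek.area (reg 3 0) (reg 3 1) (reg 3 2) = area (regR 3) ∧
    dist (reg 3 0) (reg 3 1) = dist (reg 3 1) (reg 3 2) ∧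
    dist (reg 3 1) (reg 3 2) = dist (reg 3 2) (reg 3 0) ∧ reg 3 0 ≠ reg 3 1 := by
  have hw := Complex.isPrimitiveRoot_exp 3 (by norm_num)
  set w : ℂ := Complex.exp (2 * Real.pi * I / (3 : ℕ)) with hwdef
  have r0 : reg 3 0 = 1 := by rw [dt_reg]; exact pow_zero _
  have r1 : reg 3 1 = w := by rw [dt_reg]; exact pow_one _
  have r2 : reg 3 2 = w ^ 2 := by rw [dt_reg]; rfl
  have hn : ‖w‖ = 1 := hw.norm'_eq_one (by norm_num)
  have h3 : w ^ 3 = 1 := hw.pow_eq_one
  have d01 : dist (1 : ℂ) w = ‖1 - w‖ := Complex.dist_eq _ _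
  have d12 : dist w (w ^ 2) = ‖1 - w‖ := by
    rw [Complex.dist_eq, show w - w ^ 2 = w * (1 - w) by ring, norm_mul, hn, one_mul]
  have d20 : dist (w ^ 2) (1 : ℂ) = ‖1 - w‖ := by
    rw [Complex.dist_eq, show w ^ 2 - 1 = w ^ 2 * (1 - w) by linear_combination h3, norm_mul,
      norm_pow, hn, one_pow, one_mul]
  refine ⟨?_, ?_, ?_, ?_, ?_⟩
  · have hs3 : seqZ (reg 3) 3 = seqZ (reg 3) 0 := by
      unfold seqZ
      congr 1
    have e0 : seqZ (reg 3) 0 = reg 3 0 := by
      unfold seqZ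
      congr 1
    have e1 : seqZ (reg 3) 1 = reg 3 1 := by
      unfold seqZ
      congr 1
    have e2 : seqZ (reg 3) 2 = reg 3 2 := by
      unfold seqZ
      congr 1
    unfold sigma1 sig Pool.Agent.H32.Stek.energy Pool.Agent.H32.SG.en
    simp only [dt_bd hs3, e0, e1, e2]
    have he : ∀ u : ℂ → ℝ, (∫ z in regR 3, ‖Pool.Agent.H32.Stek.grad u z‖ ^ 2) =
        ∫ z in tri (reg 3 0) (reg 3 1) (reg 3 2), ‖Pool.Agent.H32.Stek.grad u z‖ ^ 2 :=
      fun u => setIntegral_congr_set dt_ae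
    simp only [he]
  · unfold Pool.Agent.H32.Stek.area area
    rw [measure_congr dt_ae]
  · rw [r0, r1, r2, d01, d12]
  · rw [r0, r1, r2, d12, d20]
  · rw [r0, r1]
    exact (hw.ne_one (by norm_num)).symm

private lemma dt_sigma_nonneg (P Q R : ℂ) : 0 ≤ sigma1 P Q R := by
  unfold sigma1
  refine Real.sInf_nonneg ?_
  rintro s ⟨u, -, -, h, rfl⟩
  refine div_nonneg ?_ h.le
  unfold Pool.Agent.H32.Stek.energy
  exact integral_nonneg fun z => sq_nonneg _

theorem main3 {p : ℕ → ℂ} {Om : Set ℂ} (h : Poly 3 p) (hR : Reg p Om) :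
    sig 3 p Om * √(area Om) ≤ sig 3 (seqZ (reg 3)) (regR 3) * √(area (regR 3)) := by
  obtain ⟨h1, h2⟩ := three_le h hR
  obtain ⟨g1, g2, g3, g4, g5⟩ := three_reg
  have hm := (Pool.Agent.H32.Stek.area_main (three_indep h) ⟨g3, g4, g5⟩).1
  rw [g1, g2] at hm
  refine le_trans ?_ hm
  exact mul_le_mul h1 (Real.sqrt_le_sqrt h2) (Real.sqrt_nonneg _) (dt_sigma_nonneg _ _ _)

end Pool.Agent.H45.SN
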