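import Pool.Agent.H45.SN.DE
import Pool.Agent.H37.ST.Uni

set_option autoImplicit false

/-! Steklov, part D: the regular polygon is a simple polygon and `regR n` is its region. -/

open Complex MeasureTheory Finset

namespace Pool.Agent.H45.SN

open Pool.Agent.H32.SG (Poly Reg seqZ om_pow norm_om om_eq tn_pos mem_seg)
open Pool.Agent.H37.ST (rg Up dis_cone rg_eq)

private theorem ro_conj (n k : ℕ) : (starRingEnd ℂ) (Pool.Agent.H32.SG.om n ^ k) * Pool.Agent.H32.SG.om n ^ k = 1 := by
  have h := Complex.normSq_eq_conj_mul_self (z := Pool.Agent.H32.SG.om n ^ k)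
  rw [← h, Complex.normSq_eq_norm_sq, norm_pow, norm_om]
  norm_num

private theorem ro_prim {n : ℕ} (hn : 0 < n) : IsPrimitiveRoot (Pool.Agent.H32.SG.om n) n := by
  unfold Pool.Agent.H32.SG.om
  exact Complex.isPrimitiveRoot_exp n hn.ne'

/-- a point of the side `j` is `(1 + s i) om ^ j` with `|s| ≤ t`, and for `|s| = t` it is an end point -/
private theorem ro_side {n : ℕ} (hn : 3 ≤ n) {j : ℕ} {z : ℂ}
    (hz : z ∈ segment ℝ (rg n j) (rg n (j + 1))) : ∃ s : ℝ, |s| ≤ Pool.Agent.H32.SG.tn n ∧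
      z = (1 + (s : ℂ) * I) * Pool.Agent.H32.SG.om n ^ j ∧
      (|s| = Pool.Agent.H32.SG.tn n → z = rg n j ∨ z = rg n (j + 1)) := by
  obtain ⟨a, h0, h1, rfl⟩ := mem_seg.mp hz
  have ht := tn_pos hn
  have hne : rg n (j + 1) = (1 + Pool.Agent.H32.SG.tn n * I) * Pool.Agent.H32.SG.om n ^ j := rg_eq hn j
  refine ⟨(2 * a - 1) * Pool.Agent.H32.SG.tn n, ?_, ?_, ?_⟩
  · rw [abs_mul, abs_of_pos ht]
    have : |2 * a - 1| ≤ 1 := abs_le.mpr ⟨by linarith, by linarith⟩
    nlinarith
  · rw [hne]
    unfold rg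
    push_cast
    ring
  · intro h
    rw [abs_mul, abs_of_pos ht] at h
    have h2 : |2 * a - 1| = 1 := by
      have h3 : (|2 * a - 1| - 1) * Pool.Agent.H32.SG.tn n = 0 := by linarith
      rcases mul_eq_zero.mp h3 with h4 | h4
      · linarith
      · exact absurd h4 ht.ne'
    rcases abs_eq (by norm_num : (0:ℝ) ≤ 1) |>.mp h2 with h3 | h3
    · right
      have : a = 1 := by linarith
      rw [this]
      push_cast
      ring
    · left
      have : a = 0 := by linarith
      rw [this]
      push_cast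
      ring

private theorem ro_end {n : ℕ} (hn : 3 ≤ n) {m : ℕ} (hm0 : 1 ≤ m) (hm : m < n) {s s' : ℝ}
    (hs' : |s'| ≤ Pool.Agent.H32.SG.tn n)
    (h : (1 + (s : ℂ) * I) = Pool.Agent.H32.SG.om n ^ m * (1 + (s' : ℂ) * I)) :
    |s'| = Pool.Agent.H32.SG.tn n := by
  rcases hs'.eq_or_lt with h1 | h1
  · exact h1
  · exfalso
    have h2 := dis_cone hn (ζ := 1 + (s' : ℂ) * I) (by simpa using h1) hm0 hm
    rw [← h] at h2
    simp at h2

private theorem ro_inj {n : ℕ} (hn : 3 ≤ n) {i j : ℕ} (hi : i < n) (hj : j < n)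
    (h : rg n i = rg n j) : i = j := by
  have hne : (1 - Pool.Agent.H32.SG.tn n * I : ℂ) ≠ 0 := by
    intro h
    have h2 := congrArg Complex.re h
    simp at h2
  unfold rg at h
  exact (ro_prim (by omega)).pow_inj hi hj (mul_left_cancel₀ hne h)

private theorem ro_zero {n : ℕ} (hn : 3 ≤ n) : rg n n = rg n 0 := by
  unfold rg
  rw [om_pow (by omega), pow_zero]

theorem poly_rg {n : ℕ} (hn : 3 ≤ n) : Poly n (rg n) where
  three := hn
  per j := by
    unfold rg
    rw [pow_add, om_pow (by omega), mul_one]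
  ne j := by
    intro h
    rw [rg_eq hn j] at h
    unfold rg at h
    have hom : Pool.Agent.H32.SG.om n ^ j ≠ 0 := by
      apply pow_ne_zero
      intro h0
      have := norm_om n
      rw [h0, norm_zero] at this
      exact zero_ne_one this
    have h2 := congrArg Complex.im (mul_right_cancel₀ hom h)
    have h3 := tn_pos hn
    simp at h2
    linarith
  meet i j hij hj z hz1 hz2 := by
    have hi : i < n := hij.trans hj
    obtain ⟨s, hs, e1, f1⟩ := ro_side hn hz1
    obtain ⟨s', hs', e2, f2⟩ := ro_side hn hz2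
    have hc := ro_conj n i
    have k1 : (1 + (s : ℂ) * I) = Pool.Agent.H32.SG.om n ^ (j - i) * (1 + (s' : ℂ) * I) := by
      have h3 : (1 + (s : ℂ) * I) * Pool.Agent.H32.SG.om n ^ i =
          (Pool.Agent.H32.SG.om n ^ (j - i) * (1 + (s' : ℂ) * I)) * Pool.Agent.H32.SG.om n ^ i := by
        rw [← e1, e2]
        have : Pool.Agent.H32.SG.om n ^ j = Pool.Agent.H32.SG.om n ^ (j - i) * Pool.Agent.H32.SG.om n ^ i := by
          rw [← pow_add]
          congr 1
          omega
        rw [this]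
        ring
      have h4 : Pool.Agent.H32.SG.om n ^ i ≠ 0 := right_ne_zero_of_mul_eq_one hc
      exact mul_right_cancel₀ h4 h3
    have k2 : (1 + (s' : ℂ) * I) = Pool.Agent.H32.SG.om n ^ (n - (j - i)) * (1 + (s : ℂ) * I) := by
      rw [k1, ← mul_assoc, ← pow_add]
      have : n - (j - i) + (j - i) = n := by omega
      rw [this, om_pow (by omega), one_mul]
    have g2 := f2 (ro_end hn (by omega) (by omega) hs' k1)
    have g1 := f1 (ro_end hn (by omega) (by omega) hs k2)
    rcases g1 with g1 | g1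
    · rcases g2 with g2 | g2
      · exact absurd (ro_inj hn hi hj (g1.symm.trans g2)) (by omega)
      · rcases Nat.lt_or_ge (j + 1) n with h | h
        · have := ro_inj hn hi h (g1.symm.trans g2)
          omega
        · have h5 : j + 1 = n := by omega
          rw [h5, ro_zero hn] at g2
          have h6 := ro_inj hn hi (by omega) (g1.symm.trans g2)
          subst h6
          exact Or.inr ⟨rfl, h5, g1⟩
    · rcases g2 with g2 | g2
      · have h7 := ro_inj hn (by omega : i + 1 < n) hj (g1.symm.trans g2)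
        exact Or.inl ⟨h7.symm, g2⟩
      · rcases Nat.lt_or_ge (j + 1) n with h | h
        · have := ro_inj hn (by omega : i + 1 < n) h (g1.symm.trans g2)
          omega
        · have h5 : j + 1 = n := by omega
          rw [h5, ro_zero hn] at g2
          have h6 := ro_inj hn (by omega : i + 1 < n) (by omega) (g1.symm.trans g2)
          omega

/-- converse of `poly_of_simple` -/
theorem simple_of_poly {n : ℕ} [NeZero n] {p : ZMod n → ℂ} (h : Poly n (seqZ p)) : Simple p := by
  have hsg : ∀ j : ZMod n, side p j = segment ℝ (seqZ p j.val) (seqZ p (j.val + 1)) := by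
    intro j
    rw [Pool.Agent.H32.SG.seqZ_succ]
    simp [side, seqZ]
  refine ⟨?_, ?_⟩
  · intro j
    have := h.ne j.val
    rw [Pool.Agent.H32.SG.seqZ_succ] at this
    simpa [seqZ] using this
  · have key : ∀ i j : ZMod n, i.val < j.val → ∀ x ∈ side p i, x ∈ side p j →
        (j = i + 1 ∧ x = p j) ∨ (i = j + 1 ∧ x = p i) := by
      intro i j hij x hx1 hx2
      rw [hsg] at hx1 hx2
      rcases h.meet i.val j.val hij (ZMod.val_lt j) x hx1 hx2 with ⟨h1, h2⟩ | ⟨h1, h2, h3⟩
      · left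
        refine ⟨?_, ?_⟩
        · have h4 := congrArg (fun k : ℕ => (k : ZMod n)) h1
          simpa using h4
        · rw [h2]
          simp [seqZ]
      · right
        have hi0 : i = 0 := (ZMod.val_eq_zero i).mp h1
        refine ⟨?_, ?_⟩
        · have h4 := congrArg (fun k : ℕ => (k : ZMod n)) h2
          simp at h4
          rw [hi0, h4]
        · rw [h3, hi0]
          simp [seqZ]
    intro i j hij x hx1 hx2
    rcases lt_trichotomy i.val j.val with hlt | heq | hgt
    · exact key i j hlt x hx1 hx2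
    · exact absurd (ZMod.val_injective n heq) hij
    · rcases key j i hgt x hx2 hx1 with h1 | h1
      · exact Or.inr h1
      · exact Or.inl h1

private theorem ro_ne (n : ℕ) : (1 - tn n * I : ℂ) ≠ 0 := by
  intro h
  have h2 := congrArg Complex.re h
  simp at h2

private theorem ro_range {n : ℕ} [NeZero n] (hn : 0 < n) :
    Set.range (rv n) = (fun z => (1 - tn n * I) * z) '' Set.range (reg n) := by
  ext z
  constructor
  · rintro ⟨j, rfl⟩
    exact ⟨reg n (j : ZMod n), ⟨_, rfl⟩, (rv_reg hn j).symm⟩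
  · rintro ⟨_, ⟨j, rfl⟩, rfl⟩
    refine ⟨j.val, ?_⟩
    rw [rv_reg hn]
    simp [seqZ]

theorem RR_reg' {n : ℕ} [NeZero n] (hn : 3 ≤ n) :
    RR n = (fun z => (1 - tn n * I) * z) '' regR n := by
  have hn0 : 0 < n := by omega
  have e1 : (fun z : ℂ => (1 - tn n * I) * z) = (Homeomorph.mulLeft₀ _ (ro_ne n) : ℂ → ℂ) := by
    funext z
    simp
  have e2 : (Homeomorph.mulLeft₀ _ (ro_ne n) : ℂ → ℂ) =
      (LinearMap.mulLeft ℝ (1 - tn n * I : ℂ) : ℂ → ℂ) := by
    funext z
    rfl
  have e3 : (fun z => (1 - tn n * I) * z) = (LinearMap.mulLeft ℝ (1 - tn n * I : ℂ) : ℂ → ℂ) := by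
    funext z
    rfl
  unfold RR regR
  rw [e1, Homeomorph.image_interior, e2, LinearMap.image_convexHull, ro_range hn0, e3]

private theorem ro_seq {n : ℕ} (hn : 3 ≤ n) :
    (fun j => (1 - tn n * I : ℂ)⁻¹ * rg n j + 0) = seqZ (reg n) := by
  funext j
  have h : rg n j = (1 - tn n * I) * seqZ (reg n) j := rv_reg (by omega) j
  rw [h, add_zero, ← mul_assoc, inv_mul_cancel₀ (ro_ne n), one_mul]

theorem reg_simple {n : ℕ} [NeZero n] (hn : 3 ≤ n) : Simple (reg n) := by
  apply simple_of_poly
  rw [← ro_seq hn]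
  exact Pool.Agent.H32.SG.sim_poly (inv_ne_zero (ro_ne n)) 0 (poly_rg hn)

theorem reg_region {n : ℕ} [NeZero n] (hn : 3 ≤ n) : Region (reg n) (regR n) := by
  apply Pool.Agent.H32.SG.region_of_reg
  rw [← ro_seq hn]
  have h1 := Pool.Agent.H32.SG.sim_reg (inv_ne_zero (ro_ne n)) 0 (Pool.Agent.H37.ST.reg_up hn)
  have h2 : (fun z => (1 - tn n * I : ℂ)⁻¹ * z + 0) '' Up n = regR n := by
    rw [← Pool.Agent.H37.ST.RR_eq hn, RR_reg' hn, Set.image_image]
    have h3 : ∀ z : ℂ, (1 - tn n * I : ℂ)⁻¹ * ((1 - tn n * I) * z) + 0 = z := by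
      intro z
      rw [add_zero, ← mul_assoc, inv_mul_cancel₀ (ro_ne n), one_mul]
    simp only [h3, Set.image_id']
  rwa [h2] at h1

end Pool.Agent.H45.SN
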