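import Pool.Agent.H45.SN.DD
import Pool.Agent.H45.SN.DT
import Pool.Agent.H45.SN.DQ
import Pool.Agent.H32.SG.BrD
import Pool.Agent.H45.SN.RegOK

set_option autoImplicit false

/-! Steklov eigenvalue of simple polygons: the final theorem. -/

open Complex MeasureTheory Finset Filter Topology

namespace Pool.Agent.H45.SN

open Pool.Agent.H32.SG (sig area Poly Reg seqZ)

theorem final {n : ℕ} [NeZero n] (hn : 3 ≤ n) :
    Simple (reg n) ∧ Region (reg n) (regR n) ∧
    ∀ (p : ZMod n → ℂ) (Ω : Set ℂ), Simple p → Region p Ω →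
      sigP p Ω * √(volume Ω).toReal ≤ sigP (reg n) (regR n) * √(volume (regR n)).toReal := by
  refine ⟨reg_simple hn, reg_region hn, ?_⟩
  intro p Ω hp hΩ
  have hP : Poly n (seqZ p) := Pool.Agent.H32.SG.poly_of_simple hn hp
  have hR : Reg (seqZ p) Ω := Pool.Agent.H32.SG.reg_of_region hΩ
  rw [Pool.Agent.H32.SG.sigP_eq, Pool.Agent.H32.SG.sigP_eq]
  show sig n (seqZ p) Ω * √(area Ω) ≤ sig n (seqZ (reg n)) (regR n) * √(area (regR n))
  rcases Nat.lt_or_ge n 5 with h | h
  · interval_cases n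
    · exact main3 hP hR
    · exact main4 hP hR
  · have h1 := main5 h hP hR
    rwa [reg_scale h] at h1

end Pool.Agent.H45.SN
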