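import Pool.Agent.H45.SN.K2

set_option autoImplicit false

/-! Steklov, part A: `K_num` for `n = 5, 6, 7`. See `K2.lean`. With `A* = yo³/1.7`:
`n = 5`: `τ = 5 - 2√5`, `Qh = 1/3 + 19τ/45 + 16τ²/27 = 0.721330`, left side about `0.735`;
`n = 6`: `τ = 1/3`, `Qh = 1/3 + 26τ/45 + 25τ²/27 = 0.628807`; `n = 7`: `Qh = 1/3 + 35τ/45 + 36τ²/27`. -/

open Finset

namespace Pool.Agent.H45.SN

theorem K3_k0_le : k0 ≤ 0.634 := by
  have h3 : (0 : ℝ) < √3 := Real.sqrt_pos.mpr (by norm_num)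
  have h : √3 ≤ 1.732051 := by
    rw [Real.sqrt_le_left (by norm_num)]; norm_num
  have h1 : (1 : ℝ) / 1.732051 ≤ 1 / √3 := one_div_le_one_div_of_le h3 h
  unfold k0
  norm_num at h1 ⊢
  linarith

theorem K3_e2_le {t b E : ℝ} (hb : t ^ 2 ≤ b) (hE : 0 ≤ E)
    (h : b * (1 + b) ≤ 6 * E ^ 2) : e2 t ≤ E := by
  have h6 : (0 : ℝ) < √6 := Real.sqrt_pos.mpr (by norm_num)
  unfold e2
  rw [div_le_iff₀ h6]
  have ht2 : 0 ≤ t ^ 2 := sq_nonneg t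
  have h1 : (0 : ℝ) ≤ 1 + t ^ 2 := by linarith
  apply le_of_sq_le_sq _ (mul_nonneg hE h6.le)
  rw [mul_pow, mul_pow, Real.sq_sqrt h1, Real.sq_sqrt (by norm_num)]
  nlinarith

theorem K3_aux {t a b E Y A Q B : ℝ} (n : ℕ) (hn : 5 ≤ n) (ha : a ≤ t ^ 2) (hb : t ^ 2 ≤ b)
    (ha0 : 0 ≤ a) (hE : e2 t ≤ E) (hY : Y = 1 + a / 3) (hA : 1.7 * A = Y ^ 3)
    (hQ : 1 / 3 + b * (14 - 4 * n + (n : ℝ) ^ 2) / 45 + ((n : ℝ) - 1) ^ 2 * b ^ 2 / 27 ≤ Q)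
    (hB : B ≤ Y + A * a / (2 * n) - E - 0.634 * Q / n) (hB0 : 0 ≤ B) (hAB : Q < A * B) :
    Qh n t < yo t ^ 3 / 1.7 * (yo t + yo t ^ 3 / 1.7 * t ^ 2 / (2 * n) - e2 t -
      k0 * Qh n t / n) := by
  have hn' : (5 : ℝ) ≤ n := by exact_mod_cast hn
  have hnpos : (0 : ℝ) < n := by linarith
  have hYy : Y ≤ yo t := by unfold yo; linarith
  have hY0 : 0 ≤ Y := by linarith
  have hA' : A ≤ yo t ^ 3 / 1.7 := by
    rw [le_div_iff₀ (by norm_num)]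
    have := pow_le_pow_left₀ hY0 hYy 3
    linarith
  have hA0 : 0 ≤ A := by
    have : 0 ≤ Y ^ 3 := by positivity
    linarith
  have hQh : Qh n t ≤ Q := by
    refine le_trans ?_ hQ
    unfold Qh
    have h1 : 0 ≤ 14 - 4 * (n : ℝ) + (n : ℝ) ^ 2 := by nlinarith [sq_nonneg ((n : ℝ) - 2)]
    have h2 : t ^ 2 * (14 - 4 * (n : ℝ) + (n : ℝ) ^ 2) ≤ b * (14 - 4 * (n : ℝ) + (n : ℝ) ^ 2) :=
      mul_le_mul_of_nonneg_right hb h1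
    have h3 : t ^ 4 ≤ b ^ 2 := by
      have := pow_le_pow_left₀ (sq_nonneg t) hb 2
      calc t ^ 4 = (t ^ 2) ^ 2 := by ring
        _ ≤ b ^ 2 := this
    have h4 : ((n : ℝ) - 1) ^ 2 * t ^ 4 ≤ ((n : ℝ) - 1) ^ 2 * b ^ 2 :=
      mul_le_mul_of_nonneg_left h3 (sq_nonneg _)
    linarith
  have hQh0 : 0 ≤ Qh n t := by
    unfold Qh
    have h1 : 0 ≤ 14 - 4 * (n : ℝ) + (n : ℝ) ^ 2 := by nlinarith [sq_nonneg ((n : ℝ) - 2)]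
    have h2 : 0 ≤ t ^ 2 * (14 - 4 * (n : ℝ) + (n : ℝ) ^ 2) := mul_nonneg (sq_nonneg t) h1
    have h4 : 0 ≤ ((n : ℝ) - 1) ^ 2 * t ^ 4 := by positivity
    linarith
  have hk : k0 * Qh n t / n ≤ 0.634 * Q / n := by
    apply div_le_div_of_nonneg_right _ hnpos.le
    exact mul_le_mul K3_k0_le hQh hQh0 (by norm_num)
  have hAa : A * a / (2 * n) ≤ yo t ^ 3 / 1.7 * t ^ 2 / (2 * n) := by
    apply div_le_div_of_nonneg_right _ (by positivity)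
    exact mul_le_mul hA' ha ha0 (le_trans hA0 hA')
  have hBr : B ≤ yo t + yo t ^ 3 / 1.7 * t ^ 2 / (2 * n) - e2 t - k0 * Qh n t / n := by
    linarith
  calc Qh n t ≤ Q := hQh
    _ < A * B := hAB
    _ ≤ _ := mul_le_mul hA' hBr hB0 (le_trans hA0 hA')

theorem K_num5 : Qh 5 (tn 5) < yo (tn 5) ^ 3 / 1.7 * (yo (tn 5) +
    yo (tn 5) ^ 3 / 1.7 * tn 5 ^ 2 / (2 * (5 : ℕ)) - e2 (tn 5) - k0 * Qh 5 (tn 5) / (5 : ℕ)) := by
  have hE : e2 (tn 5) ≤ 0.36664 :=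
    K3_e2_le (nt_sq_le (le_refl 5)) (by norm_num) (by norm_num)
  refine K3_aux (a := 0.52786) (b := 0.52787) (E := 0.36664) (Y := 1 + 0.52786 / 3)
    (A := (1 + 0.52786 / 3) ^ 3 / 1.7) (Q := 0.7214) (B := 0.768) 5 (le_refl 5)
    nt_sq_five (nt_sq_le (le_refl 5)) (by norm_num) hE rfl (by norm_num) (by norm_num)
    (by norm_num) (by norm_num) (by norm_num)

theorem K_num6 : Qh 6 (tn 6) < yo (tn 6) ^ 3 / 1.7 * (yo (tn 6) +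
    yo (tn 6) ^ 3 / 1.7 * tn 6 ^ 2 / (2 * (6 : ℕ)) - e2 (tn 6) - k0 * Qh 6 (tn 6) / (6 : ℕ)) := by
  have hE : e2 (tn 6) ≤ 0.27217 :=
    K3_e2_le (le_of_eq nt_six) (by norm_num) (by norm_num)
  refine K3_aux (a := 1 / 3) (b := 1 / 3) (E := 0.27217) (Y := 1 + 1 / 3 / 3)
    (A := (1 + 1 / 3 / 3) ^ 3 / 1.7) (Q := 0.6289) (B := 0.794) 6 (by norm_num)
    (le_of_eq nt_six.symm) (le_of_eq nt_six) (by norm_num) hE rfl (by norm_num) (by norm_num)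
    (by norm_num) (by norm_num) (by norm_num)

theorem K_num7 : Qh 7 (tn 7) < yo (tn 7) ^ 3 / 1.7 * (yo (tn 7) +
    yo (tn 7) ^ 3 / 1.7 * tn 7 ^ 2 / (2 * (7 : ℕ)) - e2 (tn 7) - k0 * Qh 7 (tn 7) / (7 : ℕ)) := by
  have hE : e2 (tn 7) ≤ 0.21828 :=
    K3_e2_le nt_seven.1 (by norm_num) (by norm_num)
  refine K3_aux (a := 0.2318) (b := 0.232) (E := 0.21828) (Y := 1 + 0.2318 / 3)
    (A := (1 + 0.2318 / 3) ^ 3 / 1.7) (Q := 0.5856) (B := 0.818) 7 (by norm_num)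
    nt_seven.2 nt_seven.1 (by norm_num) hE rfl (by norm_num) (by norm_num)
    (by norm_num) (by norm_num) (by norm_num)

end Pool.Agent.H45.SN
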