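import Pool.Agent.H45.SN.ND

set_option autoImplicit false

/-! Steklov, part A: facts on `tn n = tan (π / n)`.

PROOFS. `0 < π/n ≤ π/5 < π/2`, `Real.tan_pos_of_pos_of_lt_pi_div_two`, `Real.arctan_tan`,
`Real.lt_tan`. `nt_mono`: `tan` is convex on `[0, π/2)` and `tan 0 = 0`, so `tan (s x) ≤ s tan x` for
`0 ≤ s ≤ 1` (`s = m/n`, `x = π/m`); or: `x ↦ tan x / x` is increasing; or with `arctan`: it is enough
that `arctan (s y) ≥ s arctan y`. `tan (π/5)^2 = 5 - 2 √5` from `Real.cos_pi_div_five`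
(`cos (π/5) = (1+√5)/4`), `tan^2 = 1/cos^2 - 1`. `tan (π/6) = 1/√3`, `tan (π/8) = √2 - 1`
(`Real.cos_pi_div_eight`, or `tan (2x) = 2 tan x/(1 - tan² x)`). -/

open Finset

namespace Pool.Agent.H45.SN

private theorem nt_arg {n : ℕ} (hn : 5 ≤ n) :
    0 < Real.pi / n ∧ Real.pi / n < Real.pi / 2 := by
  have h5 : (5 : ℝ) ≤ n := by exact_mod_cast hn
  have hpi := Real.pi_pos
  refine ⟨by positivity, ?_⟩
  exact div_lt_div_of_pos_left hpi (by norm_num) (by linarith)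

theorem nt_pos {n : ℕ} (hn : 5 ≤ n) : 0 < tn n := by
  unfold tn
  obtain ⟨h0, h1⟩ := nt_arg hn
  exact Real.tan_pos_of_pos_of_lt_pi_div_two h0 h1

theorem nt_arctan {n : ℕ} (hn : 5 ≤ n) : Real.arctan (tn n) = Real.pi / n := by
  unfold tn
  obtain ⟨h0, h1⟩ := nt_arg hn
  exact Real.arctan_tan (by linarith [Real.pi_pos]) h1

theorem nt_lower {n : ℕ} (hn : 5 ≤ n) : Real.pi / n ≤ tn n := by
  unfold tn
  obtain ⟨h0, h1⟩ := nt_arg hn
  exact (Real.lt_tan h0 h1).le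

private theorem tan_div_mono : MonotoneOn (fun x : ℝ => Real.tan x / x) (Set.Ioo 0 (Real.pi / 2)) := by
  have hd : ∀ x ∈ Set.Ioo (0 : ℝ) (Real.pi / 2), HasDerivAt (fun x : ℝ => Real.tan x / x)
      ((1 / Real.cos x ^ 2 * x - Real.tan x * 1) / x ^ 2) x := by
    intro x hx
    have hc : Real.cos x ≠ 0 := (Real.cos_pos_of_mem_Ioo ⟨by linarith [hx.1, Real.pi_pos], hx.2⟩).ne'
    exact (Real.hasDerivAt_tan hc).div (hasDerivAt_id x) hx.1.ne'
  refine monotoneOn_of_deriv_nonneg (convex_Ioo _ _) (fun x hx => (hd x hx).continuousAt.continuousWithinAt)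
    (fun x hx => ?_) fun x hx => ?_
  · rw [interior_Ioo] at hx
    exact (hd x hx).differentiableAt.differentiableWithinAt
  · rw [interior_Ioo] at hx
    rw [(hd x hx).deriv]
    have hc : 0 < Real.cos x := Real.cos_pos_of_mem_Ioo ⟨by linarith [hx.1, Real.pi_pos], hx.2⟩
    refine div_nonneg ?_ (sq_nonneg _)
    have h2 : Real.sin x * Real.cos x ≤ x := by
      have h3 := Real.sin_le (show (0 : ℝ) ≤ 2 * x by linarith [hx.1])
      rw [Real.sin_two_mul] at h3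
      linarith
    rw [Real.tan_eq_sin_div_cos, mul_one, sub_nonneg, div_le_iff₀ hc, div_mul_eq_mul_div, one_mul,
      div_mul_eq_mul_div, le_div_iff₀ (by positivity)]
    nlinarith

theorem nt_mono {m n : ℕ} (hm : 5 ≤ m) (h : m ≤ n) : n * tn n ≤ m * tn m := by
  have hn : 5 ≤ n := hm.trans h
  obtain ⟨m0, m1⟩ := nt_arg hm
  obtain ⟨n0, n1⟩ := nt_arg hn
  have hm5 : (0 : ℝ) < m := by exact_mod_cast (by omega : 0 < m)
  have hn5 : (0 : ℝ) < n := by exact_mod_cast (by omega : 0 < n)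
  have hpi := Real.pi_pos
  have hle : Real.pi / n ≤ Real.pi / m := by
    apply div_le_div_of_nonneg_left hpi.le hm5
    exact_mod_cast h
  have h1 := tan_div_mono ⟨n0, n1⟩ ⟨m0, m1⟩ hle
  simp only at h1
  have e : ∀ k : ℝ, 0 < k → Real.tan (Real.pi / k) / (Real.pi / k) = k * Real.tan (Real.pi / k) / Real.pi := by
    intro k hk
    field_simp
  rw [e _ hn5, e _ hm5, div_le_div_iff_of_pos_right hpi] at h1
  exact h1

theorem nt_five : tn 5 ^ 2 = 5 - 2 * √5 := by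
  unfold tn
  have h5 : √5 ^ 2 = (5 : ℝ) := Real.sq_sqrt (by norm_num)
  have hs : 0 ≤ √(5 : ℝ) := Real.sqrt_nonneg 5
  have hc : Real.cos (Real.pi / (5 : ℕ)) = (1 + √5) / 4 := by
    rw [show (Real.pi / ((5 : ℕ) : ℝ)) = Real.pi / 5 by norm_num]
    exact Real.cos_pi_div_five
  have hc0 : Real.cos (Real.pi / (5 : ℕ)) ≠ 0 := by
    rw [hc]; positivity
  have h1 : Real.tan (Real.pi / (5 : ℕ)) ^ 2 * Real.cos (Real.pi / (5 : ℕ)) ^ 2 =
      1 - Real.cos (Real.pi / (5 : ℕ)) ^ 2 := by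
    rw [Real.tan_eq_sin_div_cos, div_pow, div_mul_cancel₀ _ (pow_ne_zero 2 hc0), Real.sin_sq]
  have h2 : Real.tan (Real.pi / (5 : ℕ)) ^ 2 * Real.cos (Real.pi / (5 : ℕ)) ^ 2 =
      (5 - 2 * √5) * Real.cos (Real.pi / (5 : ℕ)) ^ 2 := by
    rw [h1, hc]
    nlinarith
  exact mul_right_cancel₀ (pow_ne_zero 2 hc0) h2

theorem nt_six : tn 6 ^ 2 = 1 / 3 := by
  unfold tn
  rw [show (Real.pi / ((6 : ℕ) : ℝ)) = Real.pi / 6 by norm_num, Real.tan_pi_div_six, div_pow,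
    Real.sq_sqrt (by norm_num), one_pow]

theorem nt_eight : tn 8 = √2 - 1 := by
  unfold tn
  rw [show (Real.pi / ((8 : ℕ) : ℝ)) = Real.pi / 8 by norm_num]
  have hpi := Real.pi_pos
  have h0 : 0 < Real.tan (Real.pi / 8) :=
    Real.tan_pos_of_pos_of_lt_pi_div_two (by positivity) (by linarith)
  have h1 : Real.tan (2 * (Real.pi / 8)) = 2 * Real.tan (Real.pi / 8) / (1 - Real.tan (Real.pi / 8) ^ 2) :=
    Real.tan_two_mul
  rw [show 2 * (Real.pi / 8) = Real.pi / 4 by ring, Real.tan_pi_div_four] at h1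
  set t := Real.tan (Real.pi / 8) with ht
  have h2 : 1 - t ^ 2 ≠ 0 := by
    intro h
    rw [h, div_zero] at h1
    norm_num at h1
  rw [eq_div_iff h2] at h1
  have h3 : (t + 1) ^ 2 = √2 ^ 2 := by
    rw [Real.sq_sqrt (by norm_num)]
    linarith
  have h4 : t + 1 = √2 := by
    have := Real.sqrt_nonneg 2
    exact (pow_left_inj₀ (by linarith) this (by norm_num)).1 h3
  linarith

end Pool.Agent.H45.SN
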