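import Pool.Agent.H45.SN.ND

set_option autoImplicit false

/-! Steklov, part A: the Lagrangian `pp` for thin sides, first lower bound.

PROOF. Put `F(q) = pp t q - yo t * (t²(1+2t²/3)(t-q) - (1+5t²/3)(t³-q³)/3 + (t⁵-q⁵)/5)`; `F(t) = 0`
(`9 yo³ t/(3+t²)² = yo t`). With `Q = q²`, `τ = t²`, `b = 1 + τ/3`, `a = 1 + Q/3`:
`pp' (q) = (1-τ²)/(1+Q) - b³(1-Q²)/((1+Q) a³)` and
`F'(q) = pp'(q) + b (τ - Q)(1 + 2τ/3 - Q)`. Claim `F' ≤ 0` on `[0,t]`; then `F(q) ≥ F(t) = 0`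
(`antitoneOn_of_deriv_nonpos`). Claim in polynomial form, `0 ≤ Q ≤ τ ≤ 0.5279`:
`(1-τ²) a³ + b (τ-Q)(1+2τ/3-Q)(1+Q) a³ ≤ b³ (1-Q²)`.
(`b³(1-Q²) - (1-τ²)a³ = (b³-a³) + τ² a³ - Q² b³`, divisible by `τ - Q`; write `τ = Q + s`, `s ≥ 0`. The
ratio of the two sides `[b³(1-Q²) - (1-τ²)a³] / (b (τ-Q)(1+2τ/3-Q)(1+Q) a³)` is between `1` and `1.01`
near `τ = 0`, numerically the minimum is `1.0009` at `τ = 0.0026`, more for larger `τ`: the quotient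
minus 1 is of order `τ`.) -/

open Finset

namespace Pool.Agent.H45.SN

private theorem PA_E {Q s : ℝ} (hQ : 0 ≤ Q) (hs : 0 ≤ s) (h : Q + s ≤ 0.5279) :
    0 ≤ s / 3 - 5 * s ^ 2 / 27 + 2 * Q / 3 - Q * s - 4 * (Q * s ^ 2) / 9 - Q ^ 2 / 9
      - 14 * (Q ^ 2 * s) / 9 - (Q ^ 2 * s ^ 2) / 3 - 4 * Q ^ 3 / 27 - 16 * (Q ^ 3 * s) / 27
      - 20 * (Q ^ 3 * s ^ 2) / 243 + 2 * Q ^ 4 / 27 - 19 * (Q ^ 4 * s) / 243
      - 2 * (Q ^ 4 * s ^ 2) / 243 + 10 * Q ^ 5 / 243 - (Q ^ 5 * s) / 243 + Q ^ 6 / 243 := by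
  have hQ1 : Q ≤ 0.5279 := by linarith
  have hs1 : s ≤ 0.5279 := by linarith
  have p0 : 0 ≤ Q * s := mul_nonneg hQ hs
  have pQ : ∀ x : ℝ, 0 ≤ x → Q * x ≤ 0.5279 * x := fun x hx => mul_le_mul_of_nonneg_right hQ1 hx
  have ps : ∀ x : ℝ, 0 ≤ x → s * x ≤ 0.5279 * x := fun x hx => mul_le_mul_of_nonneg_right hs1 hx
  have a1 : Q * s ^ 2 ≤ 0.5279 * (Q * s) := by
    have := ps (Q * s) p0
    nlinarith
  have a2 : Q ^ 2 * s ≤ 0.5279 * (Q * s) := by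
    have := pQ (Q * s) p0
    nlinarith
  have a3 : Q ^ 2 * s ^ 2 ≤ 0.5279 ^ 2 * (Q * s) := by
    have h1 := pQ (Q * s ^ 2) (by positivity)
    nlinarith
  have a4 : Q ^ 3 * s ≤ 0.5279 ^ 2 * (Q * s) := by
    have h1 := pQ (Q ^ 2 * s) (by positivity)
    nlinarith
  have a5 : Q ^ 3 * s ^ 2 ≤ 0.5279 ^ 3 * (Q * s) := by
    have h1 := pQ (Q ^ 2 * s ^ 2) (by positivity)
    nlinarith
  have a6 : Q ^ 4 * s ≤ 0.5279 ^ 3 * (Q * s) := by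
    have h1 := pQ (Q ^ 3 * s) (by positivity)
    nlinarith
  have a7 : Q ^ 4 * s ^ 2 ≤ 0.5279 ^ 4 * (Q * s) := by
    have h1 := pQ (Q ^ 3 * s ^ 2) (by positivity)
    nlinarith
  have a8 : Q ^ 5 * s ≤ 0.5279 ^ 4 * (Q * s) := by
    have h1 := pQ (Q ^ 4 * s) (by positivity)
    nlinarith
  have a9 : Q ^ 3 ≤ 0.5279 * Q ^ 2 := by
    have h1 := pQ (Q ^ 2) (by positivity)
    nlinarith
  have b1 : 0 ≤ Q ^ 4 := by positivity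
  have b2 : 0 ≤ Q ^ 5 := by positivity
  have b3 : 0 ≤ Q ^ 6 := by positivity
  have c1 : s * (Q + s) ≤ 0.5279 * s := by nlinarith
  have c2 : Q * (Q + s) ≤ 0.5279 * Q := by nlinarith
  have c3 : 0 ≤ (s - Q) ^ 2 := sq_nonneg _
  norm_num at a1 a2 a3 a4 a5 a6 a7 a8 a9
  nlinarith

theorem pp_poly {τ Q : ℝ} (h0 : 0 ≤ Q) (h1 : Q ≤ τ) (h2 : τ ≤ 0.5279) :
    (1 - τ ^ 2) * (1 + Q / 3) ^ 3 +
      (1 + τ / 3) * (τ - Q) * (1 + 2 * τ / 3 - Q) * (1 + Q) * (1 + Q / 3) ^ 3 ≤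
      (1 + τ / 3) ^ 3 * (1 - Q ^ 2) := by
  obtain ⟨s, rfl⟩ : ∃ s, τ = Q + s := ⟨τ - Q, by ring⟩
  have hs : 0 ≤ s := by linarith
  have hE := mul_nonneg hs (PA_E h0 hs h2)
  have : (1 + (Q + s) / 3) ^ 3 * (1 - Q ^ 2) - ((1 - (Q + s) ^ 2) * (1 + Q / 3) ^ 3 +
      (1 + (Q + s) / 3) * (Q + s - Q) * (1 + 2 * (Q + s) / 3 - Q) * (1 + Q) * (1 + Q / 3) ^ 3) =
      s * (s / 3 - 5 * s ^ 2 / 27 + 2 * Q / 3 - Q * s - 4 * (Q * s ^ 2) / 9 - Q ^ 2 / 9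
      - 14 * (Q ^ 2 * s) / 9 - (Q ^ 2 * s ^ 2) / 3 - 4 * Q ^ 3 / 27 - 16 * (Q ^ 3 * s) / 27
      - 20 * (Q ^ 3 * s ^ 2) / 243 + 2 * Q ^ 4 / 27 - 19 * (Q ^ 4 * s) / 243
      - 2 * (Q ^ 4 * s ^ 2) / 243 + 10 * Q ^ 5 / 243 - (Q ^ 5 * s) / 243 + Q ^ 6 / 243) := by
    ring
  linarith

theorem pp_deriv (t q : ℝ) : HasDerivAt (pp t)
    ((1 - t ^ 4) / (1 + q ^ 2) - 27 * yo t ^ 3 * (1 - q ^ 2) / (3 + q ^ 2) ^ 3) q := by
  have h3 : (3 + q ^ 2) ≠ 0 := by positivity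
  have h1 : HasDerivAt (fun q : ℝ => 9 * yo t ^ 3 * q / (3 + q ^ 2) ^ 2)
      (27 * yo t ^ 3 * (1 - q ^ 2) / (3 + q ^ 2) ^ 3) q := by
    have hn : HasDerivAt (fun q : ℝ => 9 * yo t ^ 3 * q) (9 * yo t ^ 3) q := by
      simpa using (hasDerivAt_id q).const_mul (9 * yo t ^ 3)
    have hd0 : HasDerivAt (fun q : ℝ => 3 + q ^ 2) (2 * q) q := by
      simpa using (hasDerivAt_pow 2 q).const_add 3
    have hd : HasDerivAt (fun q : ℝ => (3 + q ^ 2) ^ 2) (2 * (3 + q ^ 2) * (2 * q)) q := by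
      simpa using hd0.fun_pow 2
    have h4 := hn.fun_div hd (pow_ne_zero 2 h3)
    refine h4.congr_deriv ?_
    field_simp
    ring
  have h2 : HasDerivAt (fun q : ℝ => (1 - t ^ 4) * (Real.arctan q - Real.arctan t))
      ((1 - t ^ 4) / (1 + q ^ 2)) q := by
    have := ((Real.hasDerivAt_arctan q).sub_const (Real.arctan t)).const_mul (1 - t ^ 4)
    refine this.congr_deriv ?_
    ring
  have h5 := ((h2.const_add (t * yo t)).fun_sub h1)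
  exact h5

theorem pp_thin {t q : ℝ} (ht : 0 < t) (h2 : t ^ 2 ≤ 0.5279) (h0 : 0 ≤ q) (h1 : q ≤ t) :
    yo t * (t ^ 2 * (1 + 2 * t ^ 2 / 3) * (t - q) - (1 + 5 * t ^ 2 / 3) * (t ^ 3 - q ^ 3) / 3 +
      (t ^ 5 - q ^ 5) / 5) ≤ pp t q := by
  have hb : 0 < yo t := by unfold yo; positivity
  have hder : ∀ x : ℝ, HasDerivAt (fun x => pp t x - yo t *
      (t ^ 2 * (1 + 2 * t ^ 2 / 3) * (t - x) - (1 + 5 * t ^ 2 / 3) * (t ^ 3 - x ^ 3) / 3 +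
        (t ^ 5 - x ^ 5) / 5))
      ((1 - t ^ 4) / (1 + x ^ 2) - 27 * yo t ^ 3 * (1 - x ^ 2) / (3 + x ^ 2) ^ 3 +
        yo t * ((t ^ 2 - x ^ 2) * (1 + 2 * t ^ 2 / 3 - x ^ 2))) x := by
    intro x
    have e1 : HasDerivAt (fun x : ℝ => t ^ 2 * (1 + 2 * t ^ 2 / 3) * (t - x))
        (-(t ^ 2 * (1 + 2 * t ^ 2 / 3))) x := by
      simpa using ((hasDerivAt_id x).const_sub t).const_mul (t ^ 2 * (1 + 2 * t ^ 2 / 3))
    have e2 : HasDerivAt (fun x : ℝ => (1 + 5 * t ^ 2 / 3) * (t ^ 3 - x ^ 3) / 3)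
        (-((1 + 5 * t ^ 2 / 3) * x ^ 2)) x := by
      have := (((hasDerivAt_pow 3 x).const_sub (t ^ 3)).const_mul (1 + 5 * t ^ 2 / 3)).div_const 3
      refine this.congr_deriv ?_
      norm_num
      ring
    have e3 : HasDerivAt (fun x : ℝ => (t ^ 5 - x ^ 5) / 5) (-(x ^ 4)) x := by
      have := ((hasDerivAt_pow 5 x).const_sub (t ^ 5)).div_const 5
      refine this.congr_deriv ?_
      norm_num
      ring
    have e4 := (pp_deriv t x).fun_sub (((e1.fun_sub e2).fun_add e3).const_mul (yo t))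
    refine e4.congr_deriv ?_
    ring
  have hanti : AntitoneOn (fun x => pp t x - yo t *
      (t ^ 2 * (1 + 2 * t ^ 2 / 3) * (t - x) - (1 + 5 * t ^ 2 / 3) * (t ^ 3 - x ^ 3) / 3 +
        (t ^ 5 - x ^ 5) / 5)) (Set.Icc 0 t) := by
    apply antitoneOn_of_deriv_nonpos (convex_Icc 0 t)
    · exact fun x _ => (hder x).continuousAt.continuousWithinAt
    · exact fun x _ => (hder x).differentiableAt.differentiableWithinAt
    · intro x hx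
      rw [interior_Icc] at hx
      rw [(hder x).deriv]
      have hx2 : x ^ 2 ≤ t ^ 2 := by
        have := hx.1
        have := hx.2
        nlinarith
      have hp := pp_poly (τ := t ^ 2) (Q := x ^ 2) (by positivity) hx2 h2
      have h1x : 0 < 1 + x ^ 2 := by positivity
      have ha : 0 < 1 + x ^ 2 / 3 := by positivity
      have hkey : ((1 - t ^ 4) / (1 + x ^ 2) - 27 * yo t ^ 3 * (1 - x ^ 2) / (3 + x ^ 2) ^ 3 +
          yo t * ((t ^ 2 - x ^ 2) * (1 + 2 * t ^ 2 / 3 - x ^ 2))) =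
          (((1 - (t ^ 2) ^ 2) * (1 + x ^ 2 / 3) ^ 3 + (1 + t ^ 2 / 3) * (t ^ 2 - x ^ 2) *
            (1 + 2 * t ^ 2 / 3 - x ^ 2) * (1 + x ^ 2) * (1 + x ^ 2 / 3) ^ 3) -
            (1 + t ^ 2 / 3) ^ 3 * (1 - (x ^ 2) ^ 2)) / ((1 + x ^ 2) * (1 + x ^ 2 / 3) ^ 3) := by
        have h3 : (3 + x ^ 2) = 3 * (1 + x ^ 2 / 3) := by ring
        rw [h3]
        unfold yo
        field_simp
        ring
      rw [hkey]
      apply div_nonpos_of_nonpos_of_nonneg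
      · linarith
      · positivity
  have h3 := hanti (Set.mem_Icc.2 ⟨h0, h1⟩) (Set.mem_Icc.2 ⟨ht.le, le_rfl⟩) h1
  have h4 : pp t t = 0 := by
    unfold pp yo
    have : (3 + t ^ 2) ≠ 0 := by positivity
    field_simp
    ring
  simp only [h4, sub_self, mul_zero, zero_div, add_zero] at h3
  linarith

end Pool.Agent.H45.SN
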