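import Pool.Agent.H45.SN.PA

set_option autoImplicit false

/-! Steklov, part A: thin sides, normalised form.

PROOF. `pp_thin` with `q = r t`; the bracket equals
`t³ (1-r)² [(1+2τ/3)(2+r)/3 - τ(2+4r+6r²+3r³)/15]`, `τ = t²` (ring). So
`1.7 pp ≥ 1.7 yo t³ (1-r)² [...]` and it remains `1.7 [...] ≥ yo² gg r`: for fixed `r ∈ [0,1]` the
difference is a concave quadratic in `τ` (coefficient `-gg r/9` of `τ²`), and it is `≥ 0` at `τ = 0`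
(`1.7(2+r)/3 ≥ gg r`) and at `τ = 0.5279` (all four coefficients of the cubic in `r` are positive:
`4.2e-5, 3.5e-5, 2.8e-5, 1.4e-5`). -/

open Finset

namespace Pool.Agent.H45.SN

theorem pp_thin_poly {τ r : ℝ} (h0 : 0 ≤ τ) (h1 : τ ≤ 0.5279) (hr0 : 0 ≤ r) (hr1 : r ≤ 1) :
    (1 + τ / 3) ^ 2 * gg r ≤
      1.7 * ((1 + 2 * τ / 3) * (2 + r) / 3 - τ * (2 + 4 * r + 6 * r ^ 2 + 3 * r ^ 3) / 15) := by
  have hr2 : 0 ≤ r ^ 2 := by positivity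
  have hr3 : 0 ≤ r ^ 3 := by positivity
  have hr2' : r ^ 2 ≤ 1 := by nlinarith
  have hr3' : r ^ 3 ≤ 1 := by nlinarith
  have hg : 0 ≤ gg r := by
    unfold gg
    norm_num
    nlinarith
  have hD0 : 0 ≤ 1.7 * ((2 + r) / 3) - gg r := by
    unfold gg
    norm_num
    nlinarith
  have hDT : 0 ≤ 1.7 * ((1 + 2 * 0.5279 / 3) * (2 + r) / 3 -
      0.5279 * (2 + 4 * r + 6 * r ^ 2 + 3 * r ^ 3) / 15) - (1 + 0.5279 / 3) ^ 2 * gg r := by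
    unfold gg
    norm_num
    nlinarith
  have hT : 0 ≤ 0.5279 - τ := by linarith
  have e1 := mul_nonneg hT hD0
  have e2 := mul_nonneg h0 hDT
  have e3 := mul_nonneg (mul_nonneg h0 hT) hg
  have key : 0.5279 * (1.7 * ((1 + 2 * τ / 3) * (2 + r) / 3 -
      τ * (2 + 4 * r + 6 * r ^ 2 + 3 * r ^ 3) / 15) - (1 + τ / 3) ^ 2 * gg r) =
      (0.5279 - τ) * (1.7 * ((2 + r) / 3) - gg r) +
      τ * (1.7 * ((1 + 2 * 0.5279 / 3) * (2 + r) / 3 -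
        0.5279 * (2 + 4 * r + 6 * r ^ 2 + 3 * r ^ 3) / 15) - (1 + 0.5279 / 3) ^ 2 * gg r) +
      0.5279 / 9 * (τ * (0.5279 - τ) * gg r) := by
    ring
  have e4 : 0 ≤ 0.5279 * (1.7 * ((1 + 2 * τ / 3) * (2 + r) / 3 -
      τ * (2 + 4 * r + 6 * r ^ 2 + 3 * r ^ 3) / 15) - (1 + τ / 3) ^ 2 * gg r) := by
    rw [key]
    have : (0 : ℝ) ≤ 0.5279 / 9 := by norm_num
    positivity
  have e5 : 0 ≤ (1.7 * ((1 + 2 * τ / 3) * (2 + r) / 3 -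
      τ * (2 + 4 * r + 6 * r ^ 2 + 3 * r ^ 3) / 15) - (1 + τ / 3) ^ 2 * gg r) :=
    nonneg_of_mul_nonneg_right e4 (by norm_num)
  linarith

theorem pp_thin' {t r : ℝ} (ht : 0 < t) (h2 : t ^ 2 ≤ 0.5279) (h0 : 0 ≤ r) (h1 : r ≤ 1) :
    (1 - r) ^ 2 * gg r * (yo t ^ 3 * t ^ 3) ≤ 1.7 * pp t (r * t) := by
  have hb : 0 < yo t := by unfold yo; positivity
  have e1 := pp_thin ht h2 (q := r * t) (by positivity) (by nlinarith)
  have e2 := pp_thin_poly (τ := t ^ 2) (r := r) (by positivity) h2 h0 h1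
  have e3 : yo t * (t ^ 2 * (1 + 2 * t ^ 2 / 3) * (t - r * t) -
      (1 + 5 * t ^ 2 / 3) * (t ^ 3 - (r * t) ^ 3) / 3 + (t ^ 5 - (r * t) ^ 5) / 5) =
      yo t * t ^ 3 * (1 - r) ^ 2 * ((1 + 2 * t ^ 2 / 3) * (2 + r) / 3 -
        t ^ 2 * (2 + 4 * r + 6 * r ^ 2 + 3 * r ^ 3) / 15) := by
    ring
  rw [e3] at e1
  have e4 : 0 ≤ yo t * t ^ 3 * (1 - r) ^ 2 := by positivity
  have e5 := mul_le_mul_of_nonneg_left e2 e4
  have e6 : (1 - r) ^ 2 * gg r * (yo t ^ 3 * t ^ 3) =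
      yo t * t ^ 3 * (1 - r) ^ 2 * ((1 + t ^ 2 / 3) ^ 2 * gg r) := by
    unfold yo
    ring
  rw [e6]
  refine e5.trans ?_
  have e7 := mul_le_mul_of_nonneg_left e1 (by norm_num : (0 : ℝ) ≤ 1.7)
  refine le_trans (le_of_eq ?_) e7
  ring

end Pool.Agent.H45.SN
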