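import Pool.Agent.H45.SN.ND

set_option autoImplicit false

/-! Steklov, part A: thin sides at `y = 0` (one variable).

PROOF of `core_x1`. Put `z = (1-r)²`, `w = z W`, `W = 0.795 - 0.72 r + 0.4 r²`.
(1) `0.7946/(1+0.5279 r)² + 0.0215 r (1+r)² ≤ W` on `[0,1]`: after multiplication by `(1+0.5279 r)²` a
polynomial inequality whose Bernstein coefficients on `[0,1]` are all positive (smallest `0.0004`).
(2) `exp(-w) ≥ 1 - w + w²/2 - w³/6` (`w ≥ 0`). (3) It remains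
`(1 - z gg)(r + 0.326 z) ≤ r (1 - w + w²/2 - w³/6)`, i.e. after division by `z`
`0 ≤ gg (r + 0.326 z) - 0.326 - r W (1 - w/2 + w²/6)`: a polynomial of degree 11 in `r`, its
Bernstein coefficients on `[0,0.5]` and on `[0.5,1]` are positive (minimum of the polynomial `0.0031` at
`r = 0.091`).
`core_k1`: `1.7 r - (1.06 + 0.16 r³)(1 - (1-r)² gg r)(1+0.176 r²)²` has positive Bernstein
coefficients on `[0,1]` (degree 12; smallest `0.0045`). Certificates: write the polynomial as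
`∑ c_k r^k (1-r)^(n-k)` with `c_k ≥ 0` (`ring`, then `positivity`), on `[l,h]` with `(r-l)^k (h-r)^(n-k)`. -/

open Finset

namespace Pool.Agent.H45.SN

private theorem xa_one {r : ℝ} (h0 : 0 ≤ r) (h1 : r ≤ 1) :
    0 ≤ ((0.795 - 0.72 * r + 0.4 * r ^ 2) - 0.0215 * r * (1 + r) ^ 2) *
      (1 + 0.5279 * r) ^ 2 - 0.7946 := by
  obtain ⟨u, hu⟩ : ∃ u, u = r - 0 := ⟨_, rfl⟩
  obtain ⟨v, hv⟩ : ∃ v, v = 1 - r := ⟨_, rfl⟩
  have hu0 : 0 ≤ u := by rw [hu]; linarith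
  have hv0 : 0 ≤ v := by rw [hv]; linarith
  have e : ((0.795 - 0.72 * r + 0.4 * r ^ 2) - 0.0215 * r * (1 + r) ^ 2) *
      (1 + 0.5279 * r) ^ 2 - 0.7946 =
      (1 / 2500) * (u ^ 0 * v ^ 5) + (99861 / 1000000) * (u ^ 1 * v ^ 4) + (3822352719 /
      20000000000) * (u ^ 2 * v ^ 3) + (25393493367 / 200000000000) * (u ^ 3 * v ^ 2) +
      (15481451819 / 100000000000) * (u ^ 4 * v ^ 1) + (11351210149 / 100000000000) * (u ^ 5 * v
      ^ 0) := by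
    rw [hu, hv]
    ring
  rw [e]
  positivity

private theorem xa_two {r : ℝ} (h0 : 0 ≤ r) (h1 : r ≤ 1 / 2) :
    0 ≤ (1.0214 + 0.3809 * r - 0.2596 * r ^ 2 - 0.1298 * r ^ 3) * (r + 0.326 * (1 - r) ^ 2) - 0.326 -
      r * (0.795 - 0.72 * r + 0.4 * r ^ 2) * (1 - (1 - r) ^ 2 * (0.795 - 0.72 * r + 0.4 * r ^ 2) / 2 +
        ((1 - r) ^ 2 * (0.795 - 0.72 * r + 0.4 * r ^ 2)) ^ 2 / 6) := by
  obtain ⟨u, hu⟩ : ∃ u, u = r - 0 := ⟨_, rfl⟩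
  obtain ⟨v, hv⟩ : ∃ v, v = 1 / 2 - r := ⟨_, rfl⟩
  have hu0 : 0 ≤ u := by rw [hu]; linarith
  have hv0 : 0 ≤ v := by rw [hv]; linarith
  have e : (1.0214 + 0.3809 * r - 0.2596 * r ^ 2 - 0.1298 * r ^ 3) * (r + 0.326 * (1 - r) ^ 2) - 0.326 -
      r * (0.795 - 0.72 * r + 0.4 * r ^ 2) * (1 - (1 - r) ^ 2 * (0.795 - 0.72 * r + 0.4 * r ^ 2) / 2 +
        ((1 - r) ^ 2 * (0.795 - 0.72 * r + 0.4 * r ^ 2)) ^ 2 / 6) =
      (1116224 / 78125) * (u ^ 0 * v ^ 11) + (5629647 / 78125) * (u ^ 1 * v ^ 10) + (2652648 /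
      15625) * (u ^ 2 * v ^ 9) + (95803427 / 156250) * (u ^ 3 * v ^ 8) + (449413401 / 156250) *
      (u ^ 4 * v ^ 7) + (10618112047 / 1250000) * (u ^ 5 * v ^ 6) + (9489699293 / 625000) * (u ^
      6 * v ^ 5) + (12884788963 / 750000) * (u ^ 7 * v ^ 4) + (11700609787 / 937500) * (u ^ 8 *
      v ^ 3) + (7084587513 / 1250000) * (u ^ 9 * v ^ 2) + (2753864087 / 1875000) * (u ^ 10 * v ^
      1) + (622910177 / 3750000) * (u ^ 11 * v ^ 0) := by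
    rw [hu, hv]
    ring
  rw [e]
  positivity

private theorem xa_three {r : ℝ} (h0 : (1 / 2 : ℝ) ≤ r) (h1 : r ≤ 1) :
    0 ≤ (1.0214 + 0.3809 * r - 0.2596 * r ^ 2 - 0.1298 * r ^ 3) * (r + 0.326 * (1 - r) ^ 2) - 0.326 -
      r * (0.795 - 0.72 * r + 0.4 * r ^ 2) * (1 - (1 - r) ^ 2 * (0.795 - 0.72 * r + 0.4 * r ^ 2) / 2 +
        ((1 - r) ^ 2 * (0.795 - 0.72 * r + 0.4 * r ^ 2)) ^ 2 / 6) := by
  obtain ⟨u, hu⟩ : ∃ u, u = r - 1 / 2 := ⟨_, rfl⟩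
  obtain ⟨v, hv⟩ : ∃ v, v = 1 - r := ⟨_, rfl⟩
  have hu0 : 0 ≤ u := by rw [hu]; linarith
  have hv0 : 0 ≤ v := by rw [hv]; linarith
  have e : (1.0214 + 0.3809 * r - 0.2596 * r ^ 2 - 0.1298 * r ^ 3) * (r + 0.326 * (1 - r) ^ 2) - 0.326 -
      r * (0.795 - 0.72 * r + 0.4 * r ^ 2) * (1 - (1 - r) ^ 2 * (0.795 - 0.72 * r + 0.4 * r ^ 2) / 2 +
        ((1 - r) ^ 2 * (0.795 - 0.72 * r + 0.4 * r ^ 2)) ^ 2 / 6) =
      (622910177 / 3750000) * (u ^ 0 * v ^ 11) + (204907393 / 93750) * (u ^ 1 * v ^ 10) +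
      (16046479333 / 1250000) * (u ^ 2 * v ^ 9) + (83307824437 / 1875000) * (u ^ 3 * v ^ 8) +
      (377673411583 / 3750000) * (u ^ 4 * v ^ 7) + (49065805451 / 312500) * (u ^ 5 * v ^ 6) +
      (25767520409 / 150000) * (u ^ 6 * v ^ 5) + (247234085957 / 1875000) * (u ^ 7 * v ^ 4) +
      (5432514798 / 78125) * (u ^ 8 * v ^ 3) + (1872012716 / 78125) * (u ^ 9 * v ^ 2) + (3028224
      / 625) * (u ^ 10 * v ^ 1) + (271232 / 625) * (u ^ 11 * v ^ 0) := by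
    rw [hu, hv]
    ring
  rw [e]
  positivity

private theorem xa_four {r : ℝ} (h0 : 0 ≤ r) (h1 : r ≤ 1) :
    0 ≤ 1.7 * r - (1.06 + 0.16 * r ^ 3) * (1 - (1 - r) ^ 2 * (1.0214 + 0.3809 * r - 0.2596 * r ^ 2 - 0.1298 * r ^ 3)) *
      (1 + 0.176 * r ^ 2) ^ 2 := by
  obtain ⟨u, hu⟩ : ∃ u, u = r - 0 := ⟨_, rfl⟩
  obtain ⟨v, hv⟩ : ∃ v, v = 1 - r := ⟨_, rfl⟩
  have hu0 : 0 ≤ u := by rw [hu]; linarith
  have hv0 : 0 ≤ v := by rw [hv]; linarith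
  have e : 1.7 * r - (1.06 + 0.16 * r ^ 3) * (1 - (1 - r) ^ 2 * (1.0214 + 0.3809 * r - 0.2596 * r ^ 2 - 0.1298 * r ^ 3)) *
      (1 + 0.176 * r ^ 2) ^ 2 =
      (5671 / 250000) * (u ^ 0 * v ^ 12) + (105297 / 500000) * (u ^ 1 * v ^ 11) + (51710923 /
      62500000) * (u ^ 2 * v ^ 10) + (58794111 / 31250000) * (u ^ 3 * v ^ 9) + (11543234639 /
      3906250000) * (u ^ 4 * v ^ 8) + (7345454409 / 1953125000) * (u ^ 5 * v ^ 7) + (8277604667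
      / 1953125000) * (u ^ 6 * v ^ 6) + (15715394717 / 3906250000) * (u ^ 7 * v ^ 5) +
      (5684477733 / 1953125000) * (u ^ 8 * v ^ 4) + (2360859927 / 1562500000) * (u ^ 9 * v ^ 3)
      + (4273021221 / 7812500000) * (u ^ 10 * v ^ 2) + (99299 / 781250) * (u ^ 11 * v ^ 1) +
      (4988 / 390625) * (u ^ 12 * v ^ 0) := by
    rw [hu, hv]
    ring
  rw [e]
  positivity

private theorem xa_exp {w : ℝ} (h0 : 0 ≤ w) (h1 : w ≤ 1) :
    1 - w + w ^ 2 / 2 - w ^ 3 / 6 ≤ Real.exp (-w) := by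
  have hw : |(-w)| ≤ 1 := by rw [abs_neg, abs_of_nonneg h0]; exact h1
  have h := Real.exp_bound hw (n := 5) (by norm_num)
  rw [abs_neg, abs_of_nonneg h0] at h
  have h2 := (abs_le.1 h).1
  simp only [Finset.sum_range_succ, Finset.sum_range_zero, Nat.factorial] at h2
  norm_num at h2
  have h3 : 0 ≤ w ^ 4 * (1 / 24 - w / 100) := by
    apply mul_nonneg (by positivity)
    linarith
  nlinarith [h2, h3]

theorem core_x1 {r : ℝ} (h0 : 0 < r) (h1 : r ≤ 1) :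
    (1 - (1 - r) ^ 2 * gg r) * (r + 0.326 * (1 - r) ^ 2) *
      Real.exp ((1 - r) ^ 2 * (0.7946 / (1 + 0.5279 * r) ^ 2 + 0.0215 * r * (1 + r) ^ 2)) ≤ r := by
  rcases le_or_gt (1 - (1 - r) ^ 2 * gg r) 0 with hA | hA
  · have h2 : (1 - (1 - r) ^ 2 * gg r) * (r + 0.326 * (1 - r) ^ 2) ≤ 0 :=
      mul_nonpos_of_nonpos_of_nonneg hA (by positivity)
    have h3 := mul_nonpos_of_nonpos_of_nonneg h2 (Real.exp_pos ((1 - r) ^ 2 *
      (0.7946 / (1 + 0.5279 * r) ^ 2 + 0.0215 * r * (1 + r) ^ 2))).le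
    linarith
  · obtain ⟨W, hW⟩ : ∃ W, W = 0.795 - 0.72 * r + 0.4 * r ^ 2 := ⟨_, rfl⟩
    have hW0 : 0 ≤ W := by rw [hW]; nlinarith [sq_nonneg (r - 0.9)]
    have hW1 : W ≤ 1 := by rw [hW]; nlinarith
    have hV : 0.7946 / (1 + 0.5279 * r) ^ 2 + 0.0215 * r * (1 + r) ^ 2 ≤ W := by
      have h2 := xa_one h0.le h1
      rw [← hW] at h2
      have h3 : (0 : ℝ) < (1 + 0.5279 * r) ^ 2 := by positivity
      have h4 : 0.7946 / (1 + 0.5279 * r) ^ 2 ≤ W - 0.0215 * r * (1 + r) ^ 2 := by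
        rw [div_le_iff₀ h3]
        linarith
      linarith
    have hz0 : 0 ≤ (1 - r) ^ 2 := sq_nonneg _
    have hz1 : (1 - r) ^ 2 ≤ 1 := by nlinarith
    have hw0 : 0 ≤ (1 - r) ^ 2 * W := mul_nonneg hz0 hW0
    have hw1 : (1 - r) ^ 2 * W ≤ 1 := mul_le_one₀ hz1 hW0 hW1
    have h2 : Real.exp ((1 - r) ^ 2 * (0.7946 / (1 + 0.5279 * r) ^ 2 + 0.0215 * r * (1 + r) ^ 2)) ≤
        Real.exp ((1 - r) ^ 2 * W) := Real.exp_le_exp.2 (mul_le_mul_of_nonneg_left hV hz0)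
    have h3 : 0 ≤ gg r * (r + 0.326 * (1 - r) ^ 2) - 0.326 -
        r * W * (1 - (1 - r) ^ 2 * W / 2 + ((1 - r) ^ 2 * W) ^ 2 / 6) := by
      rw [hW]
      unfold gg
      rcases le_total r (1 / 2) with h | h
      · exact xa_two h0.le h
      · exact xa_three h h1
    have h4 : (1 - (1 - r) ^ 2 * gg r) * (r + 0.326 * (1 - r) ^ 2) ≤
        r * (1 - (1 - r) ^ 2 * W + ((1 - r) ^ 2 * W) ^ 2 / 2 - ((1 - r) ^ 2 * W) ^ 3 / 6) := by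
      have h5 := mul_nonneg hz0 h3
      nlinarith [h5]
    have h6 := xa_exp hw0 hw1
    have h7 : (1 - (1 - r) ^ 2 * gg r) * (r + 0.326 * (1 - r) ^ 2) ≤
        r * Real.exp (-((1 - r) ^ 2 * W)) := h4.trans (mul_le_mul_of_nonneg_left h6 h0.le)
    have h8 : 0 ≤ (1 - (1 - r) ^ 2 * gg r) * (r + 0.326 * (1 - r) ^ 2) :=
      mul_nonneg hA.le (by positivity)
    calc (1 - (1 - r) ^ 2 * gg r) * (r + 0.326 * (1 - r) ^ 2) *
          Real.exp ((1 - r) ^ 2 * (0.7946 / (1 + 0.5279 * r) ^ 2 + 0.0215 * r * (1 + r) ^ 2))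
        ≤ (1 - (1 - r) ^ 2 * gg r) * (r + 0.326 * (1 - r) ^ 2) * Real.exp ((1 - r) ^ 2 * W) :=
          mul_le_mul_of_nonneg_left h2 h8
      _ ≤ r * Real.exp (-((1 - r) ^ 2 * W)) * Real.exp ((1 - r) ^ 2 * W) :=
          mul_le_mul_of_nonneg_right h7 (Real.exp_pos _).le
      _ = r := by rw [mul_assoc, ← Real.exp_add, neg_add_cancel, Real.exp_zero, mul_one]

theorem core_k1 {r : ℝ} (h0 : 0 ≤ r) (h1 : r ≤ 1) :
    (1.06 + 0.16 * r ^ 3) * (1 - (1 - r) ^ 2 * gg r) ≤ bb r := by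
  have h := xa_four h0 h1
  unfold gg bb
  rw [le_div_iff₀ (by positivity)]
  linarith

end Pool.Agent.H45.SN
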